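import Pool.Agent.TBirK.Def
import Pool.Agent.TBirJ.Adj

/-!
# The adjoint

`pstar phi (E y) = conj (phi (E y))`, so the derivative along the circle is conjugated. The rest as `JCross.pstar` in TBirJ/Adj.lean.
-/

set_option autoImplicit false

open MeasureTheory Complex Set Filter Topology Metric AddCircle
open scoped ComplexConjugate InnerProductSpace ENNReal

namespace Pool.Agent.TBirK

open Pool.Agent.TBir Pool.Agent.TBirG Pool.Agent.TBirC Pool.Agent.TBirJ
open Pool.Agent.TBirP (E qT)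

variable {phi : ℂ → ℂ} {F : Finset ℂ} {u v : ℂ → ℂ}

private theorem adk_seg {a b w : ℂ} (h : w ∈ segment ℝ (conj a) (conj b)) :
    conj w ∈ segment ℝ a b := by
  obtain ⟨r, s, hr, hs, hrs, rfl⟩ := h
  refine ⟨r, s, hr, hs, hrs, ?_⟩
  simp

private theorem adk_inj {z z' : ℂ} (hz : ‖z‖ = 1) (hz' : ‖z'‖ = 1)
    (h : pstar phi z = pstar phi z') : phi z = phi z' := by
  rw [TBirP.AdjQ.on hz, TBirP.AdjQ.on hz'] at h
  exact (starRingEnd ℂ).injective h

private theorem adk_E (x : ℝ) : ‖E x‖ = 1 := by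
  rw [E]
  exact Complex.norm_exp_ofReal_mul_I _

private theorem adk_deriv (f : ℝ → ℂ) (x : ℝ) :
    deriv (fun y => conj (f y)) x = conj (deriv f x) := by
  have h : deriv (fun y => star (f y)) x = star (deriv f x) := deriv.star
  exact h

private theorem adk_fun {t : ℂ} (ht : ‖t‖ = 1) (s : ℝ) :
    (fun y : ℝ => pstar phi (t * E (s * y))) = fun y : ℝ => conj (phi (t * E (s * y))) := by
  funext y
  have h5 : ‖t * E (s * y)‖ = 1 := by rw [norm_mul, ht, one_mul, adk_E]
  exact TBirP.AdjQ.on h5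

private theorem adk_side {t : ℂ} {s : ℝ} {a : ℂ} (ht : ‖t‖ = 1) (h : SideC phi t s a) :
    SideC (pstar phi) t s (conj a) := by
  obtain ⟨h1, ⟨C, h2⟩, d, h3, h4⟩ := h
  unfold SideC
  rw [adk_fun ht s]
  refine ⟨(Complex.continuous_conj.tendsto a).comp h1, ⟨C, ?_⟩, conj d, ?_, ?_⟩
  · filter_upwards [h2] with x hx
    rw [adk_deriv, Complex.norm_conj]
    exact hx
  · rw [Complex.norm_conj, h3]
  · refine ((Complex.continuous_conj.tendsto d).comp h4).congr fun x => ?_
    rw [Function.comp_apply, adk_deriv, Complex.norm_conj, map_div₀, Complex.conj_ofReal]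

theorem PwC.pstar (h : PwC phi F u v) :
    PwC (pstar phi) F (fun t => conj (u t)) (fun t => conj (v t)) := by
  refine ⟨h.circ, fun x hx => ?_, fun t ht => adk_side (h.circ t ht) (h.left t ht),
    fun t ht => adk_side (h.circ t ht) (h.right t ht)⟩
  obtain ⟨h1, h2, h3⟩ := h.reg x hx
  have e1 : (fun y : ℝ => TBir.pstar phi (E y)) = fun y : ℝ => conj (phi (E y)) := by
    funext y
    exact TBirP.AdjQ.on (adk_E y)
  have e2 : (deriv fun y : ℝ => conj (phi (E y))) =
      fun x => conj (deriv (fun y : ℝ => phi (E y)) x) := by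
    funext y
    exact adk_deriv _ _
  rw [e1]
  refine ⟨?_, ?_, ?_⟩
  · have h4 : DifferentiableAt ℝ (fun y : ℝ => star (phi (E y))) x := h1.star
    exact h4
  · rw [adk_deriv, Ne, map_eq_zero]
    exact h2
  · rw [e2]
    exact Complex.continuous_conj.continuousAt.comp h3

theorem CCross.pstar (h : CCross phi F u v) :
    CCross (pstar phi) F (fun t => conj (u t)) (fun t => conj (v t)) := by
  refine ⟨h.toPwC.pstar, fun t ht z hz hzF hcon => ?_, fun t ht t' ht' hne => ?_,
    fun t ht => ?_, ?_, fun z1 hz1 hF1 z2 hz2 hF2 hne heq => ?_⟩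
  · have h1 := adk_seg hcon
    rw [TBirP.AdjQ.on (mem_sphere_zero_iff_norm.1 hz), Complex.conj_conj] at h1
    exact h.sep t ht z hz hzF h1
  · rw [Set.disjoint_left]
    intro w hw hw'
    exact Set.disjoint_left.1 (h.seg t ht t' ht' hne) (adk_seg hw) (adk_seg hw')
  · filter_upwards [h.simple t ht] with z hz h1 h2 z' h3 h4 h5
    exact hz h1 h2 z' h3 h4 (adk_inj h3 h1 h5)
  · obtain ⟨D, hD, hinj⟩ := h.inj
    refine ⟨D, hD, fun z hz z' hz' h1 => hinj hz hz' ?_⟩
    exact adk_inj (mem_sphere_zero_iff_norm.1 hz.1) (mem_sphere_zero_iff_norm.1 hz'.1) h1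
  · have n1 : ‖z1‖ = 1 := mem_sphere_zero_iff_norm.1 hz1
    have n2 : ‖z2‖ = 1 := mem_sphere_zero_iff_norm.1 hz2
    obtain ⟨w, hw⟩ := h.half z1 hz1 hF1 z2 hz2 hF2 hne (adk_inj n1 n2 heq)
    refine ⟨conj w, fun z hz hzF hzq => ?_⟩
    have n3 : ‖z‖ = 1 := mem_sphere_zero_iff_norm.1 hz
    obtain ⟨h0, h1⟩ := hw z hz hzF (adk_inj n3 n1 hzq)
    refine ⟨TBirP.AdjQ.ana n3 h0, ?_⟩
    have h2 := (TBirP.pstar_loc n3 h0).2
    rw [h2, Complex.conj_conj]
    have h3 : w * (I * -conj (z * deriv phi z)) = conj (conj w * (I * (z * deriv phi z))) := by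
      rw [map_mul (starRingEnd ℂ) (conj w), map_mul (starRingEnd ℂ) I, Complex.conj_conj,
        Complex.conj_I]
      ring
    rw [h3, Complex.conj_re]
    exact h1

end Pool.Agent.TBirK
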