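import Pool.Agent.TBirK.Def
import Pool.Agent.TBirJ.Agj

/-!
# Bounded oscillation of the argument

Port of TBirJ/Agj.lean: `locJ` is `h.cone`.
-/

set_option autoImplicit false

open MeasureTheory Complex Set Filter Topology Metric AddCircle
open scoped ComplexConjugate InnerProductSpace ENNReal

namespace Pool.Agent.TBirK

open Pool.Agent.TBir Pool.Agent.TBirG Pool.Agent.TBirC Pool.Agent.TBirJ
open Pool.Agent.TBirP (E qT)

variable {phi : ℂ → ℂ} {F : Finset ℂ} {u v : ℂ → ℂ}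

private theorem norm_E (x : ℝ) : ‖E x‖ = 1 := by
  unfold Pool.Agent.TBirP.E
  exact Complex.norm_exp_ofReal_mul_I x

private theorem E_mem (x : ℝ) : E x ∈ sphere (0 : ℂ) 1 := by
  rw [mem_sphere_zero_iff_norm]
  exact norm_E x

private theorem E_add (x y : ℝ) : E (x + y) = E x * E y := by
  unfold Pool.Agent.TBirP.E
  rw [← Complex.exp_add]
  push_cast
  rw [add_mul]

private theorem E_cont : Continuous E := by
  unfold Pool.Agent.TBirP.E
  fun_prop

private theorem ev_notMem (F : Finset ℂ) (x : ℝ) :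
    ∃ δ > 0, ∀ y : ℝ, y ≠ x → |y - x| < δ → E y ∉ F := by
  have h1 : ∀ᶠ y in 𝓝[≠] x, ∀ t ∈ F, E y ≠ t := by
    rw [Finset.eventually_all]
    intro t _
    have hd : HasDerivAt E (exp (x * I) * (1 * I)) x :=
      (((hasDerivAt_id (x : ℂ)).mul_const I).cexp).comp_ofReal
    refine hd.eventually_ne ?_
    simp
  rw [eventually_nhdsWithin_iff, Metric.eventually_nhds_iff] at h1
  obtain ⟨δ, hδ, h2⟩ := h1
  refine ⟨δ, hδ, fun y hy hyd hF => ?_⟩
  exact h2 (by rwa [Real.dist_eq]) hy (E y) hF rfl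

private theorem locJ (h : Cv phi F u v) (x : ℝ) {s : ℝ} (hs : s = 1 ∨ s = -1) :
    ∃ δ > 0, ∃ w : ℂ, ∀ y z : ℝ, 0 < y → y ≤ z → z ≤ δ →
      ‖phi (E (x + s * z)) - phi (E (x + s * y))‖ ≤
        ((phi (E (x + s * z)) - phi (E (x + s * y))) * conj w).re := by
  obtain ⟨δ, hδ, w, -, h1⟩ := h.cone x s hs
  refine ⟨δ, hδ, w, fun y z hy hyz hz => ?_⟩
  rcases hyz.eq_or_lt with h2 | h2
  · subst h2
    simp
  · exact (h1 y z hy h2 hz).2

private theorem cone_rightJ (h : Cv phi F u v) (x : ℝ) :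
    ∃ δ > 0, ∀ y z, x < y → z ≤ x + δ → Pool.Agent.TBirP.Cone phi y z := by
  obtain ⟨δ, hδ, w, h1⟩ := locJ h x (Or.inl rfl)
  refine ⟨δ, hδ, fun y z hy hz => ⟨w, fun a ha b hb hab => ?_⟩⟩
  have h2 := h1 (a - x) (b - x) (by linarith [ha.1]) (by linarith) (by linarith [hb.2])
  rw [show x + 1 * (a - x) = a by ring, show x + 1 * (b - x) = b by ring] at h2
  exact h2

private theorem cone_leftJ (h : Cv phi F u v) (x : ℝ) :
    ∃ δ > 0, ∀ y z, x - δ ≤ y → z < x → Pool.Agent.TBirP.Cone phi y z := by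
  obtain ⟨δ, hδ, w, h1⟩ := locJ h x (Or.inr rfl)
  refine ⟨δ, hδ, fun y z hy hz => ⟨-w, fun a ha b hb hab => ?_⟩⟩
  have h2 := h1 (x - b) (x - a) (by linarith [hb.2]) (by linarith) (by linarith [ha.1])
  rw [show x + -1 * (x - a) = a by ring, show x + -1 * (x - b) = b by ring] at h2
  rw [map_neg, mul_neg, ← neg_mul, neg_sub, norm_sub_rev]
  exact h2

/-- a logarithm of `phi (E x) - l` on the line without the points over `F` -/
private structure HypJ (phi : ℂ → ℂ) (F : Finset ℂ) (l : ℂ) (G : ℝ → ℂ) : Prop where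
  cont : ∀ x, E x ∉ F → ContinuousAt G x
  eq : ∀ x, E x ∉ F → phi (E x) - l = exp (G x)
  jump : ∀ x, E x ∈ F → ∃ a b : ℂ, Tendsto (fun y : ℝ => G (x - y)) (𝓝[>] 0) (𝓝 a) ∧
    Tendsto (fun y : ℝ => G (x + y)) (𝓝[>] 0) (𝓝 b) ∧ |(b - a).im| < Real.pi

private theorem abs_tendsto {ι : Type*} {l : Filter ι} [l.NeBot] {f : ι → ℂ} {a c : ℂ} {A : ℝ}
    (h : Tendsto f l (𝓝 a)) (hb : ∀ᶠ i in l, |(f i).im - c.im| ≤ A) : |a.im - c.im| ≤ A := by
  have h1 : Tendsto (fun i => |(f i).im - c.im|) l (𝓝 |a.im - c.im|) :=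
    ((Complex.continuous_im.continuousAt.tendsto.comp h).sub_const _).abs
  exact le_of_tendsto h1 hb

private theorem bd_right (h : Cv phi F u v) (x : ℝ) :
    ∃ δ > 0, ∀ (l : ℂ) (G : ℝ → ℂ), HypJ phi F l G → ∀ y ∈ Icc x (x + δ), ∀ z ∈ Icc x (x + δ),
      E y ∉ F → E z ∉ F → |(G y).im - (G z).im| ≤ 2 * Real.pi := by
  obtain ⟨δ₁, hδ₁, hc⟩ := cone_rightJ h x
  obtain ⟨δ₂, hδ₂, hF⟩ := ev_notMem F x
  have hpi := Real.pi_pos
  refine ⟨min δ₁ (δ₂ / 2), lt_min hδ₁ (by positivity), fun l G hG => ?_⟩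
  have m1 := min_le_left δ₁ (δ₂ / 2)
  have m2 := min_le_right δ₁ (δ₂ / 2)
  have hnot : ∀ w, x < w → w ≤ x + min δ₁ (δ₂ / 2) → E w ∉ F := by
    intro w h1 h2
    refine hF w h1.ne' ?_
    rw [abs_of_pos (by linarith)]
    linarith
  have main : ∀ y z, x < y → y ≤ z → z ≤ x + min δ₁ (δ₂ / 2) →
      |(G y).im - (G z).im| ≤ 2 * Real.pi := by
    intro y z h1 h2 h3
    refine (hc y z h1 (by linarith)).bd l G ?_ ?_ y ⟨le_rfl, h2⟩ z ⟨h2, le_rfl⟩
    · intro w hw
      exact (hG.cont w (hnot w (by linarith [hw.1]) (by linarith [hw.2]))).continuousWithinAt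
    · intro w hw
      exact hG.eq w (hnot w (by linarith [hw.1]) (by linarith [hw.2]))
  have main2 : ∀ y ∈ Icc x (x + min δ₁ (δ₂ / 2)), ∀ z ∈ Icc x (x + min δ₁ (δ₂ / 2)),
      E y ∉ F → y ≤ z → |(G y).im - (G z).im| ≤ 2 * Real.pi := by
    intro y hy z hz hyF hyz
    rcases hy.1.eq_or_lt with h1 | h1
    · subst h1
      rcases hyz.eq_or_lt with h2 | h2
      · subst h2
        rw [sub_self, abs_zero]
        positivity
      · refine abs_tendsto (l := 𝓝[>] x) (f := G)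
          ((hG.cont x hyF).tendsto.mono_left nhdsWithin_le_nhds) ?_
        filter_upwards [Ioo_mem_nhdsGT h2] with w hw
        exact main w z hw.1 hw.2.le hz.2
    · exact main y z h1 hyz hz.2
  intro y hy z hz hyF hzF
  rcases le_total y z with h1 | h1
  · exact main2 y hy z hz hyF h1
  · rw [abs_sub_comm]
    exact main2 z hz y hy hzF h1

private theorem bd_left (h : Cv phi F u v) (x : ℝ) :
    ∃ δ > 0, ∀ (l : ℂ) (G : ℝ → ℂ), HypJ phi F l G → ∀ y ∈ Icc (x - δ) x, ∀ z ∈ Icc (x - δ) x,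
      E y ∉ F → E z ∉ F → |(G y).im - (G z).im| ≤ 2 * Real.pi := by
  obtain ⟨δ₁, hδ₁, hc⟩ := cone_leftJ h x
  obtain ⟨δ₂, hδ₂, hF⟩ := ev_notMem F x
  have hpi := Real.pi_pos
  refine ⟨min δ₁ (δ₂ / 2), lt_min hδ₁ (by positivity), fun l G hG => ?_⟩
  have m1 := min_le_left δ₁ (δ₂ / 2)
  have m2 := min_le_right δ₁ (δ₂ / 2)
  have hnot : ∀ w, w < x → x - min δ₁ (δ₂ / 2) ≤ w → E w ∉ F := by
    intro w h1 h2
    refine hF w h1.ne ?_
    rw [abs_of_neg (by linarith)]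
    linarith
  have main : ∀ y z, x - min δ₁ (δ₂ / 2) ≤ y → y ≤ z → z < x →
      |(G z).im - (G y).im| ≤ 2 * Real.pi := by
    intro y z h1 h2 h3
    refine (hc y z (by linarith) h3).bd l G ?_ ?_ z ⟨h2, le_rfl⟩ y ⟨le_rfl, h2⟩
    · intro w hw
      exact (hG.cont w (hnot w (by linarith [hw.2]) (by linarith [hw.1]))).continuousWithinAt
    · intro w hw
      exact hG.eq w (hnot w (by linarith [hw.2]) (by linarith [hw.1]))
  have main2 : ∀ y ∈ Icc (x - min δ₁ (δ₂ / 2)) x, ∀ z ∈ Icc (x - min δ₁ (δ₂ / 2)) x,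
      E z ∉ F → y ≤ z → |(G z).im - (G y).im| ≤ 2 * Real.pi := by
    intro y hy z hz hzF hyz
    rcases hz.2.eq_or_lt with h1 | h1
    · subst h1
      rcases hyz.eq_or_lt with h2 | h2
      · subst h2
        rw [sub_self, abs_zero]
        positivity
      · refine abs_tendsto (l := 𝓝[<] z) (f := G)
          ((hG.cont z hzF).tendsto.mono_left nhdsWithin_le_nhds) ?_
        filter_upwards [Ioo_mem_nhdsLT h2] with w hw
        exact main y w hy.1 hw.1.le hw.2
    · exact main y z hy.1 hyz h1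
  intro y hy z hz hyF hzF
  rcases le_total y z with h1 | h1
  · rw [abs_sub_comm]
    exact main2 y hy z hz hzF h1
  · exact main2 z hz y hy hyF h1

/-- the relation for `interval_ind` -/
private def RJ (phi : ℂ → ℂ) (F : Finset ℂ) (a b : ℝ) : Prop :=
  ∃ A : ℝ, 0 ≤ A ∧ ∀ (l : ℂ) (G : ℝ → ℂ), HypJ phi F l G → ∀ y ∈ Icc a b, ∀ z ∈ Icc a b,
    E y ∉ F → E z ∉ F → |(G y).im - (G z).im| ≤ A

private theorem RJ_trans {a b c : ℝ} (hab : a ≤ b) (hbc : b ≤ c) (h1 : RJ phi F a b)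
    (h2 : RJ phi F b c) : RJ phi F a c := by
  obtain ⟨A, hA, h1⟩ := h1
  obtain ⟨B, hB, h2⟩ := h2
  have hpi := Real.pi_pos
  refine ⟨A + Real.pi + B, by positivity, fun l G hG => ?_⟩
  have k1 := h1 l G hG
  have k2 := h2 l G hG
  have main : ∀ y ∈ Icc a c, ∀ z ∈ Icc a c, E y ∉ F → E z ∉ F → y ≤ z →
      |(G y).im - (G z).im| ≤ A + Real.pi + B := by
    intro y hy z hz hyF hzF hyz
    rcases le_total z b with h3 | h3
    · have := k1 y ⟨hy.1, hyz.trans h3⟩ z ⟨hz.1, h3⟩ hyF hzF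
      linarith
    rcases le_total b y with h4 | h4
    · have := k2 y ⟨h4, hy.2⟩ z ⟨h3, hz.2⟩ hyF hzF
      linarith
    by_cases hbF : E b ∈ F
    · have hyb : y < b := lt_of_le_of_ne h4 fun h => hyF (h ▸ hbF)
      have hbz : b < z := lt_of_le_of_ne h3 fun h => hzF (h ▸ hbF)
      obtain ⟨α, β, hα, hβ, hj⟩ := hG.jump b hbF
      obtain ⟨δ, hδ, hF⟩ := ev_notMem F b
      have e1 : |α.im - (G y).im| ≤ A := by
        refine abs_tendsto hα ?_
        filter_upwards [Ioo_mem_nhdsGT (lt_min hδ (sub_pos.2 hyb))] with w hw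
        have m1 := hw.2.trans_le (min_le_left δ (b - y))
        have m2 := hw.2.trans_le (min_le_right δ (b - y))
        have hw0 := hw.1
        refine k1 (b - w) ⟨by linarith [hy.1], by linarith⟩ y ⟨hy.1, h4⟩ ?_ hyF
        refine hF _ (by linarith) ?_
        rw [show b - w - b = -w by ring, abs_neg, abs_of_pos hw0]
        exact m1
      have e2 : |β.im - (G z).im| ≤ B := by
        refine abs_tendsto hβ ?_
        filter_upwards [Ioo_mem_nhdsGT (lt_min hδ (sub_pos.2 hbz))] with w hw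
        have m1 := hw.2.trans_le (min_le_left δ (z - b))
        have m2 := hw.2.trans_le (min_le_right δ (z - b))
        have hw0 := hw.1
        refine k2 (b + w) ⟨by linarith, by linarith [hz.2]⟩ z ⟨h3, hz.2⟩ ?_ hzF
        refine hF _ (by linarith) ?_
        rw [show b + w - b = w by ring, abs_of_pos hw0]
        exact m1
      rw [Complex.sub_im] at hj
      rw [abs_le] at e1 e2 ⊢
      rw [abs_lt] at hj
      constructor <;> linarith [e1.1, e1.2, e2.1, e2.2, hj.1, hj.2]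
    · have e1 := k1 y ⟨hy.1, h4⟩ b ⟨hab, le_rfl⟩ hyF hbF
      have e2 := k2 b ⟨le_rfl, hbc⟩ z ⟨h3, hz.2⟩ hbF hzF
      have e3 := abs_sub_le (G y).im (G b).im (G z).im
      linarith
  intro y hy z hz hyF hzF
  rcases le_total y z with h3 | h3
  · exact main y hy z hz hyF hzF h3
  · rw [abs_sub_comm]
    exact main z hz y hy hzF hyF h3

private theorem RJ_all (h : Cv phi F u v) (a b : ℝ) (hab : a ≤ b) : RJ phi F a b := by
  have hpi := Real.pi_pos
  refine Pool.Agent.TBirP.interval_ind (R := RJ phi F) (fun a b c hab hbc => RJ_trans hab hbc)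
    ?_ ?_ a b hab
  · intro x
    obtain ⟨δ, hδ, h1⟩ := bd_right h x
    refine ⟨δ, hδ, fun y hy hy2 => ⟨2 * Real.pi, by positivity, fun l G hG a ha b hb => ?_⟩⟩
    exact h1 l G hG a ⟨ha.1, ha.2.trans hy2⟩ b ⟨hb.1, hb.2.trans hy2⟩
  · intro x
    obtain ⟨δ, hδ, h1⟩ := bd_left h x
    refine ⟨δ, hδ, fun y hy hy2 => ⟨2 * Real.pi, by positivity, fun l G hG a ha b hb => ?_⟩⟩
    exact h1 l G hG a ⟨hy.trans ha.1, ha.2⟩ b ⟨hy.trans hb.1, hb.2⟩

theorem angK (h : Cv phi F u v) : ∃ A : ℝ, ∀ (l : ℂ) (n : ℤ) (g : ℂ → ℂ),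
    ContinuousOn g (sphere 0 1 \ F) →
    (∀ t ∈ F, ∃ a b : ℂ, Tendsto (fun x : ℝ => g (t * E (-x))) (𝓝[>] 0) (𝓝 a) ∧
      Tendsto (fun x : ℝ => g (t * E x)) (𝓝[>] 0) (𝓝 b) ∧ |(b - a).im| < Real.pi) →
    (∀ z ∈ sphere (0 : ℂ) 1, z ∉ F → phi z - l = z ^ n * exp (g z)) →
    |(n : ℝ)| ≤ A ∧ ∀ z ∈ sphere (0 : ℂ) 1, z ∉ F → ∀ z' ∈ sphere (0 : ℂ) 1, z' ∉ F →
      |(g z).im - (g z').im| ≤ A := by
  have hpi := Real.pi_pos
  obtain ⟨A, hA, hbd⟩ := RJ_all h (-Real.pi) (3 * Real.pi) (by linarith)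
  refine ⟨2 * A, fun l n g hg hj hgl => ?_⟩
  set G : ℝ → ℂ := fun x => (n : ℂ) * ((x : ℂ) * I) + g (E x) with hGdef
  have hlin : Continuous fun x : ℝ => (n : ℂ) * ((x : ℂ) * I) :=
    continuous_const.mul (Complex.continuous_ofReal.mul continuous_const)
  have hopen : IsOpen {x : ℝ | E x ∉ F} := by
    have h1 : IsClosed ((F : Set ℂ)) := F.finite_toSet.isClosed
    have h2 : IsOpen (E ⁻¹' (F : Set ℂ)ᶜ) := h1.isOpen_compl.preimage E_cont
    exact h2
  have hG : HypJ phi F l G := by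
    refine ⟨fun x hx => ?_, fun x hx => ?_, fun x hx => ?_⟩
    · have h1 : ContinuousOn (fun x : ℝ => g (E x)) {x : ℝ | E x ∉ F} :=
        hg.comp E_cont.continuousOn fun y hy => ⟨E_mem y, hy⟩
      exact hlin.continuousAt.add (h1.continuousAt (hopen.mem_nhds hx))
    · rw [hgl _ (E_mem x) hx]
      change E x ^ n * exp (g (E x)) = exp ((n : ℂ) * ((x : ℂ) * I) + g (E x))
      rw [Complex.exp_add, Complex.exp_int_mul]
      rfl
    · obtain ⟨a, b, ha, hb, hab⟩ := hj _ hx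
      refine ⟨(n : ℂ) * ((x : ℂ) * I) + a, (n : ℂ) * ((x : ℂ) * I) + b, ?_, ?_, ?_⟩
      · have h1 : Tendsto (fun y : ℝ => (n : ℂ) * (((x - y : ℝ) : ℂ) * I)) (𝓝[>] 0)
            (𝓝 ((n : ℂ) * ((x : ℂ) * I))) := by
          have h2 : Tendsto (fun y : ℝ => (n : ℂ) * (((x - y : ℝ) : ℂ) * I)) (𝓝 0)
              (𝓝 ((n : ℂ) * (((x - 0 : ℝ) : ℂ) * I))) :=
            (hlin.comp (continuous_const.sub continuous_id)).tendsto 0
          rw [sub_zero] at h2
          exact h2.mono_left nhdsWithin_le_nhds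
        refine (h1.add ha).congr fun y => ?_
        simp only [hGdef]
        rw [sub_eq_add_neg x y, E_add]
      · have h1 : Tendsto (fun y : ℝ => (n : ℂ) * (((x + y : ℝ) : ℂ) * I)) (𝓝[>] 0)
            (𝓝 ((n : ℂ) * ((x : ℂ) * I))) := by
          have h2 : Tendsto (fun y : ℝ => (n : ℂ) * (((x + y : ℝ) : ℂ) * I)) (𝓝 0)
              (𝓝 ((n : ℂ) * (((x + 0 : ℝ) : ℂ) * I))) :=
            (hlin.comp (continuous_const.add continuous_id)).tendsto 0
          rw [add_zero] at h2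
          exact h2.mono_left nhdsWithin_le_nhds
        refine (h1.add hb).congr fun y => ?_
        simp only [hGdef]
        rw [E_add]
      · rw [add_sub_add_left_eq_sub]
        exact hab
  have h1 := hbd l G hG
  have him : ∀ x : ℝ, (G x).im = n * x + (g (E x)).im := by
    intro x
    simp [hGdef]
  simp only [him] at h1
  -- a point outside of `F`
  obtain ⟨x0, hx0, hx0F⟩ : ∃ x0 ∈ Icc (-Real.pi) Real.pi, E x0 ∉ F := by
    obtain ⟨δ, hδ, hF⟩ := ev_notMem F 0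
    have m1 := min_le_left (δ / 2) Real.pi
    have m2 := min_le_right (δ / 2) Real.pi
    have m3 : 0 < min (δ / 2) Real.pi := lt_min (by positivity) hpi
    refine ⟨min (δ / 2) Real.pi, ⟨by linarith, m2⟩, hF _ m3.ne' ?_⟩
    rw [sub_zero, abs_of_pos m3]
    linarith
  have hE2 : E (x0 + 2 * Real.pi) = E x0 := by
    unfold Pool.Agent.TBirP.E
    push_cast
    rw [add_mul, Complex.exp_add, Complex.exp_two_pi_mul_I, mul_one]
  have h2 := h1 (x0 + 2 * Real.pi) ⟨by linarith [hx0.1], by linarith [hx0.2]⟩ x0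
    ⟨hx0.1, by linarith [hx0.2]⟩ (by rw [hE2]; exact hx0F) hx0F
  rw [hE2] at h2
  have h3 : (n : ℝ) * (x0 + 2 * Real.pi) + (g (E x0)).im - (n * x0 + (g (E x0)).im) =
      2 * Real.pi * n := by ring
  rw [h3, abs_mul, abs_of_pos (by positivity : (0 : ℝ) < 2 * Real.pi)] at h2
  have hn0 : 0 ≤ |(n : ℝ)| := abs_nonneg _
  have hpi3 : 3 < Real.pi := Real.pi_gt_three
  constructor
  · nlinarith
  · intro z hz hzF z' hz' hzF'
    have harg : ∀ w ∈ sphere (0 : ℂ) 1, E (arg w) = w := by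
      intro w hw
      have h4 := Complex.norm_mul_exp_arg_mul_I w
      rw [mem_sphere_zero_iff_norm.mp hw, Complex.ofReal_one, one_mul] at h4
      exact h4
    have hI : ∀ w : ℂ, arg w ∈ Icc (-Real.pi) (3 * Real.pi) := fun w =>
      ⟨(Complex.neg_pi_lt_arg w).le, by linarith [Complex.arg_le_pi w]⟩
    have h5 := h1 (arg z) (hI z) (arg z') (hI z') (by rw [harg z hz]; exact hzF)
      (by rw [harg z' hz']; exact hzF')
    rw [harg z hz, harg z' hz'] at h5
    have h6 : |(n : ℝ) * (arg z - arg z')| ≤ A := by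
      rw [abs_mul]
      have h7 : |arg z - arg z'| ≤ 2 * Real.pi := by
        rw [abs_le]
        have a1 := Complex.neg_pi_lt_arg z
        have a2 := Complex.arg_le_pi z
        have a3 := Complex.neg_pi_lt_arg z'
        have a4 := Complex.arg_le_pi z'
        constructor <;> linarith
      calc |(n : ℝ)| * |arg z - arg z'| ≤ |(n : ℝ)| * (2 * Real.pi) :=
            mul_le_mul_of_nonneg_left h7 hn0
        _ ≤ A := by linarith
    have h8 : (g z).im - (g z').im =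
        (n * arg z + (g z).im - (n * arg z' + (g z').im)) - n * (arg z - arg z') := by ring
    rw [h8]
    have h9 := abs_sub (n * arg z + (g z).im - (n * arg z' + (g z').im)) ((n : ℝ) * (arg z - arg z'))
    linarith

end Pool.Agent.TBirK
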