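import Pool.Agent.TBirK.Def
import Pool.Agent.TBirJ.Mnj
import Pool.Agent.TBirJ.Loj
import Pool.Agent.TBirJ.Cej
import Pool.Agent.TBirJ.Ccj
import Pool.Agent.TBirJ.Inj

/-!
# The jumps are constant

`const_ofK`, as `const_of` in TBirJ/Mnj.lean: let `V k = {z | ∃ ρ > 0, ∀ z1 ∈ ball z ρ, z1 ≠ z → ‖z1‖ = 1 → ∀ c', Jmp phi K P (phi z1) c' → c' = k}`. Every `z` of the circle is in some `V k`: second alternative of `D.link`: `c` from `Sides.jmp`, `jmp_const` on `S`, and `Jmp.near` at `a` and at `b`; first alternative: the points near `z` are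
simple (`Sm`), their colours are equal to one `k` (`exists_colJ`, `col_constJ`; inner numbers `≥ 0` by `sm_sides`, `D.nn`), `Jmp.of_sm`, `Jmp.near` (`self_of_nhds`). Near every point there is `z1` (`D.sim`) with `LinkOn phi K z1 {phi z1} ..`, so `Jmp phi K P (phi z1) c'` holds for some `c'`: so the sets `V k` are disjoint on the circle. Connectedness
of the circle (`V k` and the union of the `V k'`, `k' ≠ k`, are open): one `k` for all `z`. If `LinkOn phi K t S a b`: the constant on `S` is `k` (as in `const_of`).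
-/

set_option autoImplicit false

open MeasureTheory Complex Set Filter Topology Metric AddCircle
open scoped ComplexConjugate InnerProductSpace ENNReal

namespace Pool.Agent.TBirK

open Pool.Agent.TBir Pool.Agent.TBirG Pool.Agent.TBirC Pool.Agent.TBirJ
open Pool.Agent.TBirP (E qT)

variable {phi : ℂ → ℂ} {K : Set ℂ} {t : ℂ}

/-- The jumps are constant near the point `t` of the circle. -/
private def LcK (phi : ℂ → ℂ) (K : Set ℂ) (t : ℂ) : Prop :=
  ∀ P : Op, P * P = P → P * Tp phi = Tp phi * P → ∃ k : ℂ, ∀ᶠ z in 𝓝[≠] t, ‖z‖ = 1 →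
    ∀ c', Jmp phi K P (phi z) c' → c' = k

/-- inner numbers of simple points are nonnegative -/
private theorem cok_nonneg (D : Dk phi K) {z : ℂ} {x : ℤ} (h : Sm phi z x) : 0 ≤ x := by
  obtain ⟨A, B, -, -, -, hB, -, hclB, -⟩ := sm_sides D.hb D.off h
  obtain ⟨l, hl⟩ : B.Nonempty := closure_nonempty_iff.1 ⟨_, hclB⟩
  exact D.nn l x (hB l hl)

private theorem cok_link2 (D : Dk phi K) {S : Set ℂ} {a b : ℂ} (h : LinkOn phi K t S a b) : LcK phi K t := by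
  intro P hP2 hP
  obtain ⟨hS, haS, hbS, hsd, hlim⟩ := h
  obtain ⟨c, hc⟩ := jmp_const hP hS fun q hq => by
    obtain ⟨m, hm, hs⟩ := hsd q hq
    obtain ⟨k, rfl⟩ := Int.eq_ofNat_of_zero_le hm
    exact Sides.jmp D.hb D.closed D.off D.dense hP2 hP hs
  obtain ⟨e1, he1, h1⟩ := Metric.eventually_nhds_iff_ball.1 (Jmp.near hP (hc a haS))
  obtain ⟨e2, he2, h2⟩ := Metric.eventually_nhds_iff_ball.1 (Jmp.near hP (hc b hbS))
  obtain ⟨s, hs, h3⟩ := hlim (min e1 e2) (lt_min he1 he2)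
  refine ⟨c, ?_⟩
  rw [eventually_nhdsWithin_iff]
  filter_upwards [ball_mem_nhds t hs] with z1 hz1 hne hn1 c' hc'
  rcases h3 z1 hz1 hn1 hne with h5 | h5
  · exact h1 _ (mem_ball.2 (h5.trans_le (min_le_left _ _))) c' hc'
  · exact h2 _ (mem_ball.2 (h5.trans_le (min_le_right _ _))) c' hc'

private theorem cok_iq (D : Dk phi K) (ht : ‖t‖ = 1) (ha : AnalyticAt ℂ phi t) {x : ℤ} (hx : 0 ≤ x)
    (hI : Iq phi (phi t) x) (hn : ∀ᶠ z in 𝓝[≠] t, ‖z‖ = 1 → ∃ x, Sm phi z x) : LcK phi K t := by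
  intro P hP2 hP
  obtain ⟨s, hs, h1⟩ := col_constJ D.hb ht ha hx hI P
  have hcol : ∀ z y, Sm phi z y → ∃ c : ℂ, ColJ phi P z c ∧ Jmp phi K P (phi z) c := by
    intro z y hz
    obtain ⟨c, -, hc⟩ := exists_colJ D.hb hz (cok_nonneg D hz) hP2 hP
    obtain ⟨m, rfl⟩ := Int.eq_ofNat_of_zero_le (cok_nonneg D hz)
    exact ⟨c, hc, Jmp.of_sm D.hb D.closed D.off D.dense hP2 hP hz hc⟩
  rw [eventually_nhdsWithin_iff] at hn
  by_cases hex : ∃ z2 ∈ ball t s, ∃ y, Sm phi z2 y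
  · obtain ⟨z2, hz2, y2, s2⟩ := hex
    obtain ⟨k, hk, -⟩ := hcol z2 y2 s2
    refine ⟨k, ?_⟩
    rw [eventually_nhdsWithin_iff]
    filter_upwards [hn, ball_mem_nhds t hs] with z1 hz1 hz1s hne hn1 c' hc'
    obtain ⟨y1, s1⟩ := hz1 hne hn1
    obtain ⟨c1, hc1, hj⟩ := hcol z1 y1 s1
    rw [(Jmp.near hP hj).self_of_nhds c' hc']
    exact h1 z1 hz1s z2 hz2 y1 y2 s1 s2 _ _ hc1 hk
  · refine ⟨0, ?_⟩
    rw [eventually_nhdsWithin_iff]
    filter_upwards [hn, ball_mem_nhds t hs] with z1 hz1 hz1s hne hn1 c' hc'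
    exact absurd ⟨z1, hz1s, hz1 hne hn1⟩ hex


private theorem cok_lc (D : Ck phi K) {t : ℂ} (ht : ‖t‖ = 1) : LcK phi K t := by
  rcases D.link t ht with ⟨ha, ⟨x, hx, hI⟩, hn⟩ | ⟨S, a, b, hL⟩
  · exact cok_iq D.toDk ht ha hx hI hn
  · exact cok_link2 D.toDk hL

/-- Points of the circle outside a finite set. -/
private theorem cok_pt {E : Set ℂ} (hE : E.Finite) {z0 : ℂ} (hz0 : ‖z0‖ = 1) {eps : ℝ}
    (heps : 0 < eps) : ∃ z ∈ ball z0 eps, ‖z‖ = 1 ∧ z ∉ E := by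
  by_contra hcon
  push Not at hcon
  have h1 : sphere (0 : ℂ) 1 ∩ ball z0 eps ⊆ E := fun z hz => hcon z hz.2 (by simpa using hz.1)
  have h2 := hE.subset h1
  have hc : Continuous fun t : ℝ => z0 * Complex.exp (t * I) := by fun_prop
  have h3 : ∀ᶠ t : ℝ in 𝓝 0, z0 * Complex.exp (t * I) ∈ ball z0 eps := by
    refine hc.continuousAt.eventually (isOpen_ball.mem_nhds ?_)
    simp [heps]
  obtain ⟨δ, hδ, h4⟩ := Metric.eventually_nhds_iff_ball.1 h3
  have h5 : (fun t : ℝ => z0 * Complex.exp (t * I)) '' (Ioo 0 (min δ 1)) ⊆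
      sphere (0 : ℂ) 1 ∩ ball z0 eps := by
    rintro _ ⟨t, ht, rfl⟩
    refine ⟨?_, h4 t ?_⟩
    · simp [hz0, Complex.norm_exp_ofReal_mul_I]
    · rw [mem_ball, dist_zero_right, Real.norm_eq_abs, abs_of_pos ht.1]
      exact ht.2.trans_le (min_le_left _ _)
  have h6 : InjOn (fun t : ℝ => z0 * Complex.exp (t * I)) (Ioo 0 (min δ 1)) := by
    intro a ha b hb hab
    have hz : z0 ≠ 0 := by
      rintro rfl
      simp at hz0
    have h7 := mul_left_cancel₀ hz hab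
    rw [Complex.exp_eq_exp_iff_exists_int] at h7
    obtain ⟨n, hn⟩ := h7
    have h8 : (a : ℂ) = b + n * (2 * Real.pi) := by
      have hI := Complex.I_ne_zero
      apply mul_right_cancel₀ hI
      rw [hn]
      ring
    have h9 : a = b + n * (2 * Real.pi) := by exact_mod_cast h8
    have ha1 : a < 1 := ha.2.trans_le (min_le_right _ _)
    have hb1 : b < 1 := hb.2.trans_le (min_le_right _ _)
    have ha0 : 0 < a := ha.1
    have hb0 : 0 < b := hb.1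
    have hpi := Real.pi_gt_three
    have h10 : n = 0 := by
      by_contra hn0
      rcases lt_or_gt_of_ne hn0 with h | h
      · have : (n : ℝ) ≤ -1 := by exact_mod_cast (show n ≤ -1 by omega)
        nlinarith
      · have : (1 : ℝ) ≤ n := by exact_mod_cast (show 1 ≤ n by omega)
        nlinarith
    rw [h9, h10]
    simp
  exact (((Set.Ioo_infinite (lt_min hδ one_pos)).image h6).mono h5) h2


/-- The jumps on a linked set. -/
private theorem cok_link (D : Ck phi K) {P : Op} (hP2 : P * P = P) (hP : P * Tp phi = Tp phi * P)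
    {t : ℂ} {S : Set ℂ} {a b : ℂ} (hL : LinkOn phi K t S a b) :
    ∃ c, (∀ q ∈ S, Jmp phi K P q c) ∧ ∃ s > 0, ∀ z1 ∈ ball t s, z1 ≠ t → ‖z1‖ = 1 →
      ∀ c', Jmp phi K P (phi z1) c' → c' = c := by
  obtain ⟨hS, haS, hbS, hsd, hlim⟩ := hL
  obtain ⟨c, hc⟩ := jmp_const hP hS fun q hq => by
    obtain ⟨m, hm, hs⟩ := hsd q hq
    obtain ⟨k, rfl⟩ := Int.eq_ofNat_of_zero_le hm
    exact Sides.jmp D.hb D.closed D.off D.dense hP2 hP hs
  refine ⟨c, hc, ?_⟩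
  obtain ⟨e1, he1, h1⟩ := Metric.eventually_nhds_iff_ball.1 (Jmp.near hP (hc a haS))
  obtain ⟨e2, he2, h2⟩ := Metric.eventually_nhds_iff_ball.1 (Jmp.near hP (hc b hbS))
  obtain ⟨s, hs, h3⟩ := hlim (min e1 e2) (lt_min he1 he2)
  refine ⟨s, hs, fun z1 hz1 hne hn1 c' hc' => ?_⟩
  rcases h3 z1 hz1 hn1 hne with h | h
  · exact h1 _ (mem_ball.2 (h.trans_le (min_le_left _ _))) c' hc'
  · exact h2 _ (mem_ball.2 (h.trans_le (min_le_right _ _))) c' hc'

/-- Points with a jump near every point of the circle. -/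
private theorem cok_near (D : Ck phi K) {P : Op} (hP2 : P * P = P) (hP : P * Tp phi = Tp phi * P)
    {z : ℂ} (hz : ‖z‖ = 1) {s : ℝ} (hs : 0 < s) :
    ∃ z2 ∈ ball z s, z2 ≠ z ∧ ‖z2‖ = 1 ∧ ∃ c', Jmp phi K P (phi z2) c' := by
  obtain ⟨z2, h1, h2, h3⟩ := cok_pt (D.sim.union (Set.finite_singleton z)) hz hs
  rw [mem_union, not_or] at h3
  refine ⟨z2, h1, fun h => h3.2 (by rw [h]; rfl), h2, ?_⟩
  have h4 : LinkOn phi K z2 {phi z2} (phi z2) (phi z2) := by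
    by_contra h4
    exact h3.1 ⟨h2, h4⟩
  obtain ⟨c, hc, -⟩ := cok_link D hP2 hP h4
  exact ⟨c, hc _ rfl⟩

theorem const_ofK {phi : ℂ → ℂ} {K : Set ℂ} (D : Ck phi K) {P : Op} (hP2 : P * P = P) (hP : P * Tp phi = Tp phi * P) :
    ∃ c : ℂ, ∀ t, ‖t‖ = 1 → ∀ S a b, LinkOn phi K t S a b → ∀ q ∈ S, Jmp phi K P q c := by
  classical
  obtain ⟨V, hV⟩ : ∃ V : ℂ → Set ℂ, V = fun k => {z | ∃ ρ > 0, ∀ z1 ∈ ball z ρ, z1 ≠ z →
      ‖z1‖ = 1 → ∀ c', Jmp phi K P (phi z1) c' → c' = k} := ⟨_, rfl⟩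
  have hVo : ∀ k, IsOpen (V k) := by
    intro k
    rw [Metric.isOpen_iff, hV]
    rintro z ⟨ρ, hρ, h⟩
    refine ⟨ρ / 2, half_pos hρ, fun w hw => ?_⟩
    by_cases hwz : w = z
    · rw [hwz]
      exact ⟨ρ, hρ, h⟩
    · refine ⟨min (ρ / 2) (dist w z), lt_min (half_pos hρ) (dist_pos.2 hwz),
        fun z1 hz1 _ => h z1 ?_ ?_⟩
      · have h1 := (mem_ball.1 hz1).trans_le (min_le_left _ _)
        rw [mem_ball] at hw ⊢
        linarith [dist_triangle z1 w z]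
      · rintro rfl
        have h1 := (mem_ball.1 hz1).trans_le (min_le_right _ _)
        rw [dist_comm] at h1
        exact lt_irrefl _ h1
  have hcov0 : ∀ z ∈ sphere (0 : ℂ) 1, ∃ k, z ∈ V k := by
    intro z hz
    have hz' : ‖z‖ = 1 := by simpa using hz
    obtain ⟨k, hk⟩ := cok_lc D hz' P hP2 hP
    rw [eventually_nhdsWithin_iff] at hk
    obtain ⟨s, hs, h⟩ := Metric.eventually_nhds_iff_ball.1 hk
    refine ⟨k, ?_⟩
    rw [hV]
    exact ⟨s, hs, fun z1 hz1 hne hn1 => h z1 hz1 hne hn1⟩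
  have hdisj : ∀ z ∈ sphere (0 : ℂ) 1, ∀ k k', z ∈ V k → z ∈ V k' → k = k' := by
    intro z hz k k' h0 h1
    rw [hV] at h0 h1
    obtain ⟨ρ0, hρ0, h0⟩ := h0
    obtain ⟨ρ1, hρ1, h1⟩ := h1
    obtain ⟨z2, hz2, hne2, hn2, c', hc'⟩ := cok_near D hP2 hP (by simpa using hz) (lt_min hρ0 hρ1)
    have e0 := h0 z2 (ball_subset_ball (min_le_left _ _) hz2) hne2 hn2 c' hc'
    have e1 := h1 z2 (ball_subset_ball (min_le_right _ _) hz2) hne2 hn2 c' hc'
    exact e0.symm.trans e1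
  have hpre : IsPreconnected (sphere (0 : ℂ) 1) := by
    refine isPreconnected_sphere ?_ _ _
    rw [Complex.rank_real_complex]
    norm_num
  obtain ⟨k, hk⟩ := hcov0 1 (by simp)
  have hall : sphere (0 : ℂ) 1 ⊆ V k := by
    intro z hz
    by_contra hzk
    obtain ⟨k1, hk1⟩ := hcov0 z hz
    have hne : k1 ≠ k := by
      rintro rfl
      exact hzk hk1
    obtain ⟨w, hw, hw1, hw2⟩ := hpre (V k) (⋃ k' ∈ {k' : ℂ | k' ≠ k}, V k') (hVo k)
      (isOpen_biUnion fun k' _ => hVo k') (fun w hw => by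
        obtain ⟨k2, hk2⟩ := hcov0 w hw
        by_cases h2 : k2 = k
        · left
          rw [h2] at hk2
          exact hk2
        · right
          exact mem_iUnion₂.2 ⟨k2, h2, hk2⟩)
      ⟨1, by simp, hk⟩ ⟨z, hz, mem_iUnion₂.2 ⟨k1, hne, hk1⟩⟩
    obtain ⟨k3, hk3, hw3⟩ := mem_iUnion₂.1 hw2
    exact hk3 (hdisj w hw k3 k hw3 hw1)
  refine ⟨k, ?_⟩
  intro t ht S a b hL q hq
  obtain ⟨c, hc, s, hs, h3⟩ := cok_link D hP2 hP hL
  have htk := hall (show t ∈ sphere (0 : ℂ) 1 by simpa using ht)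
  rw [hV] at htk
  obtain ⟨ρ, hρ, h4⟩ := htk
  obtain ⟨z2, hz2, hne2, hn2, c', hc'⟩ := cok_near D hP2 hP ht (lt_min hs hρ)
  have e0 := h3 z2 (ball_subset_ball (min_le_left _ _) hz2) hne2 hn2 c' hc'
  have e1 := h4 z2 (ball_subset_ball (min_le_right _ _) hz2) hne2 hn2 c' hc'
  have e2 : k = c := e1.symm.trans e0
  rw [e2]
  exact hc q hq


end Pool.Agent.TBirK
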