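import Pool.Agent.TBirK.Def
import Pool.Agent.TBirP.Loc1

/-!
# Piecewise `C^1` symbols satisfy the cone condition

`PwC.cone`: on a one-sided interval `(x, x + δ]` the function `c y = phi (E y)` has a derivative `D y ≠ 0` with `D y / |D y|` near a unit vector `d` (at a point over `F` by `SideC`, else by continuity of `deriv`). For each unit vector `w'` the function
`re (c * conj d) - (5/6) re (c * conj w')` has a derivative `≥ 0`, so it is monotone; `w'` = direction of the difference; `w = (6/5) d`. Strictly: `re (c * conj d)` is strictly increasing. `PwC.lip`: the derivative is bounded on a period off `E ⁻¹ F` (compactness, bounded on both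
sides of the points over `F`), mean value inequality on intervals without points over `F` (`lpj_Icc` in TBirJ/Lpj.lean). `PwC.cont`: as `PwJ.cont` (`phi z = c (arg ..)` near a point).
-/

set_option autoImplicit false

open MeasureTheory Complex Set Filter Topology Metric AddCircle
open scoped ComplexConjugate InnerProductSpace ENNReal

namespace Pool.Agent.TBirK

open Pool.Agent.TBir Pool.Agent.TBirG Pool.Agent.TBirC Pool.Agent.TBirJ
open Pool.Agent.TBirP (E qT)

variable {phi : ℂ → ℂ} {F : Finset ℂ} {u v : ℂ → ℂ}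

private theorem ck_norm (x : ℝ) : ‖E x‖ = 1 := by
  unfold E
  exact Complex.norm_exp_ofReal_mul_I x

private theorem ck_add (x y : ℝ) : E (x + y) = E x * E y := by
  unfold E
  rw [← Complex.exp_add]
  push_cast
  rw [add_mul]

private theorem ck_cont : Continuous E := by
  unfold E
  fun_prop

private theorem ck_per (x : ℝ) : E (x + 2 * Real.pi) = E x := by
  unfold E
  rw [← Complex.exp_periodic (x * I)]
  congr 1
  push_cast
  ring

private theorem ck_ne_one {x : ℝ} (h1 : 0 < |x|) (h2 : |x| < 2 * Real.pi) : E x ≠ 1 := by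
  unfold E
  intro h
  rw [Complex.exp_eq_one_iff] at h
  obtain ⟨n, hn⟩ := h
  have h3 : (x : ℂ) = ((n * (2 * Real.pi) : ℝ) : ℂ) := by
    have := mul_right_cancel₀ Complex.I_ne_zero (hn.trans (by push_cast; ring :
      (n : ℂ) * (2 * Real.pi * I) = ((n * (2 * Real.pi) : ℝ) : ℂ) * I))
    exact this
  have h4 : x = n * (2 * Real.pi) := by exact_mod_cast h3
  have hp := Real.pi_pos
  rw [h4, abs_mul, abs_of_pos (by positivity : (0 : ℝ) < 2 * Real.pi)] at h1 h2
  have h5 : |(n : ℝ)| < 1 := by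
    by_contra hc
    push Not at hc
    nlinarith
  have h6 : n = 0 := by
    have : |n| < 1 := by exact_mod_cast h5
    exact Int.abs_lt_one_iff.1 this
  rw [h6] at h1
  simp at h1

private theorem ck_off (F : Finset ℂ) (x s : ℝ) (hs : s = 1 ∨ s = -1) :
    ∀ᶠ y : ℝ in 𝓝[>] 0, E (x + s * y) ∉ F := by
  have h1 : ∀ᶠ y : ℝ in 𝓝[>] 0, ∀ t ∈ F, E (x + s * y) ≠ t := by
    rw [Finset.eventually_all]
    intro t _
    by_cases ht : E x = t
    · have h2 : ∀ᶠ y : ℝ in 𝓝[>] 0, y < 2 * Real.pi :=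
        mem_nhdsWithin_of_mem_nhds (gt_mem_nhds (by positivity))
      filter_upwards [h2, self_mem_nhdsWithin] with y hy hy0
      rw [ck_add, ← ht]
      intro h3
      have h0 : E x ≠ 0 := by
        intro h0
        have := ck_norm x
        rw [h0, norm_zero] at this
        norm_num at this
      have h4 : E (s * y) = 1 := mul_left_cancel₀ h0 (by rw [h3, mul_one])
      have h5 : |s * y| = y := by
        rw [abs_mul, abs_of_pos (show (0 : ℝ) < y from hy0)]
        rcases hs with rfl | rfl <;> simp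
      exact ck_ne_one (by rw [h5]; exact hy0) (by rw [h5]; exact hy) h4
    · have h2 : ContinuousAt (fun y : ℝ => E (x + s * y)) 0 :=
        (ck_cont.comp (by fun_prop)).continuousAt
      have h3 : (fun y : ℝ => E (x + s * y)) 0 ≠ t := by simpa using ht
      exact mem_nhdsWithin_of_mem_nhds (h2.eventually_ne h3)
  filter_upwards [h1] with y hy hF
  exact hy _ hF rfl

private theorem ck_der (h : PwC phi F u v) {x s y : ℝ} (hy : E (x + s * y) ∉ F) :
    HasDerivAt (fun y : ℝ => phi (E (x + s * y)))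
      (s • deriv (fun y : ℝ => phi (E y)) (x + s * y)) y := by
  have h1 := (h.reg _ hy).1.hasDerivAt
  have h2 : HasDerivAt (fun y : ℝ => x + s * y) s y := by
    have := ((hasDerivAt_id y).const_mul s).const_add x
    simpa using this
  exact h1.scomp y h2

private theorem ck_side (h : PwC phi F u v) (x s : ℝ) (hs : s = 1 ∨ s = -1) : ∃ d : ℂ, ‖d‖ = 1 ∧
    (∃ C : ℝ, ∀ᶠ y : ℝ in 𝓝[>] 0, ‖deriv (fun y : ℝ => phi (E (x + s * y))) y‖ ≤ C) ∧
    Tendsto (fun y : ℝ => deriv (fun y : ℝ => phi (E (x + s * y))) y /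
      (‖deriv (fun y : ℝ => phi (E (x + s * y))) y‖ : ℂ)) (𝓝[>] 0) (𝓝 d) := by
  by_cases hF : E x ∈ F
  · have e : (fun y : ℝ => phi (E (x + s * y))) = fun y : ℝ => phi (E x * E (s * y)) := by
      funext y
      rw [ck_add]
    rw [e]
    rcases hs with rfl | rfl
    · obtain ⟨-, h2, d, h3, h4⟩ := h.right _ hF
      exact ⟨d, h3, h2, h4⟩
    · obtain ⟨-, h2, d, h3, h4⟩ := h.left _ hF
      exact ⟨d, h3, h2, h4⟩
  · obtain ⟨-, h2, h3⟩ := h.reg x hF
    have hs0 : s ≠ 0 := by
      rcases hs with rfl | rfl <;> norm_num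
    have h4 : Tendsto (fun y : ℝ => s • deriv (fun y : ℝ => phi (E y)) (x + s * y)) (𝓝[>] 0)
        (𝓝 (s • deriv (fun y : ℝ => phi (E y)) x)) := by
      have h5 : Tendsto (fun y : ℝ => x + s * y) (𝓝[>] 0) (𝓝 x) := by
        have h6 : Continuous fun y : ℝ => x + s * y := by fun_prop
        have h7 := h6.tendsto 0
        rw [mul_zero, add_zero] at h7
        exact h7.mono_left nhdsWithin_le_nhds
      exact (h3.tendsto.comp h5).const_smul s
    have h5 : Tendsto (fun y : ℝ => deriv (fun y : ℝ => phi (E (x + s * y))) y) (𝓝[>] 0)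
        (𝓝 (s • deriv (fun y : ℝ => phi (E y)) x)) := by
      refine h4.congr' ?_
      filter_upwards [ck_off F x s hs] with y hy
      exact (ck_der h hy).deriv.symm
    set D : ℂ := s • deriv (fun y : ℝ => phi (E y)) x with hD
    have hD0 : D ≠ 0 := by
      rw [hD]
      exact smul_ne_zero hs0 h2
    have hDn : 0 < ‖D‖ := norm_pos_iff.2 hD0
    refine ⟨D / (‖D‖ : ℂ), ?_, ⟨‖D‖ + 1, ?_⟩, ?_⟩
    · rw [norm_div, Complex.norm_real, norm_norm, div_self hDn.ne']
    · have h6 := h5.norm.eventually (gt_mem_nhds (show ‖D‖ < ‖D‖ + 1 by linarith))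
      filter_upwards [h6] with y hy
      exact hy.le
    · have h6 : Tendsto (fun y : ℝ => (‖deriv (fun y : ℝ => phi (E (x + s * y))) y‖ : ℂ)) (𝓝[>] 0)
          (𝓝 (‖D‖ : ℂ)) := (Complex.continuous_ofReal.tendsto _).comp h5.norm
      exact h5.div h6 (by exact_mod_cast hDn.ne')

theorem PwC.cont (h : PwC phi F u v) : ContinuousOn phi (sphere 0 1 \ F) := by
  rintro z ⟨hz, hzF⟩
  have hz1 : ‖z‖ = 1 := mem_sphere_zero_iff_norm.1 hz
  have hz0 : z ≠ 0 := by
    rintro rfl
    simp at hz1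
  have hEz : E (arg z) = z := by
    unfold E
    have := Complex.norm_mul_exp_arg_mul_I z
    rwa [hz1, Complex.ofReal_one, one_mul] at this
  have hzF' : E (arg z) ∉ F := by
    rw [hEz]
    exact hzF
  have h1 : ContinuousAt (fun y : ℝ => phi (E y)) (arg z) := (h.reg _ hzF').1.continuousAt
  have h2 : ContinuousAt (fun w : ℂ => arg z + arg (w / z)) z := by
    have h3 : ContinuousAt (fun w : ℂ => w / z) z := continuousAt_id.div_const z
    have h4 : ContinuousAt arg (z / z) := by
      rw [div_self hz0]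
      exact Complex.continuousAt_arg Complex.one_mem_slitPlane
    exact continuousAt_const.add (ContinuousAt.comp (f := fun w : ℂ => w / z) h4 h3)
  have h3 : ContinuousAt (fun w : ℂ => phi (E (arg z + arg (w / z)))) z := by
    have h4 : (fun w : ℂ => arg z + arg (w / z)) z = arg z := by simp [div_self hz0]
    have h5 : ContinuousAt (fun y : ℝ => phi (E y)) ((fun w : ℂ => arg z + arg (w / z)) z) := by
      rw [h4]
      exact h1
    exact ContinuousAt.comp (f := fun w : ℂ => arg z + arg (w / z)) h5 h2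
  have key : ∀ w : ℂ, ‖w‖ = 1 → E (arg z + arg (w / z)) = w := by
    intro w hw
    rw [ck_add, hEz]
    have h4 : ‖w / z‖ = 1 := by rw [norm_div, hw, hz1, div_one]
    have h5 : E (arg (w / z)) = w / z := by
      unfold E
      have := Complex.norm_mul_exp_arg_mul_I (w / z)
      rwa [h4, Complex.ofReal_one, one_mul] at this
    rw [h5]
    field_simp
  refine h3.continuousWithinAt.congr ?_ ?_
  · rintro w ⟨hw, -⟩
    show phi w = phi (E (arg z + arg (w / z)))
    rw [key w (mem_sphere_zero_iff_norm.1 hw)]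
  · show phi z = phi (E (arg z + arg (z / z)))
    rw [key z hz1]

theorem PwC.cone (h : PwC phi F u v) (x s : ℝ) (hs : s = 1 ∨ s = -1) : ∃ δ > 0, ∃ w : ℂ, ‖w‖ ≤ 6 / 5 ∧
    ∀ y z : ℝ, 0 < y → y < z → z ≤ δ → phi (E (x + s * y)) ≠ phi (E (x + s * z)) ∧
      ‖phi (E (x + s * z)) - phi (E (x + s * y))‖ ≤
        ((phi (E (x + s * z)) - phi (E (x + s * y))) * conj w).re := by
  obtain ⟨d, hd, -, ht⟩ := ck_side h x s hs
  have hs0 : s ≠ 0 := by
    rcases hs with rfl | rfl <;> norm_num
  have h1 := (tendsto_iff_norm_sub_tendsto_zero.1 ht).eventually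
    (gt_mem_nhds (show (0 : ℝ) < 1 / 10 by norm_num))
  have h2 := h1.and (ck_off F x s hs)
  rw [eventually_nhdsWithin_iff, Metric.eventually_nhds_iff] at h2
  obtain ⟨ε, hε, hb⟩ := h2
  set G : ℝ → ℂ := fun y => phi (E (x + s * y)) with hG
  have hoff : ∀ y : ℝ, 0 < y → y ≤ ε / 2 → E (x + s * y) ∉ F ∧
      ‖deriv G y / (‖deriv G y‖ : ℂ) - d‖ < 1 / 10 := by
    intro y hy hy2
    have := hb (y := y) (by rw [Real.dist_eq, sub_zero, abs_of_pos hy]; linarith) hy
    exact ⟨this.2, this.1⟩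
  have hder : ∀ y : ℝ, 0 < y → y ≤ ε / 2 → HasDerivAt G (deriv G y) y ∧ deriv G y ≠ 0 := by
    intro y hy hy2
    have h3 := (hoff y hy hy2).1
    have h4 := ck_der h h3
    refine ⟨h4.differentiableAt.hasDerivAt, ?_⟩
    rw [h4.deriv]
    exact smul_ne_zero hs0 (h.reg _ h3).2.1
  have hpos : ∀ y : ℝ, 0 < y → y ≤ ε / 2 → 9 / 10 * ‖deriv G y‖ ≤ (deriv G y * conj d).re := by
    intro y hy hy2
    have h3 := (hoff y hy hy2).2
    have h4 : 0 < ‖deriv G y‖ := norm_pos_iff.2 (hder y hy hy2).2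
    have h4' : (‖deriv G y‖ : ℂ) ≠ 0 := by exact_mod_cast h4.ne'
    set q : ℂ := deriv G y / (‖deriv G y‖ : ℂ) with hq
    have e1 : deriv G y = (‖deriv G y‖ : ℂ) * q := by
      rw [hq]
      field_simp
    have e2 : (deriv G y * conj d).re = ‖deriv G y‖ * (q * conj d).re := by
      conv_lhs => rw [e1, mul_assoc, Complex.re_ofReal_mul]
    have e3 : (d * conj d).re = 1 := by
      rw [Complex.mul_conj, Complex.normSq_eq_norm_sq, hd]
      simp
    have e4 : (q * conj d).re = (d * conj d).re + ((q - d) * conj d).re := by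
      rw [← Complex.add_re, ← add_mul]
      congr 2
      ring
    have e5 : -(1 / 10 : ℝ) ≤ ((q - d) * conj d).re := by
      have h6 := Complex.abs_re_le_norm ((q - d) * conj d)
      rw [norm_mul, RCLike.norm_conj, hd, mul_one] at h6
      have h7 := (abs_le.mp h6).1
      linarith
    rw [e2, e4, e3]
    nlinarith
  refine ⟨ε / 2, by positivity, (6 / 5 : ℝ) * d, ?_, ?_⟩
  · rw [norm_mul, hd, mul_one, Complex.norm_real, Real.norm_of_nonneg (by norm_num)]
  · intro y z hy hyz hz
    have hm : ∀ τ ∈ Icc y z, 0 < τ ∧ τ ≤ ε / 2 := fun τ hτ => ⟨hy.trans_le hτ.1, hτ.2.trans hz⟩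
    constructor
    · have hmono : StrictMonoOn (fun τ => (G τ * conj d).re) (Icc y z) := by
        refine strictMonoOn_of_deriv_pos (convex_Icc y z) ?_ ?_
        · intro τ hτ
          have h3 := (hder τ (hm τ hτ).1 (hm τ hτ).2).1.mul_const (conj d)
          exact (Complex.reCLM.hasFDerivAt.comp_hasDerivAt τ h3).continuousAt.continuousWithinAt
        · intro τ hτ
          rw [interior_Icc] at hτ
          have hτ' : τ ∈ Icc y z := ⟨hτ.1.le, hτ.2.le⟩
          have h3 := (hder τ (hm τ hτ').1 (hm τ hτ').2).1.mul_const (conj d)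
          have h4 : HasDerivAt (fun τ => (G τ * conj d).re) (deriv G τ * conj d).re τ :=
            Complex.reCLM.hasFDerivAt.comp_hasDerivAt τ h3
          rw [h4.deriv]
          have h5 := hpos τ (hm τ hτ').1 (hm τ hτ').2
          have h6 : 0 < ‖deriv G τ‖ := norm_pos_iff.2 (hder τ (hm τ hτ').1 (hm τ hτ').2).2
          linarith
      intro he
      have h3 := hmono (left_mem_Icc.2 hyz.le) (right_mem_Icc.2 hyz.le) hyz
      have h4 : G y = G z := he
      simp only [h4, lt_irrefl] at h3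
    · have hd1 : ∀ τ ∈ Icc y z, HasDerivAt (fun τ : ℝ => G τ - G y) (deriv G τ) τ :=
        fun τ hτ => (hder τ (hm τ hτ).1 (hm τ hτ).2).1.sub_const _
      have hd2 : ∀ τ ∈ Icc y z, HasDerivAt (fun τ : ℝ => ((G τ - G y) * conj ((6 / 5 : ℝ) * d)).re)
          (deriv G τ * conj ((6 / 5 : ℝ) * d)).re τ := fun τ hτ =>
        Complex.reCLM.hasFDerivAt.comp_hasDerivAt τ ((hd1 τ hτ).mul_const _)
      have key := image_norm_le_of_norm_deriv_right_le_deriv_boundary' (f := fun τ : ℝ => G τ - G y)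
        (f' := fun τ => deriv G τ) (a := y) (b := z)
        (B := fun τ : ℝ => ((G τ - G y) * conj ((6 / 5 : ℝ) * d)).re)
        (B' := fun τ => (deriv G τ * conj ((6 / 5 : ℝ) * d)).re)
        (fun τ hτ => (hd1 τ hτ).continuousAt.continuousWithinAt)
        (fun τ hτ => (hd1 τ ⟨hτ.1, hτ.2.le⟩).hasDerivWithinAt) (by simp)
        (fun τ hτ => (hd2 τ hτ).continuousAt.continuousWithinAt)
        (fun τ hτ => (hd2 τ ⟨hτ.1, hτ.2.le⟩).hasDerivWithinAt)
        (fun τ hτ => ?_)
      · exact key (right_mem_Icc.mpr hyz.le)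
      · have hτ' : τ ∈ Icc y z := ⟨hτ.1, hτ.2.le⟩
        have h5 := hpos τ (hm τ hτ').1 (hm τ hτ').2
        have e1 : (deriv G τ * conj ((6 / 5 : ℝ) * d)).re = 6 / 5 * (deriv G τ * conj d).re := by
          rw [map_mul, Complex.conj_ofReal, mul_left_comm, Complex.re_ofReal_mul]
        show ‖deriv G τ‖ ≤ (deriv G τ * conj ((6 / 5 : ℝ) * d)).re
        rw [e1]
        have h6 := norm_nonneg (deriv G τ)
        linarith

theorem PwC.lip (h : PwC phi F u v) : ∃ K : ℝ, 0 ≤ K ∧ ∀ x y : ℝ, x ≤ y → (∀ s ∈ Icc x y, E s ∉ F) →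
    ‖phi (E x) - phi (E y)‖ ≤ K * |x - y| := by
  set c : ℝ → ℂ := fun y => phi (E y) with hc
  have hloc : ∀ x : ℝ, ∃ U ∈ 𝓝 x, ∃ K : ℝ, ∀ y ∈ U, E y ∉ F → ‖deriv c y‖ ≤ K := by
    intro x
    have hside : ∀ s : ℝ, s = 1 ∨ s = -1 → ∃ C : ℝ, ∀ᶠ y : ℝ in 𝓝[>] 0, E (x + s * y) ∉ F →
        ‖deriv c (x + s * y)‖ ≤ C := by
      intro s hs
      obtain ⟨d, -, ⟨C, hC⟩, -⟩ := ck_side h x s hs
      refine ⟨C, ?_⟩
      filter_upwards [hC] with y hy hyF
      rw [(ck_der h hyF).deriv, norm_smul] at hy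
      have hs1 : ‖s‖ = 1 := by
        rcases hs with rfl | rfl <;> simp
      rwa [hs1, one_mul] at hy
    obtain ⟨C1, h1⟩ := hside 1 (Or.inl rfl)
    obtain ⟨C2, h2⟩ := hside (-1) (Or.inr rfl)
    rw [eventually_nhdsWithin_iff, Metric.eventually_nhds_iff] at h1 h2
    obtain ⟨ε1, hε1, h1⟩ := h1
    obtain ⟨ε2, hε2, h2⟩ := h2
    refine ⟨ball x (min ε1 ε2), Metric.ball_mem_nhds x (lt_min hε1 hε2),
      max (max C1 C2) ‖deriv c x‖, ?_⟩
    intro y hy hyF
    rw [Metric.mem_ball, Real.dist_eq] at hy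
    have m1 := min_le_left ε1 ε2
    have m2 := min_le_right ε1 ε2
    rcases lt_trichotomy x y with hxy | rfl | hxy
    · rw [abs_of_pos (by linarith)] at hy
      have h3 := h1 (y := y - x) (by rw [Real.dist_eq, sub_zero, abs_of_pos (by linarith)]; linarith)
        (show (0 : ℝ) < y - x by linarith)
      rw [show x + 1 * (y - x) = y by ring] at h3
      exact (h3 hyF).trans ((le_max_left _ _).trans (le_max_left _ _))
    · exact le_max_right _ _
    · rw [abs_of_neg (by linarith)] at hy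
      have h3 := h2 (y := x - y) (by rw [Real.dist_eq, sub_zero, abs_of_pos (by linarith)]; linarith)
        (show (0 : ℝ) < x - y by linarith)
      rw [show x + -1 * (x - y) = y by ring] at h3
      exact (h3 hyF).trans ((le_max_right _ _).trans (le_max_left _ _))
  obtain ⟨K, hK⟩ : ∃ K : ℝ, ∀ y ∈ Icc (0 : ℝ) (2 * Real.pi), E y ∉ F → ‖deriv c y‖ ≤ K := by
    refine isCompact_Icc.induction_on (p := fun S : Set ℝ => ∃ K : ℝ, ∀ y ∈ S, E y ∉ F →
      ‖deriv c y‖ ≤ K) ⟨0, fun y hy => hy.elim⟩ ?_ ?_ ?_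
    · rintro S T hST ⟨K, hK⟩
      exact ⟨K, fun y hy => hK y (hST hy)⟩
    · rintro S T ⟨K1, h1⟩ ⟨K2, h2⟩
      refine ⟨max K1 K2, ?_⟩
      rintro y (hy | hy) hyF
      · exact (h1 y hy hyF).trans (le_max_left _ _)
      · exact (h2 y hy hyF).trans (le_max_right _ _)
    · intro x _
      obtain ⟨U, hU, K, hK⟩ := hloc x
      exact ⟨U, mem_nhdsWithin_of_mem_nhds hU, K, hK⟩
  have hper : Function.Periodic c (2 * Real.pi) := fun y => by
    show phi (E (y + 2 * Real.pi)) = phi (E y)
    rw [ck_per]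
  have hdper : Function.Periodic (deriv c) (2 * Real.pi) := fun y => by
    rw [← deriv_comp_add_const]
    congr 1
    funext w
    exact hper w
  have hEper : Function.Periodic E (2 * Real.pi) := ck_per
  have hall : ∀ y : ℝ, E y ∉ F → ‖deriv c y‖ ≤ K := by
    intro y hy
    have hp : (0 : ℝ) < 2 * Real.pi := by positivity
    have hm := toIcoMod_mem_Ico hp 0 y
    rw [zero_add] at hm
    have e1 : deriv c (toIcoMod hp 0 y) = deriv c y := hdper.sub_zsmul_eq _
    have e2 : E (toIcoMod hp 0 y) = E y := hEper.sub_zsmul_eq _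
    rw [← e1]
    exact hK _ ⟨hm.1, hm.2.le⟩ (by rw [e2]; exact hy)
  refine ⟨max K 0, le_max_right _ _, ?_⟩
  intro x y hxy hF
  have h1 := (convex_Icc x y).norm_image_sub_le_of_norm_deriv_le (f := c) (C := max K 0)
    (fun s hs => (h.reg s (hF s hs)).1) (fun s hs => (hall s (hF s hs)).trans (le_max_left _ _))
    (right_mem_Icc.2 hxy) (left_mem_Icc.2 hxy)
  rw [Real.norm_eq_abs] at h1
  exact h1

theorem PwC.cv (h : PwC phi F u v) : Cv phi F u v where
  circ := h.circ
  cont := h.cont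
  lim_left := fun t ht => by
    have := (h.left t ht).1
    simpa only [neg_one_mul] using this
  lim_right := fun t ht => by
    have := (h.right t ht).1
    simpa only [one_mul] using this
  cone := h.cone
  lip := h.lip

end Pool.Agent.TBirK
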