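import Pool.Agent.TBirJ.Trj
import Pool.Agent.TBirJ.Unj

/-!
# Symbols with jumps, piecewise `C^1`: definitions

`PwC phi F u v`: `phi` is `C^1` with nonvanishing derivative along the circle off the finite set `F`; at the points of `F` there are one-sided limits `u`, `v`, the derivative is bounded and its direction has one-sided limits
(corners, cusps, jumps). `Cv` is what most proofs use: cone condition and Lipschitz condition. `Ap`, `Sc`: simple points in the weak sense. `Dk`, `Ck`: the hypotheses of the abstract theorems. `CCross`: the class of the theorem.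
`Gam`, `Wj`, `Ix`, `LinkOn`, `Sides`, `Jmp`, `Rem` are as in TBirJ/Def.lean.
-/

set_option autoImplicit false

open MeasureTheory Complex Set Filter Topology Metric AddCircle
open scoped ComplexConjugate InnerProductSpace ENNReal

namespace Pool.Agent.TBirK

open Pool.Agent.TBir Pool.Agent.TBirG Pool.Agent.TBirC Pool.Agent.TBirJ
open Pool.Agent.TBirP (E qT)

/-- On the side `s` of the point `t` of the circle the curve has the limit `a`, bounded derivative and a tangent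
direction. -/
def SideC (phi : ℂ → ℂ) (t : ℂ) (s : ℝ) (a : ℂ) : Prop :=
  Tendsto (fun x : ℝ => phi (t * E (s * x))) (𝓝[>] 0) (𝓝 a) ∧
    (∃ C : ℝ, ∀ᶠ x : ℝ in 𝓝[>] 0, ‖deriv (fun y : ℝ => phi (t * E (s * y))) x‖ ≤ C) ∧
    ∃ d : ℂ, ‖d‖ = 1 ∧ Tendsto (fun x : ℝ => deriv (fun y : ℝ => phi (t * E (s * y))) x /
      (‖deriv (fun y : ℝ => phi (t * E (s * y))) x‖ : ℂ)) (𝓝[>] 0) (𝓝 d)

/-- Piecewise `C^1` symbols: `u t` and `v t` are the one-sided limits at the point `t` of the finite set `F`. -/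
structure PwC (phi : ℂ → ℂ) (F : Finset ℂ) (u v : ℂ → ℂ) : Prop where
  circ : ∀ t ∈ F, ‖t‖ = 1
  reg : ∀ x : ℝ, E x ∉ F → DifferentiableAt ℝ (fun y : ℝ => phi (E y)) x ∧
    deriv (fun y : ℝ => phi (E y)) x ≠ 0 ∧ ContinuousAt (deriv fun y : ℝ => phi (E y)) x
  left : ∀ t ∈ F, SideC phi t (-1) (u t)
  right : ∀ t ∈ F, SideC phi t 1 (v t)

/-- Curves with one-sided cones and Lipschitz condition. -/
structure Cv (phi : ℂ → ℂ) (F : Finset ℂ) (u v : ℂ → ℂ) : Prop where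
  circ : ∀ t ∈ F, ‖t‖ = 1
  cont : ContinuousOn phi (sphere 0 1 \ F)
  lim_left : ∀ t ∈ F, Tendsto (fun x : ℝ => phi (t * E (-x))) (𝓝[>] 0) (𝓝 (u t))
  lim_right : ∀ t ∈ F, Tendsto (fun x : ℝ => phi (t * E x)) (𝓝[>] 0) (𝓝 (v t))
  cone : ∀ x s : ℝ, s = 1 ∨ s = -1 → ∃ δ > 0, ∃ w : ℂ, ‖w‖ ≤ 6 / 5 ∧
    ∀ y z : ℝ, 0 < y → y < z → z ≤ δ → phi (E (x + s * y)) ≠ phi (E (x + s * z)) ∧
      ‖phi (E (x + s * z)) - phi (E (x + s * y))‖ ≤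
        ((phi (E (x + s * z)) - phi (E (x + s * y))) * conj w).re
  lip : ∃ K : ℝ, 0 ≤ K ∧ ∀ x y : ℝ, x ≤ y → (∀ s ∈ Icc x y, E s ∉ F) →
    ‖phi (E x) - phi (E y)‖ ≤ K * |x - y|

/-- Up to `eps` the symbol `phi - l` is `z - g` times the quotient `(phi - phi z0) / (z - z0)`. -/
def Ap (phi : ℂ → ℂ) (z0 l g : ℂ) (eps : ℝ) : Prop :=
  ∀ᵐ y ∂mu0, ‖(phi (e y) - l) / (e y - g) - (phi (e y) - phi z0) / (e y - z0)‖ ≤ eps

/-- `z0` is a simple point in the weak sense, with the inner number `x`. -/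
def Sc (phi : ℂ → ℂ) (K : Set ℂ) (z0 : ℂ) (x : ℤ) : Prop :=
  ‖z0‖ = 1 ∧ IsUnit (TM (mf fun y => e y ^ (-x) * ((phi (e y) - phi z0) / (e y - z0)))) ∧
    (∀ eps > 0, ∀ᶠ l in 𝓝 (phi z0), l ∉ K → ∃ g ∈ ball z0 eps, ‖g‖ ≠ 1 ∧ Ap phi z0 l g eps) ∧
    (∀ eps > 0, ∃ᶠ l in 𝓝 (phi z0), ∃ g ∈ ball z0 eps, ‖g‖ < 1 ∧ Ap phi z0 l g eps) ∧
    ∀ eps > 0, ∃ᶠ l in 𝓝 (phi z0), ∃ g ∈ ball z0 eps, 1 < ‖g‖ ∧ Ap phi z0 l g eps

/-- The hypotheses of the extension theorem. -/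
structure Dk (phi : ℂ → ℂ) (K : Set ℂ) : Prop where
  hb : MemLp (fun x : UnitAddCircle => phi (e x)) ∞ mu0
  closed : IsClosed K
  ne : K.Nonempty
  dense : Dense Kᶜ
  vol : ∃ A : ℝ, 0 < A ∧ ∀ eps : ℝ, 0 < eps → eps ≤ 1 →
    volume {l : ℂ | infDist l K ≤ eps} ≤ ENNReal.ofReal (A * eps)
  null : ∀ b, mu0 {x : UnitAddCircle | phi (e x) = b} = 0
  off : ∀ l ∉ K, ∃ n : ℤ, Ix phi l n
  nn : ∀ l n, Ix phi l n → 0 ≤ n
  grow : ∃ (C : ℝ) (N : ℕ), 0 < C ∧ ∀ l ∉ K, infDist l K ≤ 1 → ∀ u : Hardy,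
    ‖u‖ ≤ C * (infDist l K)⁻¹ ^ N * ‖(Tp phi - l • (1 : Op)) u‖
  rem : {q : ℂ | ¬ Rem phi K q}.Finite

/-- The hypotheses of the abstract theorem. -/
structure Ck (phi : ℂ → ℂ) (K : Set ℂ) : Prop extends Dk phi K where
  sim : {z : ℂ | ‖z‖ = 1 ∧ ¬ LinkOn phi K z {phi z} (phi z) (phi z)}.Finite
  link : ∀ t : ℂ, ‖t‖ = 1 → (AnalyticAt ℂ phi t ∧ (∃ x, 0 ≤ x ∧ Iq phi (phi t) x) ∧
      ∀ᶠ z in 𝓝[≠] t, ‖z‖ = 1 → ∃ x, Sm phi z x) ∨ ∃ S a b, LinkOn phi K t S a b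
  sides : {q : ℂ | q ∈ K ∧ ∀ t, ‖t‖ = 1 → ∀ S a b, LinkOn phi K t S a b → q ∉ S}.Finite

/-- The class of the theorem: no value is on a segment of a jump (`sep`), the segments are disjoint (`seg`), the curve is
simple near the points of `F` (`simple`), injective off a finite set (`inj`), and at a multiple value `phi` is analytic
and the tangent vectors are in an open half plane (`half`). -/
structure CCross (phi : ℂ → ℂ) (F : Finset ℂ) (u v : ℂ → ℂ) : Prop extends PwC phi F u v where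
  sep : ∀ t ∈ F, ∀ z ∈ sphere (0 : ℂ) 1, z ∉ F → phi z ∉ segment ℝ (u t) (v t)
  seg : ∀ t ∈ F, ∀ t' ∈ F, t ≠ t' → Disjoint (segment ℝ (u t) (v t)) (segment ℝ (u t') (v t'))
  simple : ∀ t ∈ F, ∀ᶠ z in 𝓝 t, ‖z‖ = 1 → z ∉ F →
    ∀ z' : ℂ, ‖z'‖ = 1 → z' ∉ F → phi z' = phi z → z' = z
  inj : ∃ D : Set ℂ, D.Finite ∧ InjOn phi (sphere 0 1 \ (F ∪ D))
  half : ∀ z1 ∈ sphere (0 : ℂ) 1, z1 ∉ F → ∀ z2 ∈ sphere (0 : ℂ) 1, z2 ∉ F → z1 ≠ z2 →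
    phi z1 = phi z2 → ∃ w : ℂ, ∀ z ∈ sphere (0 : ℂ) 1, z ∉ F → phi z = phi z1 →
      AnalyticAt ℂ phi z ∧ 0 < (conj w * (I * (z * deriv phi z))).re

end Pool.Agent.TBirK
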