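import Pool.Agent.TBirK.Vlk
import Pool.Agent.TBirJ.Wjj

/-!
# Winding numbers and indices

Port of TBirJ/Wjj.lean: `PwJ` is replaced by `Cv` (`h.cont`, `h.lim_left`, `h.lim_right`, `h.circ`, `cv_level`), the analyticity at the points over `q` is the hypothesis `ha`.
-/

set_option autoImplicit false

open MeasureTheory Complex Set Filter Topology Metric AddCircle
open scoped ComplexConjugate InnerProductSpace ENNReal

namespace Pool.Agent.TBirK

open Pool.Agent.TBir Pool.Agent.TBirG Pool.Agent.TBirC Pool.Agent.TBirJ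
open Pool.Agent.TBirP (E qT)

variable {phi : ℂ → ℂ} {F : Finset ℂ} {u v : ℂ → ℂ} {l q z : ℂ} {n : ℤ}

open Pool.Agent.TBirJ.WjA

theorem wj_ix (h : Cv phi F u v) (hW : Wj phi F l n) : Ix phi l n := by
  classical
  obtain ⟨H, hH, hlim, hphi⟩ := hW
  choose! a b ha hb hab using hlim
  obtain ⟨r, hr⟩ := exists_rad h.circ
  obtain ⟨kap, hkap⟩ : ∃ kap : ℂ → ℂ, kap = fun t => b t - a t := ⟨_, rfl⟩
  obtain ⟨g, hg, hgG, -⟩ := ext_cont h.circ
    (G := fun z => H z - ∑ t ∈ F, kap t * (ch r t z : ℂ)) (hH.sub (sum_cont h.circ hr kap)) (by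
      intro t ht
      obtain ⟨c, hc1, hc2⟩ := sum_lim h.circ hr kap ht
      refine ⟨(a t + b t) / 2 - c, ?_, ?_⟩
      · have h1 := (ha t ht).sub hc1
        have h2 : a t - (c - kap t / 2) = (a t + b t) / 2 - c := by
          rw [hkap]
          ring
        rw [h2] at h1
        exact h1
      · have h1 := (hb t ht).sub hc2
        have h2 : b t - (c + kap t / 2) = (a t + b t) / 2 - c := by
          rw [hkap]
          ring
        rw [h2] at h1
        exact h1)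
  have h1 := isUnit_expJ h.circ hr hg (kap := kap) fun t ht => by
    rw [hkap]
    exact hab t ht
  unfold Ix
  rw [mf_congr (b := fun x => exp (g (e x) + ∑ t ∈ F, kap t * (ch r t (e x) : ℂ))) ?_]
  · exact h1
  · filter_upwards [ae_notin F] with x hx
    rw [hphi (e x) (he x) hx, hgG (e x) (he x) hx, ← mul_assoc, ← zpow_add₀ (PsiAux.e_ne x),
      neg_add_cancel, zpow_zero, one_mul, sub_add_cancel]

theorem exists_wj (h : Cv phi F u v) (hl : l ∉ Gam phi F u v) : ∃ n, Wj phi F l n := by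
  classical
  obtain ⟨r, hr⟩ := exists_rad h.circ
  have hseg : ∀ t ∈ F, l ∉ segment ℝ (u t) (v t) := fun t ht h1 =>
    hl (Or.inr (mem_iUnion₂.2 ⟨t, ht, h1⟩))
  have hne : ∀ z ∈ sphere (0 : ℂ) 1, z ∉ F → phi z - l ≠ 0 := fun z hz hzF h1 =>
    hl (Or.inl ⟨z, ⟨hz, hzF⟩, sub_eq_zero.1 h1⟩)
  obtain ⟨kap, hkap⟩ : ∃ kap : ℂ → ℂ, kap = fun t => Complex.log ((v t - l) / (u t - l)) :=
    ⟨_, rfl⟩
  obtain ⟨n, g, hg, hng⟩ := normal_form h.circ hr (psi := fun z => phi z - l)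
    (h.cont.sub continuousOn_const) hne (a := fun t => u t - l) (b := fun t => v t - l) (kap := kap)
    (fun t ht => (h.lim_left t ht).sub_const l) (fun t ht => (h.lim_right t ht).sub_const l)
    (fun t ht => (ne_seg (hseg t ht)).1) (fun t ht => (ne_seg (hseg t ht)).2)
    (fun t ht => by
      rw [hkap]
      exact Complex.exp_log (div_ne_zero (ne_seg (hseg t ht)).2 (ne_seg (hseg t ht)).1))
  refine ⟨n, fun z => g z + ∑ t ∈ F, kap t * (ch r t z : ℂ),
    (hg.mono sdiff_subset).add (sum_cont h.circ hr kap), fun t ht => ?_, hng⟩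
  obtain ⟨c, hc1, hc2⟩ := sum_lim h.circ hr kap ht
  have hgt : ∀ f : ℝ → ℝ, Tendsto (fun x : ℝ => t * E (f x)) (𝓝[>] 0) (𝓝 t) →
      Tendsto (fun x : ℝ => g (t * E (f x))) (𝓝[>] 0) (𝓝 (g t)) := by
    intro f hf
    refine (hg t (mem_sphere_zero_iff_norm.2 (h.circ t ht))).tendsto.comp
      (tendsto_nhdsWithin_iff.2 ⟨hf, ?_⟩)
    exact Filter.Eventually.of_forall fun x => mem_sph (h.circ t ht) _
  refine ⟨g t + (c - kap t / 2), g t + (c + kap t / 2), (hgt (fun x => -x) (tend_L t)).add hc1,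
    (hgt (fun x => x) (tend_R t)).add hc2, ?_⟩
  have h1 : g t + (c + kap t / 2) - (g t + (c - kap t / 2)) = kap t := by ring
  rw [h1, hkap]
  exact log_im (hseg t ht)

theorem exists_iq (h : Cv phi F u v) (hq : ∀ t ∈ F, q ∉ segment ℝ (u t) (v t))
    (ha : ∀ z ∈ sphere (0 : ℂ) 1, z ∉ F → phi z = q → AnalyticAt ℂ phi z ∧ deriv phi z ≠ 0) :
    ∃ x, Iq phi q x := by
  classical
  obtain ⟨r, hr⟩ := exists_rad h.circ
  have hfin := cv_level h q
  obtain ⟨Z, hZdef⟩ : ∃ Z : Finset ℂ, Z = hfin.toFinset := ⟨_, rfl⟩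
  have hZ : ∀ z, z ∈ Z ↔ z ∈ sphere (0 : ℂ) 1 ∧ z ∉ F ∧ phi z = q := fun z => by
    rw [hZdef, Set.Finite.mem_toFinset]
    rfl
  have hreg : ∀ z ∈ Z, AnalyticAt ℂ phi z ∧ deriv phi z ≠ 0 := fun z hz =>
    ha z ((hZ z).1 hz).1 ((hZ z).1 hz).2.1 ((hZ z).1 hz).2.2
  have hcont : ContinuousOn (wiU phi q Z) (sphere 0 1 \ F) :=
    wi_cont' h.cont fun z hz => ⟨(hreg z hz).1.differentiableAt, ((hZ z).1 hz).2.2⟩
  have hne : ∀ z ∈ sphere (0 : ℂ) 1, z ∉ F → wiU phi q Z z ≠ 0 := fun z hz hzF =>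
    wi_ne (fun w hw => (hreg w hw).2) fun h1 h2 => h1 ((hZ _).2 ⟨hz, hzF, h2⟩)
  have htZ : ∀ t ∈ F, t ∉ Z := fun t ht h1 => ((hZ t).1 h1).2.1 ht
  have hseg := fun t ht => ne_seg (hq t ht)
  obtain ⟨kap, hkap⟩ : ∃ kap : ℂ → ℂ, kap = fun t => Complex.log ((v t - q) / (u t - q)) :=
    ⟨_, rfl⟩
  obtain ⟨n, g, hg, hng⟩ := normal_form h.circ hr (psi := wiU phi q Z) hcont hne
    (a := fun t => (u t - q) / ∏ i ∈ Z, (t - i)) (b := fun t => (v t - q) / ∏ i ∈ Z, (t - i))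
    (kap := kap) (fun t ht => wi_lim (htZ t ht) (tend_L t) (h.lim_left t ht))
    (fun t ht => wi_lim (htZ t ht) (tend_R t) (h.lim_right t ht))
    (fun t ht => div_ne_zero (hseg t ht).1 (wi_prod_ne (htZ t ht)))
    (fun t ht => div_ne_zero (hseg t ht).2 (wi_prod_ne (htZ t ht)))
    (fun t ht => by
      rw [hkap, div_div_div_cancel_right₀ (wi_prod_ne (htZ t ht))]
      exact Complex.exp_log (div_ne_zero (hseg t ht).2 (hseg t ht).1))
  obtain ⟨t, ht⟩ : ∃ t : Fin Z.card → ℂ, t = fun j => (Z.equivFin.symm j : ℂ) := ⟨_, rfl⟩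
  have hinj : Function.Injective t := fun i j hij => by
    rw [ht] at hij
    exact Z.equivFin.symm.injective (Subtype.ext hij)
  have htm : ∀ j, t j ∈ Z := fun j => by
    rw [ht]
    exact (Z.equivFin.symm j).2
  have hprod : ∀ w : ℂ, ∏ j, (w - t j) = ∏ i ∈ Z, (w - i) := fun w => by
    rw [ht, ← Finset.prod_coe_sort Z fun i => w - i]
    exact Equiv.prod_comp Z.equivFin.symm fun i => w - (i : ℂ)
  refine ⟨n, Z.card, t, hinj, fun j => ⟨?_, (hreg _ (htm j)).1, ((hZ _).1 (htm j)).2.2,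
    (hreg _ (htm j)).2⟩, ?_⟩
  · rw [← mem_sphere_zero_iff_norm]
    exact ((hZ _).1 (htm j)).1
  have h1 := isUnit_expJ h.circ hr hg (kap := kap) fun t ht => by
    rw [hkap]
    exact log_im (hq t ht)
  rw [mf_congr (b := fun x => exp (g (e x) + ∑ t ∈ F, kap t * (ch r t (e x) : ℂ))) ?_]
  · exact h1
  · filter_upwards [ae_notin F, ae_notin Z] with x hx hx2
    have h2 := hng (e x) (he x) hx
    unfold wiU at h2
    rw [if_neg hx2] at h2
    rw [hprod, h2, ← mul_assoc, ← zpow_add₀ (PsiAux.e_ne x), neg_add_cancel, zpow_zero, one_mul]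

theorem exists_sm (h : Cv phi F u v) (hz : ‖z‖ = 1) (hzF : z ∉ F) (ha : AnalyticAt ℂ phi z)
    (hd : deriv phi z ≠ 0) (hs : ∀ t ∈ F, phi z ∉ segment ℝ (u t) (v t))
    (hu : ∀ z' : ℂ, ‖z'‖ = 1 → z' ∉ F → phi z' = phi z → z' = z) : ∃ x, Sm phi z x := by
  obtain ⟨x, hx⟩ := exists_iq h hs fun z' hz' hzF' hq => by
    rw [hu z' (mem_sphere_zero_iff_norm.1 hz') hzF' hq]
    exact ⟨ha, hd⟩
  refine ⟨x, Sm.of_iq (memLp_cv h) hx hz ha rfl fun z' hz' ha' hq => ?_⟩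
  by_cases hF' : z' ∈ F
  · exfalso
    apply hs z' hF'
    have h1 : Tendsto (fun x : ℝ => phi (z' * E (-x))) (𝓝[>] 0) (𝓝 (phi z')) :=
      ha'.continuousAt.tendsto.comp (tend_L z')
    rw [← hq, tendsto_nhds_unique h1 (h.lim_left z' hF')]
    exact left_mem_segment ℝ _ _
  · exact hu z' hz' hF' hq

end Pool.Agent.TBirK
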