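import Pool.Agent.TBirK.Fak
import Pool.Agent.TBirK.Wjk

/-!
# Simple points of class `C^1`

`exists_sc`: as `exists_iq`, `exists_sm` in TBirJ/Wjj.lean: the function `(phi z - phi z0) / (z - z0)` (with the value `D(x0) / (i z0) ≠ 0` at `z0 = E x0`, `D` the derivative of `phi (E y)`) is continuous off `F` and has no zero (`hu`), the one-sided limits at `t` in `F` are `(u t - phi z0) / (t - z0)`, `(v t - phi z0) / (t - z0)`, not zero, with
quotient in the slit plane (`hs`). `normal_form`, `isUnit_expJ`: a unit with `x` = the integer of the normal form. The other parts of `Sc`: `fac_near`, `fac_in`, `fac_out` (almost every `y` has `e y ∉ F`, `e y ≠ z0`).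
-/

set_option autoImplicit false

open MeasureTheory Complex Set Filter Topology Metric AddCircle
open scoped ComplexConjugate InnerProductSpace ENNReal

namespace Pool.Agent.TBirK

open Pool.Agent.TBir Pool.Agent.TBirG Pool.Agent.TBirC Pool.Agent.TBirJ
open Pool.Agent.TBirP (E qT)

namespace EskA

open WjA

theorem E_add (x y : ℝ) : E (x + y) = E x * E y := by
  unfold E
  rw [← exp_add]
  congr 1
  push_cast
  ring

theorem hasDeriv_E (z0 : ℂ) : HasDerivAt (fun x : ℝ => z0 * E x) (z0 * I) 0 := by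
  have h1 : HasDerivAt (fun x : ℝ => ((x : ℝ) : ℂ)) 1 0 := by
    have := (hasDerivAt_id (0 : ℝ)).ofReal_comp
    simpa using this
  have h2 := ((h1.mul_const I).cexp).const_mul z0
  have h3 : z0 * (exp (((0 : ℝ) : ℂ) * I) * (1 * I)) = z0 * I := by
    rw [ofReal_zero, zero_mul, exp_zero, one_mul, one_mul]
  rw [h3] at h2
  exact h2

theorem exists_E {z0 : ℂ} (hz : ‖z0‖ = 1) : ∃ x0 : ℝ, E x0 = z0 := by
  refine ⟨arg z0, ?_⟩
  have := Complex.norm_mul_exp_arg_mul_I z0
  rw [hz, ofReal_one, one_mul] at this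
  exact this

theorem arg_E {z0 w : ℂ} (hz : ‖z0‖ = 1) (hw : ‖w‖ = 1) : z0 * E (arg (w / z0)) = w := by
  have h0 : z0 ≠ 0 := fun h => by
    rw [h, norm_zero] at hz
    exact zero_ne_one hz
  have h1 : ‖w / z0‖ = 1 := by rw [norm_div, hz, hw, div_one]
  have h2 := Complex.norm_mul_exp_arg_mul_I (w / z0)
  rw [h1, ofReal_one, one_mul] at h2
  unfold E
  rw [h2]
  field_simp

/-- The quotient, with the value `p` at `z0`. -/
noncomputable def psi (phi : ℂ → ℂ) (z0 p z : ℂ) : ℂ :=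
  open Classical in if z = z0 then p else (phi z - phi z0) / (z - z0)

theorem psi_ne {phi : ℂ → ℂ} {z0 p z : ℂ} (h : z ≠ z0) :
    psi phi z0 p z = (phi z - phi z0) / (z - z0) := by
  unfold psi
  rw [if_neg h]

theorem psi_eq {phi : ℂ → ℂ} {z0 p : ℂ} : psi phi z0 p z0 = p := by
  unfold psi
  rw [if_pos rfl]

/-- The quotient is continuous at `z0` along the circle. -/
theorem psi_cont_at {phi : ℂ → ℂ} {z0 D : ℂ} (hz : ‖z0‖ = 1)
    (hD : HasDerivAt (fun x : ℝ => phi (z0 * E x)) D 0) :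
    ContinuousWithinAt (psi phi z0 (D / (z0 * I))) (sphere 0 1) z0 := by
  classical
  have h0 : z0 ≠ 0 := fun h => by
    rw [h, norm_zero] at hz
    exact zero_ne_one hz
  have hI : z0 * I ≠ 0 := mul_ne_zero h0 I_ne_zero
  have hE := hasDeriv_E z0
  rw [hasDerivAt_iff_tendsto_slope] at hD hE
  have h1 := hD.div hE hI
  have h2 : Tendsto (fun x : ℝ => (phi (z0 * E x) - phi z0) / (z0 * E x - z0)) (𝓝[≠] 0)
      (𝓝 (D / (z0 * I))) := by
    refine h1.congr' ?_
    filter_upwards [self_mem_nhdsWithin] with x hx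
    have hx0 : (x : ℂ) ≠ 0 := by
      rw [Ne, ofReal_eq_zero]
      exact hx
    simp only [Pi.div_apply, slope_def_module, sub_zero, E_zero, mul_one]
    rw [real_smul, real_smul, mul_div_mul_left]
    rw [ofReal_inv]
    exact inv_ne_zero hx0
  have h3 : ContinuousAt (fun x : ℝ => if x = 0 then D / (z0 * I) else
      (phi (z0 * E x) - phi z0) / (z0 * E x - z0)) 0 := by
    rw [continuousAt_iff_punctured_nhds]
    simp only [if_true]
    refine h2.congr' ?_
    filter_upwards [self_mem_nhdsWithin] with x hx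
    have hx' : x ≠ 0 := hx
    rw [if_neg hx']
  have h4 : ContinuousAt (fun w : ℂ => arg (w / z0)) z0 := by
    have h5 : ContinuousAt (fun w : ℂ => w / z0) z0 := by fun_prop
    refine ContinuousAt.comp (g := arg) (f := fun w : ℂ => w / z0) (Complex.continuousAt_arg ?_) h5
    rw [div_self h0]
    exact Or.inl (by simp)
  have h6 : arg (z0 / z0) = 0 := by rw [div_self h0, arg_one]
  have h7 : ContinuousAt ((fun x : ℝ => if x = 0 then D / (z0 * I) else
      (phi (z0 * E x) - phi z0) / (z0 * E x - z0)) ∘ fun w : ℂ => arg (w / z0)) z0 := by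
    refine ContinuousAt.comp ?_ h4
    show ContinuousAt _ (arg (z0 / z0))
    rw [h6]
    exact h3
  have key : ∀ w ∈ sphere (0 : ℂ) 1, psi phi z0 (D / (z0 * I)) w =
      ((fun x : ℝ => if x = 0 then D / (z0 * I) else
      (phi (z0 * E x) - phi z0) / (z0 * E x - z0)) ∘ fun w : ℂ => arg (w / z0)) w := by
    intro w hw
    have hw1 := mem_sphere_zero_iff_norm.1 hw
    have h8 := arg_E hz hw1
    by_cases hwz : w = z0
    · rw [hwz, psi_eq]
      simp only [Function.comp_apply]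
      rw [if_pos h6]
    · have h9 : arg (w / z0) ≠ 0 := by
        intro h9
        rw [h9, E_zero, mul_one] at h8
        exact hwz h8.symm
      rw [psi_ne hwz]
      simp only [Function.comp_apply]
      rw [if_neg h9, h8]
  exact h7.continuousWithinAt.congr (fun w hw => key w hw)
    (key z0 (mem_sphere_zero_iff_norm.2 hz))

theorem psi_cont {phi : ℂ → ℂ} {z0 D : ℂ} {F : Finset ℂ} (hz : ‖z0‖ = 1)
    (hc : ContinuousOn phi (sphere 0 1 \ F))
    (hD : HasDerivAt (fun x : ℝ => phi (z0 * E x)) D 0) :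
    ContinuousOn (psi phi z0 (D / (z0 * I))) (sphere 0 1 \ F) := by
  intro w hw
  by_cases hwz : w = z0
  · rw [hwz]
    exact (psi_cont_at hz hD).mono sdiff_subset
  · have h1 : psi phi z0 (D / (z0 * I)) =ᶠ[𝓝 w] fun w => (phi w - phi z0) / (w - z0) := by
      filter_upwards [isOpen_ne.mem_nhds hwz] with x hx
      exact psi_ne hx
    have h2 : ContinuousWithinAt (fun w => (phi w - phi z0) / (w - z0)) (sphere 0 1 \ F) w :=
      ((hc w hw).sub continuousWithinAt_const).div (by fun_prop) (sub_ne_zero.2 hwz)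
    exact h2.congr_of_eventuallyEq (h1.filter_mono nhdsWithin_le_nhds) h1.eq_of_nhds

theorem psi_lim {phi : ℂ → ℂ} {z0 p a t : ℂ} (ht : t ≠ z0) {f : ℝ → ℂ}
    (hf : Tendsto f (𝓝[>] 0) (𝓝 t)) (hp : Tendsto (fun x => phi (f x)) (𝓝[>] 0) (𝓝 a)) :
    Tendsto (fun x => psi phi z0 p (f x)) (𝓝[>] 0) (𝓝 ((a - phi z0) / (t - z0))) := by
  have h2 := (hp.sub_const (phi z0)).div (hf.sub_const z0) (sub_ne_zero.2 ht)
  refine h2.congr' ?_
  filter_upwards [hf.eventually_ne ht] with x hx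
  rw [psi_ne hx]
  rfl

end EskA

open EskA WjA

theorem exists_sc {phi : ℂ → ℂ} {F : Finset ℂ} {u v : ℂ → ℂ} {z : ℂ} (h : PwC phi F u v)
    (hz : ‖z‖ = 1) (hzF : z ∉ F) (hs : ∀ t ∈ F, phi z ∉ segment ℝ (u t) (v t))
    (hu : ∀ z' : ℂ, ‖z'‖ = 1 → z' ∉ F → phi z' = phi z → z' = z) :
    ∃ x, Sc phi (Gam phi F u v) z x := by
  classical
  have hcv := h.cv
  have hz0 : z ≠ 0 := fun h => by
    rw [h, norm_zero] at hz
    exact zero_ne_one hz
  obtain ⟨x0, hx0⟩ := exists_E hz
  obtain ⟨hd, hD0, -⟩ := h.reg x0 (by rw [hx0]; exact hzF)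
  obtain ⟨D, hDdef⟩ : ∃ D : ℂ, D = deriv (fun y : ℝ => phi (E y)) x0 := ⟨_, rfl⟩
  have hD1 : HasDerivAt (fun y : ℝ => phi (E y)) D x0 := by
    rw [hDdef]
    exact hd.hasDerivAt
  have hD : HasDerivAt (fun x : ℝ => phi (z * E x)) D 0 := by
    have h1 : HasDerivAt (fun y : ℝ => phi (E y)) D (x0 + 0) := by rw [add_zero]; exact hD1
    have h2 := h1.comp_const_add x0 0
    refine h2.congr_of_eventuallyEq (Filter.Eventually.of_forall fun x => ?_)
    simp only
    rw [E_add, hx0]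
  have hp0 : D / (z * I) ≠ 0 := by
    refine div_ne_zero ?_ (mul_ne_zero hz0 I_ne_zero)
    rw [hDdef]
    exact hD0
  have hseg := fun t ht => ne_seg (hs t ht)
  have htz : ∀ t ∈ F, t ≠ z := fun t ht h1 => hzF (h1 ▸ ht)
  obtain ⟨r, hr⟩ := exists_rad h.circ
  obtain ⟨kap, hkap⟩ : ∃ kap : ℂ → ℂ, kap = fun t => Complex.log ((v t - phi z) / (u t - phi z)) :=
    ⟨_, rfl⟩
  have hne : ∀ w ∈ sphere (0 : ℂ) 1, w ∉ F → psi phi z (D / (z * I)) w ≠ 0 := by
    intro w hw hwF
    by_cases hwz : w = z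
    · rw [hwz, psi_eq]
      exact hp0
    · rw [psi_ne hwz]
      refine div_ne_zero (sub_ne_zero.2 fun h1 => hwz ?_) (sub_ne_zero.2 hwz)
      exact hu w (mem_sphere_zero_iff_norm.1 hw) hwF h1
  obtain ⟨n, g, hg, hng⟩ := normal_form h.circ hr (psi := psi phi z (D / (z * I)))
    (psi_cont hz hcv.cont hD) hne
    (a := fun t => (u t - phi z) / (t - z)) (b := fun t => (v t - phi z) / (t - z))
    (kap := kap) (fun t ht => psi_lim (htz t ht) (tend_L t) (hcv.lim_left t ht))
    (fun t ht => psi_lim (htz t ht) (tend_R t) (hcv.lim_right t ht))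
    (fun t ht => div_ne_zero (hseg t ht).1 (sub_ne_zero.2 (htz t ht)))
    (fun t ht => div_ne_zero (hseg t ht).2 (sub_ne_zero.2 (htz t ht)))
    (fun t ht => by
      rw [hkap, div_div_div_cancel_right₀ (sub_ne_zero.2 (htz t ht))]
      exact Complex.exp_log (div_ne_zero (hseg t ht).2 (hseg t ht).1))
  have hae : ∀ᵐ y ∂mu0, e y ∉ F ∧ e y ≠ z := by
    filter_upwards [ae_notin F, ae_notin {z}] with y h1 h2
    exact ⟨h1, fun h3 => h2 (Finset.mem_singleton.2 h3)⟩
  have hAp : ∀ {l g' : ℂ} {eps : ℝ}, (∀ w ∈ sphere (0 : ℂ) 1, w ∉ F → w ≠ z →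
      ‖(phi w - l) / (w - g') - (phi w - phi z) / (w - z)‖ ≤ eps) → Ap phi z l g' eps := by
    intro l g' eps h1
    filter_upwards [hae] with y hy
    exact h1 (e y) (he y) hy.1 hy.2
  refine ⟨n, hz, ?_, ?_, ?_, ?_⟩
  · have h1 := isUnit_expJ h.circ hr hg (kap := kap) fun t ht => by
      rw [hkap]
      exact log_im (hs t ht)
    rw [mf_congr (b := fun x => exp (g (e x) + ∑ t ∈ F, kap t * (ch r t (e x) : ℂ))) ?_]
    · exact h1
    · filter_upwards [hae] with x hx
      have h2 := hng (e x) (he x) hx.1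
      rw [psi_ne hx.2] at h2
      rw [h2, ← mul_assoc, ← zpow_add₀ (PsiAux.e_ne x), neg_add_cancel, zpow_zero, one_mul]
  · intro eps heps
    filter_upwards [fac_near h hz hzF heps] with l hl hlK
    obtain ⟨g', hg', hg1, hg2⟩ := hl fun h1 => hlK (Or.inl h1)
    exact ⟨g', hg', hg1, hAp hg2⟩
  · intro eps heps
    refine (fac_in h hz hzF heps).mono fun l hl => ?_
    obtain ⟨g', hg', hg1, hg2⟩ := hl
    exact ⟨g', hg', hg1, hAp hg2⟩
  · intro eps heps
    refine (fac_out h hz hzF heps).mono fun l hl => ?_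
    obtain ⟨g', hg', hg1, hg2⟩ := hl
    exact ⟨g', hg', hg1, hAp hg2⟩

end Pool.Agent.TBirK
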