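import Pool.Agent.TBirK.Cvk

/-!
# Approximate factors at a simple point of class `C^1`

`c y = phi (E y)`, `z0 = E x0`, `D = c'`. For `t = E τ` near `z0` and small real `s ≠ 0` let `l = phi t + i s D(τ)` and `g = t (1 - s)`. With `p = D(τ) / (i t)` (the derivative along the circle with respect to `z`) and `m z = (phi z - phi t) / (z - t)` the quotient is
`(phi z - l) / (z - g) = (m z (z - t) + s t p) / ((z - t) + s t) = p + (m z - p) (z - t) / ((z - t) + s t)`, and `|z - t| ≤ 2 |z - g|` (`|z - g| ≥ |s|`). For `z` near `z0` the number `m z - p` is small (mean value inequality, `D` is continuous at `x0`), `p` is near `D(x0) / (i z0)`, and `(phi z - phi z0) / (z - z0)` too; for `z` away from `z0`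
the quotient is near `(phi z - phi z0) / (z - z0)` because `l` is near `phi z0`, `g` near `z0`, `phi` is bounded off `F`. This is `fac_ex` (an auxiliary statement). `fac_near`: `τ` = a point of a small interval around `x0` such that `phi (E τ)` is nearest to `l`; for `l` near `phi z0` it is an interior point and near `x0` (`hu` is not needed: `c` is
injective near `x0`, but only on a small interval), so `re ((l - phi t) * conj D) = 0`, `l - phi t = i s D` with `s` real, `s ≠ 0` because `l` is not a value. `fac_in`: `τ = x0`, `0 < s`; `fac_out`: `s < 0`.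
-/

set_option autoImplicit false

open MeasureTheory Complex Set Filter Topology Metric AddCircle
open scoped ComplexConjugate InnerProductSpace ENNReal

namespace Pool.Agent.TBirK

open Pool.Agent.TBir Pool.Agent.TBirG Pool.Agent.TBirC Pool.Agent.TBirJ
open Pool.Agent.TBirP (E qT)

variable {phi : ℂ → ℂ} {F : Finset ℂ} {u v : ℂ → ℂ} {z0 : ℂ}

private theorem fk_norm_E (x : ℝ) : ‖E x‖ = 1 := by
  unfold E
  exact Complex.norm_exp_ofReal_mul_I x

private theorem fk_E_add (x y : ℝ) : E (x + y) = E x * E y := by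
  unfold E
  rw [← Complex.exp_add]
  push_cast
  rw [add_mul]

private theorem fk_E_cont : Continuous E := by
  unfold E
  fun_prop

private theorem fk_E_strict (x : ℝ) : HasStrictDerivAt E (I * E x) x := by
  have h1 : HasStrictDerivAt (fun y : ℝ => ((y : ℂ) * I)) (1 * I) x :=
    (Complex.ofRealCLM.hasStrictFDerivAt.hasStrictDerivAt (x := x)).mul_const I
  have h2 := h1.cexp
  unfold E
  refine h2.congr_deriv ?_
  ring

private theorem fk_arg {z : ℂ} (hz : ‖z‖ = 1) : E (arg z) = z := by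
  unfold E
  have h := Complex.norm_mul_exp_arg_mul_I z
  rw [hz] at h
  simpa using h

private theorem fk_inv {z0 : ℂ} {x0 : ℝ} (h0 : E x0 = z0) {δ : ℝ} (hδ : 0 < δ) :
    ∃ d : ℝ, 0 < d ∧ ∀ z : ℂ, ‖z‖ = 1 → ‖z - z0‖ < d → ∃ y : ℝ, |y - x0| < δ ∧ E y = z := by
  have hz0 : ‖z0‖ = 1 := by rw [← h0]; exact fk_norm_E x0
  have hne : z0 ≠ 0 := by
    intro h
    rw [h, norm_zero] at hz0
    exact zero_ne_one hz0
  have h1 : ContinuousAt (fun z : ℂ => arg (z / z0)) z0 := by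
    have h2 : ContinuousAt arg (z0 / z0) := by
      rw [div_self hne]
      exact Complex.continuousAt_arg Complex.one_mem_slitPlane
    exact ContinuousAt.comp (g := arg) (f := fun z : ℂ => z / z0) h2 (by fun_prop)
  rw [Metric.continuousAt_iff] at h1
  obtain ⟨d, hd, h⟩ := h1 δ hδ
  refine ⟨d, hd, fun z hz hzz => ⟨x0 + arg (z / z0), ?_, ?_⟩⟩
  · have h3 := h (x := z) (by rw [dist_eq_norm]; exact hzz)
    rw [div_self hne, arg_one, Real.dist_eq, sub_zero] at h3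
    rw [add_sub_cancel_left]
    exact h3
  · have h4 : ‖z / z0‖ = 1 := by rw [norm_div, hz, hz0, div_one]
    rw [fk_E_add, fk_arg h4, h0]
    field_simp

private theorem fk_bdd (h : PwC phi F u v) : ∃ B : ℝ, 0 ≤ B ∧ ∀ z : ℂ, ‖z‖ = 1 → ‖phi z‖ ≤ B := by
  have h1 : ∀ x : ℝ, ∃ t ∈ 𝓝 x, ∃ B : ℝ, ∀ y ∈ t, ‖phi (E y)‖ ≤ B := by
    intro x
    by_cases hx : E x ∈ F
    · obtain ⟨hl, -⟩ := h.left _ hx
      obtain ⟨hr, -⟩ := h.right _ hx
      have el := hl.norm.eventually_le_const (lt_add_one ‖u (E x)‖)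
      have er := hr.norm.eventually_le_const (lt_add_one ‖v (E x)‖)
      rw [eventually_iff, mem_nhdsGT_iff_exists_Ioo_subset] at el er
      obtain ⟨a, ha, ha'⟩ := el
      obtain ⟨b, hb, hb'⟩ := er
      have ha0 : (0 : ℝ) < a := ha
      have hb0 : (0 : ℝ) < b := hb
      refine ⟨Ioo (x - a) (x + b), Ioo_mem_nhds (by linarith) (by linarith),
        max (max (‖u (E x)‖ + 1) (‖v (E x)‖ + 1)) ‖phi (E x)‖, ?_⟩
      intro y hy
      rcases lt_trichotomy y x with hyx | hyx | hyx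
      · have h2 := ha' (show x - y ∈ Ioo 0 a from ⟨by linarith, by linarith [hy.1]⟩)
        have h3 : E x * E (-1 * (x - y)) = E y := by
          rw [← fk_E_add]
          ring_nf
        simp only [mem_ofPred_eq, h3] at h2
        exact le_max_of_le_left (le_max_of_le_left h2)
      · rw [hyx]
        exact le_max_right _ _
      · have h2 := hb' (show y - x ∈ Ioo 0 b from ⟨by linarith, by linarith [hy.2]⟩)
        have h3 : E x * E (1 * (y - x)) = E y := by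
          rw [← fk_E_add]
          ring_nf
        simp only [mem_ofPred_eq, h3] at h2
        exact le_max_of_le_left (le_max_of_le_right h2)
    · obtain ⟨hd, -, -⟩ := h.reg x hx
      have h2 := hd.continuousAt.norm.eventually_le_const (lt_add_one ‖phi (E x)‖)
      exact ⟨_, h2, ‖phi (E x)‖ + 1, fun y hy => hy⟩
  have h2 : ∃ B : ℝ, ∀ y ∈ Icc (-Real.pi) Real.pi, ‖phi (E y)‖ ≤ B := by
    refine isCompact_Icc.induction_on (p := fun S : Set ℝ => ∃ B : ℝ, ∀ y ∈ S, ‖phi (E y)‖ ≤ B)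
      ⟨0, fun y hy => absurd hy (notMem_empty y)⟩ ?_ ?_ ?_
    · rintro s t hst ⟨B, hB⟩
      exact ⟨B, fun y hy => hB y (hst hy)⟩
    · rintro s t ⟨B, hB⟩ ⟨C, hC⟩
      refine ⟨max B C, ?_⟩
      rintro y (hy | hy)
      · exact le_max_of_le_left (hB y hy)
      · exact le_max_of_le_right (hC y hy)
    · intro x _
      obtain ⟨t, ht, B, hB⟩ := h1 x
      exact ⟨t, mem_nhdsWithin_of_mem_nhds ht, B, hB⟩
  obtain ⟨B, hB⟩ := h2
  refine ⟨max B 0, le_max_right _ _, fun z hz => ?_⟩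
  have h3 := hB (arg z) ⟨(Complex.neg_pi_lt_arg z).le, Complex.arg_le_pi z⟩
  rw [fk_arg hz] at h3
  exact le_max_of_le_left h3

private theorem fk_strict (h : PwC phi F u v) {x0 : ℝ} (hF : E x0 ∉ F) :
    HasStrictDerivAt (fun y : ℝ => phi (E y)) (deriv (fun y : ℝ => phi (E y)) x0) x0 := by
  have h1 : ∀ᶠ y in 𝓝 x0, E y ∉ F := by
    have h2 : IsClosed (F : Set ℂ) := F.finite_toSet.isClosed
    exact fk_E_cont.continuousAt.eventually (h2.isOpen_compl.mem_nhds hF)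
  refine hasStrictDerivAt_of_hasDerivAt_of_continuousAt ?_ (h.reg x0 hF).2.2
  filter_upwards [h1] with y hy
  exact (h.reg y hy).1.hasDerivAt

private theorem fk_lo {f : ℝ → ℂ} {f' : ℂ} {x0 : ℝ} (h : HasStrictDerivAt f f' x0) {e : ℝ} (he : 0 < e) :
    ∃ δ : ℝ, 0 < δ ∧ ∀ y τ : ℝ, |y - x0| < δ → |τ - x0| < δ →
      ‖f y - f τ - ((y - τ : ℝ) : ℂ) * f'‖ ≤ e * |y - τ| := by
  have h1 := hasStrictFDerivAt_iff_isLittleO.1 h.hasStrictFDerivAt
  have h2 := h1.def he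
  rw [Metric.eventually_nhds_iff] at h2
  obtain ⟨δ, hδ, h3⟩ := h2
  refine ⟨δ, hδ, fun y τ hy hτ => ?_⟩
  have h4 := h3 (y := (y, τ)) (by
    rw [Prod.dist_eq, Real.dist_eq, Real.dist_eq]
    exact max_lt hy hτ)
  have h5 : ((y - τ : ℝ) : ℂ) * f' = (ContinuousLinearMap.toSpanSingleton ℝ f') (y - τ) := by
    rw [ContinuousLinearMap.toSpanSingleton_apply, Complex.real_smul]
  rw [h5]
  simpa only [Real.norm_eq_abs] using h4

private theorem fk_near (h : PwC phi F u v) {x0 : ℝ} (h0 : E x0 = z0) (hzF : z0 ∉ F) {e : ℝ} (he : 0 < e) :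
    ∃ δ : ℝ, 0 < δ ∧ ∀ y τ : ℝ, |y - x0| < δ → |τ - x0| < δ →
      ‖phi (E y) - phi (E τ) - deriv (fun y : ℝ => phi (E y)) x0 / (I * z0) * (E y - E τ)‖ ≤ e * ‖E y - E τ‖ := by
  have hz0 : ‖z0‖ = 1 := by rw [← h0]; exact fk_norm_E x0
  have hne : z0 ≠ 0 := by
    intro h
    rw [h, norm_zero] at hz0
    exact zero_ne_one hz0
  have hx0 : E x0 ∉ F := by rw [h0]; exact hzF
  have hs := fk_strict h hx0
  generalize deriv (fun y : ℝ => phi (E y)) x0 = D at hs ⊢
  have hG : HasStrictDerivAt (fun y : ℝ => phi (E y) - D / (I * z0) * E y) 0 x0 := by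
    refine (hs.sub ((fk_E_strict x0).const_mul (D / (I * z0)))).congr_deriv ?_
    rw [h0, div_mul_cancel₀ _ (mul_ne_zero I_ne_zero hne), sub_self]
  obtain ⟨d1, hd1, k1⟩ := fk_lo hG (e := e / 2) (by positivity)
  obtain ⟨d2, hd2, k2⟩ := fk_lo (fk_E_strict x0) (e := 1 / 2) (by norm_num)
  refine ⟨min d1 d2, lt_min hd1 hd2, fun y τ hy hτ => ?_⟩
  have a1 := k1 y τ (lt_of_lt_of_le hy (min_le_left _ _)) (lt_of_lt_of_le hτ (min_le_left _ _))
  have a2 := k2 y τ (lt_of_lt_of_le hy (min_le_right _ _)) (lt_of_lt_of_le hτ (min_le_right _ _))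
  rw [mul_zero, sub_zero] at a1
  have a3 : ‖((y - τ : ℝ) : ℂ) * (I * E x0)‖ = |y - τ| := by
    rw [norm_mul, norm_mul, Complex.norm_I, fk_norm_E, Complex.norm_real, Real.norm_eq_abs]
    ring
  have a4 : |y - τ| ≤ ‖E y - E τ‖ + 1 / 2 * |y - τ| := by
    calc |y - τ| = ‖((y - τ : ℝ) : ℂ) * (I * E x0)‖ := a3.symm
      _ = ‖(E y - E τ) - (E y - E τ - ((y - τ : ℝ) : ℂ) * (I * E x0))‖ := by
          congr 1
          ring
      _ ≤ ‖E y - E τ‖ + ‖E y - E τ - ((y - τ : ℝ) : ℂ) * (I * E x0)‖ := norm_sub_le _ _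
      _ ≤ _ := by linarith
  have a5 : phi (E y) - phi (E τ) - D / (I * z0) * (E y - E τ) =
      (phi (E y) - D / (I * z0) * E y) - (phi (E τ) - D / (I * z0) * E τ) := by ring
  rw [a5]
  refine a1.trans ?_
  nlinarith

private theorem fk_ex (h : PwC phi F u v) {x0 : ℝ} (h0 : E x0 = z0) (hzF : z0 ∉ F) {eps : ℝ}
    (heps : 0 < eps) :
    ∃ δ : ℝ, 0 < δ ∧ ∀ τ s : ℝ, |τ - x0| ≤ δ → s ≠ 0 → |s| ≤ δ →
      E τ * (1 - s) ∈ ball z0 eps ∧ |s| < 1 / 2 ∧ ∀ z ∈ sphere (0 : ℂ) 1, z ≠ z0 →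
        ‖(phi z - (phi (E τ) + I * s * deriv (fun y : ℝ => phi (E y)) τ)) / (z - E τ * (1 - s)) -
          (phi z - phi z0) / (z - z0)‖ ≤ eps := by
  have hz0 : ‖z0‖ = 1 := by rw [← h0]; exact fk_norm_E x0
  have hne : z0 ≠ 0 := by
    intro h
    rw [h, norm_zero] at hz0
    exact zero_ne_one hz0
  have hx0 : E x0 ∉ F := by rw [h0]; exact hzF
  obtain ⟨B, hB0, hB⟩ := fk_bdd h
  have hcc : ContinuousAt (fun y : ℝ => phi (E y)) x0 := (h.reg x0 hx0).1.continuousAt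
  have hDc : ContinuousAt (deriv fun y : ℝ => phi (E y)) x0 := (h.reg x0 hx0).2.2
  obtain ⟨d1, hd1, near⟩ := fk_near h h0 hzF (e := eps / 8) (by positivity)
  generalize (deriv fun y : ℝ => phi (E y)) = D at near hDc ⊢
  obtain ⟨d, hd, k3⟩ := fk_inv h0 hd1
  have hη : ∃ η : ℝ, 0 < η ∧ η ≤ d / 2 ∧ η ≤ eps / 2 ∧ 2 * B * η * (2 / d * (1 / d)) + η * (2 / d) ≤ eps := by
    refine ⟨min (min (d / 2) (eps / 2)) (eps / (4 * B / d ^ 2 + 2 / d + 1)), ?_, ?_, ?_, ?_⟩
    · positivity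
    · exact (min_le_left _ _).trans (min_le_left _ _)
    · exact (min_le_left _ _).trans (min_le_right _ _)
    · set K : ℝ := 4 * B / d ^ 2 + 2 / d + 1 with hK
      have hK0 : 0 < K := by positivity
      set η : ℝ := min (min (d / 2) (eps / 2)) (eps / K)
      have h1 : η ≤ eps / K := min_le_right _ _
      have h2 : 0 ≤ η := by positivity
      calc 2 * B * η * (2 / d * (1 / d)) + η * (2 / d) = η * (4 * B / d ^ 2 + 2 / d) := by
            field_simp
            ring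
        _ ≤ η * K := by
            apply mul_le_mul_of_nonneg_left _ h2
            rw [hK]
            linarith
        _ ≤ eps / K * K := by gcongr
        _ = eps := by field_simp
  obtain ⟨η, hη0, hη1, hη2, hη3⟩ := hη
  have ev : ∀ᶠ q : ℝ × ℝ in 𝓝 (x0, 0), |q.1 - x0| < d1 ∧ ‖D q.1 - D x0 * E q.1 / z0‖ < eps / 8 ∧
      ‖E q.1 * (1 - q.2) - z0‖ < η ∧ ‖phi (E q.1) + I * q.2 * D q.1 - phi z0‖ < η ∧ |q.2| < 1 / 2 := by
    have hE : ContinuousAt (fun q : ℝ × ℝ => E q.1) (x0, 0) :=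
      (fk_E_cont.comp continuous_fst).continuousAt
    have hc : ContinuousAt (fun q : ℝ × ℝ => phi (E q.1)) (x0, 0) :=
      ContinuousAt.comp (g := fun y : ℝ => phi (E y)) (f := Prod.fst) hcc continuousAt_fst
    have hDD : ContinuousAt (fun q : ℝ × ℝ => D q.1) (x0, 0) :=
      ContinuousAt.comp (g := D) (f := Prod.fst) hDc continuousAt_fst
    have c1 : ContinuousAt (fun q : ℝ × ℝ => |q.1 - x0|) (x0, 0) := by fun_prop
    have c2 : ContinuousAt (fun q : ℝ × ℝ => ‖D q.1 - D x0 * E q.1 / z0‖) (x0, 0) :=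
      (hDD.sub ((continuousAt_const.mul hE).div_const z0)).norm
    have hs : ContinuousAt (fun q : ℝ × ℝ => ((q.2 : ℝ) : ℂ)) (x0, 0) := by fun_prop
    have c3 : ContinuousAt (fun q : ℝ × ℝ => ‖E q.1 * (1 - q.2) - z0‖) (x0, 0) :=
      ((hE.mul (continuousAt_const.sub hs)).sub continuousAt_const).norm
    have c4 : ContinuousAt (fun q : ℝ × ℝ => ‖phi (E q.1) + I * q.2 * D q.1 - phi z0‖) (x0, 0) :=
      ((hc.add ((continuousAt_const.mul hs).mul hDD)).sub continuousAt_const).norm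
    have c5 : ContinuousAt (fun q : ℝ × ℝ => |q.2|) (x0, 0) := by fun_prop
    have f1 := Tendsto.eventually_lt_const (show |x0 - x0| < d1 by simpa using hd1) c1.tendsto
    have f2 := Tendsto.eventually_lt_const (show ‖D x0 - D x0 * E x0 / z0‖ < eps / 8 by
      rw [h0, mul_div_assoc, div_self hne, mul_one, sub_self, norm_zero]
      positivity) c2.tendsto
    have f3 := Tendsto.eventually_lt_const (show ‖E x0 * (1 - ((0 : ℝ) : ℂ)) - z0‖ < η by
      rw [h0]
      simpa using hη0) c3.tendsto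
    have f4 := Tendsto.eventually_lt_const (show ‖phi (E x0) + I * ((0 : ℝ) : ℂ) * D x0 - phi z0‖ < η by
      rw [h0]
      simpa using hη0) c4.tendsto
    have f5 := Tendsto.eventually_lt_const (show |(0 : ℝ)| < 1 / 2 by simp) c5.tendsto
    filter_upwards [f1, f2, f3, f4, f5] with q g1 g2 g3 g4 g5
    exact ⟨g1, g2, g3, g4, g5⟩
  rw [Metric.eventually_nhds_iff] at ev
  obtain ⟨r, hr, ev⟩ := ev
  refine ⟨r / 2, by positivity, fun τ s hτ hs0 hs => ?_⟩
  obtain ⟨g1, g2, g3, g4, g5⟩ := ev (y := (τ, s)) (by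
    rw [Prod.dist_eq, Real.dist_eq, Real.dist_eq, sub_zero]
    exact max_lt (by linarith) (by linarith))
  simp only at g1 g2 g3 g4 g5
  refine ⟨by rw [mem_ball, dist_eq_norm]; linarith, g5, fun z hz hzz => ?_⟩
  have hz1 : ‖z‖ = 1 := by simpa using hz
  have hzz' : z - z0 ≠ 0 := sub_ne_zero.2 hzz
  set t : ℂ := E τ with ht
  set g : ℂ := t * (1 - s) with hg
  set l : ℂ := phi t + I * s * D τ with hl
  have hgs : |s| ≤ ‖z - g‖ := by
    have b1 := abs_norm_sub_norm_le z g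
    have b2 : ‖g‖ = 1 - s := by
      rw [hg, norm_mul, ht, fk_norm_E, one_mul]
      have b3 : ((1 : ℂ) - s) = ((1 - s : ℝ) : ℂ) := by push_cast; ring
      rw [b3, Complex.norm_real, Real.norm_eq_abs, abs_of_pos]
      have := (abs_lt.1 g5).2
      linarith
    rw [hz1, b2] at b1
    calc |s| = |1 - (1 - s)| := by ring_nf
      _ ≤ _ := b1
  have hs0' : 0 < |s| := abs_pos.2 hs0
  have hzg : 0 < ‖z - g‖ := lt_of_lt_of_le hs0' hgs
  have hzg' : z - g ≠ 0 := norm_pos_iff.1 hzg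
  by_cases hzd : ‖z - z0‖ < d
  · obtain ⟨y, hy, rfl⟩ := k3 z hz1 hzd
    have n1 := near y τ hy g1
    have n2 := near y x0 hy (by simpa using hd1)
    rw [h0] at n2
    rw [← ht] at n1
    set p : ℂ := D x0 / (I * z0) with hp
    have b1 : ‖E y - t‖ ≤ 2 * ‖E y - g‖ := by
      have b2 : E y - t = (E y - g) - t * s := by rw [hg]; ring
      calc ‖E y - t‖ = ‖(E y - g) - t * s‖ := by rw [b2]
        _ ≤ ‖E y - g‖ + ‖t * s‖ := norm_sub_le _ _
        _ = ‖E y - g‖ + |s| := by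
            rw [norm_mul, ht, fk_norm_E, one_mul, Complex.norm_real, Real.norm_eq_abs]
        _ ≤ _ := by linarith
    have hps : p * (s * t) = - (I * s * (D x0 * t / z0)) := by
      rw [hp]
      have hI : (I : ℂ) ≠ 0 := I_ne_zero
      field_simp
      rw [I_sq]
      ring
    have b3 : phi (E y) - l = p * (E y - g) + ((phi (E y) - phi t - p * (E y - t)) +
        -(I * s * (D τ - D x0 * t / z0))) := by
      rw [hl]
      have b4 : p * (E y - g) = p * (E y - t) + p * (s * t) := by rw [hg]; ring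
      rw [b4, hps]
      ring
    have b5 : (phi (E y) - l) / (E y - g) - p = ((phi (E y) - phi t - p * (E y - t)) +
        -(I * s * (D τ - D x0 * t / z0))) / (E y - g) := by
      rw [b3]
      field_simp
      ring
    have b6 : ‖(phi (E y) - l) / (E y - g) - p‖ ≤ 3 / 8 * eps := by
      rw [b5, norm_div, div_le_iff₀ hzg]
      calc ‖(phi (E y) - phi t - p * (E y - t)) + -(I * s * (D τ - D x0 * t / z0))‖
          ≤ ‖phi (E y) - phi t - p * (E y - t)‖ + ‖-(I * s * (D τ - D x0 * t / z0))‖ :=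
            norm_add_le _ _
        _ = ‖phi (E y) - phi t - p * (E y - t)‖ + |s| * ‖D τ - D x0 * t / z0‖ := by
            rw [norm_neg, norm_mul, norm_mul, Complex.norm_I, one_mul, Complex.norm_real,
              Real.norm_eq_abs]
        _ ≤ eps / 8 * (2 * ‖E y - g‖) + ‖E y - g‖ * (eps / 8) := by
            refine add_le_add (n1.trans (by gcongr)) ?_
            exact mul_le_mul hgs g2.le (norm_nonneg _) (norm_nonneg _)
        _ = 3 / 8 * eps * ‖E y - g‖ := by ring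
    have b7 : ‖(phi (E y) - phi z0) / (E y - z0) - p‖ ≤ eps / 8 := by
      have b8 : (phi (E y) - phi z0) / (E y - z0) - p =
          (phi (E y) - phi z0 - p * (E y - z0)) / (E y - z0) := by
        field_simp
      rw [b8, norm_div, div_le_iff₀ (norm_pos_iff.2 hzz')]
      exact n2
    calc ‖(phi (E y) - l) / (E y - g) - (phi (E y) - phi z0) / (E y - z0)‖
        = ‖((phi (E y) - l) / (E y - g) - p) - ((phi (E y) - phi z0) / (E y - z0) - p)‖ := by
          congr 1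
          ring
      _ ≤ ‖(phi (E y) - l) / (E y - g) - p‖ + ‖(phi (E y) - phi z0) / (E y - z0) - p‖ :=
          norm_sub_le _ _
      _ ≤ eps := by linarith
  · push Not at hzd
    have b1 : d / 2 ≤ ‖z - g‖ := by
      have b2 : ‖z - z0‖ ≤ ‖z - g‖ + ‖g - z0‖ := by
        calc ‖z - z0‖ = ‖(z - g) + (g - z0)‖ := by congr 1; ring
          _ ≤ _ := norm_add_le _ _
      linarith
    have b3 : (phi z - l) / (z - g) - (phi z - phi z0) / (z - z0) =
        (phi z - phi z0) * (g - z0) * (1 / (z - g) * (1 / (z - z0))) - (l - phi z0) * (1 / (z - g)) := by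
      field_simp
      ring
    rw [b3]
    have b4 : ‖1 / (z - g)‖ ≤ 2 / d := by
      rw [norm_div, norm_one, div_le_div_iff₀ hzg hd]
      linarith
    have b5 : ‖1 / (z - z0)‖ ≤ 1 / d := by
      rw [norm_div, norm_one]
      exact one_div_le_one_div_of_le hd hzd
    have b6 : ‖phi z - phi z0‖ ≤ 2 * B := by
      calc ‖phi z - phi z0‖ ≤ ‖phi z‖ + ‖phi z0‖ := norm_sub_le _ _
        _ ≤ 2 * B := by linarith [hB z hz1, hB z0 hz0]
    calc ‖(phi z - phi z0) * (g - z0) * (1 / (z - g) * (1 / (z - z0))) - (l - phi z0) * (1 / (z - g))‖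
        ≤ ‖(phi z - phi z0) * (g - z0) * (1 / (z - g) * (1 / (z - z0)))‖ +
          ‖(l - phi z0) * (1 / (z - g))‖ := norm_sub_le _ _
      _ = ‖phi z - phi z0‖ * ‖g - z0‖ * (‖1 / (z - g)‖ * ‖1 / (z - z0)‖) +
          ‖l - phi z0‖ * ‖1 / (z - g)‖ := by
          simp only [norm_mul]
      _ ≤ 2 * B * η * (2 / d * (1 / d)) + η * (2 / d) := by
          gcongr
      _ ≤ eps := hη3

private theorem fk_norm_g (t : ℝ) {s : ℝ} (hs : |s| < 1 / 2) : ‖E t * (1 - s)‖ = 1 - s := by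
  rw [norm_mul, fk_norm_E, one_mul]
  have b3 : ((1 : ℂ) - s) = ((1 - s : ℝ) : ℂ) := by push_cast; ring
  rw [b3, Complex.norm_real, Real.norm_eq_abs, abs_of_pos]
  have := (abs_lt.1 hs).2
  linarith

theorem fac_near (h : PwC phi F u v) (hz : ‖z0‖ = 1) (hzF : z0 ∉ F) {eps : ℝ} (heps : 0 < eps) :
    ∀ᶠ l in 𝓝 (phi z0), l ∉ phi '' (sphere 0 1 \ F) → ∃ g ∈ ball z0 eps, ‖g‖ ≠ 1 ∧
      ∀ z ∈ sphere (0 : ℂ) 1, z ∉ F → z ≠ z0 →
        ‖(phi z - l) / (z - g) - (phi z - phi z0) / (z - z0)‖ ≤ eps := by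
  have h0 := fk_arg hz
  generalize arg z0 = x0 at h0
  obtain ⟨δ, hδ, k⟩ := fk_ex h h0 hzF heps
  have hx0 : E x0 ∉ F := by rw [h0]; exact hzF
  have hst := fk_strict h hx0
  have hDne := (h.reg x0 hx0).2.1
  have hDc : ContinuousAt (deriv fun y : ℝ => phi (E y)) x0 := (h.reg x0 hx0).2.2
  have hder : ∀ y : ℝ, E y ∉ F → HasDerivAt (fun y : ℝ => phi (E y)) (deriv (fun y : ℝ => phi (E y)) y) y :=
    fun y hy => (h.reg y hy).1.hasDerivAt
  generalize (deriv fun y : ℝ => phi (E y)) = D at k hst hDne hDc hder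
  have hD0 : 0 < ‖D x0‖ := norm_pos_iff.2 hDne
  obtain ⟨d1, hd1, k1⟩ := fk_lo hst (e := ‖D x0‖ / 2) (by positivity)
  have ev1 : ∀ᶠ y in 𝓝 x0, E y ∉ F := by
    have h2 : IsClosed (F : Set ℂ) := F.finite_toSet.isClosed
    exact fk_E_cont.continuousAt.eventually (h2.isOpen_compl.mem_nhds hx0)
  have ev2 : ∀ᶠ y in 𝓝 x0, ‖D x0‖ / 2 < ‖D y‖ :=
    hDc.norm.tendsto.eventually_const_lt (by linarith)
  obtain ⟨r1, hr1, ev⟩ := Metric.eventually_nhds_iff.1 (ev1.and ev2)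
  have hr : ∃ r : ℝ, 0 < r ∧ r < d1 ∧ r < r1 ∧ r ≤ δ :=
    ⟨min (min (d1 / 2) (r1 / 2)) δ, by positivity,
      lt_of_le_of_lt ((min_le_left _ _).trans (min_le_left _ _)) (by linarith),
      lt_of_le_of_lt ((min_le_left _ _).trans (min_le_right _ _)) (by linarith), min_le_right _ _⟩
  obtain ⟨r, hr0, hrd, hrr, hrδ⟩ := hr
  have hends : ∀ y : ℝ, |y - x0| = r → ‖D x0‖ / 2 * r ≤ ‖phi (E y) - phi z0‖ := by
    intro y hy
    have a1 := k1 y x0 (by rw [hy]; exact hrd) (by simpa using hd1)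
    rw [hy, h0] at a1
    have a2 : ‖((y - x0 : ℝ) : ℂ) * D x0‖ = r * ‖D x0‖ := by
      rw [norm_mul, Complex.norm_real, Real.norm_eq_abs, hy]
    have a3 : ‖((y - x0 : ℝ) : ℂ) * D x0‖ ≤ ‖phi (E y) - phi z0‖ +
        ‖phi (E y) - phi z0 - ((y - x0 : ℝ) : ℂ) * D x0‖ := by
      calc ‖((y - x0 : ℝ) : ℂ) * D x0‖ = ‖(phi (E y) - phi z0) -
            (phi (E y) - phi z0 - ((y - x0 : ℝ) : ℂ) * D x0)‖ := by
            congr 1
            ring
        _ ≤ _ := norm_sub_le _ _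
    rw [a2] at a3
    linarith
  have hρ : 0 < min (‖D x0‖ / 2 * r / 2) (δ * (‖D x0‖ / 2)) := by positivity
  filter_upwards [Metric.ball_mem_nhds (phi z0) hρ] with l hl hlF
  rw [mem_ball, dist_eq_norm] at hl
  have hl1 : ‖l - phi z0‖ < ‖D x0‖ / 2 * r / 2 := lt_of_lt_of_le hl (min_le_left _ _)
  have hl2 : ‖l - phi z0‖ < δ * (‖D x0‖ / 2) := lt_of_lt_of_le hl (min_le_right _ _)
  have hIcc : ∀ y ∈ Icc (x0 - r) (x0 + r), |y - x0| ≤ r := fun y hy =>
    abs_le.2 ⟨by linarith [hy.1], by linarith [hy.2]⟩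
  have hFy : ∀ y ∈ Icc (x0 - r) (x0 + r), E y ∉ F ∧ ‖D x0‖ / 2 < ‖D y‖ := fun y hy =>
    ev (y := y) (by
      rw [Real.dist_eq]
      exact lt_of_le_of_lt (hIcc y hy) hrr)
  have hcont : ContinuousOn (fun y : ℝ => ‖phi (E y) - l‖ ^ 2) (Icc (x0 - r) (x0 + r)) := by
    intro y hy
    have a1 := (hder y (hFy y hy).1).continuousAt
    exact ((a1.sub continuousAt_const).norm.pow 2).continuousWithinAt
  have hmem : x0 ∈ Icc (x0 - r) (x0 + r) := ⟨by linarith, by linarith⟩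
  obtain ⟨τ, hτ, hmin⟩ := isCompact_Icc.exists_isMinOn ⟨x0, hmem⟩ hcont
  have hτ1 : ‖phi (E τ) - l‖ ≤ ‖l - phi z0‖ := by
    have a1 := hmin hmem
    simp only [mem_ofPred_eq, h0] at a1
    rw [norm_sub_rev (phi z0) l] at a1
    exact le_of_sq_le_sq a1 (norm_nonneg _)
  have hτr : |τ - x0| ≠ r := by
    intro hτe
    have a1 := hends τ hτe
    have a2 : ‖phi (E τ) - phi z0‖ ≤ ‖phi (E τ) - l‖ + ‖l - phi z0‖ := by
      calc ‖phi (E τ) - phi z0‖ = ‖(phi (E τ) - l) + (l - phi z0)‖ := by congr 1; ring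
        _ ≤ _ := norm_add_le _ _
    linarith
  have hτ2 : |τ - x0| < r := lt_of_le_of_ne (hIcc τ hτ) hτr
  have hloc : IsLocalMin (fun y : ℝ => ‖phi (E y) - l‖ ^ 2) τ := by
    have a1 : Icc (x0 - r) (x0 + r) ∈ 𝓝 τ :=
      Icc_mem_nhds (by linarith [(abs_lt.1 hτ2).1]) (by linarith [(abs_lt.1 hτ2).2])
    exact hmin.isLocalMin a1
  have hd := ((hder τ (hFy τ hτ).1).sub_const l).norm_sq
  have h1 := hloc.hasDerivAt_eq_zero hd
  have hDτ : 0 < ‖D τ‖ := lt_trans (by positivity) (hFy τ hτ).2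
  have hDτ' : D τ ≠ 0 := norm_pos_iff.1 hDτ
  set q : ℂ := (l - phi (E τ)) / D τ with hq
  have hq1 : l - phi (E τ) = q * D τ := by rw [hq]; field_simp
  have hre : q.re = 0 := by
    rw [Complex.inner] at h1
    have a1 : phi (E τ) - l = -(q * D τ) := by rw [← hq1]; ring
    have a0 : D τ * (starRingEnd ℂ) (phi (E τ) - l) = -((starRingEnd ℂ) q * (‖D τ‖ : ℂ) ^ 2) := by
      rw [a1, map_neg, map_mul, ← Complex.mul_conj']
      ring
    rw [a0, neg_re] at h1
    have a2 : ((starRingEnd ℂ) q * (‖D τ‖ : ℂ) ^ 2).re = q.re * ‖D τ‖ ^ 2 := by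
      rw [← ofReal_pow, re_mul_ofReal, conj_re]
    rw [a2] at h1
    have a3 : ‖D τ‖ ^ 2 ≠ 0 := by positivity
    have a4 : q.re * ‖D τ‖ ^ 2 = 0 := by linarith
    rcases mul_eq_zero.1 a4 with a5 | a5
    · exact a5
    · exact absurd a5 a3
  have hqI : q = I * (q.im : ℂ) := by
    apply Complex.ext
    · rw [hre]
      simp
    · simp
  have hleq : l = phi (E τ) + I * (q.im : ℂ) * D τ := by
    rw [← hqI, ← hq1]
    ring
  have hs0 : q.im ≠ 0 := by
    intro hs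
    apply hlF
    refine ⟨E τ, ⟨?_, (hFy τ hτ).1⟩, ?_⟩
    · rw [mem_sphere_zero_iff_norm]
      exact fk_norm_E τ
    · rw [hleq, hs]
      simp
  have hsδ : |q.im| ≤ δ := by
    have a1 : |q.im| ≤ ‖q‖ := Complex.abs_im_le_norm q
    refine a1.trans ?_
    rw [hq, norm_div, div_le_iff₀ hDτ, norm_sub_rev]
    calc ‖phi (E τ) - l‖ ≤ ‖l - phi z0‖ := hτ1
      _ ≤ δ * (‖D x0‖ / 2) := hl2.le
      _ ≤ δ * ‖D τ‖ := by
        have := (hFy τ hτ).2
        gcongr
  obtain ⟨a, b, c⟩ := k τ q.im (hτ2.le.trans hrδ) hs0 hsδ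
  refine ⟨E τ * (1 - q.im), a, ?_, fun z hz _ hzz => ?_⟩
  · rw [fk_norm_g τ b]
    intro h2
    apply hs0
    linarith
  · have := c z hz hzz
    rwa [← hleq] at this

theorem fac_in (h : PwC phi F u v) (hz : ‖z0‖ = 1) (hzF : z0 ∉ F) {eps : ℝ} (heps : 0 < eps) :
    ∃ᶠ l in 𝓝 (phi z0), ∃ g ∈ ball z0 eps, ‖g‖ < 1 ∧ ∀ z ∈ sphere (0 : ℂ) 1, z ∉ F → z ≠ z0 →
        ‖(phi z - l) / (z - g) - (phi z - phi z0) / (z - z0)‖ ≤ eps := by
  have h0 := fk_arg hz
  generalize arg z0 = x0 at h0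
  obtain ⟨δ, hδ, k⟩ := fk_ex h h0 hzF heps
  generalize (deriv fun y : ℝ => phi (E y)) = D at k
  have hl : Tendsto (fun s : ℝ => phi (E x0) + I * s * D x0) (𝓝[>] 0) (𝓝 (phi z0)) := by
    have h1 : ContinuousAt (fun s : ℝ => phi (E x0) + I * s * D x0) 0 := by fun_prop
    have h2 := h1.tendsto
    rw [h0] at h2 ⊢
    simp only [ofReal_zero, mul_zero, zero_mul, add_zero] at h2
    exact h2.mono_left nhdsWithin_le_nhds
  refine hl.frequently (Eventually.frequently ?_)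
  filter_upwards [Ioc_mem_nhdsGT hδ] with s hs
  obtain ⟨a, b, c⟩ := k x0 s (by simpa using hδ.le) hs.1.ne' (by rw [abs_of_pos hs.1]; exact hs.2)
  refine ⟨E x0 * (1 - s), a, ?_, fun z hz _ hzz => c z hz hzz⟩
  rw [fk_norm_g x0 b]
  linarith [hs.1]

theorem fac_out (h : PwC phi F u v) (hz : ‖z0‖ = 1) (hzF : z0 ∉ F) {eps : ℝ} (heps : 0 < eps) :
    ∃ᶠ l in 𝓝 (phi z0), ∃ g ∈ ball z0 eps, 1 < ‖g‖ ∧ ∀ z ∈ sphere (0 : ℂ) 1, z ∉ F → z ≠ z0 →
        ‖(phi z - l) / (z - g) - (phi z - phi z0) / (z - z0)‖ ≤ eps := by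
  have h0 := fk_arg hz
  generalize arg z0 = x0 at h0
  obtain ⟨δ, hδ, k⟩ := fk_ex h h0 hzF heps
  generalize (deriv fun y : ℝ => phi (E y)) = D at k
  have hl : Tendsto (fun s : ℝ => phi (E x0) + I * ((-s : ℝ) : ℂ) * D x0) (𝓝[>] 0) (𝓝 (phi z0)) := by
    have h1 : ContinuousAt (fun s : ℝ => phi (E x0) + I * ((-s : ℝ) : ℂ) * D x0) 0 := by fun_prop
    have h2 := h1.tendsto
    rw [h0] at h2 ⊢
    simp only [neg_zero, ofReal_zero, mul_zero, zero_mul, add_zero] at h2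
    exact h2.mono_left nhdsWithin_le_nhds
  refine hl.frequently (Eventually.frequently ?_)
  filter_upwards [Ioc_mem_nhdsGT hδ] with s hs
  obtain ⟨a, b, c⟩ := k x0 (-s) (by simpa using hδ.le) (neg_ne_zero.2 hs.1.ne')
    (by rw [abs_neg, abs_of_pos hs.1]; exact hs.2)
  refine ⟨E x0 * (1 - ((-s : ℝ) : ℂ)), a, ?_, fun z hz _ hzz => c z hz hzz⟩
  rw [fk_norm_g x0 b]
  linarith [hs.1]

end Pool.Agent.TBirK
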