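import Pool.Agent.TBirK.Vlk
import Pool.Agent.TBirJ.Kpj

/-!
# Bounds of the jump of the logarithm

Port of TBirJ/Kpj.lean.
-/

set_option autoImplicit false

open MeasureTheory Complex Set Filter Topology Metric AddCircle
open scoped ComplexConjugate InnerProductSpace ENNReal

namespace Pool.Agent.TBirK

open Pool.Agent.TBir Pool.Agent.TBirG Pool.Agent.TBirC Pool.Agent.TBirJ
open Pool.Agent.TBirP (E qT)

variable {phi : ℂ → ℂ} {F : Finset ℂ} {u v : ℂ → ℂ}

private theorem kp_foot (p q : ℂ) (hpq : p ≠ q) (h : (q * conj p).re ≤ 0) :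
    ∃ s : ℝ, 0 ≤ s ∧ s ≤ 1 ∧ ‖((1 - s : ℝ) : ℂ) * p + (s : ℂ) * q‖ * ‖p - q‖ = |(q * conj p).im| := by
  obtain ⟨a, b⟩ := p
  obtain ⟨x, y⟩ := q
  have hre : x * a + y * b ≤ 0 := by
    have : ((⟨x, y⟩ : ℂ) * conj (⟨a, b⟩ : ℂ)).re = x * a + y * b := by
      simp [Complex.mul_re]
    linarith
  have hN : 0 < (a - x) ^ 2 + (b - y) ^ 2 := by
    by_contra hc
    apply hpq
    have h1 : a - x = 0 := by nlinarith [sq_nonneg (a - x), sq_nonneg (b - y)]
    have h2 : b - y = 0 := by nlinarith [sq_nonneg (a - x), sq_nonneg (b - y)]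
    apply Complex.ext
    · simpa using sub_eq_zero.1 h1
    · simpa using sub_eq_zero.1 h2
  refine ⟨(a ^ 2 + b ^ 2 - (x * a + y * b)) / ((a - x) ^ 2 + (b - y) ^ 2), ?_, ?_, ?_⟩
  · apply div_nonneg _ hN.le
    nlinarith [sq_nonneg a, sq_nonneg b]
  · rw [div_le_one hN]
    nlinarith [sq_nonneg x, sq_nonneg y]
  · set N := (a - x) ^ 2 + (b - y) ^ 2 with hNd
    set s := (a ^ 2 + b ^ 2 - (x * a + y * b)) / N with hs
    have hsN : s * N = a ^ 2 + b ^ 2 - (x * a + y * b) := by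
      rw [hs]; field_simp
    have h0 : 0 ≤ ‖((1 - s : ℝ) : ℂ) * (⟨a, b⟩ : ℂ) + (s : ℂ) * (⟨x, y⟩ : ℂ)‖ *
        ‖(⟨a, b⟩ : ℂ) - (⟨x, y⟩ : ℂ)‖ := by positivity
    rw [← abs_of_nonneg h0, ← sq_eq_sq_iff_abs_eq_abs, mul_pow, ← Complex.normSq_eq_norm_sq,
      ← Complex.normSq_eq_norm_sq]
    have e1 : Complex.normSq (((1 - s : ℝ) : ℂ) * (⟨a, b⟩ : ℂ) + (s : ℂ) * (⟨x, y⟩ : ℂ)) =
        ((1 - s) * a + s * x) ^ 2 + ((1 - s) * b + s * y) ^ 2 := by
      rw [Complex.normSq_apply]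
      simp
      ring
    have e2 : Complex.normSq ((⟨a, b⟩ : ℂ) - (⟨x, y⟩ : ℂ)) = N := by
      rw [Complex.normSq_apply]
      simp [hNd]
      ring
    have e3 : ((⟨x, y⟩ : ℂ) * conj (⟨a, b⟩ : ℂ)).im = y * a - x * b := by
      simp [Complex.mul_im]
      ring
    rw [e1, e2, e3]
    have hNN : N * (((1 - s) * a + s * x) ^ 2 + ((1 - s) * b + s * y) ^ 2) =
        (y * a - x * b) ^ 2 := by
      have hN0 : N ≠ 0 := hN.ne'
      rw [hs]
      field_simp
      rw [hNd]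
      ring
    linarith

private theorem kp_arg (p q kap : ℂ) (hp : p ≠ 0) (d : ℝ)
    (hk : exp kap = q / p) (hi : |kap.im| < Real.pi) (hpi : Real.pi / 2 ≤ |kap.im|)
    (hseg : ∀ s : ℝ, 0 ≤ s → s ≤ 1 → d ≤ ‖((1 - s : ℝ) : ℂ) * p + (s : ℂ) * q‖) :
    |kap.im| * ‖p - q‖ ≤ Real.pi * ‖p - q‖ - d := by
  have hP : 0 < Complex.normSq p := Complex.normSq_pos.2 hp
  have h1 : q * conj p = (Complex.normSq p : ℂ) * exp kap := by
    rw [hk, ← Complex.mul_conj]
    field_simp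
  have hre : (q * conj p).re = Complex.normSq p * (Real.exp kap.re * Real.cos kap.im) := by
    rw [h1, Complex.re_ofReal_mul, Complex.exp_re]
  have him : (q * conj p).im = Complex.normSq p * (Real.exp kap.re * Real.sin kap.im) := by
    rw [h1, Complex.im_ofReal_mul, Complex.exp_im]
  have hcos : Real.cos kap.im ≤ 0 := by
    rw [← Real.cos_abs]
    exact Real.cos_nonpos_of_pi_div_two_le_of_le hpi (by linarith [Real.pi_pos])
  have hre0 : (q * conj p).re ≤ 0 := by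
    rw [hre]
    have : 0 < Real.exp kap.re := Real.exp_pos _
    nlinarith [mul_pos hP this]
  have hpq : p ≠ q := by
    rintro rfl
    rw [Complex.mul_conj, Complex.ofReal_re] at hre0
    linarith
  obtain ⟨s, hs0, hs1, hs⟩ := kp_foot p q hpq hre0
  have hn : 0 < ‖p - q‖ := norm_pos_iff.2 (sub_ne_zero.2 hpq)
  have hnorm : |(q * conj p).im| = ‖q‖ * ‖p‖ * Real.sin |kap.im| := by
    have h2 : ‖q‖ = ‖p‖ * Real.exp kap.re := by
      have := congrArg norm hk
      rw [Complex.norm_exp, norm_div] at this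
      rw [this]
      field_simp
    have h3 : Real.sin |kap.im| = |Real.sin kap.im| := by
      have h4 : 0 ≤ Real.sin |kap.im| := Real.sin_nonneg_of_nonneg_of_le_pi (abs_nonneg _) hi.le
      rcases abs_cases kap.im with ⟨h5, -⟩ | ⟨h5, -⟩
      · rw [h5] at h4 ⊢
        rw [abs_of_nonneg h4]
      · rw [h5] at h4 ⊢
        rw [Real.sin_neg] at h4 ⊢
        rw [abs_of_nonpos (by linarith)]
    rw [him, abs_mul, abs_mul, abs_of_pos hP, abs_of_pos (Real.exp_pos _), h3, h2,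
      Complex.normSq_eq_norm_sq]
    ring
  -- `|p| |q| ≤ |p - q|^2`
  have hpr : ‖q‖ * ‖p‖ ≤ ‖p - q‖ ^ 2 := by
    have h5 : ‖p - q‖ ^ 2 = ‖p‖ ^ 2 + ‖q‖ ^ 2 - 2 * (q * conj p).re := by
      rw [← Complex.normSq_eq_norm_sq, ← Complex.normSq_eq_norm_sq, ← Complex.normSq_eq_norm_sq,
        Complex.normSq_sub]
      have : (p * conj q).re = (q * conj p).re := by
        simp [Complex.mul_re]; ring
      rw [this]
    nlinarith [sq_nonneg (‖p‖ - ‖q‖), norm_nonneg p, norm_nonneg q, mul_nonneg (norm_nonneg p) (norm_nonneg q)]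
  have hsin : Real.sin |kap.im| ≤ Real.pi - |kap.im| := by
    rw [← Real.sin_pi_sub]
    exact Real.sin_le (by linarith)
  have hsin0 : 0 ≤ Real.sin |kap.im| := Real.sin_nonneg_of_nonneg_of_le_pi (abs_nonneg _) hi.le
  have h6 : d * ‖p - q‖ ≤ ‖p - q‖ ^ 2 * Real.sin |kap.im| := by
    calc d * ‖p - q‖ ≤ ‖((1 - s : ℝ) : ℂ) * p + (s : ℂ) * q‖ * ‖p - q‖ :=
          mul_le_mul_of_nonneg_right (hseg s hs0 hs1) hn.le
      _ = ‖q‖ * ‖p‖ * Real.sin |kap.im| := by rw [hs, hnorm]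
      _ ≤ ‖p - q‖ ^ 2 * Real.sin |kap.im| := mul_le_mul_of_nonneg_right hpr hsin0
  have h7 : d ≤ ‖p - q‖ * Real.sin |kap.im| := by
    have : d * ‖p - q‖ ≤ (‖p - q‖ * Real.sin |kap.im|) * ‖p - q‖ := by
      calc _ ≤ _ := h6
        _ = _ := by ring
    exact le_of_mul_le_mul_right this hn
  nlinarith

theorem kap_bd (h : Cv phi F u v) : ∃ C c : ℝ, 0 < C ∧ 0 < c ∧ ∀ l ∉ Gam phi F u v,
    infDist l (Gam phi F u v) ≤ 1 → ∀ t ∈ F, ∀ kap : ℂ, exp kap = (v t - l) / (u t - l) →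
    |kap.im| < Real.pi → |kap.im| ≤ Real.pi - c * infDist l (Gam phi F u v) ∧
      Real.exp |kap.re| ≤ C * (infDist l (Gam phi F u v))⁻¹ := by
  set M : ℝ := 1 + ∑ t ∈ F, ‖u t - v t‖ with hM
  have hM1 : 1 ≤ M := by
    have : 0 ≤ ∑ t ∈ F, ‖u t - v t‖ := Finset.sum_nonneg fun t _ => norm_nonneg _
    linarith
  have hM0 : 0 < M := by linarith
  refine ⟨1 + M, M⁻¹, by linarith, inv_pos.2 hM0, fun l hl hd1 t ht kap hk hi => ?_⟩
  set K := Gam phi F u v with hK
  set d := infDist l K with hd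
  have hseg : segment ℝ (u t) (v t) ⊆ K := by
    intro z hz
    rw [hK, Gam]
    exact Or.inr (Set.mem_biUnion (Finset.mem_coe.2 ht) hz)
  have hcl : IsClosed K := (gam_compact h).isClosed
  have hd0 : 0 < d := by
    rw [hd]
    exact (hcl.notMem_iff_infDist_pos ⟨u t, hseg (left_mem_segment ℝ _ _)⟩).1 hl
  have hnM : ‖u t - v t‖ ≤ M := by
    have := Finset.single_le_sum (f := fun t => ‖u t - v t‖) (fun t _ => norm_nonneg _) ht
    linarith
  set p := u t - l with hp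
  set q := v t - l with hq
  have hpq : p - q = u t - v t := by rw [hp, hq]; ring
  have hdle : ∀ z ∈ K, d ≤ ‖z - l‖ := by
    intro z hz
    have := infDist_le_dist_of_mem (x := l) hz
    rwa [dist_comm, dist_eq_norm] at this
  have hpd : d ≤ ‖p‖ := hdle _ (hseg (left_mem_segment ℝ _ _))
  have hqd : d ≤ ‖q‖ := hdle _ (hseg (right_mem_segment ℝ _ _))
  have hp0 : p ≠ 0 := norm_pos_iff.1 (by linarith)
  have hq0 : q ≠ 0 := norm_pos_iff.1 (by linarith)
  have hp1 : 0 < ‖p‖ := by linarith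
  have hq1 : 0 < ‖q‖ := by linarith
  constructor
  · rcases lt_or_ge |kap.im| (Real.pi / 2) with h1 | h1
    · have h2 : M⁻¹ * d ≤ 1 := by
        rw [inv_mul_le_iff₀ hM0]
        linarith
      have := Real.pi_gt_three
      linarith
    · have h3 := kp_arg p q kap hp0 d hk hi h1 (fun s hs0 hs1 => by
        have hz : ((1 - s : ℝ) : ℂ) * u t + (s : ℂ) * v t ∈ segment ℝ (u t) (v t) := by
          refine ⟨1 - s, s, by linarith, hs0, by ring, ?_⟩
          simp only [Complex.real_smul]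
        have h4 := hdle _ (hseg hz)
        have h5 : ((1 - s : ℝ) : ℂ) * u t + (s : ℂ) * v t - l = ((1 - s : ℝ) : ℂ) * p + (s : ℂ) * q := by
          rw [hp, hq]; push_cast; ring
        rwa [h5] at h4)
      rw [hpq] at h3
      set n := ‖u t - v t‖ with hn
      have hn0 : 0 < n := by
        rcases (norm_nonneg (u t - v t)).lt_or_eq with h6 | h6
        · exact h6
        · rw [hn, ← h6] at h3
          linarith
      have h7 : |kap.im| ≤ Real.pi - d / n := by
        have h8 : d / n * n = d := by field_simp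
        have h9 : |kap.im| * n ≤ (Real.pi - d / n) * n := by
          rw [sub_mul, h8]; exact h3
        exact le_of_mul_le_mul_right h9 hn0
      have h10 : M⁻¹ * d ≤ d / n := by
        rw [inv_mul_eq_div]
        exact div_le_div_of_nonneg_left hd0.le hn0 hnM
      linarith
  · have hne : Real.exp kap.re = ‖q‖ / ‖p‖ := by
      have := congrArg norm hk
      rwa [Complex.norm_exp, norm_div] at this
    have hne' : Real.exp (-kap.re) = ‖p‖ / ‖q‖ := by
      rw [Real.exp_neg, hne, inv_div]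
    have hb : ∀ x y : ℝ, d ≤ y → x ≤ y + M → x / y ≤ (1 + M) * d⁻¹ := by
      intro x y hy hxy
      have hy0 : 0 < y := by linarith
      calc x / y ≤ (y + M) / y := by gcongr
        _ = 1 + M / y := by field_simp
        _ ≤ d⁻¹ + M / d := by
            have h1 : 1 ≤ d⁻¹ := (one_le_inv₀ hd0).2 hd1
            have h2 : M / y ≤ M / d := div_le_div_of_nonneg_left hM0.le hd0 hy
            linarith
        _ = (1 + M) * d⁻¹ := by ring
    have hpqn : ‖p - q‖ ≤ M := by rw [hpq]; exact hnM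
    rcases abs_cases kap.re with ⟨h5, -⟩ | ⟨h5, -⟩
    · rw [h5, hne]
      refine hb _ _ hpd ?_
      have : ‖q‖ ≤ ‖p‖ + ‖p - q‖ := by
        calc ‖q‖ = ‖p - (p - q)‖ := by congr 1; ring
          _ ≤ ‖p‖ + ‖p - q‖ := norm_sub_le _ _
      linarith
    · rw [h5, hne']
      refine hb _ _ hqd ?_
      have : ‖p‖ ≤ ‖q‖ + ‖p - q‖ := by
        calc ‖p‖ = ‖q + (p - q)‖ := by congr 1; ring
          _ ≤ ‖q‖ + ‖p - q‖ := norm_add_le _ _
      linarith

end Pool.Agent.TBirK
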