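import Pool.Agent.TBirK.Def

/-!
# Continuous functions, analytic off a thin set

`morera_vol`: divide a closed square (or rectangle) `R` in the ball into `n ^ 2` equal squares of side `s = L / n`. The integral of `G` over the boundary of `R` is the sum of the integrals over the boundaries of the small squares. It is zero for the small squares which do not meet `K` (Cauchy), and for the others it is at most
`4 s * omega (2 s)`, `omega` the modulus of continuity of `G` on `R` (subtract the value at the centre). The small squares meeting `K` are in the set `infDist l K ≤ 2 s`, so there are at most `2 A s / s ^ 2 = 2 A / s` of them (volume). So the integral is at most `8 A omega (2 s)`, it tends to `0`. Then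
Mathlib: a continuous function with vanishing integrals over rectangles has a primitive on the ball (`Complex.IsConservativeOn`, `IsExactOn` in Mathlib/Analysis/Complex/HasPrimitives.lean, Morera), so it is analytic. Another way: mollify, and use the Green formula
`Complex.integral_boundary_rect_of_hasFDerivAt_real_off_countable`.
-/

set_option autoImplicit false

open MeasureTheory Complex Set Filter Topology Metric AddCircle
open scoped ComplexConjugate InnerProductSpace ENNReal

namespace Pool.Agent.TBirK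

open Pool.Agent.TBir Pool.Agent.TBirG Pool.Agent.TBirC Pool.Agent.TBirJ
open Pool.Agent.TBirP (E qT)

/-- The integral over the boundary of a rectangle. -/
private noncomputable def bd (H : ℂ → ℂ) (a b c d : ℝ) : ℂ :=
  (∫ x : ℝ in a..b, H (x + c * I)) - (∫ x : ℝ in a..b, H (x + d * I)) +
    I • (∫ y : ℝ in c..d, H (b + y * I)) - I • (∫ y : ℝ in c..d, H (a + y * I))

private theorem bd_swap_left (H : ℂ → ℂ) (a b c d : ℝ) : bd H b a c d = -bd H a b c d := by
  unfold bd
  rw [intervalIntegral.integral_symm a b, intervalIntegral.integral_symm a b]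
  ring

private theorem bd_swap_right (H : ℂ → ℂ) (a b c d : ℝ) : bd H a b d c = -bd H a b c d := by
  unfold bd
  rw [intervalIntegral.integral_symm c d, intervalIntegral.integral_symm c d]
  simp only [smul_neg]
  ring

private theorem bd_self_left (H : ℂ → ℂ) (a c d : ℝ) : bd H a a c d = 0 := by
  unfold bd
  simp

private theorem bd_self_right (H : ℂ → ℂ) (a b c : ℝ) : bd H a b c c = 0 := by
  unfold bd
  simp

private theorem int_h {H : ℂ → ℂ} (hH : Continuous H) (a b c : ℝ) :
    IntervalIntegrable (fun x : ℝ => H (x + c * I)) volume a b :=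
  (hH.comp (by fun_prop)).intervalIntegrable a b

private theorem int_v {H : ℂ → ℂ} (hH : Continuous H) (a b c : ℝ) :
    IntervalIntegrable (fun y : ℝ => H (c + y * I)) volume a b :=
  (hH.comp (by fun_prop)).intervalIntegrable a b

private theorem bd_add_left {H : ℂ → ℂ} (hH : Continuous H) (a m b c d : ℝ) :
    bd H a m c d + bd H m b c d = bd H a b c d := by
  unfold bd
  rw [← intervalIntegral.integral_add_adjacent_intervals (int_h hH a m c) (int_h hH m b c),
    ← intervalIntegral.integral_add_adjacent_intervals (int_h hH a m d) (int_h hH m b d)]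
  ring

private theorem bd_add_right {H : ℂ → ℂ} (hH : Continuous H) (a b c m d : ℝ) :
    bd H a b c m + bd H a b m d = bd H a b c d := by
  unfold bd
  rw [← intervalIntegral.integral_add_adjacent_intervals (int_v hH c m b) (int_v hH m d b),
    ← intervalIntegral.integral_add_adjacent_intervals (int_v hH c m a) (int_v hH m d a)]
  simp only [smul_add]
  ring

private theorem sum_adj (Ψ : ℝ → ℝ → ℂ) (h0 : ∀ p, Ψ p p = 0)
    (h : ∀ p m q, Ψ p m + Ψ m q = Ψ p q) (x : ℕ → ℝ) (n : ℕ) :
    ∑ i ∈ Finset.range n, Ψ (x i) (x (i + 1)) = Ψ (x 0) (x n) := by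
  induction n with
  | zero => rw [Finset.sum_range_zero, h0]
  | succ n ih => rw [Finset.sum_range_succ, ih, h]

private theorem bd_grid {H : ℂ → ℂ} (hH : Continuous H) (x y : ℕ → ℝ) (n : ℕ) :
    ∑ i ∈ Finset.range n, ∑ j ∈ Finset.range n, bd H (x i) (x (i + 1)) (y j) (y (j + 1)) =
      bd H (x 0) (x n) (y 0) (y n) := by
  have h1 : ∀ i, ∑ j ∈ Finset.range n, bd H (x i) (x (i + 1)) (y j) (y (j + 1)) =
      bd H (x i) (x (i + 1)) (y 0) (y n) := fun i =>
    sum_adj (fun c d => bd H (x i) (x (i + 1)) c d) (fun p => bd_self_right _ _ _ _)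
      (fun p m q => bd_add_right hH _ _ _ _ _) y n
  simp only [h1]
  exact sum_adj (fun a b => bd H a b (y 0) (y n)) (fun p => bd_self_left _ _ _ _)
    (fun p m q => bd_add_left hH _ _ _ _ _) x n

private theorem bd_bound {H : ℂ → ℂ} (hH : Continuous H) {a b c d : ℝ} (hab : a ≤ b) (hcd : c ≤ d)
    {C : ℂ} {ε : ℝ} (h : ∀ z : ℂ, z.re ∈ Icc a b → z.im ∈ Icc c d → ‖H z - C‖ ≤ ε) :
    ‖bd H a b c d‖ ≤ 2 * ((b - a) + (d - c)) * ε := by
  have e1 : ∀ e : ℝ, e ∈ Icc c d →
      ‖(∫ x : ℝ in a..b, H (x + e * I)) - (b - a : ℝ) • C‖ ≤ ε * (b - a) := by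
    intro e he
    have h1 : (∫ x : ℝ in a..b, H (x + e * I)) - (b - a : ℝ) • C =
        ∫ x : ℝ in a..b, (H (x + e * I) - C) := by
      rw [intervalIntegral.integral_sub (int_h hH a b e) intervalIntegrable_const,
        intervalIntegral.integral_const]
    rw [h1]
    have h2 := intervalIntegral.norm_integral_le_of_norm_le_const (a := a) (b := b) (C := ε)
      (f := fun x : ℝ => H (x + e * I) - C) (by
        intro x hx
        rw [uIoc_of_le hab] at hx
        refine h _ ?_ ?_
        · simpa using ⟨hx.1.le, hx.2⟩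
        · simpa using he)
    rwa [abs_of_nonneg (sub_nonneg.2 hab)] at h2
  have e2 : ∀ e : ℝ, e ∈ Icc a b →
      ‖(∫ y : ℝ in c..d, H (e + y * I)) - (d - c : ℝ) • C‖ ≤ ε * (d - c) := by
    intro e he
    have h1 : (∫ y : ℝ in c..d, H (e + y * I)) - (d - c : ℝ) • C =
        ∫ y : ℝ in c..d, (H (e + y * I) - C) := by
      rw [intervalIntegral.integral_sub (int_v hH c d e) intervalIntegrable_const,
        intervalIntegral.integral_const]
    rw [h1]
    have h2 := intervalIntegral.norm_integral_le_of_norm_le_const (a := c) (b := d) (C := ε)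
      (f := fun y : ℝ => H (e + y * I) - C) (by
        intro y hy
        rw [uIoc_of_le hcd] at hy
        refine h _ ?_ ?_
        · simpa using he
        · simpa using ⟨hy.1.le, hy.2⟩)
    rwa [abs_of_nonneg (sub_nonneg.2 hcd)] at h2
  have e3 : bd H a b c d = ((∫ x : ℝ in a..b, H (x + c * I)) - (b - a : ℝ) • C) -
      ((∫ x : ℝ in a..b, H (x + d * I)) - (b - a : ℝ) • C) +
      I * ((∫ y : ℝ in c..d, H (b + y * I)) - (d - c : ℝ) • C) -
      I * ((∫ y : ℝ in c..d, H (a + y * I)) - (d - c : ℝ) • C) := by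
    unfold bd
    simp only [smul_eq_mul]
    ring
  rw [e3]
  refine (norm_sub_le _ _).trans ?_
  refine (add_le_add_left (norm_add_le _ _) _).trans ?_
  have h3 := norm_sub_le ((∫ x : ℝ in a..b, H (x + c * I)) - (b - a : ℝ) • C)
      ((∫ x : ℝ in a..b, H (x + d * I)) - (b - a : ℝ) • C)
  have h4 := e1 c (left_mem_Icc.2 hcd)
  have h5 := e1 d (right_mem_Icc.2 hcd)
  have h6 := e2 b (right_mem_Icc.2 hab)
  have h7 := e2 a (left_mem_Icc.2 hab)
  rw [norm_mul, norm_mul, norm_I, one_mul, one_mul]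
  linarith

private theorem vol_cell (a b c d : ℝ) :
    volume (Ioo a b ×ℂ Ioo c d) = ENNReal.ofReal (b - a) * ENNReal.ofReal (d - c) := by
  have e : (Ioo a b ×ℂ Ioo c d) = Complex.measurableEquivRealProd ⁻¹' (Ioo a b ×ˢ Ioo c d) := by
    ext z
    simp [mem_reProdIm, Complex.measurableEquivRealProd_apply]
  rw [e, Complex.volume_preserving_equiv_real_prod.measure_preimage_equiv, Measure.volume_eq_prod,
    Measure.prod_prod, Real.volume_Ioo, Real.volume_Ioo]

private theorem isOpen_cell (a b c d : ℝ) : IsOpen (Ioo a b ×ℂ Ioo c d) :=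
  isOpen_Ioo.reProdIm isOpen_Ioo

private theorem dist_cell {z k : ℂ} {a b c d : ℝ} (hz : z.re ∈ Icc a b) (hz' : z.im ∈ Icc c d)
    (hk : k.re ∈ Icc a b) (hk' : k.im ∈ Icc c d) : dist z k ≤ (b - a) + (d - c) := by
  rw [Complex.dist_eq]
  refine (Complex.norm_le_abs_re_add_abs_im _).trans ?_
  rw [Complex.sub_re, Complex.sub_im]
  refine add_le_add ?_ ?_
  · rw [abs_le]
    constructor <;> linarith [hz.1, hz.2, hk.1, hk.2]
  · rw [abs_le]
    constructor <;> linarith [hz'.1, hz'.2, hk'.1, hk'.2]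

private theorem bd_zero {K : Set ℂ} {A : ℝ} (hA : 0 < A)
    (vol : ∀ eps : ℝ, 0 < eps → eps ≤ 1 →
      volume {l : ℂ | infDist l K ≤ eps} ≤ ENNReal.ofReal (A * eps)) {H : ℂ → ℂ}
    (hH : Continuous H) {a b c d : ℝ} (hab : a < b) (hcd : c < d)
    (hd : DifferentiableOn ℂ H ((Ioo a b ×ℂ Ioo c d) \ K)) : bd H a b c d = 0 := by
  classical
  have hba : 0 < b - a := sub_pos.2 hab
  have hdc : 0 < d - c := sub_pos.2 hcd
  obtain ⟨L, hL⟩ : ∃ L : ℝ, L = (b - a) + (d - c) := ⟨_, rfl⟩
  have hL0 : 0 < L := by rw [hL]; linarith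
  obtain ⟨M, hM⟩ : ∃ M : ℝ, M = 2 * A * L ^ 2 / ((b - a) * (d - c)) := ⟨_, rfl⟩
  have hM0 : 0 < M := by rw [hM]; positivity
  have hcomp : IsCompact (Icc a b ×ℂ Icc c d) := isCompact_Icc.reProdIm isCompact_Icc
  have huc := hcomp.uniformContinuousOn_of_continuous hH.continuousOn
  rw [Metric.uniformContinuousOn_iff] at huc
  have key : ∀ ε > 0, ‖bd H a b c d‖ ≤ M * ε := by
    intro ε hε
    obtain ⟨δ, hδ, hδ2⟩ := huc ε hε
    have hmin : 0 < min 1 δ := lt_min one_pos hδ
    obtain ⟨n, hn⟩ := exists_nat_gt (L / min 1 δ)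
    have hn0 : (0 : ℝ) < n := lt_trans (div_pos hL0 hmin) hn
    obtain ⟨s, hs⟩ : ∃ s : ℝ, s = (b - a) / n := ⟨_, rfl⟩
    obtain ⟨t, ht⟩ : ∃ t : ℝ, t = (d - c) / n := ⟨_, rfl⟩
    have hs0 : 0 < s := by rw [hs]; positivity
    have ht0 : 0 < t := by rw [ht]; positivity
    have hns : (n : ℝ) * s = b - a := by rw [hs]; field_simp
    have hnt : (n : ℝ) * t = d - c := by rw [ht]; field_simp
    have hst : s + t = L / n := by rw [hs, ht, hL]; ring
    have hst1 : s + t < min 1 δ := by
      rw [hst, div_lt_iff₀ hn0]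
      rw [div_lt_iff₀ hmin] at hn
      linarith
    have hst2 : s + t ≤ 1 := (hst1.le).trans (min_le_left _ _)
    have hst3 : s + t < δ := hst1.trans_le (min_le_right _ _)
    obtain ⟨x, hx⟩ : ∃ x : ℕ → ℝ, ∀ i, x i = a + i * s := ⟨_, fun _ => rfl⟩
    obtain ⟨y, hy⟩ : ∃ y : ℕ → ℝ, ∀ i, y i = c + i * t := ⟨_, fun _ => rfl⟩
    have hx0 : x 0 = a := by rw [hx]; simp
    have hy0 : y 0 = c := by rw [hy]; simp
    have hxn : x n = b := by rw [hx, hns]; ring
    have hyn : y n = d := by rw [hy, hnt]; ring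
    have hxs : ∀ i, x (i + 1) - x i = s := fun i => by rw [hx, hx]; push_cast; ring
    have hys : ∀ i, y (i + 1) - y i = t := fun i => by rw [hy, hy]; push_cast; ring
    have hxmono : Monotone x := fun i j hij => by
      rw [hx, hx]
      have : (i : ℝ) ≤ j := by exact_mod_cast hij
      nlinarith
    have hymono : Monotone y := fun i j hij => by
      rw [hy, hy]
      have : (i : ℝ) ≤ j := by exact_mod_cast hij
      nlinarith
    have hgrid := bd_grid hH x y n
    rw [hx0, hxn, hy0, hyn] at hgrid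
    obtain ⟨cell, hcell⟩ : ∃ cell : ℕ × ℕ → Set ℂ,
        ∀ p, cell p = Ioo (x p.1) (x (p.1 + 1)) ×ℂ Ioo (y p.2) (y (p.2 + 1)) := ⟨_, fun _ => rfl⟩
    obtain ⟨T, hT⟩ : ∃ T : Finset (ℕ × ℕ), T = ((Finset.range n) ×ˢ (Finset.range n)).filter
        (fun p => (cell p ∩ K).Nonempty) := ⟨_, rfl⟩
    have hrange : ∀ p ∈ (Finset.range n) ×ˢ (Finset.range n),
        a ≤ x p.1 ∧ x (p.1 + 1) ≤ b ∧ c ≤ y p.2 ∧ y (p.2 + 1) ≤ d := by
      intro p hp
      rw [Finset.mem_product, Finset.mem_range, Finset.mem_range] at hp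
      refine ⟨?_, ?_, ?_, ?_⟩
      · rw [← hx0]; exact hxmono (Nat.zero_le _)
      · rw [← hxn]; exact hxmono hp.1
      · rw [← hy0]; exact hymono (Nat.zero_le _)
      · rw [← hyn]; exact hymono hp.2
    have hsum : bd H a b c d = ∑ p ∈ T, bd H (x p.1) (x (p.1 + 1)) (y p.2) (y (p.2 + 1)) := by
      rw [← hgrid, ← Finset.sum_product', hT]
      symm
      apply Finset.sum_filter_of_ne
      intro p hp hne
      by_contra hno
      apply hne
      obtain ⟨h1, h2, h3, h4⟩ := hrange p hp
      have hsub : cell p ⊆ (Ioo a b ×ℂ Ioo c d) \ K := by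
        intro z hz
        refine ⟨?_, fun hzK => hno ⟨z, hz, hzK⟩⟩
        rw [hcell, mem_reProdIm] at hz
        rw [mem_reProdIm]
        exact ⟨⟨h1.trans_lt hz.1.1, hz.1.2.trans_le h2⟩, ⟨h3.trans_lt hz.2.1, hz.2.2.trans_le h4⟩⟩
      have h5 := Complex.integral_boundary_rect_eq_zero_of_continuousOn_of_differentiableOn H
        (⟨x p.1, y p.2⟩ : ℂ) (⟨x (p.1 + 1), y (p.2 + 1)⟩ : ℂ) hH.continuousOn (by
          refine hd.mono (Subset.trans ?_ hsub)
          rw [hcell, min_eq_left (hxmono (Nat.le_succ p.1)), max_eq_right (hxmono (Nat.le_succ p.1)),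
            min_eq_left (hymono (Nat.le_succ p.2)), max_eq_right (hymono (Nat.le_succ p.2))])
      exact h5
    have hmem : ∀ p ∈ T, ∃ k ∈ K, k ∈ cell p ∧ p ∈ (Finset.range n) ×ˢ (Finset.range n) := by
      intro p hp
      rw [hT, Finset.mem_filter] at hp
      obtain ⟨k, hk1, hk2⟩ := hp.2
      exact ⟨k, hk2, hk1, hp.1⟩
    have hb : ∀ p ∈ T, ‖bd H (x p.1) (x (p.1 + 1)) (y p.2) (y (p.2 + 1))‖ ≤ 2 * (s + t) * ε := by
      intro p hp
      obtain ⟨k, _, hk, hp1⟩ := hmem p hp
      obtain ⟨h1, h2, h3, h4⟩ := hrange p hp1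
      rw [hcell, mem_reProdIm] at hk
      have hk1 : k.re ∈ Icc (x p.1) (x (p.1 + 1)) := ⟨hk.1.1.le, hk.1.2.le⟩
      have hk2 : k.im ∈ Icc (y p.2) (y (p.2 + 1)) := ⟨hk.2.1.le, hk.2.2.le⟩
      have h5 := bd_bound hH (hxmono (Nat.le_succ p.1)) (hymono (Nat.le_succ p.2)) (C := H k)
        (ε := ε) (by
          intro z hz1 hz2
          have h6 := dist_cell hz1 hz2 hk1 hk2
          rw [hxs, hys] at h6
          have h7 := hδ2 z (by
            rw [mem_reProdIm]
            exact ⟨⟨h1.trans hz1.1, hz1.2.trans h2⟩, ⟨h3.trans hz2.1, hz2.2.trans h4⟩⟩) k (by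
            rw [mem_reProdIm]
            exact ⟨⟨h1.trans hk1.1, hk1.2.trans h2⟩, ⟨h3.trans hk2.1, hk2.2.trans h4⟩⟩)
            (h6.trans_lt hst3)
          rw [dist_eq_norm] at h7
          exact h7.le)
      rwa [hxs, hys] at h5
    have hcard : (T.card : ℝ) * (s * t) ≤ A * (s + t) := by
      have h1 : volume (⋃ p ∈ T, cell p) ≤ ENNReal.ofReal (A * (s + t)) := by
        refine le_trans (measure_mono ?_) (vol (s + t) (by linarith) hst2)
        intro z hz
        rw [mem_iUnion₂] at hz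
        obtain ⟨p, hp, hz⟩ := hz
        obtain ⟨k, hkK, hk, _⟩ := hmem p hp
        rw [hcell, mem_reProdIm] at hk hz
        have h2 := dist_cell (z := z) (k := k) ⟨hz.1.1.le, hz.1.2.le⟩ ⟨hz.2.1.le, hz.2.2.le⟩
          ⟨hk.1.1.le, hk.1.2.le⟩ ⟨hk.2.1.le, hk.2.2.le⟩
        rw [hxs, hys] at h2
        exact (infDist_le_dist_of_mem hkK).trans h2
      rw [measure_biUnion_finset] at h1
      · have h2 : ∀ p ∈ T, volume (cell p) = ENNReal.ofReal (s * t) := by
          intro p _
          rw [hcell, vol_cell, hxs, hys, ← ENNReal.ofReal_mul hs0.le]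
        rw [Finset.sum_congr rfl h2, Finset.sum_const, nsmul_eq_mul, ← ENNReal.ofReal_natCast,
          ← ENNReal.ofReal_mul (Nat.cast_nonneg _),
          ENNReal.ofReal_le_ofReal_iff (by positivity)] at h1
        exact h1
      · intro p _ p' _ hne
        rw [Function.onFun, Set.disjoint_left]
        intro z hz hz'
        rw [hcell, mem_reProdIm] at hz hz'
        apply hne
        have e1 : p.1 = p'.1 := by
          rcases lt_trichotomy p.1 p'.1 with h | h | h
          · have := hxmono (Nat.succ_le_of_lt h)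
            linarith [hz.1.2, hz'.1.1]
          · exact h
          · have := hxmono (Nat.succ_le_of_lt h)
            linarith [hz'.1.2, hz.1.1]
        have e2 : p.2 = p'.2 := by
          rcases lt_trichotomy p.2 p'.2 with h | h | h
          · have := hymono (Nat.succ_le_of_lt h)
            linarith [hz.2.2, hz'.2.1]
          · exact h
          · have := hymono (Nat.succ_le_of_lt h)
            linarith [hz'.2.2, hz.2.1]
        exact Prod.ext e1 e2
      · intro p _
        rw [hcell]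
        exact (isOpen_cell _ _ _ _).measurableSet
    have hfin : ‖bd H a b c d‖ ≤ (T.card : ℝ) * (2 * (s + t) * ε) := by
      rw [hsum]
      refine (norm_sum_le _ _).trans ?_
      refine (Finset.sum_le_sum hb).trans ?_
      rw [Finset.sum_const, nsmul_eq_mul]
    refine hfin.trans ?_
    have h8 : (T.card : ℝ) ≤ A * (s + t) / (s * t) := by
      rw [le_div_iff₀ (by positivity)]
      exact hcard
    have h9 : (T.card : ℝ) * (2 * (s + t) * ε) ≤ A * (s + t) / (s * t) * (2 * (s + t) * ε) :=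
      mul_le_mul_of_nonneg_right h8 (by positivity)
    refine h9.trans (le_of_eq ?_)
    rw [hM, hL, ← hns, ← hnt]
    field_simp
  by_contra hne
  have hpos : 0 < ‖bd H a b c d‖ := norm_pos_iff.2 hne
  have h1 := key (‖bd H a b c d‖ / (2 * M)) (by positivity)
  have h2 : M * (‖bd H a b c d‖ / (2 * M)) = ‖bd H a b c d‖ / 2 := by field_simp
  linarith

theorem morera_vol {K : Set ℂ} (hK : IsClosed K) {A : ℝ} (hA : 0 < A)
    (vol : ∀ eps : ℝ, 0 < eps → eps ≤ 1 →
      volume {l : ℂ | infDist l K ≤ eps} ≤ ENNReal.ofReal (A * eps)) {q : ℂ} {r : ℝ} {G : ℂ → ℂ}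
    (hc : ContinuousOn G (ball q r)) (hd : DifferentiableOn ℂ G (ball q r \ K)) :
    DifferentiableOn ℂ G (ball q r) := by
  have main : ∀ a b c d : ℝ, a < b → c < d → (Icc a b ×ℂ Icc c d) ⊆ ball q r →
      bd G a b c d = 0 := by
    intro a b c d hab hcd hsub
    obtain ⟨P, hPd⟩ : ∃ P : ℂ → ℂ, ∀ z : ℂ, P z =
        ((max a (min b z.re) : ℝ) : ℂ) + ((max c (min d z.im) : ℝ) : ℂ) * I := ⟨_, fun _ => rfl⟩
    have hPc : Continuous P := by
      have h1 : P = fun z : ℂ => ((max a (min b z.re) : ℝ) : ℂ) +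
          ((max c (min d z.im) : ℝ) : ℂ) * I := funext hPd
      rw [h1]
      fun_prop
    have hre : ∀ z, (P z).re = max a (min b z.re) := fun z => by rw [hPd]; simp
    have him : ∀ z, (P z).im = max c (min d z.im) := fun z => by rw [hPd]; simp
    have hPm : ∀ z, P z ∈ (Icc a b ×ℂ Icc c d) := by
      intro z
      rw [mem_reProdIm, hre, him]
      exact ⟨⟨le_max_left _ _, max_le hab.le (min_le_left _ _)⟩,
        ⟨le_max_left _ _, max_le hcd.le (min_le_left _ _)⟩⟩
    have hPe : ∀ z ∈ (Icc a b ×ℂ Icc c d), P z = z := by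
      intro z hz
      rw [mem_reProdIm] at hz
      apply Complex.ext
      · rw [hre, min_eq_right hz.1.2, max_eq_right hz.1.1]
      · rw [him, min_eq_right hz.2.2, max_eq_right hz.2.1]
    obtain ⟨H, hHd⟩ : ∃ H : ℂ → ℂ, ∀ z, H z = G (P z) := ⟨_, fun _ => rfl⟩
    have hHc : Continuous H := by
      have h1 : H = G ∘ P := funext hHd
      rw [h1]
      exact (hc.mono hsub).comp_continuous hPc hPm
    have hHe : ∀ z ∈ (Icc a b ×ℂ Icc c d), G z = H z := fun z hz => by rw [hHd, hPe z hz]
    have eh : ∀ e ∈ Icc c d, (∫ x : ℝ in a..b, G (x + e * I)) = ∫ x : ℝ in a..b, H (x + e * I) := by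
      intro e he
      refine intervalIntegral.integral_congr fun x hx => ?_
      rw [uIcc_of_le hab.le] at hx
      refine hHe _ ?_
      rw [mem_reProdIm]
      simpa using ⟨hx, he⟩
    have ev : ∀ e ∈ Icc a b, (∫ y : ℝ in c..d, G (e + y * I)) = ∫ y : ℝ in c..d, H (e + y * I) := by
      intro e he
      refine intervalIntegral.integral_congr fun y hy => ?_
      rw [uIcc_of_le hcd.le] at hy
      refine hHe _ ?_
      rw [mem_reProdIm]
      simpa using ⟨he, hy⟩
    have e : bd G a b c d = bd H a b c d := by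
      unfold bd
      rw [eh c (left_mem_Icc.2 hcd.le), eh d (right_mem_Icc.2 hcd.le), ev b (right_mem_Icc.2 hab.le),
        ev a (left_mem_Icc.2 hab.le)]
    rw [e]
    have hin : (Ioo a b ×ℂ Ioo c d) ⊆ (Icc a b ×ℂ Icc c d) := by
      intro z hz
      rw [mem_reProdIm] at hz ⊢
      exact ⟨⟨hz.1.1.le, hz.1.2.le⟩, ⟨hz.2.1.le, hz.2.2.le⟩⟩
    refine bd_zero hA vol hHc hab hcd ?_
    refine (hd.mono ?_).congr fun z hz => (hHe z (hin hz.1)).symm
    exact fun z hz => ⟨hsub (hin hz.1), hz.2⟩
  have cons : IsConservativeOn G (ball q r) := by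
    intro z w hzw
    rw [← add_eq_zero_iff_eq_neg, wedgeIntegral_add_wedgeIntegral_eq]
    change bd G z.re w.re z.im w.im = 0
    have hzw' : (uIcc z.re w.re ×ℂ uIcc z.im w.im) ⊆ ball q r := hzw
    rcases lt_trichotomy z.re w.re with h1 | h1 | h1
    · rcases lt_trichotomy z.im w.im with h2 | h2 | h2
      · rw [uIcc_of_le h1.le, uIcc_of_le h2.le] at hzw'
        exact main _ _ _ _ h1 h2 hzw'
      · rw [h2, bd_self_right]
      · rw [uIcc_of_le h1.le, uIcc_of_ge h2.le] at hzw'
        rw [bd_swap_right, main _ _ _ _ h1 h2 hzw', neg_zero]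
    · rw [h1, bd_self_left]
    · rcases lt_trichotomy z.im w.im with h2 | h2 | h2
      · rw [uIcc_of_ge h1.le, uIcc_of_le h2.le] at hzw'
        rw [bd_swap_left, main _ _ _ _ h1 h2 hzw', neg_zero]
      · rw [h2, bd_self_right]
      · rw [uIcc_of_ge h1.le, uIcc_of_ge h2.le] at hzw'
        rw [bd_swap_left, bd_swap_right, main _ _ _ _ h1 h2 hzw', neg_zero, neg_zero]
  exact (cons.isExactOn_ball hc).differentiableOn isOpen_ball

end Pool.Agent.TBirK
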