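import Pool.Agent.TBirK.Sck
import Pool.Agent.TBirK.Mok
import Pool.Agent.TBirJ.Exj

/-!
# Removal at simple points

`G = extendFrom Kᶜ (fun l => ev z (hh l))` on a small ball: at a point off `K` the function is analytic (`ChartJ.rem` of the chart without branches, see `zj_off` in TBirJ/Zej.lean; `0 ≤ n` by `hnn`), at a point of `K` the limit exists by `sc_lim` (`0 ≤ x` by `sc_out`, `hnn`), so `G` is continuous
(`continuousOn_extendFrom`), it agrees with `ev z (hh l)` off `K`, `morera_vol`.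
-/

set_option autoImplicit false

open MeasureTheory Complex Set Filter Topology Metric AddCircle
open scoped ComplexConjugate InnerProductSpace ENNReal

namespace Pool.Agent.TBirK

open Pool.Agent.TBir Pool.Agent.TBirG Pool.Agent.TBirC Pool.Agent.TBirJ
open Pool.Agent.TBirP (E qT)

/-- Solutions extend over the points off `K`. -/
private theorem rk_off {phi : ℂ → ℂ} {K : Set ℂ}
    (hb : MemLp (fun x : UnitAddCircle => phi (e x)) ∞ mu0)
    (hoff : ∀ l ∉ K, ∃ n : ℤ, Ix phi l n) (hnn : ∀ l n, Ix phi l n → 0 ≤ n) {l : ℂ} (hl : l ∉ K) :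
    Rem phi K l := by
  obtain ⟨n, hn⟩ := hoff l hl
  have hn0 := hnn l n hn
  have hI : Iq phi l n := by
    refine ⟨0, Fin.elim0, fun i => i.elim0, fun j => j.elim0, ?_⟩
    simpa [Ix] using hn
  obtain ⟨c, hc⟩ := exists_chartJ hb hI
  exact c.rem (by rw [hc]; exact hn0)

theorem rem_sc {phi : ℂ → ℂ} {K : Set ℂ} (hb : MemLp (fun x : UnitAddCircle => phi (e x)) ∞ mu0)
    (hKc : IsClosed K) (hd : Dense Kᶜ) (vol : ∃ A : ℝ, 0 < A ∧ ∀ eps : ℝ, 0 < eps → eps ≤ 1 →
      volume {l : ℂ | infDist l K ≤ eps} ≤ ENNReal.ofReal (A * eps))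
    (hoff : ∀ l ∉ K, ∃ n : ℤ, Ix phi l n) (hnn : ∀ l n, Ix phi l n → 0 ≤ n) {q : ℂ}
    (h : ∀ᶠ q' in 𝓝 q, q' ∈ K → ∃ z0 x, phi z0 = q' ∧ Sc phi K z0 x) : Rem phi K q := by
  intro f hh hh1 z hz hz0
  obtain ⟨A, hA, hvol⟩ := vol
  obtain ⟨r, hr, hball⟩ := Metric.eventually_nhds_iff_ball.1 h
  -- differentiability off the set
  have hdiff : ∀ l ∉ K, DifferentiableAt ℂ (fun l => ev z (hh l)) l := by
    intro l hl
    obtain ⟨s, hs, G, hG, hG'⟩ := rk_off hb hoff hnn hl f hh hh1 z hz hz0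
    have h1 : DifferentiableAt ℂ G l := hG.differentiableAt (ball_mem_nhds l hs)
    refine h1.congr_of_eventuallyEq ?_
    filter_upwards [ball_mem_nhds l hs, hKc.isOpen_compl.mem_nhds hl] with l' h2 h3
    exact (hG' l' h2 h3).symm
  have hcl : ∀ l : ℂ, l ∈ closure Kᶜ := fun l => hd l
  have hlim : ∀ l ∈ ball q r, ∃ a, Tendsto (fun l => ev z (hh l)) (𝓝[Kᶜ] l) (𝓝 a) := by
    intro l hl
    by_cases hlK : l ∈ K
    · obtain ⟨z0, x, rfl, hS⟩ := hball l hl hlK
      obtain ⟨l', hl'⟩ := (sc_out hb hS).exists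
      exact sc_lim hb hS (hnn _ _ hl') hh1 hz hz0
    · exact ⟨_, (hdiff l hlK).continuousAt.continuousWithinAt⟩
  have heq : ∀ l ∉ K, extendFrom Kᶜ (fun l => ev z (hh l)) l = ev z (hh l) := fun l hl =>
    extendFrom_eq (hcl l) (hdiff l hl).continuousAt.continuousWithinAt
  refine ⟨r, hr, extendFrom Kᶜ (fun l => ev z (hh l)), ?_, fun l _ hl => heq l hl⟩
  refine morera_vol hKc hA hvol (continuousOn_extendFrom (fun l _ => hcl l) hlim) ?_
  intro l hl
  refine ((hdiff l hl.2).congr_of_eventuallyEq ?_).differentiableWithinAt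
  filter_upwards [hKc.isOpen_compl.mem_nhds hl.2] with l' hl'
  exact heq l' hl'

end Pool.Agent.TBirK
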