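import Pool.Agent.TBirK.Sgl
import Pool.Agent.TBirJ.Sgk

/-!
# Removal on the segments

Port of TBirJ/Sgk.lean: `PwJ` is replaced by `Cv`.
-/

set_option autoImplicit false

open MeasureTheory Complex Set Filter Topology Metric AddCircle
open scoped ComplexConjugate InnerProductSpace ENNReal

namespace Pool.Agent.TBirK

open Pool.Agent.TBir Pool.Agent.TBirG Pool.Agent.TBirC Pool.Agent.TBirJ
open Pool.Agent.TBirP (E qT)

variable {phi : ℂ → ℂ} {F : Finset ℂ} {u v : ℂ → ℂ} {q t : ℂ}

open SgkAux Pool.Agent.TBirC.PsiAux IxAux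

/-- the normal form of `w (phi - l)` -/
private theorem rsk_nf (h : Cv phi F u v) (ht : ‖t‖ = 1) {r : ℝ} (hr : Rad F r) {l : ℂ}
    (hu : ∀ t' ∈ F, u t' ≠ l) (hv : ∀ t' ∈ F, v t' ≠ l)
    (h0 : ∀ z ∈ sphere (0 : ℂ) 1, z ∉ F → phi z ≠ l) (htF : t ∈ F) {kap : ℂ → ℂ}
    (hk : ∀ t' ∈ F, exp (kap t') = sg t t' * ((v t' - l) / (u t' - l))) :
    ∃ (n : ℤ) (g : ℂ → ℂ), ContinuousOn g (sphere 0 1) ∧ ∀ z ∈ sphere (0 : ℂ) 1, z ∉ F →
      wF t z * (phi z - l) = z ^ n * exp (g z + ∑ t' ∈ F, kap t' * (ch r t' z : ℂ)) := by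
  have hEr : ∀ t' : ℂ, Tendsto (fun x : ℝ => t' * E x) (𝓝[>] 0) (𝓝 t') := by
    intro t'
    have h1 := (E_tend 1).const_mul t'
    simpa using h1
  have hEl : ∀ t' : ℂ, Tendsto (fun x : ℝ => t' * E (-x)) (𝓝[>] 0) (𝓝 t') := by
    intro t'
    have h1 := (E_tend (-1)).const_mul t'
    simpa using h1
  refine normal_form (F := F) (psi := fun z => wF t z * (phi z - l)) h.circ hr ?_ ?_
    (a := fun t' => (if t' = t then -I else wF t t') * (u t' - l))
    (b := fun t' => (if t' = t then I else wF t t') * (v t' - l)) ?_ ?_ ?_ ?_ ?_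
  · intro z hz
    have hz1 : ‖z‖ = 1 := mem_sphere_zero_iff_norm.1 hz.1
    have hzt : z ≠ t := by
      rintro rfl
      exact hz.2 htF
    exact ((wF_cont ht hz1.le hzt).continuousWithinAt).mul
      ((h.cont z hz).sub continuousWithinAt_const)
  · intro z hz hzF
    exact mul_ne_zero (wF_ne _ _) (sub_ne_zero.2 (h0 z hz hzF))
  · intro t' ht'
    have h1 := (h.lim_left t' ht').sub_const l
    by_cases htt : t' = t
    · subst htt
      rw [if_pos rfl]
      exact (wF_left ht).mul h1
    · rw [if_neg htt]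
      have h2 := (wF_cont ht (h.circ t' ht').le htt).tendsto.comp (hEl t')
      exact h2.mul h1
  · intro t' ht'
    have h1 := (h.lim_right t' ht').sub_const l
    by_cases htt : t' = t
    · subst htt
      rw [if_pos rfl]
      exact (wF_right ht).mul h1
    · rw [if_neg htt]
      have h2 := (wF_cont ht (h.circ t' ht').le htt).tendsto.comp (hEr t')
      exact h2.mul h1
  · intro t' ht'
    refine mul_ne_zero ?_ (sub_ne_zero.2 (hu t' ht'))
    split_ifs
    · exact neg_ne_zero.2 I_ne_zero
    · exact wF_ne _ _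
  · intro t' ht'
    refine mul_ne_zero ?_ (sub_ne_zero.2 (hv t' ht'))
    split_ifs
    · exact I_ne_zero
    · exact wF_ne _ _
  · intro t' ht'
    rw [hk t' ht']
    have h1 : u t' - l ≠ 0 := sub_ne_zero.2 (hu t' ht')
    unfold sg
    split_ifs
    · have := I_ne_zero
      field_simp
    · have := wF_ne t t'
      field_simp

/-- from the normal form of `w (phi - l)` to that of `phi - l` -/
private theorem rsk_ix (h : Cv phi F u v) (ht : t ∈ F) {r : ℝ} (hr : Rad F r) {l : ℂ} {n : ℤ}
    {g kap : ℂ → ℂ} (hg : ContinuousOn g (sphere 0 1))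
    (hk : ∀ t' ∈ F, t' ≠ t → |(kap t').im| < Real.pi)
    (hkt : 0 < (kap t).im ∧ (kap t).im < Real.pi)
    (hnf : ∀ z ∈ sphere (0 : ℂ) 1, z ∉ F →
      wF t z * (phi z - l) = z ^ n * exp (g z + ∑ t' ∈ F, kap t' * (ch r t' z : ℂ))) :
    Ix phi l n := by
  classical
  have ht1 := h.circ t ht
  obtain ⟨gw, hgw, hgw1⟩ := gw_exists ht1 hr.1 hr.2.1
  unfold Ix
  refine unit_of_nf (psi := fun z => phi z - l) h.circ hr (g := fun z => g z + gw z)
    (kap := fun t' => kap t' - if t' = t then (Real.pi : ℂ) * I else 0) (hg.add hgw) ?_ ?_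
  · intro t' ht'
    by_cases htt : t' = t
    · subst htt
      simp only [if_true, sub_im, mul_im, ofReal_re, I_im, mul_one, ofReal_im, I_re, mul_zero,
        add_zero]
      rw [abs_lt]
      constructor <;> linarith [hkt.1, hkt.2]
    · simp only [if_neg htt, sub_zero]
      exact hk t' ht' htt
  · intro z hz hzF
    have hzt : z ≠ t := by
      rintro rfl
      exact hzF ht
    have h1 := hnf z hz hzF
    have h2 := hgw1 z hz hzt
    have h3 : ∑ t' ∈ F, (kap t' - if t' = t then (Real.pi : ℂ) * I else 0) * (ch r t' z : ℂ) =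
        ∑ t' ∈ F, kap t' * (ch r t' z : ℂ) - Real.pi * I * (ch r t z : ℂ) := by
      simp only [sub_mul, Finset.sum_sub_distrib, ite_mul, zero_mul]
      rw [Finset.sum_ite_eq' F t, if_pos ht]
    have h4 : exp ((th t z : ℂ) * I) * wF t z = 1 := by
      unfold wF
      rw [← Complex.exp_add, add_neg_cancel, Complex.exp_zero]
    calc phi z - l = exp ((th t z : ℂ) * I) * (wF t z * (phi z - l)) := by
          rw [← mul_assoc, h4, one_mul]
      _ = z ^ n * (exp ((th t z : ℂ) * I) *
          exp (g z + ∑ t' ∈ F, kap t' * (ch r t' z : ℂ))) := by rw [h1]; ring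
      _ = _ := by
          rw [← Complex.exp_add, h3, h2]
          congr 2
          ring

theorem rem_seg (h : Cv phi F u v) (ht : t ∈ F) (hq : q ∈ segment ℝ (u t) (v t)) (h1 : q ≠ u t)
    (h2 : q ≠ v t) (h3 : ∀ z ∈ sphere (0 : ℂ) 1, z ∉ F → phi z ≠ q)
    (h4 : ∀ t' ∈ F, t' ≠ t → q ∉ segment ℝ (u t') (v t'))
    (hnn : ∀ l n, Ix phi l n → 0 ≤ n) (K : Set ℂ) : Rem phi K q := by
  classical
  have ht1 := h.circ t ht
  obtain ⟨r, hr⟩ := exists_rad h.circ
  have hb := memLp_cv h
  obtain ⟨c, hc, hcr⟩ := opp_ratio hq h1 h2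
  -- at `q`
  have huq : ∀ t' ∈ F, u t' ≠ q := by
    intro t' ht' h0
    by_cases htt : t' = t
    · subst htt
      exact h1 h0.symm
    · apply h4 t' ht' htt
      rw [← h0]
      exact left_mem_segment ℝ _ _
  have hvq : ∀ t' ∈ F, v t' ≠ q := by
    intro t' ht' h0
    by_cases htt : t' = t
    · subst htt
      exact h2 h0.symm
    · apply h4 t' ht' htt
      rw [← h0]
      exact right_mem_segment ℝ _ _
  have hexp : ∀ l : ℂ, (∀ t' ∈ F, u t' ≠ l) → (∀ t' ∈ F, v t' ≠ l) → ∀ t' ∈ F,
      exp (Complex.log (sg t t' * ((v t' - l) / (u t' - l)))) =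
        sg t t' * ((v t' - l) / (u t' - l)) := by
    intro l hul hvl t' ht'
    apply Complex.exp_log
    exact mul_ne_zero (sg_ne _ _) (div_ne_zero (sub_ne_zero.2 (hvl t' ht'))
      (sub_ne_zero.2 (hul t' ht')))
  obtain ⟨n, g, hg, hnf⟩ := rsk_nf h ht1 hr huq hvq h3 ht (hexp q huq hvq)
  set U : ℂ → Op := fun l => TM (mf fun x => e x ^ (-n) * (wF t (e x) * (phi (e x) - l))) with hU
  have hUq : IsUnit (U q) := by
    refine unit_of_nf (psi := fun z => wF t z * (phi z - q)) h.circ hr hg ?_ hnf
    intro t' ht'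
    apply im_log_lt
    by_cases htt : t' = t
    · subst htt
      rw [hcr]
      unfold sg
      rw [if_pos rfl]
      have h5 : (-1 : ℂ) * -(c : ℂ) = (c : ℂ) := by ring
      rw [h5]
      exact Complex.ofReal_mem_slitPlane.2 hc
    · unfold sg
      rw [if_neg htt, one_mul]
      exact slit_ratio (h4 t' ht' htt)
  -- `U` is affine
  set M0 : Op2 := mf fun x => e x ^ (-n) * (wF t (e x) * phi (e x)) with hM0
  set M1 : Op2 := mf fun x => e x ^ (-n) * wF t (e x) with hM1
  have hw := memLp_wF t
  have hm1 : MemLp (fun x : UnitAddCircle => e x ^ (-n) * wF t (e x)) ∞ mu0 := by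
    have h5 := memLp_mul (memLp_ct (fourier (-n))) hw
    simpa only [four_e] using h5
  have hm0 : MemLp (fun x : UnitAddCircle => e x ^ (-n) * (wF t (e x) * phi (e x))) ∞ mu0 := by
    have h5 := memLp_mul (memLp_ct (fourier (-n))) (memLp_mul hw hb)
    simpa only [four_e] using h5
  have haff' : ∀ l : ℂ, mf (fun x => e x ^ (-n) * (wF t (e x) * (phi (e x) - l))) =
      M0 - l • M1 := by
    intro l
    have h5 : l • M1 = mf (fun x => l * (e x ^ (-n) * wF t (e x))) := by
      rw [mf_mul (memLp_const l) hm1, mf_const, Algebra.algebraMap_eq_smul_one, smul_mul_assoc,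
        one_mul]
    rw [h5, hM0, ← mf_sub hm0 (memLp_mul (memLp_const l) hm1)]
    refine mf_congr (Filter.Eventually.of_forall fun x => ?_)
    simp only
    ring
  have haff : ∀ l : ℂ, U l = TM M0 - l • TM M1 := by
    intro l
    rw [hU]
    simp only
    rw [haff', TM_sub, TM_smul]
  have hUd : Differentiable ℂ U := by
    have h5 : U = fun l => TM M0 - l • TM M1 := funext haff
    rw [h5]
    fun_prop
  obtain ⟨s, hs, hUs⟩ : ∃ s > 0, ∀ l ∈ ball q s, IsUnit (U l) := by
    have h5 : ∀ᶠ l in 𝓝 q, IsUnit (U l) :=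
      hUd.continuous.continuousAt.eventually (Units.isOpen.mem_nhds hUq)
    obtain ⟨s, hs, h6⟩ := Metric.eventually_nhds_iff_ball.1 h5
    exact ⟨s, hs, h6⟩
  -- `n` is not negative
  have hn : 0 ≤ n := by
    have huv : v t - u t ≠ 0 := by
      intro h0
      have h5 : v t = u t := sub_eq_zero.1 h0
      rw [h5, segment_same] at hq
      exact h1 hq
    set O : Set ℂ := ball q s ∩ {l | 0 < ((u t - l) * conj (v t - u t)).im} with hO
    have hOo : IsOpen O := by
      refine isOpen_ball.inter ?_
      exact isOpen_lt continuous_const (Complex.continuous_im.comp (by fun_prop))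
    have hOne : O.Nonempty := by
      obtain ⟨ε, hε, hε1⟩ : ∃ ε : ℝ, 0 < ε ∧ ε * ‖v t - u t‖ < s := by
        refine ⟨s / (2 * ‖v t - u t‖), by positivity, ?_⟩
        have : 0 < ‖v t - u t‖ := norm_pos_iff.2 huv
        field_simp
        linarith
      refine ⟨q - (ε : ℂ) * I * (v t - u t), ?_, ?_⟩
      · rw [mem_ball, dist_eq_norm]
        have h5 : q - (ε : ℂ) * I * (v t - u t) - q = -((ε : ℂ) * I * (v t - u t)) := by ring
        rw [h5, norm_neg, norm_mul, norm_mul, Complex.norm_I, mul_one, Complex.norm_real,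
          Real.norm_eq_abs, abs_of_pos hε]
        exact hε1
      · obtain ⟨x, y, hx, hy, hxy, hq'⟩ := hq
        simp only [Complex.real_smul] at hq'
        have hx' : (x : ℂ) + y = 1 := by exact_mod_cast hxy
        have h5 : u t - (q - (ε : ℂ) * I * (v t - u t)) =
            (-(y : ℂ) + (ε : ℂ) * I) * (v t - u t) := by
          rw [← hq']
          linear_combination (-u t) * hx'
        change 0 < ((u t - (q - (ε : ℂ) * I * (v t - u t))) * conj (v t - u t)).im
        rw [h5, mul_assoc, Complex.mul_conj]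
        have h6 : 0 < Complex.normSq (v t - u t) := Complex.normSq_pos.2 huv
        simp
        positivity
    obtain ⟨l, hlO, hlG⟩ := (gam_dense h).inter_open_nonempty O hOo hOne
    have hlG' : l ∉ Gam phi F u v := hlG
    unfold Gam at hlG'
    rw [mem_union, not_or] at hlG'
    have hseg : ∀ t' ∈ F, l ∉ segment ℝ (u t') (v t') := by
      intro t' ht' hmem
      apply hlG'.2
      rw [mem_iUnion₂]
      exact ⟨t', ht', hmem⟩
    have hphi : ∀ z ∈ sphere (0 : ℂ) 1, z ∉ F → phi z ≠ l := by
      intro z hz hzF h0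
      exact hlG'.1 ⟨z, ⟨hz, hzF⟩, h0⟩
    have hul : ∀ t' ∈ F, u t' ≠ l := fun t' ht' h0 => hseg t' ht' (by
      rw [← h0]
      exact left_mem_segment ℝ _ _)
    have hvl : ∀ t' ∈ F, v t' ≠ l := fun t' ht' h0 => hseg t' ht' (by
      rw [← h0]
      exact right_mem_segment ℝ _ _)
    obtain ⟨n', g', hg', hnf'⟩ := rsk_nf h ht1 hr hul hvl hphi ht (hexp l hul hvl)
    -- the imaginary part at `t`
    have him : 0 < (sg t t * ((v t - l) / (u t - l))).im := by
      have hul' : u t - l ≠ 0 := sub_ne_zero.2 (hul t ht)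
      have h5 : sg t t * ((v t - l) / (u t - l)) = -1 - (v t - u t) / (u t - l) := by
        unfold sg
        rw [if_pos rfl]
        field_simp
        ring
      have h6 : ((v t - u t) / (u t - l)).im =
          -(((u t - l) * conj (v t - u t)).im / Complex.normSq (u t - l)) := by
        rw [Complex.div_im, Complex.mul_im, Complex.conj_re, Complex.conj_im]
        ring
      rw [h5, sub_im, h6]
      have h7 : 0 < Complex.normSq (u t - l) := Complex.normSq_pos.2 hul'
      have h8 : 0 < ((u t - l) * conj (v t - u t)).im := hlO.2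
      have h9 : 0 < ((u t - l) * conj (v t - u t)).im / Complex.normSq (u t - l) := by positivity
      have h10 : (-1 : ℂ).im = 0 := by simp
      rw [h10]
      linarith
    have hkt : 0 < (Complex.log (sg t t * ((v t - l) / (u t - l)))).im ∧
        (Complex.log (sg t t * ((v t - l) / (u t - l)))).im < Real.pi := by
      rw [Complex.log_im]
      constructor
      · have h5 : 0 ≤ arg (sg t t * ((v t - l) / (u t - l))) := arg_nonneg_iff.2 him.le
        rcases h5.lt_or_eq with h6 | h6
        · exact h6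
        · exfalso
          have h7 := (arg_eq_zero_iff.1 h6.symm).2
          rw [h7] at him
          exact lt_irrefl _ him
      · refine lt_of_le_of_ne (arg_le_pi _) fun h6 => ?_
        have h7 := (arg_eq_pi_iff.1 h6).2
        rw [h7] at him
        exact lt_irrefl _ him
    have hk : ∀ t' ∈ F, t' ≠ t →
        |(Complex.log (sg t t' * ((v t' - l) / (u t' - l)))).im| < Real.pi := by
      intro t' ht' htt
      apply im_log_lt
      unfold sg
      rw [if_neg htt, one_mul]
      exact slit_ratio (hseg t' ht')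
    have hunit' : IsUnit (TM (mf fun x => e x ^ (-n') * (wF t (e x) * (phi (e x) - l)))) := by
      refine unit_of_nf (psi := fun z => wF t z * (phi z - l)) h.circ hr hg' ?_ hnf'
      intro t' ht'
      by_cases htt : t' = t
      · subst htt
        rw [abs_lt]
        exact ⟨by linarith [hkt.1, Real.pi_pos], hkt.2⟩
      · exact hk t' ht' htt
    have hunit : IsUnit (TM (mf fun x => e x ^ (-n) * (wF t (e x) * (phi (e x) - l)))) :=
      hUs l hlO.1
    have hnn' : n' = n := by
      have i1 : Ix (fun z => wF t z * (phi z - l)) 0 n' := by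
        unfold Ix
        simpa only [sub_zero] using hunit'
      have i2 : Ix (fun z => wF t z * (phi z - l)) 0 n := by
        unfold Ix
        simpa only [sub_zero] using hunit
      exact Ix.unique i1 i2
    subst hnn'
    exact hnn l _ (rsk_ix h ht hr hg' hk hkt hnf')
  -- the symbol `a`
  have hcont : Continuous fun x : UnitAddCircle => aF t (e x) := by
    refine (aF_cont ht1).comp_continuous cont_e fun x => ?_
    rw [mem_closedBall_zero_iff, norm_e' x]
  set A : CT := ⟨fun x => aF t (e x), hcont⟩ with hA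
  have hAx : ∀ x, A x = aF t (e x) := fun x => rfl
  obtain ⟨hAp, hAev⟩ := disc_alg (aF_cont ht1) (aF_diff ht1) hAx
  have hBp : Plus (fourier n * A) := (plus_fourier hn).mul hAp
  -- the factorisation
  have hfac : ∀ l : ℂ, T (star A) * (Tp phi - l • (1 : Op)) = U l * T (fourier n * A) := by
    intro l
    rw [← tp_sub hb, ← TM_minus _ (plus_minus hAp), hU]
    simp only
    rw [← TM_plus _ hBp]
    congr 1
    have hsym : MemLp (fun x : UnitAddCircle => e x ^ (-n) * (wF t (e x) * (phi (e x) - l))) ∞ mu0 := by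
      have h5 := memLp_mul (memLp_ct (fourier (-n))) (memLp_mul hw (memLp_phi hb l))
      simpa only [four_e] using h5
    rw [← mf_ct, ← mf_ct, ← mf_mul (memLp_ct _) (memLp_phi hb l), ← mf_mul hsym (memLp_ct _)]
    refine mf_congr (Filter.Eventually.of_forall fun x => ?_)
    simp only [ContinuousMap.mul_apply, four_e, hAx]
    have h5 : (star A : CT) x = conj (aF t (e x)) := rfl
    rw [h5, conj_aF]
    have h6 : e x ^ (-n) * e x ^ n = 1 := by
      rw [← zpow_add₀ (e_ne x), neg_add_cancel, zpow_zero]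
    linear_combination (-(wF t (e x) * aF t (e x) * (phi (e x) - l))) * h6
  -- the solutions
  intro f hh hsol z hz hz0
  have hzt : z ≠ t := by
    rintro rfl
    linarith
  have haz : aF t z ≠ 0 := aF_ne ht1 hz.le hzt
  have hzn : z ^ n ≠ 0 := zpow_ne_zero _ hz0
  refine ⟨s, hs, fun l => ev z (Ring.inverse (U l) (T (star A) f)) / (z ^ n * aF t z), ?_, ?_⟩
  · intro l hl
    have h5 : DifferentiableAt ℂ (fun l => Ring.inverse (U l)) l :=
      (differentiableAt_inverse (𝕜 := ℂ) (hUs l hl)).comp l (hUd l)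
    have h6 : DifferentiableAt ℂ (fun l => ev z (Ring.inverse (U l) (T (star A) f))) l := by
      have h7 : DifferentiableAt ℂ (fun l => Ring.inverse (U l) (T (star A) f)) l :=
        h5.clm_apply (differentiableAt_const _)
      exact (ev z).differentiableAt.comp l h7
    exact (h6.div_const _).differentiableWithinAt
  · intro l hl hlK
    have h5 : U l (T (fourier n * A) (hh l)) = T (star A) f := by
      have h6 := congrArg (fun P : Op => P (hh l)) (hfac l)
      have h7 : T (star A) ((Tp phi - l • (1 : Op)) (hh l)) = U l (T (fourier n * A) (hh l)) := h6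
      rw [← h7, hsol l hlK]
    have h6 : Ring.inverse (U l) (T (star A) f) = T (fourier n * A) (hh l) := by
      rw [← h5]
      have h7 : Ring.inverse (U l) * U l = 1 := Ring.inverse_mul_cancel _ (hUs l hl)
      have h8 := congrArg (fun P : Op => P (T (fourier n * A) (hh l))) h7
      exact h8
    simp only
    rw [h6]
    have h7 : ev z (T (fourier n * A) (hh l)) = z ^ n * (aF t z * ev z (hh l)) := by
      have hBx : ∀ x, (fourier n * A : CT) x = e x ^ n * aF t (e x) := by
        intro x
        rw [ContinuousMap.mul_apply, four_e, hAx]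
      obtain ⟨k, rfl⟩ := Int.eq_ofNat_of_zero_le hn
      have h8 := (disc_alg (G := fun z => z ^ k * aF t z) (A := fourier (k : ℤ) * A)
        ((continuous_pow k).continuousOn.mul (aF_cont ht1))
        ((differentiable_pow k).differentiableOn.mul (aF_diff ht1)) (fun x => by
          rw [hBx, zpow_natCast])).2 z hz (hh l)
      rw [h8, zpow_natCast]
      ring
    rw [h7]
    field_simp

end Pool.Agent.TBirK
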