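import Pool.Agent.TBirK.Mnk
import Pool.Agent.TBirK.Gwk
import Pool.Agent.TBirK.Rsk
import Pool.Agent.TBirK.Rek
import Pool.Agent.TBirK.Ngk
import Pool.Agent.TBirK.Adk
import Pool.Agent.TBirJ.Fnj

/-!
# The criterion for piecewise `C^1` symbols with jumps

As TBirJ/Fnj.lean. `cc_dat`: `sim`: all points not in `F`, without partner (finitely many exceptions), are in `LinkOn phi K z {phi z} (phi z) (phi z)`: `sides_reg`, `0 ≤ m` by `nn`, continuity. `rem`: off `K`: a chart; values of simple points (near them only simple points): `rem_sc` with `exists_sc`; open segments: `rem_seg`; the exceptions (multiple values,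
`u t`, `v t`) are finitely many. `link`: multiple points: `exists_iq`, `0 ≤ x` by `iq_half` (`half`), the points near them are simple and analytic: `exists_sm`; other points not in `F`: `sides_reg`; `t` in `F`: the segment, `cc_sides`. `sides`: multiple values only.
-/

set_option autoImplicit false

open MeasureTheory Complex Set Filter Topology Metric AddCircle
open scoped ComplexConjugate InnerProductSpace ENNReal

namespace Pool.Agent.TBirK

open Pool.Agent.TBir Pool.Agent.TBirG Pool.Agent.TBirC Pool.Agent.TBirJ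
open Pool.Agent.TBirP (E qT)

variable {phi : ℂ → ℂ} {F : Finset ℂ} {u v : ℂ → ℂ}

/-- An analytic value at a point of `F` is the one-sided limit. -/
private theorem fk_an (h : Cv phi F u v) {z : ℂ} (hz : z ∈ F) (ha : AnalyticAt ℂ phi z) :
    phi z = u z := by
  have h1 := h.lim_left z hz
  have h2 : Tendsto (fun x : ℝ => phi (z * E (-x))) (𝓝[>] 0) (𝓝 (phi z)) := by
    have h3 : Tendsto (fun x : ℝ => z * E (-x)) (𝓝[>] 0) (𝓝 z) := by
      have h4 : Continuous fun x : ℝ => z * E (-x) := by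
        unfold E
        fun_prop
      have h5 := h4.tendsto 0
      have h6 : z * E (-0) = z := by simp [E]
      rw [h6] at h5
      exact h5.mono_left nhdsWithin_le_nhds
    exact ha.continuousAt.tendsto.comp h3
  exact tendsto_nhds_unique h2 h1

private theorem fk_ix (h : Cv phi F u v) (hw : ∀ l n, Wj phi F l n → 0 ≤ n) :
    ∀ l n, Ix phi l n → 0 ≤ n := by
  intro l n hl
  have h1 := Ix.nhds (memLp_cv h) hl
  obtain ⟨l', h2, h3⟩ := (gam_dense h).inter_nhds_nonempty h1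
  obtain ⟨n', h4⟩ := exists_wj h h2
  have h3' : Ix phi l' n := h3
  rw [h3'.unique (wj_ix h h4)]
  exact hw l' n' h4

private theorem fk_arg {t : ℂ} (ht : ‖t‖ = 1) : Tendsto (fun z : ℂ => arg (z / t)) (𝓝 t) (𝓝 0) := by
  have ht0 : t ≠ 0 := by
    rintro rfl
    rw [norm_zero] at ht
    exact zero_ne_one ht
  have h1 : ContinuousAt arg (t / t) := by
    rw [div_self ht0]
    exact continuousAt_arg (by simp)
  have h2 : ContinuousAt (fun z : ℂ => z / t) t := by fun_prop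
  have h3 : ContinuousAt (fun z : ℂ => arg (z / t)) t :=
    ContinuousAt.comp (f := fun z : ℂ => z / t) (g := arg) h1 h2
  have h4 := h3.tendsto
  rwa [div_self ht0, arg_one] at h4

private theorem fk_arg_eq {t z : ℂ} (ht : ‖t‖ = 1) (hz : ‖z‖ = 1) :
    t * E (arg (z / t)) = z := by
  have ht0 : t ≠ 0 := by
    rintro rfl
    rw [norm_zero] at ht
    exact zero_ne_one ht
  have h4 : ‖z / t‖ = 1 := by
    rw [norm_div, ht, hz, div_one]
  have h5 := Complex.norm_mul_exp_arg_mul_I (z / t)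
  rw [h4, ofReal_one, one_mul] at h5
  unfold E
  rw [h5, mul_div_cancel₀ _ ht0]

private theorem fk_near (h : Cv phi F u v) {t : ℂ} (ht : t ∈ F) {eps : ℝ} (heps : 0 < eps) :
    ∃ s > 0, ∀ z ∈ ball t s, ‖z‖ = 1 → z ≠ t →
      dist (phi z) (u t) < eps ∨ dist (phi z) (v t) < eps := by
  have htn := h.circ t ht
  have h1 := (h.lim_left t ht).eventually (ball_mem_nhds _ heps)
  have h2 := (h.lim_right t ht).eventually (ball_mem_nhds _ heps)
  rw [eventually_nhdsWithin_iff] at h1 h2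
  obtain ⟨d, hd, h3⟩ := Metric.eventually_nhds_iff_ball.1 (h1.and h2)
  have h4 := (fk_arg htn).eventually (ball_mem_nhds 0 hd)
  obtain ⟨s, hs, h5⟩ := Metric.eventually_nhds_iff_ball.1 h4
  refine ⟨s, hs, fun z hz hz1 hzt => ?_⟩
  have h6 : arg (z / t) ∈ ball (0 : ℝ) d := h5 z hz
  have h7 := fk_arg_eq htn hz1
  rcases lt_trichotomy (arg (z / t)) 0 with h8 | h8 | h8
  · left
    have h6' : -arg (z / t) ∈ ball (0 : ℝ) d := by
      rw [mem_ball, dist_zero_right] at h6 ⊢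
      rwa [norm_neg]
    have h9 := (h3 _ h6').1 (show (0 : ℝ) < -arg (z / t) by linarith)
    rw [neg_neg, h7] at h9
    exact h9
  · exfalso
    apply hzt
    rw [h8] at h7
    rw [← h7]
    simp [E]
  · right
    have h9 := (h3 _ h6).2 h8
    rw [h7] at h9
    exact h9

/-- The numbers of the two sides are nonnegative. -/
private theorem fk_sides {K : Set ℂ} (hnn : ∀ l n, Ix phi l n → 0 ≤ n) {q : ℂ} {m : ℤ}
    (hm : Sides phi K q m) : 0 ≤ m := by
  obtain ⟨A, B, -, -, -, hB, -, hcB, -⟩ := hm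
  obtain ⟨l, hl⟩ := closure_nonempty_iff.1 ⟨q, hcB⟩
  exact hnn l m (hB l hl)

/-- The link over a point of `F`. -/
private theorem fk_link (h : CCross phi F u v) (hnn : ∀ l n, Ix phi l n → 0 ≤ n) {t : ℂ}
    (ht : t ∈ F) : LinkOn phi (Gam phi F u v) t (segment ℝ (u t) (v t)) (u t) (v t) := by
  refine ⟨(convex_segment _ _).isPreconnected, left_mem_segment ℝ _ _, right_mem_segment ℝ _ _,
    fun q hq => ?_, fun eps heps => fk_near h.toPwC.cv ht heps⟩
  obtain ⟨m, hm⟩ := cc_sides h ht hq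
  exact ⟨m, fk_sides hnn hm, hm⟩

/-- The points with a partner. -/
private def Pn (phi : ℂ → ℂ) (F : Finset ℂ) : Set ℂ :=
  {z | ‖z‖ = 1 ∧ z ∉ F ∧ ∃ z' : ℂ, ‖z'‖ = 1 ∧ z' ∉ F ∧ phi z' = phi z ∧ z' ≠ z}

private theorem fk_mult (h : CCross phi F u v) : (Pn phi F).Finite := by
  obtain ⟨D, hD, hinj⟩ := h.inj
  have hfin : (D ∪ ⋃ b ∈ phi '' D, {z : ℂ | z ∈ sphere (0 : ℂ) 1 ∧ z ∉ F ∧ phi z = b}).Finite :=
    hD.union ((hD.image phi).biUnion fun b _ => cv_level h.toPwC.cv b)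
  refine hfin.subset ?_
  rintro z ⟨hz, hzF, z', hz', hz'F, he, hne⟩
  by_contra hcon
  rw [mem_union, not_or] at hcon
  obtain ⟨hzD, hzU⟩ := hcon
  have hzsph : z ∈ sphere (0 : ℂ) 1 := mem_sphere_zero_iff_norm.2 hz
  have hz'D : z' ∉ D := by
    intro hD'
    apply hzU
    exact mem_iUnion₂.2 ⟨phi z', ⟨z', hD', rfl⟩, hzsph, hzF, he.symm⟩
  apply hne
  refine hinj ⟨mem_sphere_zero_iff_norm.2 hz', ?_⟩ ⟨hzsph, ?_⟩ he
  · rintro (h1 | h1)
    · exact hz'F h1
    · exact hz'D h1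
  · rintro (h1 | h1)
    · exact hzF h1
    · exact hzD h1

private theorem fk_alone {z : ℂ} (hz : ‖z‖ = 1) (hzF : z ∉ F) (hP : z ∉ Pn phi F) :
    ∀ z' : ℂ, ‖z'‖ = 1 → z' ∉ F → phi z' = phi z → z' = z := by
  intro z' hz' hz'F he
  by_contra hne
  exact hP ⟨hz, hzF, z', hz', hz'F, he, hne⟩

/-- The link at a point without partner. -/
private theorem fk_reg (h : CCross phi F u v) (hnn : ∀ l n, Ix phi l n → 0 ≤ n) {z : ℂ}
    (hz : ‖z‖ = 1) (hzF : z ∉ F) (hP : z ∉ Pn phi F) :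
    LinkOn phi (Gam phi F u v) z {phi z} (phi z) (phi z) := by
  have hzsph : z ∈ sphere (0 : ℂ) 1 := mem_sphere_zero_iff_norm.2 hz
  have hFc : ∀ᶠ z1 in 𝓝 z, z1 ∉ F :=
    F.finite_toSet.isClosed.isOpen_compl.eventually_mem (show z ∈ (F : Set ℂ)ᶜ from hzF)
  have hPc : ∀ᶠ z1 in 𝓝 z, z1 ∉ Pn phi F :=
    (fk_mult h).isClosed.isOpen_compl.eventually_mem (show z ∈ (Pn phi F)ᶜ from hP)
  refine ⟨isPreconnected_singleton, rfl, rfl, fun q hq => ?_, fun eps heps => ?_⟩
  · rw [mem_singleton_iff.1 hq]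
    obtain ⟨m, hm⟩ := sides_reg h.toPwC hz hzF (fun t ht => h.sep t ht z hzsph hzF)
      (fk_alone hz hzF hP) (by
        filter_upwards [hPc] with z1 h1 h2 h3
        exact fk_alone h2 h3 h1)
    exact ⟨m, fk_sides hnn hm, hm⟩
  · have h1 := (h.toPwC.cv.cont z ⟨hzsph, hzF⟩).eventually (ball_mem_nhds _ heps)
    rw [eventually_nhdsWithin_iff] at h1
    obtain ⟨s, hs, h2⟩ := Metric.eventually_nhds_iff_ball.1 (h1.and hFc)
    refine ⟨s, hs, fun z1 hz1 hz1n _ => Or.inl ?_⟩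
    obtain ⟨h3, h4⟩ := h2 z1 hz1
    exact h3 ⟨mem_sphere_zero_iff_norm.2 hz1n, h4⟩

private theorem fk_closed (a b : ℂ) : IsClosed (segment ℝ a b) := by
  have h1 : IsCompact (segment ℝ a b) := by
    rw [segment_eq_image']
    exact isCompact_Icc.image (by fun_prop)
  exact h1.isClosed

private theorem fk_seg {q : ℂ} (hq : ∀ t ∈ F, q ∉ segment ℝ (u t) (v t)) :
    ∀ᶠ q' in 𝓝 q, ∀ t ∈ F, q' ∉ segment ℝ (u t) (v t) := by
  rw [Filter.eventually_all_finset]
  intro t ht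
  exact (fk_closed _ _).isOpen_compl.eventually_mem (hq t ht)

/-- Multiple points. -/
private theorem fk_dbl (h : CCross phi F u v) (hnn : ∀ l n, Ix phi l n → 0 ≤ n) {t : ℂ}
    (hP : t ∈ Pn phi F) : AnalyticAt ℂ phi t ∧ (∃ x, 0 ≤ x ∧ Iq phi (phi t) x) ∧
      ∀ᶠ z in 𝓝[≠] t, ‖z‖ = 1 → ∃ x, Sm phi z x := by
  obtain ⟨ht, htF, z', hz', hz'F, he, hne⟩ := id hP
  have hts : t ∈ sphere (0 : ℂ) 1 := mem_sphere_zero_iff_norm.2 ht
  obtain ⟨w, hw⟩ := h.half t hts htF z' (mem_sphere_zero_iff_norm.2 hz') hz'F hne.symm he.symm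
  have hsep : ∀ t' ∈ F, phi t ∉ segment ℝ (u t') (v t') := fun t' ht' => h.sep t' ht' t hts htF
  have hder : ∀ z ∈ sphere (0 : ℂ) 1, z ∉ F → phi z = phi t →
      AnalyticAt ℂ phi z ∧ deriv phi z ≠ 0 := by
    intro z hz hzF hzq
    obtain ⟨h1, h2⟩ := hw z hz hzF hzq
    refine ⟨h1, fun h0 => ?_⟩
    rw [h0, mul_zero, mul_zero, mul_zero, zero_re] at h2
    exact lt_irrefl _ h2
  obtain ⟨ha, hd⟩ := hder t hts htF rfl
  refine ⟨ha, ?_, ?_⟩
  · obtain ⟨x, hI⟩ := exists_iq h.toPwC.cv hsep hder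
    refine ⟨x, ?_, hI⟩
    obtain ⟨l, hl⟩ := (iq_half (memLp_cv h.toPwC.cv) hI (w := w) (by
      intro z hz haz hzq
      have hzF : z ∉ F := by
        intro hzF
        apply hsep z hzF
        rw [← hzq, fk_an h.toPwC.cv hzF haz]
        exact left_mem_segment ℝ _ _
      exact (hw z (mem_sphere_zero_iff_norm.2 hz) hzF hzq).2)).exists
    exact hnn l x hl
  · have h1 : ∀ᶠ z in 𝓝 t, AnalyticAt ℂ phi z := ha.eventually_analyticAt
    have h2 : ∀ᶠ z in 𝓝 t, deriv phi z ≠ 0 := ha.deriv.continuousAt.eventually_ne hd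
    have h3 : ∀ᶠ z in 𝓝 t, z ∉ F :=
      F.finite_toSet.isClosed.isOpen_compl.eventually_mem (show t ∈ (F : Set ℂ)ᶜ from htF)
    have h4 : ∀ᶠ z in 𝓝 t, z ∉ Pn phi F \ {t} :=
      ((fk_mult h).subset Set.sdiff_subset).isClosed.isOpen_compl.eventually_mem
        (show t ∈ (Pn phi F \ {t})ᶜ from fun h5 => h5.2 rfl)
    rw [eventually_nhdsWithin_iff]
    filter_upwards [h1, h2, h3, h4] with z g1 g2 g3 g4 g5 g6
    have g7 : z ∉ Pn phi F := fun g8 => g4 ⟨g8, g5⟩
    exact exists_sm h.toPwC.cv g6 g3 g1 g2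
      (fun t' ht' => h.sep t' ht' z (mem_sphere_zero_iff_norm.2 g6) g3) (fk_alone g6 g3 g7)

theorem cc_dat (h : CCross phi F u v) (hw : ∀ l n, Wj phi F l n → 0 ≤ n) :
    Ck phi (Gam phi F u v) := by
  have hc := h.toPwC.cv
  have hb := memLp_cv hc
  have hnn := fk_ix hc hw
  have hoff : ∀ l ∉ Gam phi F u v, ∃ n : ℤ, Ix phi l n := by
    intro l hl
    obtain ⟨n, hn⟩ := exists_wj hc hl
    exact ⟨n, wj_ix hc hn⟩
  have hcl : IsClosed (Gam phi F u v) := (gam_compact hc).isClosed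
  refine
    { hb := hb
      closed := hcl
      ne := gam_ne hc
      dense := gam_dense hc
      vol := gam_vol hc
      null := cv_null hc
      off := hoff
      nn := hnn
      grow := ?_
      rem := ?_
      sim := ?_
      link := ?_
      sides := ?_ }
  · obtain ⟨C, N, hC, hg⟩ := growK hc
    refine ⟨C, N, hC, fun l hl hl1 w => ?_⟩
    obtain ⟨n, hn⟩ := exists_wj hc hl
    exact hg l hl hl1 n (hw l n hn) hn w
  · refine (((F.finite_toSet.image u).union (F.finite_toSet.image v)).union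
      ((fk_mult h).image phi)).subset ?_
    intro q hq
    by_contra hcon
    rw [mem_union, mem_union, not_or, not_or] at hcon
    obtain ⟨⟨hqu, hqv⟩, hqP⟩ := hcon
    apply hq
    by_cases hs : ∃ t ∈ F, q ∈ segment ℝ (u t) (v t)
    · obtain ⟨t, ht, hqs⟩ := hs
      refine rem_seg hc ht hqs (fun h1 => hqu ⟨t, ht, h1.symm⟩)
        (fun h1 => hqv ⟨t, ht, h1.symm⟩) ?_ ?_ hnn _
      · intro z hz hzF he
        apply h.sep t ht z hz hzF
        rw [he]
        exact hqs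
      · intro t' ht' hne hq'
        exact Set.disjoint_left.1 (h.seg t ht t' ht' hne.symm) hqs hq'
    · push Not at hs
      refine rem_sc hb hcl (gam_dense hc) (gam_vol hc) hoff hnn ?_
      have h2 : ∀ᶠ q' in 𝓝 q, q' ∉ phi '' Pn phi F :=
        ((fk_mult h).image phi).isClosed.isOpen_compl.eventually_mem hqP
      filter_upwards [fk_seg hs, h2] with q' g1 g2 g3
      rcases g3 with ⟨z, ⟨hz, hzF⟩, rfl⟩ | g3
      · have hzn : ‖z‖ = 1 := mem_sphere_zero_iff_norm.1 hz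
        have hzF' : z ∉ F := hzF
        have hzP : z ∉ Pn phi F := fun g4 => g2 ⟨z, g4, rfl⟩
        obtain ⟨x, hx⟩ := exists_sc h.toPwC hzn hzF' (fun t ht => h.sep t ht z hz hzF')
          (fk_alone hzn hzF' hzP)
        exact ⟨z, x, rfl, hx⟩
      · exfalso
        obtain ⟨t, ht, g4⟩ := mem_iUnion₂.1 g3
        exact g1 t ht g4
  · refine (F.finite_toSet.union (fk_mult h)).subset ?_
    rintro z ⟨hz, hzl⟩
    by_contra hcon
    rw [mem_union, not_or] at hcon
    exact hzl (fk_reg h hnn hz hcon.1 hcon.2)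
  · intro t ht
    by_cases htF : t ∈ F
    · exact Or.inr ⟨_, _, _, fk_link h hnn htF⟩
    · by_cases htP : t ∈ Pn phi F
      · exact Or.inl (fk_dbl h hnn htP)
      · exact Or.inr ⟨_, _, _, fk_reg h hnn ht htF htP⟩
  · refine ((fk_mult h).image phi).subset ?_
    rintro q ⟨hqK, hq2⟩
    rcases hqK with ⟨z, ⟨hz, hzF⟩, rfl⟩ | hqK
    · have hzn : ‖z‖ = 1 := mem_sphere_zero_iff_norm.1 hz
      have hzF' : z ∉ F := hzF
      by_cases hzP : z ∈ Pn phi F
      · exact ⟨z, hzP, rfl⟩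
      · exact absurd (mem_singleton (phi z)) (hq2 z hzn _ _ _ (fk_reg h hnn hzn hzF' hzP))
    · exfalso
      obtain ⟨t, ht, hqs⟩ := mem_iUnion₂.1 hqK
      exact hq2 t (h.circ t ht) _ _ _ (fk_link h hnn ht) hqs

theorem cc_main (h : CCross phi F u v) : (∀ f ∈ H2, ∃! g, IsToeplitz phi f g) ∧
    (BIR H2 (IsToeplitz phi) ↔
      ¬ ∃ (l l' : ℂ) (n n' : ℤ), Wj phi F l n ∧ Wj phi F l' n' ∧ n < 0 ∧ 0 < n') := by
  have hb := memLp_cv h.toPwC.cv
  refine ⟨exists_unique_TM hb, ?_, ?_⟩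
  · rintro hB ⟨l, l', n, n', hl, hl', hn, hn'⟩
    exact cc_neg h hl hn hl' hn' hB
  · intro hno
    rw [bir_iff_TM hb]
    change CompletelyIrreducible (Tp phi)
    by_cases hw : ∀ l n, Wj phi F l n → 0 ≤ n
    · exact main_datK (cc_dat h hw)
    · push Not at hw
      obtain ⟨l, n, hl, hn⟩ := hw
      rw [← ci_pstar hb]
      refine main_datK (cc_dat h.pstar fun l' n' h' => ?_)
      by_contra hc
      push Not at hc
      rw [show l' = conj (conj l') from (Complex.conj_conj l').symm, wj_pstar_iff] at h'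
      exact hno ⟨l, conj l', n, -n', hl, h', hn, by omega⟩

end Pool.Agent.TBirK
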