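import Pool.Agent.TBirK.Def
import Pool.Agent.TBirJ.Mej

/-!
# The traces are linear

Port of `mem_allJ` in TBirJ/Mej.lean: `q` is flat if there is `tau` such that near `q`, off `K`, `TrJ phi P l n (tau + c * n)` for some `n`. Points with the jump `c` are flat: near them the numbers are `m + 1`, `m`, the traces `tau + c` and `tau`. For large `l` the number is `0` and the trace is `0`.
-/

set_option autoImplicit false

open MeasureTheory Complex Set Filter Topology Metric AddCircle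
open scoped ComplexConjugate InnerProductSpace ENNReal

namespace Pool.Agent.TBirK

open Pool.Agent.TBir Pool.Agent.TBirG Pool.Agent.TBirC Pool.Agent.TBirJ
open Pool.Agent.TBirP (E qT)

theorem linK {phi : ℂ → ℂ} {K : Set ℂ} (D : Ck phi K) {P : Op} (hP2 : P * P = P)
    (hP : P * Tp phi = Tp phi * P) {c : ℂ}
    (hc : ∀ t, ‖t‖ = 1 → ∀ S a b, LinkOn phi K t S a b → ∀ q ∈ S, Jmp phi K P q c) :
    ∀ l ∉ K, ∀ n : ℕ, Ix phi l n → TrJ phi P l n (c * n) := by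
  classical
  obtain ⟨Fl, hFl⟩ : ∃ Fl : ℂ → ℂ → Prop, Fl = fun q tau =>
    ∃ ρ > 0, ∀ l ∈ ball q ρ, l ∉ K → ∃ n : ℕ, Ix phi l n ∧ TrJ phi P l n (tau + c * n) := ⟨_, rfl⟩
  obtain ⟨Bad, hBad⟩ : ∃ Bad : Set ℂ, Bad = {q : ℂ | q ∈ K ∧
    ∀ t, ‖t‖ = 1 → ∀ S a b, LinkOn phi K t S a b → q ∉ S} := ⟨_, rfl⟩
  have hBf : Bad.Finite := by
    rw [hBad]
    exact D.sides
  have hjmp : ∀ q, Jmp phi K P q c → ∃ tau, Fl q tau := by
    rintro q ⟨m, tau, h1, -, -⟩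
    obtain ⟨ρ, hρ, h2⟩ := Metric.eventually_nhds_iff_ball.1 h1
    rw [hFl]
    refine ⟨tau - c * m, ρ, hρ, fun l hl hlK => ?_⟩
    rcases h2 l hl hlK with ⟨h4, h3⟩ | ⟨h4, h3⟩
    · refine ⟨m + 1, by exact_mod_cast h4, ?_⟩
      have h5 : tau - c * m + c * ((m + 1 : ℕ) : ℂ) = tau + c := by
        push_cast
        ring
      rw [h5]
      exact h3
    · refine ⟨m, h4, ?_⟩
      have h5 : tau - c * m + c * (m : ℂ) = tau := by ring
      rw [h5]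
      exact h3
  have hoff : ∀ q ∉ K, ∀ n : ℕ, Ix phi q n → ∃ tau, Fl q tau ∧ TrJ phi P q n (tau + c * n) := by
    intro q hqK n hn
    obtain ⟨tau, h1⟩ := exists_trJ D.hb hP2 hP hn
    obtain ⟨ρ, hρ, h2⟩ := Metric.eventually_nhds_iff_ball.1 (h1.and (Ix.nhds D.hb hn))
    have h5 : tau - c * n + c * (n : ℂ) = tau := by ring
    refine ⟨tau - c * n, ?_, ?_⟩
    · rw [hFl]
      refine ⟨ρ, hρ, fun l hl _ => ⟨n, (h2 l hl).2, ?_⟩⟩
      rw [h5]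
      exact (h2 l hl).1
    · rw [h5]
      exact h1.self_of_nhds
  have hflat : ∀ q ∈ Badᶜ, ∃ tau, Fl q tau := by
    intro q hq
    by_cases hqK : q ∈ K
    · by_cases h2 : ∃ t, ‖t‖ = 1 ∧ ∃ S a b, LinkOn phi K t S a b ∧ q ∈ S
      · obtain ⟨t, ht, S, a, b, h3, h4⟩ := h2
        exact hjmp _ (hc t ht S a b h3 q h4)
      · exfalso
        apply hq
        rw [hBad]
        exact ⟨hqK, fun t ht S a b h3 h4 => h2 ⟨t, ht, S, a, b, h3, h4⟩⟩
    · obtain ⟨n, hn⟩ := D.off q hqK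
      obtain ⟨k, rfl⟩ := Int.eq_ofNat_of_zero_le (D.nn q n hn)
      obtain ⟨tau, h1, -⟩ := hoff q hqK k hn
      exact ⟨tau, h1⟩
  have hop : ∀ p : ℂ → Prop, IsOpen {l : ℂ | ∃ ρ > 0, ∀ μ ∈ ball l ρ, p μ} := by
    intro p
    rw [Metric.isOpen_iff]
    rintro z ⟨ρ, hρ, h⟩
    refine ⟨ρ / 2, half_pos hρ, fun w hw => ⟨ρ / 2, half_pos hρ, fun z1 hz1 => h z1 ?_⟩⟩
    rw [mem_ball] at hw hz1 ⊢
    linarith [dist_triangle z1 w z]
  have hopFl : ∀ tau, IsOpen {q : ℂ | Fl q tau} := by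
    intro tau
    rw [hFl]
    exact hop fun l => l ∉ K → ∃ n : ℕ, Ix phi l n ∧ TrJ phi P l n (tau + c * n)
  obtain ⟨V, hV⟩ : ∃ V : Set ℂ, V = {q : ℂ | Fl q 0} := ⟨_, rfl⟩
  obtain ⟨V', hV'⟩ : ∃ V' : Set ℂ, V' = ⋃ tau ∈ {tau : ℂ | tau ≠ 0}, {q : ℂ | Fl q tau} := ⟨_, rfl⟩
  have hVo : IsOpen V := by
    rw [hV]
    exact hopFl 0
  have hVo' : IsOpen V' := by
    rw [hV']
    exact isOpen_biUnion fun tau _ => hopFl tau
  have hcov : Badᶜ ⊆ V ∪ V' := by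
    intro q hq
    obtain ⟨tau, h1⟩ := hflat q hq
    by_cases h0 : tau = 0
    · left
      rw [hV]
      rw [h0] at h1
      exact h1
    · right
      rw [hV']
      exact mem_iUnion₂.2 ⟨tau, h0, h1⟩
  have hconn : IsPreconnected Badᶜ := by
    refine (hBf.countable.isPathConnected_compl_of_one_lt_rank ?_).isConnected.isPreconnected
    rw [Complex.rank_real_complex]
    norm_num
  have hVne : (Badᶜ ∩ V).Nonempty := by
    obtain ⟨R1, hR⟩ := Ix.large D.hb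
    obtain ⟨R, hR0, hRR⟩ : ∃ R : ℝ, 0 ≤ R ∧ R1 ≤ R := ⟨|R1|, abs_nonneg R1, le_abs_self R1⟩
    have h1 : IsOpen {l : ℂ | R < ‖l‖} := isOpen_lt continuous_const continuous_norm
    have h2 : {l : ℂ | R < ‖l‖}.Nonempty := by
      refine ⟨((R + 1 : ℝ) : ℂ), ?_⟩
      change R < ‖((R + 1 : ℝ) : ℂ)‖
      rw [Complex.norm_real, Real.norm_eq_abs, abs_of_nonneg (by positivity)]
      linarith
    obtain ⟨l, hl, hl', hlK⟩ : ∃ l : ℂ, R < ‖l‖ ∧ l ∈ Badᶜ ∧ l ∉ K := by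
      have h3 : IsOpen ({l : ℂ | R < ‖l‖} ∩ Kᶜ) := h1.inter D.closed.isOpen_compl
      have h4 : ({l : ℂ | R < ‖l‖} ∩ Kᶜ).Nonempty := D.dense.inter_open_nonempty _ h1 h2
      obtain ⟨l, hl, hl'⟩ := (hBf.countable.dense_compl ℝ).inter_open_nonempty _ h3 h4
      exact ⟨l, hl.1, hl', hl.2⟩
    refine ⟨l, hl', ?_⟩
    have h5 : Ix phi l ((0 : ℕ) : ℤ) := by
      have := hR l (hRR.trans_lt hl)
      simpa using this
    obtain ⟨tau, h6, h7⟩ := hoff l hlK 0 h5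
    have h8 : tau = 0 := by
      obtain ⟨a, v, -, -, h9⟩ := h7
      simpa using h9
    rw [hV]
    rw [h8] at h6
    exact h6
  have hBe : ¬ (Badᶜ ∩ V').Nonempty := by
    intro hne
    obtain ⟨q, -, hq1, hq2⟩ := hconn V V' hVo hVo' hcov hVne hne
    rw [hV, hFl] at hq1
    rw [hV', hFl] at hq2
    obtain ⟨tau, htau, hq3⟩ := mem_iUnion₂.1 hq2
    obtain ⟨ρ, hρ, h1⟩ := hq1
    obtain ⟨ρ', hρ', h2⟩ := hq3
    obtain ⟨l, ⟨hl1, hl2⟩, hl3⟩ := D.dense.inter_open_nonempty (ball q ρ ∩ ball q ρ')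
      (isOpen_ball.inter isOpen_ball) ⟨q, mem_ball_self hρ, mem_ball_self hρ'⟩
    obtain ⟨n, -, h3⟩ := h1 l hl1 hl3
    obtain ⟨n', -, h4⟩ := h2 l hl2 hl3
    obtain ⟨h5, h6⟩ := h3.unique hP h4
    rw [h5] at h6
    exact htau (add_right_cancel h6).symm
  intro l hl n hn
  have hlB : l ∈ Badᶜ := by
    intro h
    rw [hBad] at h
    exact hl h.1
  have hlV : l ∈ V := (hcov hlB).resolve_right fun h => hBe ⟨l, hlB, h⟩
  rw [hV, hFl] at hlV
  obtain ⟨ρ, hρ, h⟩ := hlV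
  obtain ⟨n', hn', ht⟩ := h l (mem_ball_self hρ) hl
  have h1 : (n : ℤ) = n' := Ix.unique hn hn'
  have h2 : n = n' := by exact_mod_cast h1
  rw [h2]
  rw [zero_add] at ht
  exact ht

end Pool.Agent.TBirK
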