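import Pool.Agent.TBirK.Def
import Pool.Agent.TBirJ.Vlj

/-!
# The completed curve

Port of TBirJ/Vlj.lean (the private lemmas `QQ`, `qq_curve` etc. can be copied): near a point of the circle the curve is on each side a Lipschitz image of an interval (`h.lip`, with the one-sided limit added at the end), compactness. `cv_level`: by `h.cone` the function `phi ∘ E` is injective on
one-sided neighbourhoods, so the level sets are finite on a period.
-/

set_option autoImplicit false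

open MeasureTheory Complex Set Filter Topology Metric AddCircle
open scoped ComplexConjugate InnerProductSpace ENNReal

namespace Pool.Agent.TBirK

open Pool.Agent.TBir Pool.Agent.TBirG Pool.Agent.TBirC Pool.Agent.TBirJ
open Pool.Agent.TBirP (E qT)

variable {phi : ℂ → ℂ} {F : Finset ℂ} {u v : ℂ → ℂ}

/-- Compact sets with small neighbourhoods. -/
private def QQ (S : Set ℂ) : Prop :=
  IsCompact S ∧ ∃ A : ℝ, 0 < A ∧ ∀ eps : ℝ, 0 < eps → eps ≤ 1 →
    volume {l : ℂ | ∃ s ∈ S, dist l s ≤ eps} ≤ ENNReal.ofReal (A * eps)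

private theorem qq_empty : QQ ∅ := by
  refine ⟨isCompact_empty, 1, one_pos, fun eps _ _ => ?_⟩
  have h1 : {l : ℂ | ∃ s ∈ (∅ : Set ℂ), dist l s ≤ eps} = ∅ := by
    ext l
    simp
  rw [h1, measure_empty]
  exact bot_le

private theorem qq_union {S T : Set ℂ} (hS : QQ S) (hT : QQ T) : QQ (S ∪ T) := by
  obtain ⟨cS, A, hA, hA'⟩ := hS
  obtain ⟨cT, B, hB, hB'⟩ := hT
  refine ⟨cS.union cT, A + B, by positivity, fun eps he he1 => ?_⟩
  have h1 : {l : ℂ | ∃ s ∈ S ∪ T, dist l s ≤ eps} ⊆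
      {l : ℂ | ∃ s ∈ S, dist l s ≤ eps} ∪ {l : ℂ | ∃ s ∈ T, dist l s ≤ eps} := by
    rintro l ⟨s, hs | hs, h⟩
    · exact Or.inl ⟨s, hs, h⟩
    · exact Or.inr ⟨s, hs, h⟩
  calc volume {l : ℂ | ∃ s ∈ S ∪ T, dist l s ≤ eps} ≤
      volume ({l : ℂ | ∃ s ∈ S, dist l s ≤ eps} ∪ {l : ℂ | ∃ s ∈ T, dist l s ≤ eps}) :=
        measure_mono h1
    _ ≤ volume {l : ℂ | ∃ s ∈ S, dist l s ≤ eps} + volume {l : ℂ | ∃ s ∈ T, dist l s ≤ eps} :=
        measure_union_le _ _
    _ ≤ ENNReal.ofReal (A * eps) + ENNReal.ofReal (B * eps) :=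
        add_le_add (hA' eps he he1) (hB' eps he he1)
    _ = ENNReal.ofReal ((A + B) * eps) := by
        rw [← ENNReal.ofReal_add (by positivity) (by positivity), add_mul]

private theorem qq_curve {g : ℝ → ℂ} {d K : ℝ} (hd : 0 < d) (hK : 0 ≤ K)
    (hg : ∀ x y : ℝ, 0 ≤ x → x ≤ d → 0 ≤ y → y ≤ d → ‖g x - g y‖ ≤ K * |x - y|) :
    QQ (g '' Icc 0 d) := by
  have hpi := Real.pi_pos
  have hc : ContinuousOn g (Icc 0 d) := by
    have h1 : LipschitzOnWith ⟨K, hK⟩ g (Icc 0 d) :=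
      LipschitzOnWith.of_dist_le_mul fun x hx y hy => by
        rw [dist_eq_norm, Real.dist_eq]
        exact hg x y hx.1 hx.2 hy.1 hy.2
    exact h1.continuousOn
  refine ⟨isCompact_Icc.image_of_continuousOn hc, (d + 2) * (Real.pi * (1 + K) ^ 2), by positivity,
    fun eps he he1 => ?_⟩
  set n : ℕ := ⌈d / eps⌉₊ with hn
  have hsub : {l : ℂ | ∃ s ∈ g '' Icc 0 d, dist l s ≤ eps} ⊆
      ⋃ j ∈ Finset.range (n + 1), closedBall (g (j * eps : ℝ)) ((1 + K) * eps) := by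
    rintro l ⟨_, ⟨t, ⟨ht0, ht1⟩, rfl⟩, hl⟩
    have hj0 : 0 ≤ t / eps := by positivity
    have hj1 : (⌊t / eps⌋₊ : ℝ) ≤ t / eps := Nat.floor_le hj0
    have hj2 : t / eps < ⌊t / eps⌋₊ + 1 := Nat.lt_floor_add_one _
    have hjn : ⌊t / eps⌋₊ < n + 1 := by
      have h1 : t / eps ≤ d / eps := by gcongr
      have h2 : (⌊t / eps⌋₊ : ℝ) ≤ n := hj1.trans (h1.trans (Nat.le_ceil _))
      exact Nat.lt_succ_of_le (by exact_mod_cast h2)
    refine mem_iUnion₂.mpr ⟨⌊t / eps⌋₊, Finset.mem_range.mpr hjn, ?_⟩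
    rw [mem_closedBall]
    have h3 : (⌊t / eps⌋₊ : ℝ) * eps ≤ t := (le_div_iff₀ he).mp hj1
    have hd' : |t - ⌊t / eps⌋₊ * eps| ≤ eps := by
      have h4 : t < (⌊t / eps⌋₊ + 1) * eps := (div_lt_iff₀ he).mp hj2
      rw [abs_of_nonneg (by linarith)]
      linarith
    have h5 := hg t (⌊t / eps⌋₊ * eps) ht0 ht1 (by positivity) (h3.trans ht1)
    rw [← dist_eq_norm] at h5
    have h6 : K * |t - ⌊t / eps⌋₊ * eps| ≤ K * eps := by gcongr
    calc dist l (g (⌊t / eps⌋₊ * eps : ℝ))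
        ≤ dist l (g t) + dist (g t) (g (⌊t / eps⌋₊ * eps : ℝ)) := dist_triangle _ _ _
      _ ≤ eps + K * eps := add_le_add hl (h5.trans h6)
      _ = (1 + K) * eps := by ring
  calc volume {l : ℂ | ∃ s ∈ g '' Icc 0 d, dist l s ≤ eps}
      ≤ volume (⋃ j ∈ Finset.range (n + 1), closedBall (g (j * eps : ℝ)) ((1 + K) * eps)) :=
        measure_mono hsub
    _ ≤ ∑ j ∈ Finset.range (n + 1), volume (closedBall (g (j * eps : ℝ)) ((1 + K) * eps)) :=
        measure_biUnion_finset_le _ _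
    _ = ∑ j ∈ Finset.range (n + 1), ENNReal.ofReal (Real.pi * ((1 + K) * eps) ^ 2) := by
        refine Finset.sum_congr rfl fun j _ => ?_
        rw [Complex.volume_closedBall, ← ENNReal.ofReal_pow (by positivity),
          ENNReal.ofReal_mul hpi.le, mul_comm]
        congr 1
        rw [← NNReal.coe_real_pi, ENNReal.ofReal_coe_nnreal]
    _ = ENNReal.ofReal (((n : ℝ) + 1) * (Real.pi * ((1 + K) * eps) ^ 2)) := by
        rw [Finset.sum_const, Finset.card_range, nsmul_eq_mul,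
          ENNReal.ofReal_mul (p := (n : ℝ) + 1) (by positivity), ← ENNReal.ofReal_natCast,
          Nat.cast_add, Nat.cast_one]
    _ ≤ ENNReal.ofReal ((d + 2) * (Real.pi * (1 + K) ^ 2) * eps) := by
        refine ENNReal.ofReal_le_ofReal ?_
        have hnle : ((n : ℝ) + 1) ≤ (d + 2) / eps := by
          have h1 : (n : ℝ) < d / eps + 1 := Nat.ceil_lt_add_one (by positivity)
          have h2 : (1 : ℝ) ≤ 1 / eps := by rw [le_div_iff₀ he]; linarith
          have h3 : (d + 2) / eps = d / eps + 1 / eps + 1 / eps := by ring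
          rw [h3]
          linarith
        have h7 : ((n : ℝ) + 1) * (Real.pi * ((1 + K) * eps) ^ 2) ≤
            (d + 2) / eps * (Real.pi * ((1 + K) * eps) ^ 2) := by gcongr
        refine h7.trans (le_of_eq ?_)
        field_simp

private theorem qq_segment (a b : ℂ) : QQ (segment ℝ a b) := by
  rw [segment_eq_image']
  refine qq_curve one_pos (norm_nonneg (b - a)) fun x y _ _ _ _ => ?_
  rw [add_sub_add_left_eq_sub, ← sub_smul, norm_smul, Real.norm_eq_abs, mul_comm]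

private theorem qq_segs (F : Finset ℂ) (u v : ℂ → ℂ) : QQ (⋃ t ∈ F, segment ℝ (u t) (v t)) := by
  classical
  induction F using Finset.induction_on with
  | empty =>
    have h1 : (⋃ t ∈ (∅ : Finset ℂ), segment ℝ (u t) (v t)) = ∅ := by simp
    rw [h1]
    exact qq_empty
  | insert a s ha ih =>
    rw [Finset.set_biUnion_insert]
    exact qq_union (qq_segment _ _) ih

private theorem vlj_E_ne {y : ℝ} (h0 : y ≠ 0) (h1 : |y| < 2 * Real.pi) : E y ≠ 1 := by
  intro h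
  unfold E at h
  rw [Complex.exp_eq_one_iff] at h
  obtain ⟨n, hn⟩ := h
  have h2 : (y : ℂ) = n * (2 * Real.pi) := by
    apply mul_right_cancel₀ I_ne_zero
    rw [hn]
    ring
  have h3 : y = n * (2 * Real.pi) := by exact_mod_cast h2
  have hn0 : n ≠ 0 := by
    rintro rfl
    apply h0
    rw [h3]
    simp
  have h4 : (1 : ℝ) ≤ |(n : ℝ)| := by exact_mod_cast Int.one_le_abs hn0
  have hpi : 0 < 2 * Real.pi := by positivity
  rw [h3, abs_mul, abs_of_pos hpi] at h1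
  nlinarith

private theorem vlj_E_mem (x : ℝ) : ‖E x‖ = 1 := by
  unfold E
  exact Complex.norm_exp_ofReal_mul_I x

private theorem vlj_E_cont : Continuous E := by
  unfold E
  fun_prop

private theorem vlj_not_F {t : ℂ} (ht : ‖t‖ = 1) {s : ℝ} (hs : s = 1 ∨ s = -1) (F : Finset ℂ) :
    ∀ᶠ x : ℝ in 𝓝[>] 0, t * E (s * x) ∉ F := by
  classical
  have ht0 : t ≠ 0 := norm_pos_iff.1 (by rw [ht]; exact one_pos)
  have hc : Continuous fun x : ℝ => t * E (s * x) :=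
    continuous_const.mul (vlj_E_cont.comp (continuous_const.mul continuous_id))
  have h1 : ∀ᶠ x : ℝ in 𝓝 0, t * E (s * x) ∈ ((F.erase t : Finset ℂ) : Set ℂ)ᶜ := by
    refine hc.continuousAt.eventually_mem
      ((F.erase t).finite_toSet.isClosed.isOpen_compl.mem_nhds ?_)
    intro h
    have h2 : t * E (s * 0) = t := by simp [E]
    rw [h2] at h
    exact (Finset.notMem_erase t F) h
  have h2 : ∀ᶠ x : ℝ in 𝓝[>] 0, x < 2 * Real.pi :=
    nhdsWithin_le_nhds (Iio_mem_nhds (by positivity))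
  filter_upwards [nhdsWithin_le_nhds h1, h2, self_mem_nhdsWithin] with x h3 h4 h5 h6
  rw [mem_Ioi] at h5
  apply h3
  rw [Finset.mem_coe, Finset.mem_erase]
  refine ⟨fun h7 => ?_, h6⟩
  have h8 : E (s * x) = 1 := by
    apply mul_left_cancel₀ ht0
    rw [h7, mul_one]
  refine vlj_E_ne ?_ ?_ h8
  · rcases hs with rfl | rfl
    · rw [one_mul]
      exact h5.ne'
    · rw [neg_one_mul]
      exact neg_ne_zero.2 h5.ne'
  · rcases hs with rfl | rfl
    · rwa [one_mul, abs_of_pos h5]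
    · rwa [neg_one_mul, abs_neg, abs_of_pos h5]

private theorem vlj_E_add (x y : ℝ) : E (x + y) = E x * E y := by
  unfold E
  push_cast
  rw [add_mul, Complex.exp_add]

private theorem vlj_E_arg1 {z : ℂ} (hz : ‖z‖ = 1) : E (arg z) = z := by
  have h5 := Complex.norm_mul_exp_arg_mul_I z
  rw [hz, ofReal_one, one_mul] at h5
  exact h5

private theorem vlk_piece (h : Cv phi F u v) {t : ℂ} (ht : ‖t‖ = 1) {s : ℝ} (hs : s = 1 ∨ s = -1)
    {a : ℂ} (h0 : a ∈ Gam phi F u v)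
    (hlim : Tendsto (fun x : ℝ => phi (t * E (s * x))) (𝓝[>] 0) (𝓝 a)) :
    ∃ d > 0, ∃ S : Set ℂ, QQ S ∧ S ⊆ Gam phi F u v ∧ a ∈ S ∧
      ∀ x : ℝ, 0 < x → x ≤ d → phi (t * E (s * x)) ∈ S := by
  classical
  obtain ⟨K, hK, hlip⟩ := h.lip
  obtain ⟨d, hd, hd'⟩ := mem_nhdsGT_iff_exists_Ioc_subset.1 (vlj_not_F ht hs F)
  rw [mem_Ioi] at hd
  have hE : ∀ x : ℝ, t * E (s * x) = E (arg t + s * x) := fun x => by
    rw [vlj_E_add, vlj_E_arg1 ht]
  have hpos : ∀ x y : ℝ, 0 < x → x ≤ y → y ≤ d →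
      ‖phi (t * E (s * x)) - phi (t * E (s * y))‖ ≤ K * |x - y| := by
    intro x y hx hxy hy
    rw [hE, hE]
    rcases hs with rfl | rfl
    · have h1 := hlip (arg t + 1 * x) (arg t + 1 * y) (by linarith) (fun r hr => by
        have h2 := hd' (show r - arg t ∈ Ioc 0 d from ⟨by linarith [hr.1], by linarith [hr.2]⟩)
        rw [mem_setOf_eq, hE] at h2
        rwa [show arg t + 1 * (r - arg t) = r by ring] at h2)
      rwa [show arg t + 1 * x - (arg t + 1 * y) = x - y by ring] at h1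
    · have h1 := hlip (arg t + -1 * y) (arg t + -1 * x) (by linarith) (fun r hr => by
        have h2 := hd' (show arg t - r ∈ Ioc 0 d from ⟨by linarith [hr.2], by linarith [hr.1]⟩)
        rw [mem_setOf_eq, hE] at h2
        rwa [show arg t + -1 * (arg t - r) = r by ring] at h2)
      rw [norm_sub_rev]
      rwa [show arg t + -1 * y - (arg t + -1 * x) = x - y by ring] at h1
  have hzero : ∀ y : ℝ, 0 < y → y ≤ d → ‖a - phi (t * E (s * y))‖ ≤ K * y := by
    intro y hy hyd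
    have h1 : Tendsto (fun x : ℝ => ‖phi (t * E (s * x)) - phi (t * E (s * y))‖) (𝓝[>] 0)
        (𝓝 ‖a - phi (t * E (s * y))‖) := (hlim.sub_const _).norm
    have h2 : ∀ᶠ x : ℝ in 𝓝[>] 0, x ≤ y := nhdsWithin_le_nhds (Iic_mem_nhds hy)
    refine le_of_tendsto h1 ?_
    filter_upwards [h2, self_mem_nhdsWithin] with x hx hx0
    rw [mem_Ioi] at hx0
    refine (hpos x y hx0 hx hyd).trans ?_
    rw [abs_sub_comm, abs_of_nonneg (by linarith)]
    exact mul_le_mul_of_nonneg_left (by linarith) hK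
  obtain ⟨g, hg0, hg⟩ : ∃ g : ℝ → ℂ, g 0 = a ∧ ∀ x : ℝ, 0 < x → g x = phi (t * E (s * x)) :=
    ⟨fun x => if x = 0 then a else phi (t * E (s * x)), if_pos rfl, fun x hx => if_neg hx.ne'⟩
  have hglip : ∀ x y : ℝ, 0 ≤ x → x ≤ y → y ≤ d → ‖g x - g y‖ ≤ K * |x - y| := by
    intro x y hx hxy hy
    rcases hx.eq_or_lt with rfl | hx
    · rcases hxy.eq_or_lt with rfl | hxy
      · rw [sub_self, norm_zero]
        positivity
      · rw [hg0, hg y hxy, zero_sub, abs_neg, abs_of_pos hxy]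
        exact hzero y hxy hy
    · rw [hg x hx, hg y (by linarith)]
      exact hpos x y hx hxy hy
  refine ⟨d, hd, g '' Icc 0 d, qq_curve hd hK (fun x y hx hx' hy hy' => ?_), ?_,
    ⟨0, ⟨le_rfl, hd.le⟩, hg0⟩, fun x hx0 hx1 => ⟨x, ⟨hx0.le, hx1⟩, hg x hx0⟩⟩
  · rcases le_total x y with hxy | hxy
    · exact hglip x y hx hxy hy'
    · rw [norm_sub_rev, abs_sub_comm]
      exact hglip y x hy hxy hx'
  · rintro _ ⟨x, ⟨hx0, hx1⟩, rfl⟩
    rcases hx0.eq_or_lt with rfl | hx0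
    · rw [hg0]
      exact h0
    · rw [hg x hx0]
      left
      refine ⟨t * E (s * x), ⟨?_, hd' ⟨hx0, hx1⟩⟩, rfl⟩
      rw [mem_sphere_zero_iff_norm, norm_mul, ht, vlj_E_mem, one_mul]

private theorem vlk_lim (h : Cv phi F u v) {t : ℂ} (ht : ‖t‖ = 1) (htF : t ∉ F) {s : ℝ}
    (hs : s = 1 ∨ s = -1) : Tendsto (fun x : ℝ => phi (t * E (s * x))) (𝓝[>] 0) (𝓝 (phi t)) := by
  have h1 : Tendsto phi (𝓝[sphere 0 1 \ F] t) (𝓝 (phi t)) :=
    h.cont t ⟨mem_sphere_zero_iff_norm.2 ht, htF⟩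
  refine h1.comp (tendsto_nhdsWithin_iff.2 ⟨?_, ?_⟩)
  · have hc : Continuous fun x : ℝ => t * E (s * x) :=
      continuous_const.mul (vlj_E_cont.comp (continuous_const.mul continuous_id))
    have h2 := (hc.tendsto 0).mono_left (nhdsWithin_le_nhds (s := Ioi 0))
    have h3 : t * E (s * 0) = t := by simp [E]
    rwa [h3] at h2
  · filter_upwards [vlj_not_F ht hs F] with x hx
    refine ⟨?_, hx⟩
    rw [mem_sphere_zero_iff_norm, norm_mul, ht, vlj_E_mem, one_mul]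

private theorem vlj_arg {t : ℂ} (ht : ‖t‖ = 1) :
    Tendsto (fun z : ℂ => arg (z / t)) (𝓝 t) (𝓝 0) := by
  have ht0 : t ≠ 0 := norm_pos_iff.1 (by rw [ht]; exact one_pos)
  have h1 : ContinuousAt arg (t / t) := by
    rw [div_self ht0]
    exact continuousAt_arg (by simp)
  have h2 : ContinuousAt (fun z : ℂ => z / t) t := by fun_prop
  have h3 : ContinuousAt (fun z : ℂ => arg (z / t)) t :=
    ContinuousAt.comp (f := fun z : ℂ => z / t) (g := arg) h1 h2
  have h4 := h3.tendsto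
  rwa [div_self ht0, arg_one] at h4

private theorem vlj_E_arg {t z : ℂ} (ht : ‖t‖ = 1) (hz : ‖z‖ = 1) : t * E (arg (z / t)) = z := by
  have ht0 : t ≠ 0 := norm_pos_iff.1 (by rw [ht]; exact one_pos)
  have h4 : ‖z / t‖ = 1 := by rw [norm_div, ht, hz, div_one]
  have h5 := Complex.norm_mul_exp_arg_mul_I (z / t)
  rw [h4, ofReal_one, one_mul] at h5
  unfold E
  rw [h5, mul_div_cancel₀ _ ht0]

private theorem vlk_nhds (h : Cv phi F u v) {t : ℂ} (ht : t ∈ sphere (0 : ℂ) 1) :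
    ∃ W ∈ 𝓝[sphere (0 : ℂ) 1] t, ∃ S : Set ℂ, QQ S ∧ S ⊆ Gam phi F u v ∧
      ∀ z ∈ W, z ∈ sphere (0 : ℂ) 1 → z ∉ F → phi z ∈ S := by
  have ht1 : ‖t‖ = 1 := mem_sphere_zero_iff_norm.1 ht
  obtain ⟨a1, h01, he1, hn1⟩ : ∃ a, a ∈ Gam phi F u v ∧
      Tendsto (fun x : ℝ => phi (t * E (1 * x))) (𝓝[>] 0) (𝓝 a) ∧ (t ∉ F → a = phi t) := by
    by_cases htF : t ∈ F
    · refine ⟨v t, Or.inr (mem_iUnion₂.2 ⟨t, htF, right_mem_segment _ _ _⟩), ?_,
        fun h3 => absurd htF h3⟩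
      simp only [one_mul]
      exact h.lim_right t htF
    · exact ⟨phi t, Or.inl ⟨t, ⟨ht, htF⟩, rfl⟩, vlk_lim h ht1 htF (Or.inl rfl), fun _ => rfl⟩
  obtain ⟨a2, h02, he2⟩ : ∃ a, a ∈ Gam phi F u v ∧
      Tendsto (fun x : ℝ => phi (t * E (-1 * x))) (𝓝[>] 0) (𝓝 a) := by
    by_cases htF : t ∈ F
    · refine ⟨u t, Or.inr (mem_iUnion₂.2 ⟨t, htF, left_mem_segment _ _ _⟩), ?_⟩
      simp only [neg_one_mul]
      exact h.lim_left t htF
    · exact ⟨phi t, Or.inl ⟨t, ⟨ht, htF⟩, rfl⟩, vlk_lim h ht1 htF (Or.inr rfl)⟩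
  obtain ⟨d1, hd1, S1, q1, s1, m1, p1⟩ := vlk_piece h ht1 (Or.inl rfl) h01 he1
  obtain ⟨d2, hd2, S2, q2, s2, m2, p2⟩ := vlk_piece h ht1 (Or.inr rfl) h02 he2
  have hW : ∀ᶠ z in 𝓝 t, -d2 < arg (z / t) ∧ arg (z / t) < d1 := by
    have h1 := vlj_arg ht1
    exact (h1.eventually (lt_mem_nhds (by linarith : -d2 < 0))).and (h1.eventually (gt_mem_nhds hd1))
  refine ⟨{z | -d2 < arg (z / t) ∧ arg (z / t) < d1}, nhdsWithin_le_nhds hW, S1 ∪ S2,
    qq_union q1 q2, union_subset s1 s2, ?_⟩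
  rintro z ⟨hz1, hz2⟩ hz hzF
  have hzt := vlj_E_arg ht1 (mem_sphere_zero_iff_norm.1 hz)
  rcases lt_trichotomy (arg (z / t)) 0 with h3 | h3 | h3
  · right
    have h4 := p2 (-arg (z / t)) (by linarith) (by linarith)
    rwa [neg_mul_neg, one_mul, hzt] at h4
  · left
    have h4 : z = t := by
      rw [h3] at hzt
      rw [← hzt]
      simp [E]
    rw [h4] at hzF ⊢
    rw [← hn1 hzF]
    exact m1
  · left
    have h4 := p1 (arg (z / t)) h3 hz2.le
    rwa [one_mul, hzt] at h4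

private theorem vlk_QQ (h : Cv phi F u v) : QQ (Gam phi F u v) := by
  obtain ⟨S, hS, hS', hS''⟩ := (isCompact_sphere (0 : ℂ) 1).induction_on
    (p := fun W => ∃ S : Set ℂ, QQ S ∧ S ⊆ Gam phi F u v ∧
      ∀ z ∈ W, z ∈ sphere (0 : ℂ) 1 → z ∉ F → phi z ∈ S)
    ⟨∅, qq_empty, empty_subset _, fun z hz => hz.elim⟩
    (fun s t hst ⟨S, h1, h2, h3⟩ => ⟨S, h1, h2, fun z hz => h3 z (hst hz)⟩)
    (fun s t ⟨S, h1, h2, h3⟩ ⟨S', h1', h2', h3'⟩ => ⟨S ∪ S', qq_union h1 h1', union_subset h2 h2',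
      fun z hz hz' hz'' => hz.elim (fun h4 => Or.inl (h3 z h4 hz' hz''))
        fun h4 => Or.inr (h3' z h4 hz' hz'')⟩)
    (fun t ht => vlk_nhds h ht)
  have h1 : Gam phi F u v = S ∪ ⋃ t ∈ F, segment ℝ (u t) (v t) := by
    apply Subset.antisymm
    · rintro _ (⟨z, ⟨hz, hzF⟩, rfl⟩ | hl)
      · exact Or.inl (hS'' z hz hz hzF)
      · exact Or.inr hl
    · exact union_subset hS' subset_union_right
  rw [h1]
  exact qq_union hS (qq_segs F u v)

private theorem vlj_null_F : mu0 {x : UnitAddCircle | e x ∈ F} = 0 := by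
  apply PsiAux.null
  exact (F.finite_toSet).preimage (f := e) (fun x _ y _ hxy => PsiAux.e_inj hxy)

private theorem vlj_e_mem (x : UnitAddCircle) : e x ∈ sphere (0 : ℂ) 1 := by
  rw [mem_sphere_zero_iff_norm]
  exact PsiAux.norm_e' x

theorem gam_compact (h : Cv phi F u v) : IsCompact (Gam phi F u v) := (vlk_QQ h).1

theorem memLp_cv (h : Cv phi F u v) : MemLp (fun x : UnitAddCircle => phi (e x)) ∞ mu0 := by
  obtain ⟨R, hR⟩ := (gam_compact h).isBounded.exists_norm_le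
  have h1 : ∀ᵐ x ∂mu0, x ∈ {x : UnitAddCircle | e x ∈ F}ᶜ := by
    rw [ae_iff]
    simpa using vlj_null_F (F := F)
  have hop : IsOpen {x : UnitAddCircle | e x ∈ F}ᶜ :=
    (F.finite_toSet.isClosed.preimage PsiAux.cont_e).isOpen_compl
  have hcont : ContinuousOn (fun x : UnitAddCircle => phi (e x)) {x : UnitAddCircle | e x ∈ F}ᶜ :=
    h.cont.comp PsiAux.cont_e.continuousOn fun x hx => ⟨vlj_e_mem x, hx⟩
  have h2 : AEStronglyMeasurable (fun x : UnitAddCircle => phi (e x)) mu0 := by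
    have h3 := hcont.aestronglyMeasurable (μ := mu0) hop.measurableSet
    rwa [Measure.restrict_eq_self_of_ae_mem h1] at h3
  refine memLp_top_of_bound h2 R ?_
  filter_upwards [h1] with x hx
  exact hR _ (Or.inl ⟨e x, ⟨vlj_e_mem x, hx⟩, rfl⟩)

theorem gam_ne (h : Cv phi F u v) : (Gam phi F u v).Nonempty := by
  by_contra hcon
  have h1 : {x : UnitAddCircle | e x ∈ F} = univ := by
    rw [eq_univ_iff_forall]
    intro x
    by_contra hx
    exact hcon ⟨phi (e x), Or.inl ⟨e x, ⟨vlj_e_mem x, hx⟩, rfl⟩⟩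
  have h2 := vlj_null_F (F := F)
  rw [h1, measure_univ] at h2
  exact one_ne_zero h2

theorem gam_vol (h : Cv phi F u v) : ∃ A : ℝ, 0 < A ∧ ∀ eps : ℝ, 0 < eps → eps ≤ 1 →
    volume {l : ℂ | infDist l (Gam phi F u v) ≤ eps} ≤ ENNReal.ofReal (A * eps) := by
  obtain ⟨hc, A, hA, hA'⟩ := vlk_QQ h
  refine ⟨A, hA, fun eps he he1 => (measure_mono fun l hl => ?_).trans (hA' eps he he1)⟩
  obtain ⟨s, hs, hls⟩ := hc.exists_infDist_eq_dist (gam_ne h) l
  exact ⟨s, hs, by rw [← hls]; exact hl⟩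

theorem gam_dense (h : Cv phi F u v) : Dense (Gam phi F u v)ᶜ := by
  rw [← interior_eq_empty_iff_dense_compl]
  apply Measure.interior_eq_empty_of_null (μ := volume)
  obtain ⟨A, hA, hv⟩ := gam_vol h
  have h1 : ∀ eps : ℝ, 0 < eps → eps ≤ 1 →
      volume (Gam phi F u v) ≤ ENNReal.ofReal (A * eps) := by
    intro eps he he1
    refine (measure_mono fun l hl => ?_).trans (hv eps he he1)
    have h8 : infDist l (Gam phi F u v) = 0 := infDist_zero_of_mem hl
    show infDist l (Gam phi F u v) ≤ eps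
    rw [h8]
    exact he.le
  have h2 : Tendsto (fun eps : ℝ => ENNReal.ofReal (A * eps)) (𝓝[>] 0) (𝓝 0) := by
    have h3 : Tendsto (fun eps : ℝ => A * eps) (𝓝[>] 0) (𝓝 0) := by
      have h4 : Tendsto (fun eps : ℝ => A * eps) (𝓝 0) (𝓝 (A * 0)) :=
        (continuous_const.mul continuous_id).tendsto 0
      rw [mul_zero] at h4
      exact h4.mono_left nhdsWithin_le_nhds
    have h5 := ENNReal.tendsto_ofReal h3
    rwa [ENNReal.ofReal_zero] at h5
  have h6 : ∀ᶠ eps : ℝ in 𝓝[>] 0, volume (Gam phi F u v) ≤ ENNReal.ofReal (A * eps) := by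
    have h7 : ∀ᶠ eps : ℝ in 𝓝[>] 0, eps ≤ 1 := nhdsWithin_le_nhds (Iic_mem_nhds one_pos)
    filter_upwards [h7, self_mem_nhdsWithin] with eps he1 he
    exact h1 eps he he1
  exact le_antisymm (ge_of_tendsto h2 h6) bot_le

private theorem vlk_sub (h : Cv phi F u v) {t : ℂ} (ht : ‖t‖ = 1) {s : ℝ} (hs : s = 1 ∨ s = -1)
    (b : ℂ) : ∃ d > 0, {z : ℂ | ∃ y : ℝ, 0 < y ∧ y ≤ d ∧ z = t * E (s * y) ∧ phi z = b}.Finite := by
  obtain ⟨d, hd, w, -, hw⟩ := h.cone (arg t) s hs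
  refine ⟨d, hd, Set.Subsingleton.finite ?_⟩
  have hE : ∀ x : ℝ, t * E (s * x) = E (arg t + s * x) := fun x => by
    rw [vlj_E_add, vlj_E_arg1 ht]
  rintro z ⟨y, hy0, hyd, rfl, hb⟩ z' ⟨y', hy0', hyd', rfl, hb'⟩
  rw [hE] at hb hb'
  rcases lt_trichotomy y y' with h1 | h1 | h1
  · exact absurd (hb.trans hb'.symm) (hw y y' hy0 h1 hyd').1
  · rw [h1]
  · exact absurd (hb'.trans hb.symm) (hw y' y hy0' h1 hyd).1

theorem cv_level (h : Cv phi F u v) (b : ℂ) :
    {z : ℂ | z ∈ sphere (0 : ℂ) 1 ∧ z ∉ F ∧ phi z = b}.Finite := by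
  have h1 := (isCompact_sphere (0 : ℂ) 1).induction_on
    (p := fun W => {z : ℂ | z ∈ W ∧ z ∈ sphere (0 : ℂ) 1 ∧ phi z = b}.Finite)
    (by simp)
    (fun s t hst h2 => h2.subset fun z hz => ⟨hst hz.1, hz.2⟩)
    (fun s t h2 h3 => (h2.union h3).subset fun z hz =>
      hz.1.elim (fun h4 => Or.inl ⟨h4, hz.2⟩) fun h4 => Or.inr ⟨h4, hz.2⟩)
    (fun t ht => by
      have ht1 : ‖t‖ = 1 := mem_sphere_zero_iff_norm.1 ht
      obtain ⟨d1, hd1, f1⟩ := vlk_sub h ht1 (Or.inl rfl) b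
      obtain ⟨d2, hd2, f2⟩ := vlk_sub h ht1 (Or.inr rfl) b
      have hW : ∀ᶠ z in 𝓝 t, -d2 < arg (z / t) ∧ arg (z / t) < d1 := by
        have h1 := vlj_arg ht1
        exact (h1.eventually (lt_mem_nhds (by linarith : -d2 < 0))).and
          (h1.eventually (gt_mem_nhds hd1))
      refine ⟨{z | -d2 < arg (z / t) ∧ arg (z / t) < d1}, nhdsWithin_le_nhds hW,
        ((f1.union f2).union (Set.finite_singleton t)).subset ?_⟩
      rintro z ⟨⟨hz1, hz2⟩, hz, hzb⟩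
      have hzt := vlj_E_arg ht1 (mem_sphere_zero_iff_norm.1 hz)
      rcases lt_trichotomy (arg (z / t)) 0 with h3 | h3 | h3
      · refine Or.inl (Or.inr ⟨-arg (z / t), by linarith, by linarith, ?_, hzb⟩)
        rw [neg_mul_neg, one_mul, hzt]
      · right
        show z = t
        rw [h3] at hzt
        rw [← hzt]
        simp [E]
      · refine Or.inl (Or.inl ⟨arg (z / t), h3, hz2.le, ?_, hzb⟩)
        rw [one_mul, hzt])
  exact h1.subset fun z hz => ⟨hz.1, hz.1, hz.2.2⟩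

theorem cv_null (h : Cv phi F u v) (b : ℂ) : mu0 {x : UnitAddCircle | phi (e x) = b} = 0 := by
  have h1 := (cv_level h b).preimage (f := e) (fun x _ y _ hxy => PsiAux.e_inj hxy)
  refine measure_mono_null (fun x hx => ?_) (measure_union_null (PsiAux.null h1) (vlj_null_F (F := F)))
  by_cases hxF : e x ∈ F
  · exact Or.inr hxF
  · exact Or.inl ⟨vlj_e_mem x, hxF, hx⟩

end Pool.Agent.TBirK
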