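import Pool.Agent.TBirK.Tbk
import Pool.Agent.TBirK.Cok
import Pool.Agent.TBirK.Lnk
import Pool.Agent.TBirK.Zek

/-!
# The abstract theorem

`main_datK`: `bir_iff`; `c` from `const_ofK`. There is a point `q` with `Jmp phi K P q c` (`D.sim`, the circle is infinite): near `q` there are `l`, `l'` off `K` with numbers `m + 1`, `m` and traces `c (m + 1)`, `c m` (`linK`). By `trJ_bd` they are integers `k`, `k'` with `0 ≤ k ≤ m + 1`: `c = k - k'` is an integer with
`0 ≤ c (m + 1) ≤ m + 1`, so `c = 0` or `c = 1`. If `c = 0` all traces are zero: `tr_zeroJ` and `zero_PK` (for `l ∉ K` with the number `n`: `D.off`, `D.nn`). If `c = 1` the same for `1 - P` (`trJ_compl`).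
-/

set_option autoImplicit false

open MeasureTheory Complex Set Filter Topology Metric AddCircle
open scoped ComplexConjugate InnerProductSpace ENNReal

namespace Pool.Agent.TBirK

open Pool.Agent.TBir Pool.Agent.TBirG Pool.Agent.TBirC Pool.Agent.TBirJ
open Pool.Agent.TBirP (E qT)

/-- A linked point on the circle. -/
private theorem mnk_exists {phi : ℂ → ℂ} {K : Set ℂ} (D : Ck phi K) :
    ∃ t : ℂ, ‖t‖ = 1 ∧ LinkOn phi K t {phi t} (phi t) (phi t) := by
  by_contra hcon
  push Not at hcon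
  have h1 : sphere (0 : ℂ) 1 ⊆ {z : ℂ | ‖z‖ = 1 ∧ ¬ LinkOn phi K z {phi z} (phi z) (phi z)} := by
    intro z hz
    have hz' : ‖z‖ = 1 := by simpa using hz
    exact ⟨hz', hcon z hz'⟩
  have h2 : (sphere (0 : ℂ) 1).Finite := D.sim.subset h1
  have h3 : (fun t : ℝ => Complex.exp (t * I)) '' (Ioo 0 1) ⊆ sphere (0 : ℂ) 1 := by
    rintro _ ⟨t, -, rfl⟩
    simp [Complex.norm_exp_ofReal_mul_I]
  have h4 : InjOn (fun t : ℝ => Complex.exp (t * I)) (Ioo 0 1) := by
    intro a ha b hb hab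
    have h7 : Complex.exp (a * I) = Complex.exp (b * I) := hab
    rw [Complex.exp_eq_exp_iff_exists_int] at h7
    obtain ⟨n, hn⟩ := h7
    have h8 : (a : ℂ) = b + n * (2 * Real.pi) := by
      have hI := Complex.I_ne_zero
      apply mul_right_cancel₀ hI
      rw [hn]
      ring
    have h9 : a = b + n * (2 * Real.pi) := by exact_mod_cast h8
    have ha1 : a < 1 := ha.2
    have hb1 : b < 1 := hb.2
    have ha0 : 0 < a := ha.1
    have hb0 : 0 < b := hb.1
    have hpi := Real.pi_gt_three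
    have h10 : n = 0 := by
      by_contra hn0
      rcases lt_or_gt_of_ne hn0 with h | h
      · have : (n : ℝ) ≤ -1 := by exact_mod_cast (show n ≤ -1 by omega)
        nlinarith
      · have : (1 : ℝ) ≤ n := by exact_mod_cast (show 1 ≤ n by omega)
        nlinarith
    rw [h9, h10]
    simp
  exact (((Set.Ioo_infinite one_pos).image h4).mono h3) h2

/-- The constant is `0` or `1`. -/
private theorem mnk_const {phi : ℂ → ℂ} {K : Set ℂ} (D : Ck phi K) {P : Op} (hP2 : P * P = P)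
    (hP : P * Tp phi = Tp phi * P) {c : ℂ}
    (hc : ∀ t, ‖t‖ = 1 → ∀ S a b, LinkOn phi K t S a b → ∀ q ∈ S, Jmp phi K P q c)
    (hlin : ∀ l ∉ K, ∀ n : ℕ, Ix phi l n → TrJ phi P l n (c * n)) : c = 0 ∨ c = 1 := by
  obtain ⟨t, ht, hL⟩ := mnk_exists D
  obtain ⟨m, tau, -, hf1, hf2⟩ := hc t ht _ _ _ hL (phi t) rfl
  obtain ⟨l, hl1, hl⟩ := hf1.exists
  obtain ⟨l', hl1', hl'⟩ := hf2.exists
  have e1 := hlin l hl (m + 1) (by push_cast; exact hl1)
  have e2 := hlin l' hl' m hl1'
  obtain ⟨k, hk, ek⟩ := trJ_bd hP2 hP e1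
  obtain ⟨k', hk', ek'⟩ := trJ_bd hP2 hP e2
  have h1 : c = ((k - k' : ℤ) : ℂ) := by
    push_cast
    rw [← ek, ← ek']
    push_cast
    ring
  have h2 : (((k - k' : ℤ) * (m + 1) : ℤ) : ℂ) = ((k : ℤ) : ℂ) := by
    push_cast at h1 ek ⊢
    rw [← h1]
    exact ek
  have h3 : (k - k' : ℤ) * (m + 1) = k := by exact_mod_cast h2
  have h4 : (k - k' : ℤ) = 0 ∨ (k - k' : ℤ) = 1 := by
    have hm : (0 : ℤ) < m + 1 := by positivity
    have hk0 : (0 : ℤ) ≤ k := by positivity
    have hk1 : (k : ℤ) ≤ m + 1 := by exact_mod_cast hk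
    have h5 : 0 ≤ (k - k' : ℤ) := by
      by_contra hneg
      push Not at hneg
      nlinarith
    have h6 : (k - k' : ℤ) ≤ 1 := by
      by_contra hbig
      push Not at hbig
      nlinarith
    omega
  rcases h4 with h4 | h4
  · left
    rw [h1, h4, Int.cast_zero]
  · right
    rw [h1, h4, Int.cast_one]

theorem main_datK {phi : ℂ → ℂ} {K : Set ℂ} (D : Ck phi K) : CompletelyIrreducible (Tp phi) := by
  rw [bir_iff]
  intro P hP2 hP
  obtain ⟨c, hc⟩ := const_ofK D hP2 hP
  have hlin := linK D hP2 hP hc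
  have hnat : ∀ l ∉ K, ∃ n : ℕ, Ix phi l n := by
    intro l hl
    obtain ⟨n, hn⟩ := D.off l hl
    obtain ⟨m, rfl⟩ := Int.eq_ofNat_of_zero_le (D.nn l n hn)
    exact ⟨m, hn⟩
  rcases mnk_const D hP2 hP hc hlin with rfl | rfl
  · left
    refine zero_PK D.toDk hP ?_
    intro f l hl
    obtain ⟨n, hn⟩ := hnat l hl
    have h1 := hlin l hl n hn
    rw [zero_mul] at h1
    exact tr_zeroJ hP2 hP h1 f
  · right
    have h1 : (1 - P) * (1 - P) = 1 - P := by
      rw [mul_sub, mul_one, sub_mul, one_mul, hP2, sub_self, sub_zero]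
    have h2 : (1 - P) * Tp phi = Tp phi * (1 - P) := by
      rw [sub_mul, mul_sub, hP, one_mul, mul_one]
    have h3 : 1 - P = 0 := by
      refine zero_PK D.toDk h2 ?_
      intro f l hl
      obtain ⟨n, hn⟩ := hnat l hl
      have h4 := trJ_compl (hlin l hl n hn)
      rw [one_mul, sub_self] at h4
      exact tr_zeroJ h1 h2 h4 f
    rw [sub_eq_zero] at h3
    exact h3.symm

end Pool.Agent.TBirK
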