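import Pool.Agent.TBirK.RgD
import Pool.Agent.TBirK.Adk

/-!
# Winding numbers 0, 1, -1: the adjoint
-/

set_option autoImplicit false

open MeasureTheory Complex Set Filter Topology Metric AddCircle
open scoped ComplexConjugate InnerProductSpace ENNReal

namespace Pool.Agent.TBirK

open Pool.Agent.TBir Pool.Agent.TBirG Pool.Agent.TBirC Pool.Agent.TBirJ
open Pool.Agent.TBirP (E qT)

variable {phi : ℂ → ℂ} {F : Finset ℂ} {u v : ℂ → ℂ}

private theorem rga_seg {a b w : ℂ} (h : w ∈ segment ℝ (conj a) (conj b)) :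
    conj w ∈ segment ℝ a b := by
  obtain ⟨r, s, hr, hs, hrs, rfl⟩ := h
  refine ⟨r, s, hr, hs, hrs, ?_⟩
  simp

private theorem rga_inj {z z' : ℂ} (hz : ‖z‖ = 1) (hz' : ‖z'‖ = 1)
    (h : pstar phi z = pstar phi z') : phi z = phi z' := by
  rw [TBirP.AdjQ.on hz, TBirP.AdjQ.on hz'] at h
  exact (starRingEnd ℂ).injective h

theorem RegC.pstar (h : RegC phi F u v) :
    RegC (pstar phi) F (fun t => conj (u t)) (fun t => conj (v t)) := by
  refine ⟨h.toPwC.pstar, ?_, fun t ht => ?_⟩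
  · obtain ⟨D, hD, hinj⟩ := h.inj
    refine ⟨D, hD, fun z hz z' hz' h1 => hinj hz hz' ?_⟩
    exact rga_inj (mem_sphere_zero_iff_norm.1 hz.1) (mem_sphere_zero_iff_norm.1 hz'.1) h1
  · refine ((h.cross t ht).image fun q => conj q).subset ?_
    rintro q ⟨h1, h2⟩
    refine ⟨conj q, ⟨rga_seg h1, ?_⟩, Complex.conj_conj q⟩
    rcases h2 with ⟨z, hz, hzF, hzq⟩ | ⟨t', ht', hne, h3⟩
    · left
      refine ⟨z, hz, hzF, ?_⟩
      rw [← hzq, TBirP.AdjQ.on (mem_sphere_zero_iff_norm.1 hz), Complex.conj_conj]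
    · right
      exact ⟨t', ht', hne, rga_seg h3⟩

theorem omJ_pstar : OmJ (pstar phi) F = (fun l => conj l) ⁻¹' OmJ phi F := by
  ext l
  constructor
  · rintro ⟨n, hn, h1⟩
    have h2 : Wj (pstar phi) F (conj (conj l)) n := by
      rw [Complex.conj_conj]
      exact h1
    exact ⟨-n, neg_ne_zero.2 hn, wj_pstar_iff.1 h2⟩
  · rintro ⟨n, hn, h1⟩
    have h2 : Wj phi F (conj l) (- -n) := by
      rw [neg_neg]
      exact h1
    have h3 := wj_pstar_iff.2 h2
    rw [Complex.conj_conj] at h3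
    exact ⟨-n, neg_ne_zero.2 hn, h3⟩

theorem omJ_pre (h : IsPreconnected (OmJ phi F)) : IsPreconnected (OmJ (pstar phi) F) := by
  have e1 : OmJ (pstar phi) F = (fun l : ℂ => conj l) '' OmJ phi F := by
    rw [omJ_pstar]
    ext l
    constructor
    · intro hl
      exact ⟨conj l, hl, Complex.conj_conj l⟩
    · rintro ⟨l', hl', rfl⟩
      show conj (conj l') ∈ OmJ phi F
      rw [Complex.conj_conj]
      exact hl'
  rw [e1]
  exact h.image _ Complex.continuous_conj.continuousOn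

end Pool.Agent.TBirK
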