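import Pool.Agent.TBirK.Def

/-!
# Winding numbers 0, 1, -1: definitions

`RegC`: piecewise `C^1` symbols with jumps, injective off a finite set, such that the segments of the jumps meet the rest of the curve in finitely many points. `OmJ`: the points with nonzero winding number. `NearC`: near a point of a segment, and near a multiple value which is the value at a
point at which `phi` is not analytic, the points of `OmJ` are in one connected subset of `OmJ`.
-/

set_option autoImplicit false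

open MeasureTheory Complex Set Filter Topology Metric AddCircle
open scoped ComplexConjugate InnerProductSpace ENNReal

namespace Pool.Agent.TBirK

open Pool.Agent.TBir Pool.Agent.TBirG Pool.Agent.TBirC Pool.Agent.TBirJ
open Pool.Agent.TBirP (E qT)

/-- Piecewise `C^1` symbols with jumps, injective off a finite set. -/
structure RegC (phi : ℂ → ℂ) (F : Finset ℂ) (u v : ℂ → ℂ) : Prop extends PwC phi F u v where
  inj : ∃ D : Set ℂ, D.Finite ∧ InjOn phi (sphere 0 1 \ (F ∪ D))
  cross : ∀ t ∈ F, {q : ℂ | q ∈ segment ℝ (u t) (v t) ∧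
    ((∃ z ∈ sphere (0 : ℂ) 1, z ∉ F ∧ phi z = q) ∨
      ∃ t' ∈ F, t' ≠ t ∧ q ∈ segment ℝ (u t') (v t'))}.Finite

/-- The points with nonzero winding number. -/
def OmJ (phi : ℂ → ℂ) (F : Finset ℂ) : Set ℂ := {l | ∃ n : ℤ, n ≠ 0 ∧ Wj phi F l n}

/-- Near the points of the segments and near the multiple values which are taken at a point where `phi` is not analytic
with nonzero derivative, the points of `OmJ` are in one connected subset of `OmJ`. -/
def NearC (phi : ℂ → ℂ) (F : Finset ℂ) (u v : ℂ → ℂ) : Prop :=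
  ∀ q : ℂ, ((∃ t ∈ F, q ∈ segment ℝ (u t) (v t)) ∨
      ∃ z1 ∈ sphere (0 : ℂ) 1, z1 ∉ F ∧ phi z1 = q ∧ ¬ (AnalyticAt ℂ phi z1 ∧ deriv phi z1 ≠ 0) ∧
        ∃ z2 ∈ sphere (0 : ℂ) 1, z2 ∉ F ∧ z2 ≠ z1 ∧ phi z2 = q) →
    ∃ A : Set ℂ, IsPreconnected A ∧ A ⊆ OmJ phi F ∧ ∀ᶠ l in 𝓝 q, l ∈ OmJ phi F → l ∈ A

end Pool.Agent.TBirK
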