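import Pool.Agent.TBirK.Wjk
import Pool.Agent.TBirJ.Sgj

/-!
# Points on the segments

Port of TBirJ/Sgj.lean: `PwJ` is replaced by `Cv`.

`seg_local`: let `kap t' = Complex.log ((v t' - l) / (u t' - l))` for `t' ≠ t`; at `l = q` choose `kap t = Real.log (..) - pi * I` (`(v t - q) / (u t - q)` is a negative real number), `normal_form` for `phi - q` gives `n`. For `l` near `q` the function `(phi - l) / (phi - q)` is uniformly near `1` on the circle
without `F` (`phi - q` is bounded below there), so `phi - l = z ^ n * exp (H + Complex.log ((phi - l) / (phi - q)))` with the jump `kap_l t` near `kap t`, `exp (kap_l t) = (v t - l) / (u t - l)`. If the imaginary part is `> - pi` then `Wj phi F l n`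
(`wj_ix`). If it is `< - pi`: `z = t * E y`, the function `z / (-t)` is `exp (i (y - pi))`, `0 < y < 2 pi`, so the new jump at `t` with `z ^ (n + 1)` is `kap_l t + 2 pi I`: `Wj phi F l (n + 1)`. The sign of
`im ((l - u) conj (v - u))` is positive iff the argument of `(v - l) / (u - l)` is positive (`im ((v - l) conj (u - l)) = im ((l - u) conj (v - u))`), so the left side has `n + 1`, the right side `n`; `m = n`.
-/

set_option autoImplicit false

open MeasureTheory Complex Set Filter Topology Metric AddCircle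
open scoped ComplexConjugate InnerProductSpace ENNReal

namespace Pool.Agent.TBirK

open Pool.Agent.TBir Pool.Agent.TBirG Pool.Agent.TBirC Pool.Agent.TBirJ
open Pool.Agent.TBirP (E qT)

variable {phi : ℂ → ℂ} {F : Finset ℂ} {u v : ℂ → ℂ} {q t : ℂ}

private theorem sg_normE (x : ℝ) : ‖E x‖ = 1 := by
  unfold Pool.Agent.TBirP.E
  exact Complex.norm_exp_ofReal_mul_I x

private theorem sg_contE : Continuous E := by
  unfold Pool.Agent.TBirP.E
  fun_prop

private theorem sg_E0 : E 0 = 1 := by simp [Pool.Agent.TBirP.E]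

private theorem sg_lim {Y : Type*} [TopologicalSpace Y] {f : ℂ → Y} {t' t'' : ℂ}
    (hf : ContinuousOn f (sphere 0 1 \ {t''})) (hne : t' ≠ t'') {p : ℝ → ℂ} (hp : Continuous p)
    (hp0 : p 0 = t') (hp1 : ∀ x, ‖p x‖ = 1) :
    Tendsto (fun x => f (p x)) (𝓝[>] 0) (𝓝 (f t')) := by
  have h1 : Tendsto p (𝓝[>] 0) (𝓝 t') := (hp.tendsto' 0 t' hp0).mono_left nhdsWithin_le_nhds
  have h2 : t' ∈ sphere (0 : ℂ) 1 \ {t''} :=
    ⟨by rw [mem_sphere_zero_iff_norm, ← hp0]; exact hp1 0, hne⟩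
  have h3 : Tendsto p (𝓝[>] 0) (𝓝[sphere (0 : ℂ) 1 \ {t''}] t') := by
    rw [tendsto_nhdsWithin_iff]
    refine ⟨h1, ?_⟩
    filter_upwards [h1.eventually_ne hne] with x hx
    exact ⟨mem_sphere_zero_iff_norm.2 (hp1 x), hx⟩
  exact (hf t' h2).tendsto.comp h3

private theorem sg_path (ht : ‖t‖ = 1) (σ : ℝ) : Continuous (fun x : ℝ => t * E (σ * x)) ∧
    t * E (σ * 0) = t ∧ ∀ x : ℝ, ‖t * E (σ * x)‖ = 1 := by
  refine ⟨continuous_const.mul (sg_contE.comp (continuous_const.mul continuous_id)), ?_, ?_⟩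
  · rw [mul_zero, sg_E0, mul_one]
  · intro x
    rw [norm_mul, ht, sg_normE, mul_one]

private theorem sg_log {r : ℝ} (hF : ∀ t ∈ F, ‖t‖ = 1) (hr : Rad F r) {psi : ℂ → ℂ}
    (hc : ContinuousOn psi (sphere 0 1 \ F)) (h0 : ∀ z ∈ sphere (0 : ℂ) 1, z ∉ F → psi z ≠ 0)
    {a b kap : ℂ → ℂ} (ha : ∀ t ∈ F, Tendsto (fun x : ℝ => psi (t * E (-x))) (𝓝[>] 0) (𝓝 (a t)))
    (hb : ∀ t ∈ F, Tendsto (fun x : ℝ => psi (t * E x)) (𝓝[>] 0) (𝓝 (b t)))
    (ha0 : ∀ t ∈ F, a t ≠ 0) (hb0 : ∀ t ∈ F, b t ≠ 0) (hk : ∀ t ∈ F, exp (kap t) = b t / a t) :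
    ∃ (n : ℤ) (H : ℂ → ℂ) (M : ℝ), ContinuousOn H (sphere 0 1 \ F) ∧
      (∀ t ∈ F, ∃ A B : ℂ, Tendsto (fun x : ℝ => H (t * E (-x))) (𝓝[>] 0) (𝓝 A) ∧
        Tendsto (fun x : ℝ => H (t * E x)) (𝓝[>] 0) (𝓝 B) ∧ B - A = kap t) ∧
      (∀ z ∈ sphere (0 : ℂ) 1, ‖H z‖ ≤ M) ∧
      ∀ z ∈ sphere (0 : ℂ) 1, z ∉ F → psi z = z ^ n * exp (H z) := by
  classical
  obtain ⟨n, g, hg, hn⟩ := normal_form hF hr hc h0 ha hb ha0 hb0 hk
  obtain ⟨C, hC⟩ := (isCompact_sphere (0 : ℂ) 1).exists_bound_of_continuousOn hg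
  refine ⟨n, fun z => g z + ∑ t ∈ F, kap t * (ch r t z : ℂ), C + ∑ t ∈ F, ‖kap t‖ * (1 / 2),
    ?_, ?_, ?_, hn⟩
  · refine (hg.mono sdiff_subset).add ?_
    refine continuousOn_finsetSum _ fun t ht => continuousOn_const.mul ?_
    have h1 := ch_cont hr.1 hr.2.1 (hF t ht)
    have h2 : ContinuousOn (ch r t) (sphere 0 1 \ F) := by
      refine h1.mono fun z hz => ⟨hz.1, fun hzt => hz.2 ?_⟩
      rw [mem_singleton_iff.1 hzt]
      exact_mod_cast ht
    exact Complex.continuous_ofReal.comp_continuousOn h2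
  · intro t ht
    have hlim : ∀ σ c : ℝ,
        Tendsto (fun x : ℝ => ch r t (t * E (σ * x))) (𝓝[>] 0) (𝓝 c) →
        Tendsto (fun x : ℝ => g (t * E (σ * x)) + ∑ t' ∈ F, kap t' * (ch r t' (t * E (σ * x)) : ℂ))
          (𝓝[>] 0) (𝓝 (g t + ∑ t' ∈ F, kap t' * ((if t' = t then c else ch r t' t : ℝ) : ℂ))) := by
      intro σ c hc'
      obtain ⟨p1, p2, p3⟩ := sg_path (hF t ht) σ
      refine Tendsto.add ?_ (tendsto_finsetSum _ fun t' ht' => tendsto_const_nhds.mul ?_)
      · have hts : t ∈ sphere (0 : ℂ) 1 := mem_sphere_zero_iff_norm.2 (hF t ht)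
        have h1 : Tendsto (fun x : ℝ => t * E (σ * x)) (𝓝[>] 0) (𝓝[sphere (0 : ℂ) 1] t) := by
          rw [tendsto_nhdsWithin_iff]
          refine ⟨(p1.tendsto' 0 t p2).mono_left nhdsWithin_le_nhds, ?_⟩
          exact Filter.Eventually.of_forall fun x => mem_sphere_zero_iff_norm.2 (p3 x)
        exact (hg t hts).tendsto.comp h1
      · refine (Complex.continuous_ofReal.tendsto _).comp ?_
        by_cases he : t' = t
        · rw [if_pos he, he]
          exact hc'
        · rw [if_neg he]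
          exact sg_lim (ch_cont hr.1 hr.2.1 (hF t' ht')) (Ne.symm he) p1 p2 p3
    refine ⟨g t + ∑ t' ∈ F, kap t' * ((if t' = t then -(1 / 2) else ch r t' t : ℝ) : ℂ),
      g t + ∑ t' ∈ F, kap t' * ((if t' = t then 1 / 2 else ch r t' t : ℝ) : ℂ), ?_, ?_, ?_⟩
    · have h1 := hlim (-1) (-(1 / 2))
        (by simpa only [neg_one_mul] using ch_left hr.1 (hF t ht))
      simpa only [neg_one_mul] using h1
    · have h1 := hlim 1 (1 / 2)
        (by simpa only [one_mul] using ch_right hr.1 (hF t ht))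
      simpa only [one_mul] using h1
    · rw [add_sub_add_left_eq_sub, ← Finset.sum_sub_distrib, Finset.sum_eq_single t]
      · rw [if_pos rfl, if_pos rfl]
        push_cast
        ring
      · intro t' _ he
        rw [if_neg he, if_neg he, sub_self]
      · intro h
        exact absurd ht h
  · intro z hz
    refine (norm_add_le _ _).trans (add_le_add (hC z hz) ?_)
    refine (norm_sum_le _ _).trans (Finset.sum_le_sum fun t _ => ?_)
    rw [norm_mul, Complex.norm_real, Real.norm_eq_abs]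
    exact mul_le_mul_of_nonneg_left (ch_abs hr.1 z) (norm_nonneg _)

/-- the quotient at a jump whose segment does not contain `q` -/
private theorem sg_slit {a b q : ℂ} (h : q ∉ segment ℝ a b) : (b - q) / (a - q) ∈ slitPlane := by
  have ha : a - q ≠ 0 := by
    intro h0
    exact h (by rw [← sub_eq_zero.1 h0]; exact left_mem_segment ℝ a b)
  have hb : b - q ≠ 0 := by
    intro h0
    exact h (by rw [← sub_eq_zero.1 h0]; exact right_mem_segment ℝ a b)
  rw [mem_slitPlane_iff]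
  by_contra hcon
  push Not at hcon
  obtain ⟨h1, h2⟩ := hcon
  have h3 : (b - q) / (a - q) = ((((b - q) / (a - q)).re : ℝ) : ℂ) := by
    apply Complex.ext
    · simp
    · rw [h2]
      simp
  set c : ℝ := -((b - q) / (a - q)).re with hc
  have hc0 : 0 ≤ c := by linarith
  have h4 : (b - q) = -(c : ℂ) * (a - q) := by
    rw [div_eq_iff ha] at h3
    rw [hc]
    push_cast
    rw [neg_neg]
    exact h3
  apply h
  rw [segment_eq_image]
  have hc1 : (0 : ℝ) < 1 + c := by linarith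
  have hc2 : (1 + (c : ℂ)) ≠ 0 := by
    have : ((1 + c : ℝ) : ℂ) ≠ 0 := by exact_mod_cast hc1.ne'
    push_cast at this
    exact this
  refine ⟨1 / (1 + c), ⟨by positivity, ?_⟩, ?_⟩
  · rw [div_le_one hc1]
    linarith
  · simp only [Complex.real_smul]
    push_cast
    field_simp
    linear_combination h4

/-- the quotient at a jump whose segment contains `q` -/
private theorem sg_neg {a b q : ℂ} (h : q ∈ segment ℝ a b) (h1 : q ≠ a) (h2 : q ≠ b) :
    ∃ c : ℝ, 0 < c ∧ (b - q) / (a - q) = -(c : ℂ) := by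
  rw [segment_eq_image] at h
  obtain ⟨x, ⟨hx0, hx1⟩, hx⟩ := h
  simp only [Complex.real_smul] at hx
  have hxne0 : x ≠ 0 := by
    rintro rfl
    apply h1
    rw [← hx]
    simp
  have hxne1 : x ≠ 1 := by
    rintro rfl
    apply h2
    rw [← hx]
    simp
  have hx0' : 0 < x := lt_of_le_of_ne hx0 (Ne.symm hxne0)
  have hx1' : x < 1 := lt_of_le_of_ne hx1 hxne1
  refine ⟨(1 - x) / x, div_pos (by linarith) hx0', ?_⟩
  rw [div_eq_iff (sub_ne_zero.2 h1.symm)]
  have hxc : (x : ℂ) ≠ 0 := by exact_mod_cast hxne0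
  push_cast
  field_simp
  rw [← hx]
  push_cast
  ring

private theorem sg_expk {c : ℝ} (hc : 0 < c) : exp (Real.log c - Real.pi * I) = -(c : ℂ) := by
  rw [Complex.exp_sub, ← Complex.ofReal_exp, Real.exp_log hc, Complex.exp_pi_mul_I, div_neg,
    div_one]

private theorem sg_im {a b l : ℂ} (h : a - l ≠ 0) : ((b - l) / (a - l)).im * ‖a - l‖ ^ 2 =
    ((l - a) * conj (b - a)).im := by
  have h1 : (b - l) / (a - l) = (b - l) * conj (a - l) / ((‖a - l‖ ^ 2 : ℝ) : ℂ) := by
    rw [← Complex.normSq_eq_norm_sq, Complex.normSq_eq_conj_mul_self, mul_comm (conj (a - l)),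
      mul_div_mul_right _ _ ((map_ne_zero _).2 h)]
  have h2 : (‖a - l‖ ^ 2 : ℝ) ≠ 0 := pow_ne_zero _ (norm_ne_zero_iff.2 h)
  rw [h1, Complex.div_ofReal_im, div_mul_cancel₀ _ h2]
  simp only [Complex.mul_im, Complex.sub_re, Complex.sub_im, Complex.conj_re, Complex.conj_im]
  ring

/-- `z` is `exp` of a function with the jump `- 2 pi I` at `t` -/
private theorem sg_turn (ht : ‖t‖ = 1) : ∃ (W : ℂ → ℂ) (c : ℂ),
    ContinuousOn W (sphere 0 1 \ {t}) ∧ (∀ z ∈ sphere (0 : ℂ) 1, exp (W z) = z) ∧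
    Tendsto (fun x : ℝ => W (t * E (-x))) (𝓝[>] 0) (𝓝 (Real.pi * I + c)) ∧
    Tendsto (fun x : ℝ => W (t * E x)) (𝓝[>] 0) (𝓝 (-(Real.pi * I) + c)) := by
  have ht0 : t ≠ 0 := by
    rintro rfl
    simp at ht
  have hnt : -t ≠ 0 := neg_ne_zero.2 ht0
  refine ⟨fun z => Complex.log (z / (-t)) + Complex.log (-t), Complex.log (-t), ?_, ?_, ?_, ?_⟩
  · refine ContinuousOn.add ?_ continuousOn_const
    refine ContinuousOn.clog (continuousOn_id.div_const _) fun z hz => ?_
    have hz1 : ‖z‖ = 1 := mem_sphere_zero_iff_norm.1 hz.1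
    have hw1 : ‖z / (-t)‖ = 1 := by rw [norm_div, norm_neg, hz1, ht, div_one]
    rw [mem_slitPlane_iff]
    by_contra hcon
    push Not at hcon
    obtain ⟨a1, a2⟩ := hcon
    have a3 : z / (-t) = (((z / (-t)).re : ℝ) : ℂ) := by
      apply Complex.ext
      · simp
      · rw [show (z / (-t)).im = 0 from a2]
        simp
    have a4 : |(z / (-t)).re| = 1 := by
      rw [← hw1]
      conv_rhs => rw [a3]
      rw [Complex.norm_real, Real.norm_eq_abs]
    have a5 : (z / (-t)).re = -1 := by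
      rcases abs_eq (by norm_num : (0 : ℝ) ≤ 1) |>.1 a4 with h | h
      · have a6 : (z / (-t)).re ≤ 0 := a1
        linarith
      · exact h
    rw [a5] at a3
    apply hz.2
    rw [mem_singleton_iff]
    rw [div_eq_iff hnt] at a3
    rw [a3]
    push_cast
    ring
  · intro z hz
    have hz0 : z ≠ 0 := by
      rintro rfl
      simp at hz
    change exp (Complex.log (z / (-t)) + Complex.log (-t)) = z
    rw [Complex.exp_add, Complex.exp_log (div_ne_zero hz0 hnt), Complex.exp_log hnt,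
      div_mul_cancel₀ _ hnt]
  · refine Tendsto.add ?_ tendsto_const_nhds
    have h1 : (fun x : ℝ => ((Real.pi - x : ℝ) : ℂ) * I) =ᶠ[𝓝[>] 0]
        fun x : ℝ => Complex.log (t * E (-x) / (-t)) := by
      filter_upwards [Ioo_mem_nhdsGT Real.pi_pos] with x hx
      have h2 : t * E (-x) / (-t) = exp (((Real.pi - x : ℝ) : ℂ) * I) := by
        unfold Pool.Agent.TBirP.E
        rw [show (((Real.pi - x : ℝ) : ℂ) * I) = Real.pi * I + ((-x : ℝ) : ℂ) * I by push_cast; ring,
          Complex.exp_add, Complex.exp_pi_mul_I]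
        field_simp
      rw [h2, Complex.log_exp]
      · rw [Complex.mul_I_im, Complex.ofReal_re]
        linarith [hx.1, hx.2]
      · rw [Complex.mul_I_im, Complex.ofReal_re]
        linarith [hx.1, hx.2]
    refine Tendsto.congr' h1 ?_
    have h3 : Continuous fun x : ℝ => ((Real.pi - x : ℝ) : ℂ) * I := by fun_prop
    refine (h3.tendsto' 0 _ ?_).mono_left nhdsWithin_le_nhds
    simp
  · refine Tendsto.add ?_ tendsto_const_nhds
    have h1 : (fun x : ℝ => ((x - Real.pi : ℝ) : ℂ) * I) =ᶠ[𝓝[>] 0]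
        fun x : ℝ => Complex.log (t * E x / (-t)) := by
      filter_upwards [Ioo_mem_nhdsGT Real.pi_pos] with x hx
      have h2 : t * E x / (-t) = exp (((x - Real.pi : ℝ) : ℂ) * I) := by
        unfold Pool.Agent.TBirP.E
        rw [show (((x - Real.pi : ℝ) : ℂ) * I) = (x : ℂ) * I - Real.pi * I by push_cast; ring,
          Complex.exp_sub, Complex.exp_pi_mul_I]
        field_simp
      rw [h2, Complex.log_exp]
      · rw [Complex.mul_I_im, Complex.ofReal_re]
        linarith [hx.1, hx.2]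
      · rw [Complex.mul_I_im, Complex.ofReal_re]
        linarith [hx.1, hx.2]
    refine Tendsto.congr' h1 ?_
    have h3 : Continuous fun x : ℝ => ((x - Real.pi : ℝ) : ℂ) * I := by fun_prop
    refine (h3.tendsto' 0 _ ?_).mono_left nhdsWithin_le_nhds
    simp

theorem seg_local (h : Cv phi F u v) (ht : t ∈ F) (hq : q ∈ segment ℝ (u t) (v t)) (h1 : q ≠ u t)
    (h2 : q ≠ v t) (h3 : ∀ z ∈ sphere (0 : ℂ) 1, z ∉ F → phi z ≠ q)
    (h4 : ∀ t' ∈ F, t' ≠ t → q ∉ segment ℝ (u t') (v t')) :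
    ∃ (m : ℤ) (s : ℝ), 0 < s ∧ ∀ l ∈ ball q s,
      (0 < ((l - u t) * conj (v t - u t)).im → Ix phi l (m + 1)) ∧
      (((l - u t) * conj (v t - u t)).im < 0 → Ix phi l m) := by
  classical
  have hF := h.circ
  obtain ⟨r, hr⟩ := exists_rad hF
  obtain ⟨c, hc, hcq⟩ := sg_neg hq h1 h2
  have hut : ∀ t' ∈ F, u t' - q ≠ 0 := by
    intro t' ht' h0
    by_cases he : t' = t
    · rw [he] at h0
      exact h1 (sub_eq_zero.1 h0).symm
    · exact h4 t' ht' he (by rw [← sub_eq_zero.1 h0]; exact left_mem_segment ℝ _ _)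
  have hvt : ∀ t' ∈ F, v t' - q ≠ 0 := by
    intro t' ht' h0
    by_cases he : t' = t
    · rw [he] at h0
      exact h2 (sub_eq_zero.1 h0).symm
    · exact h4 t' ht' he (by rw [← sub_eq_zero.1 h0]; exact right_mem_segment ℝ _ _)
  set kap : ℂ → ℂ := fun t' => if t' = t then Real.log c - Real.pi * I else
    Complex.log ((v t' - q) / (u t' - q)) with hkap
  have hk : ∀ t' ∈ F, exp (kap t') = (v t' - q) / (u t' - q) := by
    intro t' ht'
    by_cases he : t' = t
    · rw [hkap, he]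
      simp only [if_true]
      rw [sg_expk hc, hcq]
    · rw [hkap]
      simp only [if_neg he]
      exact Complex.exp_log (div_ne_zero (hvt t' ht') (hut t' ht'))
  have hkt : (kap t).im = -Real.pi := by
    rw [hkap]
    simp
  have hkim : ∀ t' ∈ F, t' ≠ t → |(kap t').im| < Real.pi := by
    intro t' ht' he
    have h5 := sg_slit (h4 t' ht' he)
    rw [hkap]
    simp only [if_neg he]
    rw [Complex.log_im, abs_lt]
    refine ⟨Complex.neg_pi_lt_arg _, lt_of_le_of_ne (Complex.arg_le_pi _) ?_⟩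
    exact (Complex.mem_slitPlane_iff_arg.1 h5).1
  obtain ⟨n, H, M, hH, hlim, hM, hn⟩ := sg_log hF hr (psi := fun z => phi z - q)
    (h.cont.sub continuousOn_const) (fun z hz hzF => sub_ne_zero.2 (h3 z hz hzF))
    (a := fun t' => u t' - q) (b := fun t' => v t' - q) (kap := kap)
    (fun t' ht' => (h.lim_left t' ht').sub_const q) (fun t' ht' => (h.lim_right t' ht').sub_const q)
    hut hvt hk
  -- a margin for the other jumps
  obtain ⟨η, hη, hη2, hηk⟩ : ∃ η : ℝ, 0 < η ∧ η ≤ Real.pi / 2 ∧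
      ∀ t' ∈ F, t' ≠ t → |(kap t').im| + η < Real.pi := by
    have e1 : ∀ᶠ η : ℝ in 𝓝[>] 0, 0 < η ∧ η ≤ Real.pi / 2 := by
      filter_upwards [Ioo_mem_nhdsGT (show (0 : ℝ) < Real.pi / 2 by positivity)] with x hx
      exact ⟨hx.1, hx.2.le⟩
    have e2 : ∀ᶠ η : ℝ in 𝓝[>] 0, ∀ t' ∈ F, t' ≠ t → |(kap t').im| + η < Real.pi := by
      rw [Finset.eventually_all]
      intro t' ht'
      by_cases he : t' = t
      · exact Filter.Eventually.of_forall fun _ h => absurd he h
      · have h5 : 0 < Real.pi - |(kap t').im| := sub_pos.2 (hkim t' ht' he)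
        filter_upwards [Ioo_mem_nhdsGT h5] with x hx _
        linarith [hx.2]
    obtain ⟨η, ⟨a1, a2⟩, a3⟩ := (e1.and e2).exists
    exact ⟨η, a1, a2, a3⟩
  obtain ⟨δ, hδ, hlog⟩ : ∃ δ : ℝ, 0 < δ ∧ ∀ w : ℂ, ‖w - 1‖ < δ →
      w ∈ slitPlane ∧ ‖Complex.log w‖ < η / 2 := by
    have e1 : ∀ᶠ w : ℂ in 𝓝 1, w ∈ slitPlane :=
      Complex.isOpen_slitPlane.mem_nhds Complex.one_mem_slitPlane
    have e2 : ∀ᶠ w : ℂ in 𝓝 1, ‖Complex.log w‖ < η / 2 := by
      have h5 : Tendsto (fun w : ℂ => ‖Complex.log w‖) (𝓝 1) (𝓝 0) := by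
        have := (continuousAt_clog Complex.one_mem_slitPlane).norm.tendsto
        simpa using this
      exact h5.eventually_lt_const (by positivity)
    obtain ⟨δ, hδ, hb⟩ := Metric.mem_nhds_iff.1 (e1.and e2)
    refine ⟨δ, hδ, fun w hw => hb ?_⟩
    rw [mem_ball, dist_eq_norm]
    exact hw
  obtain ⟨s, hs, hs1, hs2⟩ : ∃ s : ℝ, 0 < s ∧ s ≤ Real.exp (-M) * δ ∧
      ∀ t' ∈ F, s ≤ ‖u t' - q‖ * δ ∧ s ≤ ‖v t' - q‖ * δ := by
    have e1 : ∀ᶠ s : ℝ in 𝓝[>] 0, 0 < s ∧ s ≤ Real.exp (-M) * δ := by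
      filter_upwards [Ioo_mem_nhdsGT (show (0 : ℝ) < Real.exp (-M) * δ by positivity)] with x hx
      exact ⟨hx.1, hx.2.le⟩
    have e2 : ∀ᶠ s : ℝ in 𝓝[>] 0, ∀ t' ∈ F, s ≤ ‖u t' - q‖ * δ ∧ s ≤ ‖v t' - q‖ * δ := by
      rw [Finset.eventually_all]
      intro t' ht'
      have h5 : 0 < ‖u t' - q‖ * δ := mul_pos (norm_pos_iff.2 (hut t' ht')) hδ
      have h6 : 0 < ‖v t' - q‖ * δ := mul_pos (norm_pos_iff.2 (hvt t' ht')) hδ
      filter_upwards [Ioo_mem_nhdsGT h5, Ioo_mem_nhdsGT h6] with x hx hx'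
      exact ⟨hx.2.le, hx'.2.le⟩
    obtain ⟨s, ⟨a1, a2⟩, a3⟩ := (e1.and e2).exists
    exact ⟨s, a1, a2, a3⟩
  have hlow : ∀ z ∈ sphere (0 : ℂ) 1, z ∉ F → s ≤ ‖phi z - q‖ * δ := by
    intro z hz hzF
    refine hs1.trans (mul_le_mul_of_nonneg_right ?_ hδ.le)
    have h5 : phi z - q = z ^ n * exp (H z) := hn z hz hzF
    rw [h5, norm_mul, norm_zpow, mem_sphere_zero_iff_norm.1 hz, one_zpow, one_mul,
      Complex.norm_exp, Real.exp_le_exp]
    have h6 := (abs_le.1 ((Complex.abs_re_le_norm (H z)).trans (hM z hz))).1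
    exact h6
  refine ⟨n, s, hs, fun l hl => ?_⟩
  rw [mem_ball, dist_eq_norm] at hl
  have hrat : ∀ w : ℂ, w - q ≠ 0 → s ≤ ‖w - q‖ * δ → ‖(w - l) / (w - q) - 1‖ < δ := by
    intro w hw hw2
    have h5 : (w - l) / (w - q) - 1 = (q - l) / (w - q) := by
      field_simp
      ring
    rw [h5, norm_div, div_lt_iff₀ (norm_pos_iff.2 hw), norm_sub_rev, mul_comm]
    exact hl.trans_le hw2
  set L : ℂ → ℂ := fun z => Complex.log ((phi z - l) / (phi z - q)) with hL
  set al : ℂ → ℂ := fun t' => Complex.log ((u t' - l) / (u t' - q)) with hal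
  set be : ℂ → ℂ := fun t' => Complex.log ((v t' - l) / (v t' - q)) with hbe
  have hqz : ∀ z ∈ sphere (0 : ℂ) 1, z ∉ F → phi z - q ≠ 0 := fun z hz hzF =>
    sub_ne_zero.2 (h3 z hz hzF)
  have hLc : ContinuousOn L (sphere 0 1 \ F) := by
    refine ContinuousOn.clog ((h.cont.sub continuousOn_const).div
      (h.cont.sub continuousOn_const) fun z hz => hqz z hz.1 hz.2) fun z hz => ?_
    exact (hlog _ (hrat _ (hqz z hz.1 hz.2) (hlow z hz.1 hz.2))).1
  have hLl : ∀ t' ∈ F, Tendsto (fun x : ℝ => L (t' * E (-x))) (𝓝[>] 0) (𝓝 (al t')) := by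
    intro t' ht'
    have h5 := ((h.lim_left t' ht').sub_const l).div ((h.lim_left t' ht').sub_const q) (hut t' ht')
    exact h5.clog (hlog _ (hrat _ (hut t' ht') (hs2 t' ht').1)).1
  have hLr : ∀ t' ∈ F, Tendsto (fun x : ℝ => L (t' * E x)) (𝓝[>] 0) (𝓝 (be t')) := by
    intro t' ht'
    have h5 := ((h.lim_right t' ht').sub_const l).div ((h.lim_right t' ht').sub_const q) (hvt t' ht')
    exact h5.clog (hlog _ (hrat _ (hvt t' ht') (hs2 t' ht').2)).1
  have hab : ∀ t' ∈ F, |(be t' - al t').im| < η := by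
    intro t' ht'
    have h5 := (hlog _ (hrat _ (hut t' ht') (hs2 t' ht').1)).2
    have h6 := (hlog _ (hrat _ (hvt t' ht') (hs2 t' ht').2)).2
    calc |(be t' - al t').im| ≤ ‖be t' - al t'‖ := Complex.abs_im_le_norm _
      _ ≤ ‖be t'‖ + ‖al t'‖ := norm_sub_le _ _
      _ < η := by linarith
  have key : ∀ (W th : ℂ → ℂ) (n' : ℤ), ContinuousOn W (sphere 0 1 \ F) →
      (∀ t' ∈ F, ∃ A B : ℂ, Tendsto (fun x : ℝ => W (t' * E (-x))) (𝓝[>] 0) (𝓝 A) ∧
        Tendsto (fun x : ℝ => W (t' * E x)) (𝓝[>] 0) (𝓝 B) ∧ B - A = th t') →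
      (∀ z ∈ sphere (0 : ℂ) 1, z ^ n = z ^ n' * exp (W z)) →
      (∀ t' ∈ F, |(kap t' + (be t' - al t') + th t').im| < Real.pi) → Ix phi l n' := by
    intro W th n' hW hWl hWe hWk
    refine wj_ix h ⟨fun z => W z + (H z + L z), hW.add (hH.add hLc), ?_, ?_⟩
    · intro t' ht'
      obtain ⟨A, B, a1, a2, a3⟩ := hlim t' ht'
      obtain ⟨A', B', b1, b2, b3⟩ := hWl t' ht'
      refine ⟨A' + (A + al t'), B' + (B + be t'), b1.add (a1.add (hLl t' ht')),
        b2.add (a2.add (hLr t' ht')), ?_⟩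
      have h5 : B' + (B + be t') - (A' + (A + al t')) = kap t' + (be t' - al t') + th t' := by
        rw [← a3, ← b3]
        ring
      rw [h5]
      exact hWk t' ht'
    · intro z hz hzF
      have h5 : phi z - q = z ^ n * exp (H z) := hn z hz hzF
      have h6 := hqz z hz hzF
      have h7 : exp (L z) = (phi z - l) / (phi z - q) :=
        Complex.exp_log (Complex.slitPlane_ne_zero (hlog _ (hrat _ h6 (hlow z hz hzF))).1)
      calc phi z - l = (phi z - q) * ((phi z - l) / (phi z - q)) := (mul_div_cancel₀ _ h6).symm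
        _ = z ^ n * exp (H z) * exp (L z) := by rw [h7, ← h5]
        _ = z ^ n' * exp (W z + (H z + L z)) := by
            rw [hWe z hz, Complex.exp_add, Complex.exp_add]
            ring
  -- the jump at `t`
  have hul : (u t - l) / (u t - q) ∈ slitPlane := (hlog _ (hrat _ (hut t ht) (hs2 t ht).1)).1
  have hvl : (v t - l) / (v t - q) ∈ slitPlane := (hlog _ (hrat _ (hvt t ht) (hs2 t ht).2)).1
  have hul0 : u t - l ≠ 0 := fun h0 => Complex.slitPlane_ne_zero hul (by rw [h0, zero_div])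
  have hexp : exp (kap t + (be t - al t)) = (v t - l) / (u t - l) := by
    rw [Complex.exp_add, Complex.exp_sub, hk t ht, hbe, hal]
    simp only
    rw [Complex.exp_log (Complex.slitPlane_ne_zero hul),
      Complex.exp_log (Complex.slitPlane_ne_zero hvl)]
    have a1 := hut t ht
    have a2 := hvt t ht
    field_simp
  set θ : ℝ := (be t - al t).im with hθ
  have hθ1 : |θ| < η := hab t ht
  have hθ2 := abs_lt.1 hθ1
  have him : ((l - u t) * conj (v t - u t)).im =
      -(Real.exp (kap t + (be t - al t)).re * Real.sin θ) * ‖u t - l‖ ^ 2 := by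
    rw [← sg_im hul0, ← hexp, Complex.exp_im, Complex.add_im, hkt, ← hθ,
      show -Real.pi + θ = -(Real.pi - θ) by ring, Real.sin_neg, Real.sin_pi_sub]
    ring
  have hpos : 0 < ‖u t - l‖ ^ 2 := by
    have := norm_pos_iff.2 hul0
    positivity
  have hpi := Real.pi_pos
  constructor
  · intro hD
    have hθn : θ < 0 := by
      by_contra hcon
      push Not at hcon
      have h5 : 0 ≤ Real.sin θ := Real.sin_nonneg_of_nonneg_of_le_pi hcon (by linarith)
      rw [him] at hD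
      have h6 : 0 ≤ Real.exp (kap t + (be t - al t)).re * Real.sin θ :=
        mul_nonneg (Real.exp_pos _).le h5
      nlinarith
    obtain ⟨W, c0, hW1, hW2, hW3, hW4⟩ := sg_turn (hF t ht)
    refine key (fun z => -W z) (fun t' => if t' = t then 2 * Real.pi * I else 0) (n + 1) ?_ ?_ ?_ ?_
    · refine ContinuousOn.neg (hW1.mono fun z hz => ⟨hz.1, fun hzt => hz.2 ?_⟩)
      rw [mem_singleton_iff.1 hzt]
      exact_mod_cast ht
    · intro t' ht'
      by_cases he : t' = t
      · rw [he]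
        refine ⟨_, _, hW3.neg, hW4.neg, ?_⟩
        rw [if_pos rfl]
        ring
      · refine ⟨-W t', -W t', ?_, ?_, ?_⟩
        · obtain ⟨p1, p2, p3⟩ := sg_path (hF t' ht') (-1)
          have h5 := (sg_lim hW1 he p1 p2 p3).neg
          simpa only [neg_one_mul] using h5
        · obtain ⟨p1, p2, p3⟩ := sg_path (hF t' ht') 1
          have h5 := (sg_lim hW1 he p1 p2 p3).neg
          simpa only [one_mul] using h5
        · rw [if_neg he, sub_self]
    · intro z hz
      have hz0 : z ≠ 0 := by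
        rintro rfl
        simp at hz
      rw [Complex.exp_neg, hW2 z hz, zpow_add_one₀ hz0, mul_assoc, mul_inv_cancel₀ hz0, mul_one]
    · intro t' ht'
      by_cases he : t' = t
      · rw [he, if_pos rfl, Complex.add_im, Complex.add_im, hkt, ← hθ]
        have h5 : (2 * (Real.pi : ℂ) * I).im = 2 * Real.pi := by simp
        rw [h5, abs_lt]
        constructor <;> linarith [hθ2.1, hθ2.2]
      · rw [if_neg he, add_zero, Complex.add_im]
        refine (abs_add_le _ _).trans_lt ?_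
        have h5 := hηk t' ht' he
        have h6 := hab t' ht'
        linarith
  · intro hD
    have hθp : 0 < θ := by
      by_contra hcon
      push Not at hcon
      have h5 : Real.sin θ ≤ 0 := Real.sin_nonpos_of_nonpos_of_neg_pi_le hcon (by linarith)
      rw [him] at hD
      have h6 : Real.exp (kap t + (be t - al t)).re * Real.sin θ ≤ 0 :=
        mul_nonpos_of_nonneg_of_nonpos (Real.exp_pos _).le h5
      nlinarith
    refine key (fun _ => 0) (fun _ => 0) n continuousOn_const ?_ ?_ ?_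
    · intro t' _
      exact ⟨0, 0, tendsto_const_nhds, tendsto_const_nhds, sub_self 0⟩
    · intro z _
      rw [Complex.exp_zero, mul_one]
    · intro t' ht'
      by_cases he : t' = t
      · rw [he, add_zero, Complex.add_im, hkt, ← hθ, abs_lt]
        constructor <;> linarith [hθ2.1, hθ2.2]
      · rw [add_zero, Complex.add_im]
        refine (abs_add_le _ _).trans_lt ?_
        have h5 := hηk t' ht' he
        have h6 := hab t' ht'
        linarith

end Pool.Agent.TBirK
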