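import Pool.Agent.TBirK.Def
import Pool.Agent.TBirJ.Ixb
import Pool.Agent.TBirJ.Exj

/-!
# Simple points in the weak sense: indices and limits

Let `b0 y = (phi (e y) - phi z0) / (e y - z0)`, `U0 = TM (mf (e ^ (-x) * b0))` (a unit). For `l`, `g` with `Ap phi z0 l g eps`, `‖g‖ ≠ 1`, let `b y = (phi (e y) - l) / (e y - g)` (bounded: `hb` and `|e y - g|` is bounded below), `‖TM (mf (e ^ (-x) * b)) - U0‖ ≤ eps`, so it is a unit `U l` for small `eps`.
`e ^ (-n) (phi - l) = e ^ (-n) * b * (e y - g)`: for `1 < ‖g‖` and `n = x`: `U l * T (z - g)` (`TM_plus`), both units; for `‖g‖ < 1` and `n = x + 1`: `T (1 - g * conj z) * U l` (`TM_minus`). `sc_lim`: `x ≥ 0`: `Tp phi - l = U l * T (fourier x * (z - g))`, so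
`z ^ x * (z - g) * ev z (hh l) = ev z (U l ⁻¹ f)`, which tends to `ev z (U0 ⁻¹ f)`, and `g` tends to `z0` (`z ≠ z0`, `z ≠ 0`): the limit is `ev z (U0 ⁻¹ f) / (z ^ x * (z - z0))`. See TBirJ/Ixb.lean (`tp_fac`, `IxAux`) and TBirJ/Exj.lean for `ev z (T (..) h)`.
-/

set_option autoImplicit false

open MeasureTheory Complex Set Filter Topology Metric AddCircle
open scoped ComplexConjugate InnerProductSpace ENNReal

namespace Pool.Agent.TBirK

open Pool.Agent.TBir Pool.Agent.TBirG Pool.Agent.TBirC Pool.Agent.TBirJ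
open Pool.Agent.TBirP (E qT)

variable {phi : ℂ → ℂ} {K : Set ℂ} {z0 : ℂ} {x : ℤ}

open Pool.Agent.TBirJ.IxAux Pool.Agent.TBirC.PsiAux

/-- The symbol of the operator `U l`. -/
private noncomputable def sa (phi : ℂ → ℂ) (x : ℤ) (l g : ℂ) : UnitAddCircle → ℂ :=
  fun y => e y ^ (-x) * ((phi (e y) - l) / (e y - g))

private theorem sc_ne {g : ℂ} (hg : ‖g‖ ≠ 1) (y : UnitAddCircle) : e y - g ≠ 0 := by
  intro h0
  apply hg
  rw [← sub_eq_zero.1 h0]
  exact norm_e y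

private theorem sc_mem (hb : MemLp (fun x : UnitAddCircle => phi (e x)) ∞ mu0) {g : ℂ} (hg : ‖g‖ ≠ 1)
    (l : ℂ) : MemLp (sa phi x l g) ∞ mu0 := by
  let c : CT := ⟨fun y => (e y - g)⁻¹, (cont_e.sub continuous_const).inv₀ (sc_ne hg)⟩
  have h1 := memLp_mul (memLp_sym hb (-x) l) (memLp_ct c)
  refine (memLp_congr_ae (Filter.Eventually.of_forall fun y => ?_)).1 h1
  change e y ^ (-x) * (phi (e y) - l) * (e y - g)⁻¹ = e y ^ (-x) * ((phi (e y) - l) / (e y - g))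
  rw [mul_assoc, div_eq_mul_inv]

private theorem sc_near (hb : MemLp (fun x : UnitAddCircle => phi (e x)) ∞ mu0)
    (h0 : IsUnit (TM (mf (sa phi x (phi z0) z0)))) {g : ℂ} (hg : ‖g‖ ≠ 1) {l : ℂ} {eps : ℝ}
    (heps : 0 ≤ eps) (h : Ap phi z0 l g eps) :
    ‖TM (mf (sa phi x l g)) - TM (mf (sa phi x (phi z0) z0))‖ ≤ eps := by
  have h1 := memLp_of_unit h0
  rw [← TM_sub, ← mf_sub (sc_mem hb hg l) h1]
  refine (norm_TM_le _).trans (norm_mf_le heps ?_)
  filter_upwards [h] with y hy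
  unfold sa
  rw [← mul_sub, norm_mul, norm_zpow, norm_e, one_zpow, one_mul]
  exact hy

private theorem sc_out_aux (hb : MemLp (fun x : UnitAddCircle => phi (e x)) ∞ mu0) {g : ℂ}
    (hg : 1 < ‖g‖) {l : ℂ} (h : IsUnit (TM (mf (sa phi x l g)))) : Ix phi l x := by
  unfold Ix
  have h1 : mf (fun y => e y ^ (-x) * (phi (e y) - l)) =
      mf (sa phi x l g) * mul (fourier 1 - algebraMap ℂ CT g) := by
    rw [← mf_ct, ← mf_mul (sc_mem hb hg.ne' l) (memLp_ct _)]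
    refine mf_congr (Filter.Eventually.of_forall fun y => ?_)
    have h2 : (fourier 1 - algebraMap ℂ CT g : CT) y = e y - g := by
      rw [ContinuousMap.sub_apply, four_e, zpow_one]
      rfl
    simp only [h2, sa]
    rw [mul_assoc, div_mul_cancel₀ _ (sc_ne hg.ne' y)]
  rw [h1, TM_plus _ (TBirM.plus_sub g), T_sub, T_algebraMap]
  exact h.mul (isUnit_S_sub hg)

private theorem sc_in_aux (hb : MemLp (fun x : UnitAddCircle => phi (e x)) ∞ mu0) {g : ℂ}
    (hg : ‖g‖ < 1) {l : ℂ} (h : IsUnit (TM (mf (sa phi x l g)))) : Ix phi l (x + 1) := by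
  unfold Ix
  have h1 : mf (fun y => e y ^ (-(x + 1)) * (phi (e y) - l)) =
      mul (1 - g • fourier (-1)) * mf (sa phi x l g) := by
    rw [← mf_ct, ← mf_mul (memLp_ct _) (sc_mem hb hg.ne l)]
    refine mf_congr (Filter.Eventually.of_forall fun y => ?_)
    have h2 : (1 - g • fourier (-1) : CT) y = 1 - g * (e y)⁻¹ := by
      rw [ContinuousMap.sub_apply, ContinuousMap.smul_apply, four_e, ContinuousMap.one_apply,
        smul_eq_mul, zpow_neg, zpow_one]
    simp only [h2, sa]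
    have h3 := sc_ne hg.ne y
    have h4 := e_ne y
    rw [show -(x + 1) = -x + -1 by ring, zpow_add₀ h4, zpow_neg_one]
    field_simp
  have hm : Minus (1 - g • fourier (-1) : CT) := TBirM.minus_one_sub g
  have hT : T (1 - g • fourier (-1) : CT) = 1 - g • T (fourier (-1)) := by
    rw [T_sub, T_one, T_smul]
  rw [h1, TM_minus _ hm, hT]
  refine IsUnit.mul ?_ h
  apply isUnit_one_sub_of_norm_lt_one
  rw [norm_smul]
  have h5 : ‖T (fourier (-1))‖ ≤ 1 := by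
    refine (norm_T_le _).trans ?_
    rw [ContinuousMap.norm_le _ zero_le_one]
    intro y
    rw [four_e, norm_zpow, norm_e, one_zpow]
  calc ‖g‖ * ‖T (fourier (-1))‖ ≤ ‖g‖ * 1 := by gcongr
    _ < 1 := by rwa [mul_one]

private theorem sc_eps (h0 : IsUnit (TM (mf (sa phi x (phi z0) z0)))) :
    ∃ eps : ℝ, 0 < eps ∧ ∀ M : Op, ‖M - TM (mf (sa phi x (phi z0) z0))‖ ≤ eps → IsUnit M := by
  have h1 : {M : Op | IsUnit M} ∈ 𝓝 (TM (mf (sa phi x (phi z0) z0))) := Units.isOpen.mem_nhds h0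
  obtain ⟨eps, h2, h3⟩ := Metric.mem_nhds_iff.1 h1
  refine ⟨eps / 2, by positivity, fun M hM => h3 ?_⟩
  rw [mem_ball, dist_eq_norm]
  linarith

theorem sc_ix (hb : MemLp (fun x : UnitAddCircle => phi (e x)) ∞ mu0) (h : Sc phi K z0 x) :
    ∀ᶠ l in 𝓝 (phi z0), l ∉ K → Ix phi l (x + 1) ∨ Ix phi l x := by
  obtain ⟨-, h0, h1, -, -⟩ := h
  obtain ⟨eps, he, hu⟩ := sc_eps (x := x) h0
  filter_upwards [h1 eps he] with l hl hlK
  obtain ⟨g, -, hg, hA⟩ := hl hlK
  have h2 := hu _ (sc_near hb h0 hg he.le hA)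
  rcases lt_or_gt_of_ne hg with hg | hg
  · exact Or.inl (sc_in_aux hb hg h2)
  · exact Or.inr (sc_out_aux hb hg h2)

theorem sc_in (hb : MemLp (fun x : UnitAddCircle => phi (e x)) ∞ mu0) (h : Sc phi K z0 x) :
    ∃ᶠ l in 𝓝 (phi z0), Ix phi l (x + 1) := by
  obtain ⟨-, h0, -, h1, -⟩ := h
  obtain ⟨eps, he, hu⟩ := sc_eps (x := x) h0
  refine (h1 eps he).mono fun l hl => ?_
  obtain ⟨g, -, hg, hA⟩ := hl
  exact sc_in_aux hb hg (hu _ (sc_near hb h0 hg.ne he.le hA))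

theorem sc_out (hb : MemLp (fun x : UnitAddCircle => phi (e x)) ∞ mu0) (h : Sc phi K z0 x) :
    ∃ᶠ l in 𝓝 (phi z0), Ix phi l x := by
  obtain ⟨-, h0, -, -, h1⟩ := h
  obtain ⟨eps, he, hu⟩ := sc_eps (x := x) h0
  refine (h1 eps he).mono fun l hl => ?_
  obtain ⟨g, -, hg, hA⟩ := hl
  exact sc_out_aux hb hg (hu _ (sc_near hb h0 hg.ne' he.le hA))

private theorem sc_four (n : ℕ) (g : ℂ) :
    T (fourier (n : ℤ) * (fourier 1 - algebraMap ℂ CT g)) = S ^ n * (S - g • (1 : Op)) := by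
  rw [T_mul_right _ (TBirM.plus_sub g), T_sub, T_algebraMap]
  congr 1
  induction n with
  | zero => rw [Nat.cast_zero, idx_fourier_zero, T_one, pow_zero]
  | succ n ih =>
    rw [Nat.cast_succ, ← idx_fourier_mul, T_mul_right _ (plus_fourier (by norm_num)), ih, pow_succ]
    rfl

private theorem sc_ev_pow {z : ℂ} (hz : ‖z‖ < 1) (n : ℕ) (v : Hardy) :
    ev z ((S ^ n) v) = z ^ n * ev z v := by
  induction n with
  | zero => simp
  | succ n ih =>
    have h1 : (S ^ (n + 1)) v = S ((S ^ n) v) := by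
      rw [pow_succ']
      rfl
    rw [h1, ev_S hz, ih, pow_succ]
    ring

private theorem sc_fac (hb : MemLp (fun x : UnitAddCircle => phi (e x)) ∞ mu0) {g : ℂ}
    (hg : ‖g‖ ≠ 1) (n : ℕ) (l : ℂ) :
    Tp phi - l • (1 : Op) = TM (mf (sa phi n l g)) * (S ^ n * (S - g • (1 : Op))) := by
  have hP : Plus (fourier (n : ℤ) * (fourier 1 - algebraMap ℂ CT g) : CT) :=
    (plus_fourier (Int.natCast_nonneg n)).mul (TBirM.plus_sub g)
  rw [← tp_sub hb, ← sc_four, ← TM_plus _ hP, ← mf_ct, ← mf_mul (sc_mem hb hg l) (memLp_ct _)]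
  congr 1
  refine mf_congr (Filter.Eventually.of_forall fun y => ?_)
  have h2 : (fourier (n : ℤ) * (fourier 1 - algebraMap ℂ CT g) : CT) y = e y ^ (n : ℤ) * (e y - g) := by
    rw [ContinuousMap.mul_apply, ContinuousMap.sub_apply, four_e, four_e, zpow_one]
    rfl
  simp only [h2, sa]
  have h3 := sc_ne hg y
  have h4 : e y ^ (-(n : ℤ)) * e y ^ (n : ℤ) = 1 := by
    rw [← zpow_add₀ (e_ne y), neg_add_cancel, zpow_zero]
  calc phi (e y) - l = (e y ^ (-(n : ℤ)) * e y ^ (n : ℤ)) * (((phi (e y) - l) / (e y - g)) * (e y - g)) := by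
        rw [h4, one_mul, div_mul_cancel₀ _ h3]
    _ = _ := by ring

theorem sc_lim (hb : MemLp (fun x : UnitAddCircle => phi (e x)) ∞ mu0) (h : Sc phi K z0 x)
    (hx : 0 ≤ x) {f : Hardy} {hh : ℂ → Hardy} (hh1 : ∀ l ∉ K, (Tp phi - l • (1 : Op)) (hh l) = f)
    {z : ℂ} (hz : ‖z‖ < 1) (hz0 : z ≠ 0) :
    ∃ a, Tendsto (fun l => ev z (hh l)) (𝓝[Kᶜ] (phi z0)) (𝓝 a) := by
  obtain ⟨n, rfl⟩ := Int.eq_ofNat_of_zero_le hx
  obtain ⟨hz1, h0, h1, -, -⟩ := h
  change IsUnit (TM (mf (sa phi n (phi z0) z0))) at h0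
  obtain ⟨U0, hU0⟩ : ∃ U0, U0 = TM (mf (sa phi n (phi z0) z0)) := ⟨_, rfl⟩
  have hu0 : IsUnit U0 := by rw [hU0]; exact h0
  obtain ⟨eps0, he0, hu⟩ := sc_eps (x := (n : ℤ)) h0
  have hzz : z - z0 ≠ 0 := by
    intro h2
    rw [sub_eq_zero.1 h2, hz1] at hz
    exact lt_irrefl _ hz
  refine ⟨ev z (Ring.inverse U0 f) / (z ^ n * (z - z0)), ?_⟩
  have hc : ContinuousAt (fun p : Op × ℂ => ev z (Ring.inverse p.1 f) / (z ^ n * (z - p.2))) (U0, z0) := by
    have h2 : ContinuousAt (fun p : Op × ℂ => Ring.inverse p.1) (U0, z0) := by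
      obtain ⟨V, hV⟩ := hu0
      have h3 : ContinuousAt Ring.inverse (V : Op) := NormedRing.inverse_continuousAt V
      rw [hV] at h3
      exact ContinuousAt.comp (f := fun p : Op × ℂ => p.1) (g := Ring.inverse) (x := (U0, z0)) h3
        continuousAt_fst
    have h4 : ContinuousAt (fun p : Op × ℂ => ev z (Ring.inverse p.1 f)) (U0, z0) :=
      (ev z).continuous.continuousAt.comp (h2.clm_apply continuousAt_const)
    refine h4.div (by fun_prop) ?_
    exact mul_ne_zero (pow_ne_zero _ hz0) hzz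
  rw [Metric.tendsto_nhds]
  intro ε hε
  obtain ⟨δ, hδ, hδ2⟩ := Metric.continuousAt_iff.1 hc ε hε
  obtain ⟨d, hd, hd1, hd2, hd3⟩ : ∃ d : ℝ, 0 < d ∧ d < δ ∧ d ≤ eps0 ∧ d ≤ ‖z - z0‖ := by
    have h2 : 0 < ‖z - z0‖ := norm_pos_iff.2 hzz
    exact ⟨min (δ / 2) (min eps0 ‖z - z0‖), lt_min (by positivity) (lt_min he0 h2),
      (min_le_left _ _).trans_lt (by linarith), (min_le_right _ _).trans (min_le_left _ _),
      (min_le_right _ _).trans (min_le_right _ _)⟩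
  rw [eventually_nhdsWithin_iff]
  filter_upwards [h1 d hd] with l hl hlK
  obtain ⟨g, hgb, hg, hA⟩ := hl hlK
  have h2 := sc_near hb h0 hg hd.le hA
  have h3 := hu _ (h2.trans hd2)
  have h4 : ‖g - z0‖ < δ := by
    rw [mem_ball, dist_eq_norm] at hgb
    linarith
  have h5 := @hδ2 (TM (mf (sa phi n l g)), g) (by
    rw [Prod.dist_eq, max_lt_iff]
    refine ⟨?_, ?_⟩
    · rw [dist_eq_norm, hU0]
      exact h2.trans_lt hd1
    · rw [dist_eq_norm]
      exact h4)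
  have h6 := hh1 l hlK
  rw [sc_fac hb hg n l] at h6
  have h7 : (S ^ n * (S - g • (1 : Op))) (hh l) = Ring.inverse (TM (mf (sa phi n l g))) f := by
    rw [← h6]
    have h8 := Ring.inverse_mul_cancel _ h3
    have h9 : (Ring.inverse (TM (mf (sa phi n l g))) * TM (mf (sa phi n l g)))
        ((S ^ n * (S - g • (1 : Op))) (hh l)) = (S ^ n * (S - g • (1 : Op))) (hh l) := by
      rw [h8]
      rfl
    exact h9.symm
  have h10 : z ^ n * ((z - g) * ev z (hh l)) = ev z (Ring.inverse (TM (mf (sa phi n l g))) f) := by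
    rw [← h7, mul_apply_eq_comp, sc_ev_pow hz, ev_S_sub hz]
  have h11 : z - g ≠ 0 := by
    intro h0
    rw [mem_ball, dist_eq_norm, ← sub_eq_zero.1 h0] at hgb
    exact absurd hd3 (not_le.2 hgb)
  have h12 : ev z (hh l) = ev z (Ring.inverse (TM (mf (sa phi n l g))) f) / (z ^ n * (z - g)) := by
    rw [eq_div_iff (mul_ne_zero (pow_ne_zero _ hz0) h11), ← h10]
    ring
  rw [h12]
  exact h5

end Pool.Agent.TBirK
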