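import Pool.Agent.TBirK.Stk
import Pool.Agent.TBirK.Esk
import Pool.Agent.TBirK.Sck

/-!
# The sides of a simple point

`K = Gam phi F u v`. The arcs on the two sides of `z` (`arcK`, limits `phi z` by `h.cv.cont`), disjoint by `hn`; near `phi z` the set `K` is their union (compactness, `hu`, `hs`; as in `sides_corner` of TBirJ/Sdc.lean). `hkey`: `sc_in`, `sc_out` at `z` (points `l` with `Ix phi l n` are not in `phi '' (sphere \ F)`: `IxAux`: the symbol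
would not be bounded below; and near `phi z` there are no segments), `m = x`.
-/

set_option autoImplicit false

open MeasureTheory Complex Set Filter Topology Metric AddCircle
open scoped ComplexConjugate InnerProductSpace ENNReal

namespace Pool.Agent.TBirK

open Pool.Agent.TBir Pool.Agent.TBirG Pool.Agent.TBirC Pool.Agent.TBirJ
open Pool.Agent.TBirP (E qT)

open Pool.Agent.TBirP (nb_E_mem nb_E_zero nb_E_cont nb_ne nb_arg nb_arg_eq)
open Pool.Agent.TBirJ.SdcAux (tE_ne E_inj far)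

/-- near a point of `F` the values are near the one-sided limits -/
private theorem smk_nearF {phi : ℂ → ℂ} {F : Finset ℂ} {u v : ℂ → ℂ} {q : ℂ} (h : Cv phi F u v)
    {t' : ℂ} (ht' : t' ∈ F) (hu : q ≠ u t') (hv : q ≠ v t') :
    ∃ ρ : ℝ, 0 < ρ ∧ ∀ᶠ z in 𝓝 t', ‖z‖ = 1 → z ∉ F → ρ ≤ ‖phi z - q‖ := by
  have hn : ‖t'‖ = 1 := h.circ t' ht'
  have h1 : 0 < ‖u t' - q‖ := norm_pos_iff.2 (sub_ne_zero.2 hu.symm)
  have h2 : 0 < ‖v t' - q‖ := norm_pos_iff.2 (sub_ne_zero.2 hv.symm)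
  have e1 := ((h.lim_left t' ht').sub_const q).norm.eventually_const_lt (half_lt_self h1)
  have e2 := ((h.lim_right t' ht').sub_const q).norm.eventually_const_lt (half_lt_self h2)
  rw [eventually_nhdsWithin_iff] at e1 e2
  have e3 : Tendsto (fun z : ℂ => -arg (z / t')) (𝓝 t') (𝓝 0) := by
    have := (nb_arg hn).neg
    rwa [neg_zero] at this
  refine ⟨min (‖u t' - q‖ / 2) (‖v t' - q‖ / 2), by positivity, ?_⟩
  filter_upwards [e3.eventually e1, (nb_arg hn).eventually e2] with z g1 g2 hz hzF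
  have hz' := nb_arg_eq hn (mem_sphere_zero_iff_norm.2 hz)
  have h3 : arg (z / t') ≠ 0 := by
    intro h0
    rw [h0, nb_E_zero, mul_one] at hz'
    rw [← hz'] at hzF
    exact hzF ht'
  rcases lt_or_gt_of_ne h3 with h4 | h4
  · have h5 := g1 (mem_Ioi.2 (by linarith))
    rw [neg_neg, hz'] at h5
    exact (min_le_left _ _).trans h5.le
  · have h5 := g2 (mem_Ioi.2 h4)
    rw [hz'] at h5
    exact (min_le_right _ _).trans h5.le

/-- near a point which is not in `F` -/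
private theorem smk_near {phi : ℂ → ℂ} {F : Finset ℂ} {u v : ℂ → ℂ} {q : ℂ} (h : Cv phi F u v)
    {z0 : ℂ} (hz0 : ‖z0‖ = 1) (hF : z0 ∉ F) (hq : phi z0 ≠ q) :
    ∃ ρ : ℝ, 0 < ρ ∧ ∀ᶠ z in 𝓝 z0, ‖z‖ = 1 → z ∉ F → ρ ≤ ‖phi z - q‖ := by
  have h1 : 0 < ‖phi z0 - q‖ := norm_pos_iff.2 (sub_ne_zero.2 hq)
  have h2 : Tendsto phi (𝓝[sphere 0 1 \ F] z0) (𝓝 (phi z0)) :=
    h.cont z0 ⟨mem_sphere_zero_iff_norm.2 hz0, fun h0 => hF (Finset.mem_coe.1 h0)⟩
  have h3 := (h2.sub_const q).norm.eventually_const_lt (half_lt_self h1)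
  rw [eventually_nhdsWithin_iff] at h3
  refine ⟨_, half_pos h1, ?_⟩
  filter_upwards [h3] with z hz h4 h5
  exact (hz ⟨mem_sphere_zero_iff_norm.2 h4, fun h0 => h5 (Finset.mem_coe.1 h0)⟩).le

/-- points with an index are not values -/
private theorem smk_ne {phi : ℂ → ℂ} {F : Finset ℂ} {u v : ℂ → ℂ} (h : Cv phi F u v) {l : ℂ} {n : ℤ}
    (hl : Ix phi l n) {z : ℂ} (hz : ‖z‖ = 1) (hzF : z ∉ F) : phi z ≠ l := by
  rintro rfl
  obtain ⟨x0, hx0⟩ := Pool.Agent.TBirC.PsiAux.exists_e (mem_sphere_zero_iff_norm.2 hz)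
  refine IxAux.not_small hl x0 ?_
  have h2 : Tendsto e (𝓝 x0) (𝓝 z) := by
    rw [← hx0]
    exact Pool.Agent.TBirC.PsiAux.cont_e.tendsto x0
  have h3 : ∀ᶠ w in 𝓝 z, w ∉ (F : Set ℂ) :=
    F.finite_toSet.isClosed.isOpen_compl.mem_nhds fun h0 => hzF (Finset.mem_coe.1 h0)
  have h4 : Tendsto e (𝓝 x0) (𝓝[sphere 0 1 \ F] z) := by
    rw [tendsto_nhdsWithin_iff]
    refine ⟨h2, ?_⟩
    filter_upwards [h2.eventually h3] with x hx
    exact ⟨mem_sphere_zero_iff_norm.2 (Pool.Agent.TBirC.PsiAux.norm_e' x), hx⟩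
  have h5 : Tendsto phi (𝓝[sphere 0 1 \ F] z) (𝓝 (phi z)) :=
    h.cont z ⟨mem_sphere_zero_iff_norm.2 hz, fun h0 => hzF (Finset.mem_coe.1 h0)⟩
  have h6 := (h5.comp h4).sub_const (phi z)
  rw [sub_self] at h6
  have h7 := (IxAux.tend_pow (-n) x0).mul h6
  rwa [mul_zero] at h7

theorem sides_reg {phi : ℂ → ℂ} {F : Finset ℂ} {u v : ℂ → ℂ} {z : ℂ} (h : PwC phi F u v)
    (hz : ‖z‖ = 1) (hzF : z ∉ F) (hs : ∀ t ∈ F, phi z ∉ segment ℝ (u t) (v t))
    (hu : ∀ z' : ℂ, ‖z'‖ = 1 → z' ∉ F → phi z' = phi z → z' = z)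
    (hn : ∀ᶠ z1 in 𝓝 z, ‖z1‖ = 1 → z1 ∉ F → ∀ z' : ℂ, ‖z'‖ = 1 → z' ∉ F → phi z' = phi z1 → z' = z1) :
    ∃ m : ℤ, Sides phi (Gam phi F u v) (phi z) m := by
  classical
  have hpi := Real.pi_gt_three
  have hP : Cv phi F u v := h.cv
  have htend : Tendsto (fun x : ℝ => z * E x) (𝓝 0) (𝓝 z) := by
    have h1 : Continuous fun x : ℝ => z * E x := continuous_const.mul nb_E_cont
    have := h1.tendsto 0
    rwa [nb_E_zero, mul_one] at this
  have hFz : ∀ᶠ w in 𝓝 z, w ∉ F := by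
    have h1 : (F : Set ℂ)ᶜ ∈ 𝓝 z :=
      F.finite_toSet.isClosed.isOpen_compl.mem_nhds fun h0 => hzF (Finset.mem_coe.1 h0)
    filter_upwards [h1] with w hw h0
    exact hw (Finset.mem_coe.2 h0)
  -- the limits on both sides
  have hlim : ∀ s : ℝ, Tendsto (fun x : ℝ => phi (z * E (s * x))) (𝓝[>] 0) (𝓝 (phi z)) := by
    intro s
    have h1 : Tendsto phi (𝓝[sphere 0 1 \ F] z) (𝓝 (phi z)) :=
      hP.cont z ⟨mem_sphere_zero_iff_norm.2 hz, fun h0 => hzF (Finset.mem_coe.1 h0)⟩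
    have h2 : Tendsto (fun x : ℝ => z * E (s * x)) (𝓝 0) (𝓝 z) := by
      have h3 : Tendsto (fun x : ℝ => s * x) (𝓝 0) (𝓝 0) := by
        have h4 : Continuous fun x : ℝ => s * x := continuous_const.mul continuous_id
        have := h4.tendsto 0
        rwa [mul_zero] at this
      exact htend.comp h3
    refine (h1.comp ?_).mono_left nhdsWithin_le_nhds
    rw [tendsto_nhdsWithin_iff]
    refine ⟨h2, ?_⟩
    filter_upwards [h2.eventually hFz] with x hx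
    exact ⟨nb_E_mem hz _, fun h0 => hx (Finset.mem_coe.1 h0)⟩
  obtain ⟨k1, d1, hd1, c1, z1, m1, a1⟩ := arcK hP hz (Or.inr rfl) (hlim (-1))
  obtain ⟨k2, d2, hd2, c2, z2, m2, a2⟩ := arcK hP hz (Or.inl rfl) (hlim 1)
  -- small arguments
  obtain ⟨r, hr, hr1, hrF⟩ : ∃ r : ℝ, 0 < r ∧ r ≤ 1 ∧ ∀ x : ℝ, |x| ≤ r →
      z * E x ∉ F ∧ ∀ z' : ℂ, ‖z'‖ = 1 → z' ∉ F → phi z' = phi (z * E x) → z' = z * E x := by
    have g2 := htend.eventually (hFz.and hn)
    rw [Metric.eventually_nhds_iff] at g2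
    obtain ⟨ε, hε, g3⟩ := g2
    refine ⟨min (ε / 2) 1, by positivity, min_le_right _ _, fun x hx => ?_⟩
    have hx1 : |x| ≤ ε / 2 := hx.trans (min_le_left _ _)
    obtain ⟨g4, g5⟩ := g3 (y := x) (by rw [Real.dist_eq, sub_zero]; linarith)
    exact ⟨g4, g5 (mem_sphere_zero_iff_norm.1 (nb_E_mem hz x)) g4⟩
  obtain ⟨d, hd, hdd1, hdd2, hdr⟩ : ∃ d : ℝ, 0 < d ∧ d ≤ d1 ∧ d ≤ d2 ∧ d ≤ r := by
    refine ⟨min d1 (min d2 r), by positivity, min_le_left _ _, ?_, ?_⟩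
    · exact (min_le_right _ _).trans (min_le_left _ _)
    · exact (min_le_right _ _).trans (min_le_right _ _)
  have i1 : Icc 0 d ⊆ Icc 0 d1 := Icc_subset_Icc_right hdd1
  have i2 : Icc 0 d ⊆ Icc 0 d2 := Icc_subset_Icc_right hdd2
  have a1' : ∀ x ∈ Ioc 0 d, k1 x = phi (z * E (-x)) := by
    intro x hx
    rw [a1 x ⟨hx.1, hx.2.trans hdd1⟩, neg_one_mul]
  have a2' : ∀ x ∈ Ioc 0 d, k2 x = phi (z * E x) := by
    intro x hx
    rw [a2 x ⟨hx.1, hx.2.trans hdd2⟩, one_mul]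
  have hmem : ∀ x : ℝ, |x| ≤ r → phi (z * E x) ∈ Gam phi F u v := fun x hx =>
    Or.inl ⟨_, ⟨nb_E_mem hz x, fun h0 => (hrF x hx).1 (Finset.mem_coe.1 h0)⟩, rfl⟩
  have hqK : phi z ∈ Gam phi F u v :=
    Or.inl ⟨_, ⟨mem_sphere_zero_iff_norm.2 hz, fun h0 => hzF (Finset.mem_coe.1 h0)⟩, rfl⟩
  have hdis : ∀ x ∈ Icc 0 d, ∀ y ∈ Icc 0 d, k1 x = k2 y → x = 0 ∧ y = 0 := by
    intro x hx y hy hxy
    have h01 : (0 : ℝ) ∈ Icc 0 d1 := ⟨le_rfl, hd1.le⟩
    have h02 : (0 : ℝ) ∈ Icc 0 d2 := ⟨le_rfl, hd2.le⟩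
    rcases hx.1.eq_or_lt with hx0 | hx0
    · refine ⟨hx0.symm, ?_⟩
      apply m2.injOn (i2 hy) h02
      simp only
      rw [← hxy, ← hx0, z1, z2]
    · rcases hy.1.eq_or_lt with hy0 | hy0
      · exfalso
        have h1 : x = 0 := by
          apply m1.injOn (i1 hx) h01
          simp only
          rw [hxy, ← hy0, z1, z2]
        exact hx0.ne' h1
      · exfalso
        rw [a1' x ⟨hx0, hx.2⟩, a2' y ⟨hy0, hy.2⟩] at hxy
        have h1 := hrF (-x) (by rw [abs_neg, abs_of_pos hx0]; exact hx.2.trans hdr)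
        have h2 := hrF y (by rw [abs_of_pos hy0]; exact hy.2.trans hdr)
        have h3 := h1.2 _ (mem_sphere_zero_iff_norm.1 (nb_E_mem hz y)) h2.1 hxy.symm
        exact E_inj hz (by linarith) (by linarith [hx.2, hy.2]) h3
  have hseg : ∀ᶠ l in 𝓝 (phi z), ∀ t' ∈ F, l ∉ segment ℝ (u t') (v t') := by
    rw [Finset.eventually_all]
    intro t' ht'
    have h2 : IsClosed (segment ℝ (u t') (v t')) := by
      rw [← convexHull_pair]
      exact ((Set.toFinite {u t', v t'}).isCompact_convexHull ℝ).isClosed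
    exact h2.isOpen_compl.mem_nhds (hs t' ht')
  -- the curve near `phi z`
  have hK : ∀ᶠ l in 𝓝 (phi z), l ∈ Gam phi F u v ↔ l ∈ k1 '' Icc 0 d ∪ k2 '' Icc 0 d := by
    have g1 : ∀ᶠ l in 𝓝 (phi z), ∀ w ∈ sphere (0 : ℂ) 1, ‖w‖ = 1 → w ∉ F → phi w = l →
        l ∈ k1 '' Icc 0 d ∪ k2 '' Icc 0 d := by
      refine (isCompact_sphere (0 : ℂ) 1).eventually_forall_of_forall_eventually
        (P := fun l w => ‖w‖ = 1 → w ∉ F → phi w = l → l ∈ k1 '' Icc 0 d ∪ k2 '' Icc 0 d)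
        fun z0 hz0 => ?_
      have hz0' : ‖z0‖ = 1 := mem_sphere_zero_iff_norm.1 hz0
      by_cases hF : z0 ∈ F
      · have h2 : phi z ≠ u z0 := fun h0 =>
          hs z0 hF (by rw [h0]; exact left_mem_segment ℝ _ _)
        have h3 : phi z ≠ v z0 := fun h0 =>
          hs z0 hF (by rw [h0]; exact right_mem_segment ℝ _ _)
        obtain ⟨ρ, hρ, h4⟩ := smk_nearF hP hF h2 h3
        exact far hρ h4
      · by_cases htz : z0 = z
        · subst htz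
          have g2 : ∀ᶠ w in 𝓝 z0, |arg (w / z0)| < d := by
            have := (nb_arg hz).abs
            rw [abs_zero] at this
            exact this.eventually_lt_const hd
          rw [nhds_prod_eq]
          filter_upwards [g2.prod_inr (𝓝 (phi z0))] with p hp h1 h2 h3
          have h4 := nb_arg_eq hz (mem_sphere_zero_iff_norm.2 h1)
          rcases lt_trichotomy (arg (p.2 / z0)) 0 with h6 | h6 | h6
          · rw [abs_of_neg h6] at hp
            refine Or.inl ⟨-arg (p.2 / z0), ⟨by linarith, hp.le⟩, ?_⟩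
            rw [a1' _ ⟨by linarith, hp.le⟩, neg_neg, h4, h3]
          · rw [h6, nb_E_zero, mul_one] at h4
            rw [← h4] at h3
            exact Or.inl ⟨0, ⟨le_rfl, hd.le⟩, by rw [z1, h3]⟩
          · rw [abs_of_pos h6] at hp
            refine Or.inr ⟨arg (p.2 / z0), ⟨h6.le, hp.le⟩, ?_⟩
            rw [a2' _ ⟨h6, hp.le⟩, h4, h3]
        · have h1 : phi z0 ≠ phi z := fun h0 => htz (hu z0 hz0' hF h0)
          obtain ⟨ρ, hρ, h4⟩ := smk_near hP hz0' hF h1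
          exact far hρ h4
    filter_upwards [g1, hseg] with l hl1 hl2
    constructor
    · rintro (⟨w, ⟨hw, hwF⟩, hwl⟩ | hl)
      · exact hl1 w hw (mem_sphere_zero_iff_norm.1 hw) (fun h0 => hwF (Finset.mem_coe.2 h0)) hwl
      · obtain ⟨t', ht', hl'⟩ := mem_iUnion₂.1 hl
        exact absurd hl' (hl2 t' ht')
    · rintro (⟨x, hx, rfl⟩ | ⟨x, hx, rfl⟩)
      · rcases hx.1.eq_or_lt with hx0 | hx0
        · rw [← hx0, z1]
          exact hqK
        · rw [a1' x ⟨hx0, hx.2⟩]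
          exact hmem _ (by rw [abs_neg, abs_of_pos hx0]; exact hx.2.trans hdr)
      · rcases hx.1.eq_or_lt with hx0 | hx0
        · rw [← hx0, z2]
          exact hqK
        · rw [a2' x ⟨hx0, hx.2⟩]
          exact hmem _ (by rw [abs_of_pos hx0]; exact hx.2.trans hdr)
  -- the indices
  have hb := memLp_cv hP
  have hix : ∀ l ∉ Gam phi F u v, ∃ n : ℤ, Ix phi l n := fun l hl => by
    obtain ⟨n, hn'⟩ := exists_wj hP hl
    exact ⟨n, wj_ix hP hn'⟩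
  have hoff : ∀ l n, Ix phi l n → (∀ t' ∈ F, l ∉ segment ℝ (u t') (v t')) →
      l ∉ Gam phi F u v := by
    rintro l n hl1 hl2 (⟨w, ⟨hw, hwF⟩, hwl⟩ | hl)
    · exact smk_ne hP hl1 (mem_sphere_zero_iff_norm.1 hw)
        (fun h0 => hwF (Finset.mem_coe.2 h0)) hwl
    · obtain ⟨t', ht', hl'⟩ := mem_iUnion₂.1 hl
      exact hl2 t' ht' hl'
  obtain ⟨m, hm⟩ := exists_sc h hz hzF hs hu
  have hkey : ∀ N ∈ 𝓝 (phi z), ∃ (m : ℤ) (l1 l2 : ℂ), l1 ∈ N ∧ l2 ∈ N ∧ l1 ∉ Gam phi F u v ∧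
      l2 ∉ Gam phi F u v ∧ Ix phi l1 (m + 1) ∧ Ix phi l2 m := by
    intro N hN
    have hev : ∀ᶠ l in 𝓝 (phi z), l ∈ N ∧ ∀ t' ∈ F, l ∉ segment ℝ (u t') (v t') :=
      Filter.Eventually.and hN hseg
    obtain ⟨l1, hl1, hl1N, hl1s⟩ := ((sc_in hb hm).and_eventually hev).exists
    obtain ⟨l2, hl2, hl2N, hl2s⟩ := ((sc_out hb hm).and_eventually hev).exists
    exact ⟨m, l1, l2, hl1N, hl2N, hoff l1 _ hl1 hl1s, hoff l2 _ hl2 hl2s, hl1, hl2⟩
  exact sides_two hb hix hd (c1.mono i1) (c2.mono i2) z1 z2 (m1.mono i1) (m2.mono i2) hdis hK hkey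

end Pool.Agent.TBirK
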