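import Pool.Agent.TBirK.RgR
import Pool.Agent.TBirK.Smk
import Pool.Agent.TBirK.Sgl
import Pool.Agent.TBirK.Ngk

/-!
# Winding numbers 0, 1, -1: disconnected

As `reg_neg` in TBirP/RegN.lean and `jc_neg` in TBirJ/Ngj.lean. `OmJ = U1 ∪ U2`, open, disjoint, nonempty. `Q = closure U1 ∩ closure U2`. `OmJ` is open (`wj_ix`, `Ix.nhds`, `wj_notMem`, `gam_compact`, `rg_ix`). A point `q` of `Q` is in `Gam` (`exists_wj`: off `Gam` the number is constant near `q`), not on a segment and not a multiple value with a non-analytic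
point (`hn`: `A` is in `U1` or in `U2`), not a value of a point without partner (`sides_reg`: the numbers are `m + 1`, `m`, both in `{-1, 0, 1}`, so exactly one of them is not `0`, and the points of `OmJ` near `q` are in `A` or in `B`; near a point without partner the points have no partner, `rg_nn`). So `q` is a multiple value, all points over `q` are analytic:
`exists_iq`, `reg1_of_iq`; `Q` is finite (`rg_nn`). `Spec phi = closure OmJ`: `Spec phi = {l | ¬ Ix phi l 0}` (`spec_ix`); the points of `Gam` are in the closure of `OmJ`: values of points without partner not on segments (`sides_reg`), points of open segments not in the sets of `cross` (`seg_local`), the others are limits of such points. So `Spec phi \ Q` is the disjoint union of the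
relatively closed nonempty sets `closure U1 \ Q`, `closure U2 \ Q`: `main_disc` (TBirC/Fin.lean).
-/

set_option autoImplicit false

open MeasureTheory Complex Set Filter Topology Metric AddCircle
open scoped ComplexConjugate InnerProductSpace ENNReal

namespace Pool.Agent.TBirK

open Pool.Agent.TBir Pool.Agent.TBirG Pool.Agent.TBirC Pool.Agent.TBirJ
open Pool.Agent.TBirP (E qT)

private theorem rgn_perf : Preperfect (sphere (0 : ℂ) 1) := by
  refine (isPreconnected_sphere (E := ℂ) ?_ 0 1).preperfect_of_nontrivial ?_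
  · rw [Complex.rank_real_complex]
    exact Nat.one_lt_ofNat
  · refine ⟨1, ?_, -1, ?_, ?_⟩
    · rw [mem_sphere_zero_iff_norm, norm_one]
    · rw [mem_sphere_zero_iff_norm, norm_neg, norm_one]
    · norm_num

/-- The circle without a finite set is dense in the circle. -/
private theorem rgn_dense {T : Set ℂ} (hT : T.Finite) {z : ℂ} (hz : z ∈ sphere (0 : ℂ) 1) :
    z ∈ closure (sphere (0 : ℂ) 1 \ T) := by
  by_cases hzT : z ∈ T
  · have h1 : AccPt z (𝓟 (sphere (0 : ℂ) 1)) := rgn_perf z hz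
    rw [accPt_iff_frequently] at h1
    have h2 : ∀ᶠ y in 𝓝 z, y ∉ T \ {z} := by
      have h3 : IsClosed (T \ {z}) := (hT.subset sdiff_subset).isClosed
      exact h3.isOpen_compl.mem_nhds fun h4 => h4.2 rfl
    rw [mem_closure_iff_frequently]
    refine (h1.and_eventually h2).mono ?_
    rintro y ⟨⟨hyz, hy⟩, hyT⟩
    exact ⟨hy, fun h5 => hyT ⟨h5, hyz⟩⟩
  · exact subset_closure ⟨hz, hzT⟩

private theorem rgn_nonempty {U Q : Set ℂ} (o : IsOpen U) (n : U.Nonempty) (hQ : Q.Finite) :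
    (U \ Q).Nonempty := by
  obtain ⟨w, hw⟩ := n
  exact ((infinite_of_mem_nhds w (o.mem_nhds hw)).sdiff hQ).nonempty

variable {phi : ℂ → ℂ} {F : Finset ℂ} {u v : ℂ → ℂ}

/-- The points with a partner. -/
private def PP (phi : ℂ → ℂ) (F : Finset ℂ) : Set ℂ :=
  {z : ℂ | z ∈ sphere (0 : ℂ) 1 ∧ z ∉ F ∧
    ∃ z' ∈ sphere (0 : ℂ) 1, z' ∉ F ∧ phi z' = phi z ∧ z' ≠ z}

/-- Points with two sides in the weak sense. -/
private def TS (phi : ℂ → ℂ) (q : ℂ) : Prop :=
  ∃ m : ℤ, (∃ᶠ l in 𝓝 q, Ix phi l (m + 1)) ∧ ∃ᶠ l in 𝓝 q, Ix phi l m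

private theorem rgn_sm (h : RegC phi F u v) {z : ℂ} (hz : z ∈ sphere (0 : ℂ) 1) (hzF : z ∉ F)
    (hzP : z ∉ PP phi F) (hs : ∀ t ∈ F, phi z ∉ segment ℝ (u t) (v t)) :
    ∃ m : ℤ, Sides phi (Gam phi F u v) (phi z) m := by
  have hfin : (PP phi F).Finite := rg_nn h
  refine sides_reg h.toPwC (mem_sphere_zero_iff_norm.1 hz) hzF hs ?_ ?_
  · intro z' hz' hzF' hq
    by_contra hne
    exact hzP ⟨hz, hzF, z', mem_sphere_zero_iff_norm.2 hz', hzF', hq, hne⟩
  · filter_upwards [hfin.isClosed.isOpen_compl.mem_nhds hzP] with z1 h1 hz1 hz1F z' hz' hzF' hq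
    by_contra hne
    exact h1 ⟨mem_sphere_zero_iff_norm.2 hz1, hz1F, z', mem_sphere_zero_iff_norm.2 hz', hzF', hq,
      hne⟩

private theorem rgn_ts {K : Set ℂ} {q : ℂ} {m : ℤ} (h : Sides phi K q m) : TS phi q := by
  obtain ⟨A, B, -, -, hA, hB, hAc, hBc, -⟩ := h
  exact ⟨m, (mem_closure_iff_frequently.1 hAc).mono hA, (mem_closure_iff_frequently.1 hBc).mono hB⟩

/-- Near a value of the symbol there are points with two sides. -/
private theorem rgn_curve (h : RegC phi F u v) {z : ℂ} (hz : z ∈ sphere (0 : ℂ) 1) (hzF : z ∉ F)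
    {V : Set ℂ} (hV : V ∈ 𝓝 (phi z)) : ∃ q ∈ V, TS phi q := by
  have hc := h.toPwC.cv
  set B : Set ℂ := ⋃ t ∈ F, ⋃ q ∈ {q : ℂ | q ∈ segment ℝ (u t) (v t) ∧
    ((∃ z ∈ sphere (0 : ℂ) 1, z ∉ F ∧ phi z = q) ∨
      ∃ t' ∈ F, t' ≠ t ∧ q ∈ segment ℝ (u t') (v t'))},
        {z : ℂ | z ∈ sphere (0 : ℂ) 1 ∧ z ∉ F ∧ phi z = q} with hB
  have hBfin : B.Finite := by
    rw [hB]
    exact F.finite_toSet.biUnion fun t ht => (h.cross t ht).biUnion fun q _ => cv_level hc q
  have hT : ((F : Set ℂ) ∪ (PP phi F ∪ B)).Finite :=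
    F.finite_toSet.union (Set.Finite.union (rg_nn h) hBfin)
  have hd := rgn_dense hT hz
  have hcw : ContinuousWithinAt phi (sphere (0 : ℂ) 1 \ (↑F ∪ (PP phi F ∪ B))) z :=
    (hc.cont z ⟨hz, hzF⟩).mono (sdiff_subset_sdiff_right subset_union_left)
  have h1 := hcw.mem_closure_image hd
  obtain ⟨q, hqV, z1, ⟨hz1, hz1T⟩, rfl⟩ := mem_closure_iff_nhds.1 h1 V hV
  have hz1F : z1 ∉ F := fun h2 => hz1T (Or.inl h2)
  have hz1P : z1 ∉ PP phi F := fun h2 => hz1T (Or.inr (Or.inl h2))
  obtain ⟨m, hm⟩ := rgn_sm h hz1 hz1F hz1P fun t ht hq => by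
    apply hz1T
    refine Or.inr (Or.inr ?_)
    rw [hB, mem_iUnion₂]
    refine ⟨t, ht, ?_⟩
    rw [mem_iUnion₂]
    exact ⟨phi z1, ⟨hq, Or.inl ⟨z1, hz1, hz1F, rfl⟩⟩, hz1, hz1F, rfl⟩
  exact ⟨_, hqV, rgn_ts hm⟩

/-- The points of the form `q + x I w` on one side of the line. -/
private theorem rgn_side {q a w : ℂ} (hw : w ≠ 0) (hq : ((q - a) * conj w).im = 0) {V : Set ℂ}
    (hV : V ∈ 𝓝 q) (s : ℝ) : ∃ l ∈ V, ∃ x : ℝ, 0 < x ∧
      ((l - a) * conj w).im = s * x := by
  have h1 : Tendsto (fun x : ℝ => q + (s * x : ℝ) * (I * w)) (𝓝[>] 0) (𝓝 q) := by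
    have h2 : Continuous fun x : ℝ => q + (s * x : ℝ) * (I * w) := by fun_prop
    have h3 := h2.tendsto 0
    simp only [mul_zero, Complex.ofReal_zero, zero_mul, add_zero] at h3
    exact h3.mono_left nhdsWithin_le_nhds
  have h4 : ∀ᶠ x : ℝ in 𝓝[>] 0, 0 < x := eventually_mem_nhdsWithin
  obtain ⟨x, hx, hx0⟩ := ((h1.eventually_mem hV).and h4).exists
  refine ⟨_, hx, x * Complex.normSq w, mul_pos hx0 (Complex.normSq_pos.2 hw), ?_⟩
  have h5 : (q + (s * x : ℝ) * (I * w) - a) * conj w =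
      (q - a) * conj w + ((s * x : ℝ) : ℂ) * (I * (w * conj w)) := by ring
  have h6 : ((s * x : ℝ) : ℂ) * (I * (w * conj w)) =
      ((s * (x * Complex.normSq w) : ℝ) : ℂ) * I := by
    rw [Complex.mul_conj]
    push_cast
    ring
  rw [h5, Complex.add_im, hq, zero_add, h6, Complex.im_ofReal_mul, Complex.I_im, mul_one]

/-- Near every point of the completed curve there are points with two sides. -/
private theorem rgn_gam (h : RegC phi F u v) {l : ℂ} (hl : l ∈ Gam phi F u v) {V : Set ℂ}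
    (hV : V ∈ 𝓝 l) : ∃ q ∈ V, TS phi q := by
  have hc := h.toPwC.cv
  rcases hl with ⟨z, ⟨hz, hzF⟩, rfl⟩ | hl
  · exact rgn_curve h hz hzF hV
  rw [mem_iUnion₂] at hl
  obtain ⟨t, ht, hlt⟩ := hl
  by_cases hlv : l = v t
  · -- the end of the segment
    rw [hlv] at hV
    obtain ⟨V', hV'V, hV'o, hlV'⟩ := _root_.mem_nhds_iff.1 hV
    have h1 := (hc.lim_right t ht).eventually_mem (hV'o.mem_nhds hlV')
    have h2 : ∀ᶠ x : ℝ in 𝓝[>] 0, t * E x ∉ F := by
      have h3 : Tendsto (fun x : ℝ => t * E x) (𝓝[>] 0) (𝓝 t) := by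
        have h5 : Continuous fun x : ℝ => t * E x := by
          unfold E
          fun_prop
        have h6 := h5.tendsto 0
        have h7 : t * E 0 = t := by simp [E]
        rw [h7] at h6
        exact h6.mono_left nhdsWithin_le_nhds
      have h4 : ∀ᶠ y in 𝓝 t, y ∉ (F : Set ℂ) \ {t} := by
        have h5 : IsClosed ((F : Set ℂ) \ {t}) := (F.finite_toSet.subset sdiff_subset).isClosed
        exact h5.isOpen_compl.mem_nhds fun h6 => h6.2 rfl
      have h8 : ∀ᶠ x : ℝ in 𝓝[>] 0, 0 < x := eventually_mem_nhdsWithin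
      have h9 : ∀ᶠ x : ℝ in 𝓝[>] 0, x < Real.pi :=
        mem_nhdsWithin_of_mem_nhds (Iio_mem_nhds Real.pi_pos)
      filter_upwards [h3.eventually h4, h8, h9] with x hx hx0 hx1 hxF
      apply hx
      refine ⟨hxF, ?_⟩
      intro hxt
      have ht0 : t ≠ 0 := by
        intro h0
        have := h.circ t ht
        rw [h0, norm_zero] at this
        exact zero_ne_one this
      have h10 : E x = 1 := by
        have h11 : t * E x = t * 1 := by
          rw [mul_one]
          exact hxt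
        exact mul_left_cancel₀ ht0 h11
      unfold E at h10
      rw [Complex.exp_eq_one_iff] at h10
      obtain ⟨n, hn⟩ := h10
      have h12 : (x : ℂ) = ((n * (2 * Real.pi) : ℝ) : ℂ) := by
        have h13 : (x : ℂ) * I = ((n * (2 * Real.pi) : ℝ) : ℂ) * I := by
          rw [hn]
          push_cast
          ring
        exact mul_right_cancel₀ Complex.I_ne_zero h13
      have h14 : x = n * (2 * Real.pi) := by exact_mod_cast h12
      have h15 : (0 : ℝ) < n := by
        by_contra h16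
        push Not at h16
        have := mul_nonpos_of_nonpos_of_nonneg h16 (by positivity : (0 : ℝ) ≤ 2 * Real.pi)
        linarith
      have h16 : (0 : ℤ) < n := by exact_mod_cast h15
      have h17 : (1 : ℝ) ≤ n := by exact_mod_cast h16
      nlinarith [Real.pi_pos]
    obtain ⟨x, hx1, hx2⟩ := (h1.and h2).exists
    have hsph : t * E x ∈ sphere (0 : ℂ) 1 := by
      rw [mem_sphere_zero_iff_norm, norm_mul, h.circ t ht, one_mul]
      exact Complex.norm_exp_ofReal_mul_I x
    obtain ⟨q, hq, hqT⟩ := rgn_curve h hsph hx2 (hV'o.mem_nhds hx1)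
    exact ⟨q, hV'V hq, hqT⟩
  · -- an inner point of the segment
    have hsegs := hlt
    rw [segment_eq_image'] at hlt
    obtain ⟨r, ⟨hr0, hr1⟩, hr⟩ := hlt
    simp only at hr
    have hr1' : r < 1 := by
      rcases lt_or_eq_of_le hr1 with h1 | h1
      · exact h1
      · exfalso
        apply hlv
        rw [← hr, h1, one_smul]
        ring
    have hne : v t - u t ≠ 0 := by
      intro h0
      apply hlv
      rw [← hr, h0, smul_zero, add_zero]
      exact (sub_eq_zero.1 h0).symm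
    set g : ℝ → ℂ := fun y => u t + (y : ℂ) * (v t - u t) with hg
    have hgl : g r = l := by
      rw [← hr, hg]
      simp only
      rw [Complex.real_smul]
    have hginj : Function.Injective g := by
      intro y y' hy
      have h1 : (y : ℂ) * (v t - u t) = (y' : ℂ) * (v t - u t) := add_left_cancel hy
      exact_mod_cast mul_right_cancel₀ hne h1
    have hgc : Continuous g := by
      rw [hg]
      fun_prop
    have hbad' : (g ⁻¹' {q : ℂ | q ∈ segment ℝ (u t) (v t) ∧
      ((∃ z ∈ sphere (0 : ℂ) 1, z ∉ F ∧ phi z = q) ∨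
        ∃ t' ∈ F, t' ≠ t ∧ q ∈ segment ℝ (u t') (v t'))}).Finite :=
      (h.cross t ht).preimage hginj.injOn
    have hVg : g ⁻¹' V ∈ 𝓝 r := hgc.continuousAt.preimage_mem_nhds (by rw [hgl]; exact hV)
    obtain ⟨d, hd, hball⟩ := Metric.mem_nhds_iff.1 hVg
    have hinf : (Ioo r (min 1 (r + d)) \ g ⁻¹' {q : ℂ | q ∈ segment ℝ (u t) (v t) ∧
      ((∃ z ∈ sphere (0 : ℂ) 1, z ∉ F ∧ phi z = q) ∨
        ∃ t' ∈ F, t' ≠ t ∧ q ∈ segment ℝ (u t') (v t'))}).Nonempty :=
      ((Ioo_infinite (lt_min hr1' (by linarith))).sdiff hbad').nonempty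
    obtain ⟨y, ⟨hy1, hy2⟩, hyb⟩ := hinf
    have hy3 : y < 1 := lt_of_lt_of_le hy2 (min_le_left _ _)
    have hy4 : y < r + d := lt_of_lt_of_le hy2 (min_le_right _ _)
    have hyV : g y ∈ V := by
      apply hball
      rw [mem_ball, Real.dist_eq, abs_of_pos (by linarith)]
      linarith
    have hyseg : g y ∈ segment ℝ (u t) (v t) := by
      rw [segment_eq_image']
      refine ⟨y, ⟨by linarith, hy3.le⟩, ?_⟩
      simp only
      rw [Complex.real_smul]
    have hyu : g y ≠ u t := by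
      intro h0
      have h1 : (y : ℂ) * (v t - u t) = 0 := by
        have h2 : u t + (y : ℂ) * (v t - u t) = u t + 0 := by rw [add_zero]; exact h0
        exact add_left_cancel h2
      rcases mul_eq_zero.1 h1 with h2 | h2
      · have h3 : y = 0 := by exact_mod_cast h2
        linarith
      · exact hne h2
    have hyv : g y ≠ v t := by
      intro h0
      have h1 : ((y - 1 : ℝ) : ℂ) * (v t - u t) = 0 := by
        have h2 : u t + (y : ℂ) * (v t - u t) = v t := h0
        push_cast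
        linear_combination h2
      rcases mul_eq_zero.1 h1 with h2 | h2
      · have h3 : y - 1 = 0 := by exact_mod_cast h2
        linarith
      · exact hne h2
    obtain ⟨m, s, hs, hloc⟩ := seg_local hc ht hyseg hyu hyv
      (fun z hz hzF hq => hyb ⟨hyseg, Or.inl ⟨z, hz, hzF, hq⟩⟩)
      (fun t' ht' hne' hq => hyb ⟨hyseg, Or.inr ⟨t', ht', hne', hq⟩⟩)
    have him : ((g y - u t) * conj (v t - u t)).im = 0 := by
      have h1 : (g y - u t) * conj (v t - u t) =
          ((y * Complex.normSq (v t - u t) : ℝ) : ℂ) := by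
        rw [hg]
        simp only
        push_cast
        rw [← Complex.mul_conj]
        ring
      rw [h1, Complex.ofReal_im]
    refine ⟨g y, hyV, m, ?_, ?_⟩
    · rw [frequently_iff]
      intro U hU
      obtain ⟨l', hl', x, hx, him'⟩ := rgn_side hne him
        (Filter.inter_mem hU (ball_mem_nhds _ hs)) 1
      exact ⟨l', hl'.1, (hloc l' hl'.2).1 (by rw [him', one_mul]; exact hx)⟩
    · rw [frequently_iff]
      intro U hU
      obtain ⟨l', hl', x, hx, him'⟩ := rgn_side hne him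
        (Filter.inter_mem hU (ball_mem_nhds _ hs)) (-1)
      exact ⟨l', hl'.1, (hloc l' hl'.2).2 (by rw [him']; linarith)⟩

/-- No index at the points of the completed curve. -/
private theorem rgn_notMem (h : RegC phi F u v) {l : ℂ} {n : ℤ} (hl : Ix phi l n) :
    l ∉ Gam phi F u v := by
  intro hG
  have hb := memLp_cv h.toPwC.cv
  obtain ⟨V, hV, hVo, hlV⟩ := _root_.eventually_nhds_iff.1 (hl.nhds hb)
  obtain ⟨q, hq, m, h1, h2⟩ := rgn_gam h hG (hVo.mem_nhds hlV)
  obtain ⟨l1, h3, h4⟩ := (h1.and_eventually (hVo.mem_nhds hq)).exists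
  obtain ⟨l2, h5, h6⟩ := (h2.and_eventually (hVo.mem_nhds hq)).exists
  have h7 := h3.unique (hV l1 h4)
  have h8 := h5.unique (hV l2 h6)
  omega

theorem rg_neg {phi : ℂ → ℂ} {F : Finset ℂ} {u v : ℂ → ℂ} (h : RegC phi F u v)
    (hw : ∀ l n, Wj phi F l n → |n| ≤ 1) (hn : NearC phi F u v)
    (hO : ¬ IsPreconnected (OmJ phi F)) : ¬ BIR H2 (IsToeplitz phi) := by
  have hc := h.toPwC.cv
  have hb := memLp_cv hc
  set K := Gam phi F u v with hKdef
  have hKc : IsClosed K := (gam_compact hc).isClosed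
  have hwj : ∀ l n, Ix phi l n → Wj phi F l n := fun l n hl => (rg_ix hc (rgn_notMem h hl)).1 hl
  have hop : IsOpen (OmJ phi F) := by
    rw [isOpen_iff_mem_nhds]
    rintro w ⟨k, hk, hwk⟩
    filter_upwards [(wj_ix hc hwk).nhds hb] with w' hw'
    exact ⟨k, hk, hwj _ _ hw'⟩
  -- the splitting
  unfold IsPreconnected at hO
  push Not at hO
  obtain ⟨P, R, hP, hR, hs, nP, nR, hPR⟩ := hO
  have hU : OmJ phi F ∩ P ∪ OmJ phi F ∩ R = OmJ phi F := by
    rw [← inter_union_distrib_left, inter_eq_left.2 hs]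
  -- a connected set containing all the points of `OmJ` near `q`
  have key : ∀ (q : ℂ) (A : Set ℂ), IsPreconnected A → A ⊆ OmJ phi F →
      (∀ᶠ l in 𝓝 q, l ∈ OmJ phi F → l ∈ A) →
      q ∉ closure (OmJ phi F ∩ P) ∩ closure (OmJ phi F ∩ R) := by
    rintro q A hA hAO hev ⟨h1, h2⟩
    obtain ⟨l1, h1U, h1A⟩ := ((mem_closure_iff_frequently.1 h1).and_eventually hev).exists
    obtain ⟨l2, h2U, h2A⟩ := ((mem_closure_iff_frequently.1 h2).and_eventually hev).exists
    obtain ⟨l, hlA, hlu, hlv⟩ := hA P R hP hR (hAO.trans hs) ⟨l1, h1A h1U.1, h1U.2⟩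
      ⟨l2, h2A h2U.1, h2U.2⟩
    have h4 : l ∈ OmJ phi F ∩ (P ∩ R) := ⟨hAO hlA, hlu, hlv⟩
    rw [hPR] at h4
    exact h4
  -- points with two sides
  have hs1 : ∀ (q : ℂ) (m : ℤ), Sides phi K q m →
      q ∉ closure (OmJ phi F ∩ P) ∩ closure (OmJ phi F ∩ R) := by
    rintro q m ⟨A, B, hA, hB, hwA, hwB, cA, cB, hev⟩
    obtain ⟨a, ha⟩ : A.Nonempty := closure_nonempty_iff.1 ⟨_, cA⟩
    obtain ⟨b, hb'⟩ : B.Nonempty := closure_nonempty_iff.1 ⟨_, cB⟩
    have h1 := abs_le.1 (hw a _ (hwj _ _ (hwA a ha)))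
    have h2 := abs_le.1 (hw b _ (hwj _ _ (hwB b hb')))
    by_cases hx : m = 0
    · refine key _ A hA (fun l hl => ⟨m + 1, by omega, hwj _ _ (hwA l hl)⟩) ?_
      filter_upwards [hev] with l hl hlO
      obtain ⟨n, hn, hnW⟩ := hlO
      rcases hl (wj_notMem hc hnW) with h3 | h3
      · exact h3
      · have h4 := (wj_ix hc hnW).unique (hwB l h3)
        omega
    · refine key _ B hB (fun l hl => ⟨m, hx, hwj _ _ (hwB l hl)⟩) ?_
      filter_upwards [hev] with l hl hlO
      obtain ⟨n, hn, hnW⟩ := hlO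
      rcases hl (wj_notMem hc hnW) with h3 | h3
      · have h4 := (wj_ix hc hnW).unique (hwA l h3)
        omega
      · exact h3
  -- points off the curve
  have hs3 : ∀ q, q ∉ K → q ∉ closure (OmJ phi F ∩ P) ∩ closure (OmJ phi F ∩ R) := by
    intro q hq
    obtain ⟨n, hn'⟩ := exists_wj hc hq
    have hev : ∀ᶠ l in 𝓝 q, Wj phi F l n := by
      filter_upwards [(wj_ix hc hn').nhds hb] with l hl
      exact hwj _ _ hl
    by_cases hn0 : n = 0
    · rintro ⟨h1, -⟩
      obtain ⟨l, ⟨⟨m, hm, hmW⟩, -⟩, hl⟩ :=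
        ((mem_closure_iff_frequently.1 h1).and_eventually hev).exists
      exact hm (((wj_ix hc hmW).unique (wj_ix hc hl)).trans hn0)
    · obtain ⟨r, hr, hball⟩ := Metric.eventually_nhds_iff_ball.1 hev
      refine key q (ball q r) (convex_ball q r).isPreconnected
        (fun l hl => ⟨n, hn0, hball l hl⟩) ?_
      filter_upwards [ball_mem_nhds q hr] with l hl _
      exact hl
  -- the curve is in the closure
  have hKcl : K ⊆ closure (OmJ phi F) := by
    intro q hq
    rw [_root_.mem_closure_iff]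
    intro V hVo hqV
    obtain ⟨q', hq', m, h1, h2⟩ := rgn_gam h hq (hVo.mem_nhds hqV)
    by_cases hm : m = 0
    · obtain ⟨l1, h3, h4⟩ := (h1.and_eventually (hVo.mem_nhds hq')).exists
      exact ⟨l1, h4, m + 1, by omega, hwj _ _ h3⟩
    · obtain ⟨l1, h3, h4⟩ := (h2.and_eventually (hVo.mem_nhds hq')).exists
      exact ⟨l1, h4, m, hm, hwj _ _ h3⟩
  have hsub : Spec phi ⊆ closure (OmJ phi F ∩ P) ∪ closure (OmJ phi F ∩ R) := by
    intro q hq
    rw [← closure_union, hU]
    by_cases hqK : q ∈ K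
    · exact hKcl hqK
    · obtain ⟨k, hk⟩ := exists_wj hc hqK
      rw [spec_ix hb] at hq
      refine subset_closure ⟨k, fun h0 => ?_, hk⟩
      rw [h0] at hk
      exact hq (wj_ix hc hk)
  have hS : OmJ phi F ⊆ Spec phi := by
    rintro q ⟨k, hk, hq⟩
    rw [spec_ix hb]
    intro h0
    exact hk ((wj_ix hc hq).unique h0)
  -- the common points
  have hQ : ∀ q ∈ closure (OmJ phi F ∩ P) ∩ closure (OmJ phi F ∩ R), q ∈ phi '' PP phi F ∧
      (∀ t ∈ F, q ∉ segment ℝ (u t) (v t)) ∧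
      ∀ z ∈ sphere (0 : ℂ) 1, z ∉ F → phi z = q → AnalyticAt ℂ phi z ∧ deriv phi z ≠ 0 := by
    intro q hq
    have hseg : ∀ t ∈ F, q ∉ segment ℝ (u t) (v t) := by
      intro t ht hqt
      obtain ⟨A, hA, hAO, hev⟩ := hn q (Or.inl ⟨t, ht, hqt⟩)
      exact key q A hA hAO hev hq
    have hPP : q ∈ phi '' PP phi F := by
      by_cases hqK : q ∈ K
      · rcases hqK with ⟨z, ⟨hz, hzF⟩, rfl⟩ | hq'
        · by_cases hzN : z ∈ PP phi F
          · exact ⟨z, hzN, rfl⟩
          · obtain ⟨m, hm⟩ := rgn_sm h hz hzF hzN hseg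
            exact (hs1 _ m hm hq).elim
        · rw [mem_iUnion₂] at hq'
          obtain ⟨t, ht, hqt⟩ := hq'
          exact (hseg t ht hqt).elim
      · exact (hs3 q hqK hq).elim
    refine ⟨hPP, hseg, ?_⟩
    intro z1 hz1 hz1F hz1q
    by_contra hcon
    obtain ⟨z, ⟨hz, hzF, z', hz', hzF', hzz, hne⟩, hzq⟩ := hPP
    have h2 : ∃ z2 ∈ sphere (0 : ℂ) 1, z2 ∉ F ∧ z2 ≠ z1 ∧ phi z2 = q := by
      by_cases h3 : z = z1
      · exact ⟨z', hz', hzF', by rw [← h3]; exact hne, hzz.trans hzq⟩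
      · exact ⟨z, hz, hzF, h3, hzq⟩
    obtain ⟨A, hA, hAO, hev⟩ := hn q (Or.inr ⟨z1, hz1, hz1F, hz1q, hcon, h2⟩)
    exact key q A hA hAO hev hq
  have hfin : (closure (OmJ phi F ∩ P) ∩ closure (OmJ phi F ∩ R)).Finite :=
    ((rg_nn h).image phi).subset fun q hq => (hQ q hq).1
  have hne : ∀ U : Set ℂ, IsOpen U → U.Nonempty → U ⊆ Spec phi →
      ((Spec phi \ (closure (OmJ phi F ∩ P) ∩ closure (OmJ phi F ∩ R))) ∩
        closure U).Nonempty := by
    intro U o n hUO
    obtain ⟨w, hw', hwQ⟩ := rgn_nonempty o n hfin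
    exact ⟨w, ⟨hUO hw', hwQ⟩, subset_closure hw'⟩
  refine (main_disc hb hfin (fun q hq => Or.inl ?_) ?_).2
  · obtain ⟨-, h1, h2⟩ := hQ q hq
    obtain ⟨x, hx⟩ := exists_iq hc h1 h2
    exact reg1_of_iq hb hx
  · intro hpre
    rw [isPreconnected_closed_iff] at hpre
    obtain ⟨y, hy, hy'⟩ := hpre (closure (OmJ phi F ∩ P)) (closure (OmJ phi F ∩ R))
      isClosed_closure isClosed_closure (sdiff_subset.trans hsub)
      (hne _ (hop.inter hP) nP (inter_subset_left.trans hS))
      (hne _ (hop.inter hR) nR (inter_subset_left.trans hS))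
    exact hy.2 hy'

end Pool.Agent.TBirK
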