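import Pool.Agent.TBirK.RgP
import Pool.Agent.TBirK.RgN
import Pool.Agent.TBirK.RgA

/-!
# Winding numbers 0, 1, -1: the criterion

`rg_main`: the first part as in `jc_main` (TBirJ/Fnj.lean). `OmJ` preconnected: the winding number is constant on it (`wj_ix`, `Ix.of_preconnected`, `rg_ix`), so all winding numbers are `≥ 0` or all are `≤ 0`; in the first case `rg_pos`, `bir_iff_TM`; in the second case `rg_pos` for `pstar phi` (`RegC.pstar`, `wj_pstar_iff`, `omJ_pre`, `ci_pstar`). The last part is `rg_neg`.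
-/

set_option autoImplicit false

open MeasureTheory Complex Set Filter Topology Metric AddCircle
open scoped ComplexConjugate InnerProductSpace ENNReal

namespace Pool.Agent.TBirK

open Pool.Agent.TBir Pool.Agent.TBirG Pool.Agent.TBirC Pool.Agent.TBirJ
open Pool.Agent.TBirP (E qT)

theorem rg_main {phi : ℂ → ℂ} {F : Finset ℂ} {u v : ℂ → ℂ} (h : RegC phi F u v)
    (hw : ∀ l n, Wj phi F l n → |n| ≤ 1) : (∀ f ∈ H2, ∃! g, IsToeplitz phi f g) ∧
    (IsPreconnected (OmJ phi F) → BIR H2 (IsToeplitz phi)) ∧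
    (NearC phi F u v → BIR H2 (IsToeplitz phi) → IsPreconnected (OmJ phi F)) := by
  have hb := memLp_cv h.toPwC.cv
  refine ⟨exists_unique_TM hb, fun hO => ?_, fun hN hB => ?_⟩
  · rw [bir_iff_TM hb]
    change CompletelyIrreducible (Tp phi)
    by_cases hnn : ∀ l n, Wj phi F l n → 0 ≤ n
    · exact rg_pos h (fun l n hl => ⟨hnn l n hl, (abs_le.1 (hw l n hl)).2⟩) hO
    · push Not at hnn
      obtain ⟨l, n, hl, hn⟩ := hnn
      have hnp : ∀ l' n', Wj phi F l' n' → n' ≤ 0 := by
        intro l' n' hl'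
        by_contra hc
        push Not at hc
        have hI := Ix.of_preconnected hb hO (fun w hwO => by
          obtain ⟨m, -, hm⟩ := hwO
          exact ⟨m, wj_ix h.toPwC.cv hm⟩) (l := l) (l' := l') ⟨n, hn.ne, hl⟩ ⟨n', hc.ne', hl'⟩
          (wj_ix h.toPwC.cv hl)
        have h1 := Ix.unique hI (wj_ix h.toPwC.cv hl')
        omega
      rw [← ci_pstar hb]
      refine rg_pos h.pstar (fun l' n' h' => ?_) (omJ_pre hO)
      rw [show l' = conj (conj l') from (Complex.conj_conj l').symm, wj_pstar_iff] at h'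
      have h1 := hnp _ _ h'
      have h2 := (abs_le.1 (hw _ _ h')).1
      omega
  · by_contra hO
    exact rg_neg h hw hN hO hB

end Pool.Agent.TBirK
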