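import Pool.Agent.TBirK.Def

/-!
# Traces of idempotents

`TrJ.bd`: the matrix `a i (P (v j))` is an idempotent matrix (`trj_int` in TBirJ/Trj.lean), its trace is its rank. `TrJ.compl`: the same `a`, `v`.
-/

set_option autoImplicit false

open MeasureTheory Complex Set Filter Topology Metric AddCircle
open scoped ComplexConjugate InnerProductSpace ENNReal

namespace Pool.Agent.TBirK

open Pool.Agent.TBir Pool.Agent.TBirG Pool.Agent.TBirC Pool.Agent.TBirJ
open Pool.Agent.TBirP (E qT)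

variable {phi : ℂ → ℂ} {P : Op} {l tau : ℂ} {n : ℕ}

/-- expansion of a functional which vanishes on the common kernel -/
private theorem tbk_exp {n : ℕ} {K : Hardy → Prop} {a : Fin n → (Hardy →L[ℂ] ℂ)} {v : Fin n → Hardy}
    (hav : ∀ i j, a i (v j) = if i = j then 1 else 0) (hK : ∀ f, K f ↔ ∀ i, a i f = 0)
    {b : Hardy → ℂ} (hb : ∀ f g, b (f - g) = b f - b g) (hb0 : ∀ f, K f → b f = 0)
    (hbs : ∀ (c : Fin n → ℂ) , b (∑ i, c i • v i) = ∑ i, c i * b (v i)) (f : Hardy) :
    b f = ∑ i, a i f * b (v i) := by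
  have h1 : K (f - ∑ i, a i f • v i) := by
    rw [hK]
    intro i
    rw [map_sub, map_sum]
    simp only [map_smul, hav, smul_eq_mul, mul_ite, mul_one, mul_zero, Finset.sum_ite_eq,
      Finset.mem_univ, if_true, sub_self]
  have h2 := hb0 _ h1
  rw [hb, hbs, sub_eq_zero] at h2
  exact h2

private theorem tbk_nat {n : ℕ} {K : Hardy → Prop} {P : Op} (hP2 : P * P = P)
    (hP : ∀ f, K f → K (P f)) {a : Fin n → (Hardy →L[ℂ] ℂ)} {v : Fin n → Hardy}
    (hav : ∀ i j, a i (v j) = if i = j then 1 else 0) (hK : ∀ f, K f ↔ ∀ i, a i f = 0) :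
    ∃ k : ℕ, k ≤ n ∧ ∑ i, a i (P (v i)) = k := by
  have e1 : ∀ (g : Hardy →L[ℂ] ℂ), (∀ f, K f → g f = 0) → ∀ f, g f = ∑ i, a i f * g (v i) := by
    intro g hg f
    refine tbk_exp hav hK (fun f g' => map_sub g f g') hg (fun c => ?_) f
    rw [map_sum]
    simp only [map_smul, smul_eq_mul]
  let Q : Matrix (Fin n) (Fin n) ℂ := Matrix.of fun i j => a i (P (v j))
  have hQ : Q * Q = Q := by
    ext i j
    rw [Matrix.mul_apply]
    have h1 := e1 ((a i).comp P) (fun f hf => (hK _).1 (hP f hf) i) (P (v j))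
    rw [ContinuousLinearMap.comp_apply] at h1
    have h2 : P (P (v j)) = P (v j) := by
      have := congrArg (fun A : Op => A (v j)) hP2
      exact this
    rw [h2] at h1
    show ∑ k, a i (P (v k)) * a k (P (v j)) = a i (P (v j))
    rw [h1]
    exact Finset.sum_congr rfl fun k _ => mul_comm _ _
  have hQ' : IsIdempotentElem (Matrix.toLin' Q) := by
    show Matrix.toLin' Q ∘ₗ Matrix.toLin' Q = _
    rw [← Matrix.toLin'_mul, hQ]
  have h3 := (LinearMap.IsIdempotentElem.isProj_range _ hQ').trace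
  rw [Matrix.trace_toLin'_eq] at h3
  refine ⟨Module.finrank ℂ (LinearMap.range (Matrix.toLin' Q)), ?_, ?_⟩
  · have h4 := Submodule.finrank_le (LinearMap.range (Matrix.toLin' Q))
    rwa [Module.finrank_fin_fun] at h4
  · rw [← h3]
    rfl

private theorem tbk_rg (hP : P * Tp phi = Tp phi * P) (f : Hardy) (h : RgJ phi f l) :
    RgJ phi (P f) l := by
  obtain ⟨g, rfl⟩ := h
  refine ⟨P g, ?_⟩
  have h1 : P (Tp phi g) = Tp phi (P g) := congrArg (fun A : Op => A g) hP
  show Tp phi (P g) - l • P g = P (Tp phi g - l • g)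
  rw [map_sub, map_smul, h1]

theorem trJ_bd (hP2 : P * P = P) (hP : P * Tp phi = Tp phi * P) (h : TrJ phi P l n tau) :
    ∃ k : ℕ, k ≤ n ∧ tau = k := by
  obtain ⟨a, v, hav, hK, rfl⟩ := h
  exact tbk_nat (K := fun f => RgJ phi f l) hP2 (tbk_rg hP) hav hK

theorem trJ_compl (h : TrJ phi P l n tau) : TrJ phi (1 - P) l n (n - tau) := by
  obtain ⟨a, v, hav, hK, rfl⟩ := h
  refine ⟨a, v, hav, hK, ?_⟩
  have h1 : ∀ i, a i ((1 - P) (v i)) = 1 - a i (P (v i)) := by
    intro i
    have h2 : (1 - P) (v i) = v i - P (v i) := rfl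
    rw [h2, map_sub, hav, if_pos rfl]
  simp only [h1, Finset.sum_sub_distrib]
  simp

end Pool.Agent.TBirK
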