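import Pool.Agent.TBirK.RgR
import Pool.Agent.TBirK.Zek
import Pool.Agent.TBirK.Tbk

/-!
# Winding numbers 0, 1: connected

`rg_pos`: `bir_iff`; `P` idempotent, commuting. On `OmJ` all numbers are `1` (`hw`, `h1`), so the trace is a constant `tau` on `OmJ` (`tr_preconnectedJ`), `0` or `1` (`trJ_bd`; if `OmJ` is empty take `tau = 0`). If it is `0`: `tr_zeroJ` on `OmJ`, `Ix.rg` off it (`rg_ix`): `zero_PK` with `rg_dk`. If it is `1`: `1 - P` (`trJ_compl`).
-/

set_option autoImplicit false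

open MeasureTheory Complex Set Filter Topology Metric AddCircle
open scoped ComplexConjugate InnerProductSpace ENNReal

namespace Pool.Agent.TBirK

open Pool.Agent.TBir Pool.Agent.TBirG Pool.Agent.TBirC Pool.Agent.TBirJ
open Pool.Agent.TBirP (E qT)

theorem rg_pos {phi : ℂ → ℂ} {F : Finset ℂ} {u v : ℂ → ℂ} (h : RegC phi F u v)
    (hw : ∀ l n, Wj phi F l n → 0 ≤ n ∧ n ≤ 1) (hO : IsPreconnected (OmJ phi F)) :
    CompletelyIrreducible (Tp phi) := by
  rw [bir_iff]
  intro P hP2 hP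
  have hCv : Cv phi F u v := h.toPwC.cv
  have hb := memLp_cv hCv
  have D : Dk phi (Gam phi F u v) := rg_dk h fun l n hl => (hw l n hl).1
  have hOm : ∀ l ∈ OmJ phi F, Ix phi l ((1 : ℕ) : ℤ) := by
    rintro l ⟨n, hn0, hn⟩
    obtain ⟨h1, h2⟩ := hw l n hn
    have h3 : n = ((1 : ℕ) : ℤ) := by
      push_cast
      omega
    rw [← h3]
    exact wj_ix hCv hn
  have key : ∀ Q : Op, Q * Tp phi = Tp phi * Q → (∀ l ∈ OmJ phi F, ∀ f, RgJ phi (Q f) l) → Q = 0 := by
    intro Q hQ hr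
    refine zero_PK D hQ fun f l hl => ?_
    obtain ⟨n, hn⟩ := exists_wj hCv hl
    by_cases hn0 : n = 0
    · subst hn0
      exact (wj_ix hCv hn).rg hb (Q f)
    · exact hr l ⟨n, hn0, hn⟩ f
  rcases (OmJ phi F).eq_empty_or_nonempty with hE | ⟨l0, hl0⟩
  · left
    refine key P hP fun l hl => ?_
    rw [hE] at hl
    exact absurd hl (notMem_empty l)
  obtain ⟨tau, htau⟩ := tr_preconnectedJ hb hP2 hP hO hOm
  obtain ⟨k, hk, hk'⟩ := trJ_bd hP2 hP (htau l0 hl0)
  have hk2 : k = 0 ∨ k = 1 := by omega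
  rcases hk2 with rfl | rfl
  · left
    refine key P hP fun l hl f => tr_zeroJ hP2 hP (n := 1) ?_ f
    have h1 := htau l hl
    rw [hk', Nat.cast_zero] at h1
    exact h1
  · right
    have h1 : (1 - P) * (1 - P) = 1 - P := by
      rw [mul_sub, mul_one, sub_mul, one_mul, hP2, sub_self, sub_zero]
    have h2 : (1 - P) * Tp phi = Tp phi * (1 - P) := by
      rw [sub_mul, mul_sub, hP, one_mul, mul_one]
    have h3 : 1 - P = 0 := by
      refine key (1 - P) h2 fun l hl f => tr_zeroJ h1 h2 (n := 1) ?_ f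
      have h4 := trJ_compl (htau l hl)
      rw [hk', sub_self] at h4
      exact h4
    rw [sub_eq_zero] at h3
    exact h3.symm

end Pool.Agent.TBirK
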