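import Pool.Agent.TBirK.RgD
import Pool.Agent.TBirK.Gwk
import Pool.Agent.TBirK.Rsk
import Pool.Agent.TBirK.Rek
import Pool.Agent.TBirK.Esk

/-!
# Winding numbers 0, 1, -1: the data

`rg_nn`: the set of the points of the circle off `F` with a partner is finite (`inj`, `cv_level`, as `ngj_nn` in TBirJ/Ngj.lean). `rg_dk`: as `jc_dat` in TBirJ/Fnj.lean. `nn`: if `Ix phi l n` there is `l'` off `Gam` near `l` with `Ix phi l' n` (`gam_dense`), `exists_wj`, `wj_ix`, `Ix.unique`. `rem`: off `Gam`: `zj_off` (copy from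
TBirJ/Zej.lean); values `phi z`, `z` without partner, not on a segment: near `phi z` the curve consists of values of points near `z`, all without partner (finiteness) and not on a segment: `rem_sc`, `exists_sc`; points `q ≠ u t`, `q ≠ v t` of a segment, not on the rest (`cross`): `rem_seg`; the exceptions: the values of the points
with a partner, `u t`, `v t`, the sets of `cross`. `rg_ix`: `Ix phi l n` for `l` off `Gam` iff `Wj phi F l n`.
-/

set_option autoImplicit false

open MeasureTheory Complex Set Filter Topology Metric AddCircle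
open scoped ComplexConjugate InnerProductSpace ENNReal

namespace Pool.Agent.TBirK

open Pool.Agent.TBir Pool.Agent.TBirG Pool.Agent.TBirC Pool.Agent.TBirJ
open Pool.Agent.TBirP (E qT)

variable {phi : ℂ → ℂ} {F : Finset ℂ} {u v : ℂ → ℂ} {l : ℂ} {n : ℤ}

theorem rg_nn (h : RegC phi F u v) : {z : ℂ | z ∈ sphere (0 : ℂ) 1 ∧ z ∉ F ∧
    ∃ z' ∈ sphere (0 : ℂ) 1, z' ∉ F ∧ phi z' = phi z ∧ z' ≠ z}.Finite := by
  obtain ⟨D, hD, hinj⟩ := h.inj
  have hfin : (D ∪ ⋃ b ∈ phi '' D, {z : ℂ | z ∈ sphere (0 : ℂ) 1 ∧ z ∉ F ∧ phi z = b}).Finite :=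
    hD.union ((hD.image phi).biUnion fun b _ => cv_level h.toPwC.cv b)
  refine hfin.subset ?_
  rintro z ⟨hz, hzF, z', hz', hz'F, he, hne⟩
  by_contra hcon
  rw [mem_union, not_or] at hcon
  obtain ⟨hzD, hzU⟩ := hcon
  have hz'D : z' ∉ D := by
    intro hD'
    apply hzU
    exact mem_iUnion₂.2 ⟨phi z', ⟨z', hD', rfl⟩, hz, hzF, he.symm⟩
  apply hne
  refine hinj ⟨hz', ?_⟩ ⟨hz, ?_⟩ he
  · rintro (h1 | h1)
    · exact hz'F h1
    · exact hz'D h1
  · rintro (h1 | h1)
    · exact hzF h1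
    · exact hzD h1

/-- The one-sided limit of `phi - l` at a point of `F`. -/
private theorem rr_lim {g : ℂ → ℂ} {s : ℝ} {t a w : ℂ} (ht : ‖t‖ = 1) (hs : s = 1 ∨ s = -1)
    (h1 : Tendsto (fun x : ℝ => phi (t * E (s * x))) (𝓝[>] 0) (𝓝 w))
    (h2 : Tendsto (fun x : ℝ => g (t * E (s * x))) (𝓝[>] 0) (𝓝 a))
    (h3 : ∀ z ∈ sphere (0 : ℂ) 1, z ∉ F → phi z - l = z ^ n * exp (g z)) :
    w - l = t ^ n * exp a := by
  have ht0 : t ≠ 0 := by
    rintro rfl
    rw [norm_zero] at ht
    exact zero_ne_one ht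
  have hE : Tendsto (fun x : ℝ => t * E (s * x)) (𝓝[>] 0) (𝓝 t) := by
    have h4 : Continuous fun x : ℝ => t * E (s * x) := by
      unfold E
      fun_prop
    have h5 := h4.tendsto 0
    have h6 : t * E (s * 0) = t := by simp [E]
    rw [h6] at h5
    exact h5.mono_left nhdsWithin_le_nhds
  have hpow : Tendsto (fun x : ℝ => (t * E (s * x)) ^ n) (𝓝[>] 0) (𝓝 (t ^ n)) :=
    (continuousAt_zpow₀ t n (Or.inl ht0)).tendsto.comp hE
  have hL : Tendsto (fun x : ℝ => phi (t * E (s * x)) - l) (𝓝[>] 0) (𝓝 (w - l)) := h1.sub_const l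
  have hR : Tendsto (fun x : ℝ => (t * E (s * x)) ^ n * exp (g (t * E (s * x)))) (𝓝[>] 0)
      (𝓝 (t ^ n * exp a)) := hpow.mul ((Complex.continuous_exp.tendsto a).comp h2)
  refine tendsto_nhds_unique hL (hR.congr' ?_)
  -- eventually the point is not in the finite set
  have hne : ∀ᶠ x : ℝ in 𝓝[>] 0, t * E (s * x) ∉ F := by
    have h7 : ∀ᶠ x : ℝ in 𝓝[>] 0, t * E (s * x) ∉ (F : Set ℂ) \ {t} := by
      have h8 : ((F : Set ℂ) \ {t})ᶜ ∈ 𝓝 t :=
        (F.finite_toSet.subset sdiff_subset).isClosed.isOpen_compl.mem_nhds fun h9 => h9.2 rfl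
      exact hE h8
    have h10 : ∀ᶠ x : ℝ in 𝓝[>] 0, x < 1 := by
      apply nhdsWithin_le_nhds
      exact Iio_mem_nhds one_pos
    filter_upwards [h7, h10, self_mem_nhdsWithin] with x h11 h12 h13 h14
    apply h11
    refine ⟨h14, fun h15 => ?_⟩
    have h16 : t * E (s * x) = t * 1 := by
      rw [mul_one]
      exact h15
    have h17 : E (s * x) = 1 := mul_left_cancel₀ ht0 h16
    unfold E at h17
    obtain ⟨k, hk⟩ := Complex.exp_eq_one_iff.1 h17
    have h18 : ((s * x : ℝ) : ℂ) = (k : ℂ) * (2 * Real.pi) := by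
      refine mul_right_cancel₀ Complex.I_ne_zero ?_
      rw [hk]
      ring
    have h19 : s * x = k * (2 * Real.pi) := by exact_mod_cast h18
    have hpi := Real.pi_gt_three
    have hx0 : 0 < x := h13
    have h20 : |s * x| = x := by
      rcases hs with rfl | rfl
      · rw [one_mul, abs_of_pos hx0]
      · rw [neg_one_mul, abs_neg, abs_of_pos hx0]
    rw [h19, abs_mul, abs_of_pos (by positivity : (0 : ℝ) < 2 * Real.pi)] at h20
    rcases eq_or_ne k 0 with h21 | h21
    · rw [h21, Int.cast_zero, abs_zero, zero_mul] at h20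
      exact absurd h20.symm hx0.ne'
    · have h22 : (1 : ℝ) ≤ |(k : ℝ)| := by exact_mod_cast Int.one_le_abs h21
      nlinarith
  filter_upwards [hne] with x hx
  symm
  apply h3 _ _ hx
  rw [mem_sphere_zero_iff_norm, norm_mul, ht, one_mul]
  unfold E
  exact Complex.norm_exp_ofReal_mul_I _

theorem wj_notMem (h : Cv phi F u v) (hl : Wj phi F l n) : l ∉ Gam phi F u v := by
  obtain ⟨g, -, hg2, hg3⟩ := hl
  rintro (⟨z, ⟨hz, hzF⟩, hzl⟩ | hG)
  · have h1 := hg3 z hz hzF
    rw [hzl, sub_self] at h1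
    have hz0 : z ≠ 0 := by
      rintro rfl
      rw [mem_sphere_zero_iff_norm, norm_zero] at hz
      exact zero_ne_one hz
    exact mul_ne_zero (zpow_ne_zero n hz0) (Complex.exp_ne_zero _) h1.symm
  · obtain ⟨t, ht, hseg⟩ := mem_iUnion₂.1 hG
    obtain ⟨a, b, ha, hb, hab⟩ := hg2 t ht
    have htn := h.circ t ht
    have ht0 : t ≠ 0 := by
      rintro rfl
      rw [norm_zero] at htn
      exact zero_ne_one htn
    have e1 : u t - l = t ^ n * exp a :=
      rr_lim (s := -1) (g := g) htn (Or.inr rfl)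
        (by simpa only [neg_one_mul] using h.lim_left t ht)
        (by simpa only [neg_one_mul] using ha) hg3
    have e2 : v t - l = t ^ n * exp b :=
      rr_lim (s := 1) (g := g) htn (Or.inl rfl)
        (by simpa only [one_mul] using h.lim_right t ht)
        (by simpa only [one_mul] using hb) hg3
    obtain ⟨p, q, hp, hq, hpq, hl⟩ := hseg
    have hpq' : (p : ℂ) + q = 1 := by exact_mod_cast hpq
    have h1 : (p : ℂ) * (u t - l) + q * (v t - l) = 0 := by
      have h2 : (p : ℂ) * u t + q * v t = l := by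
        rw [← hl]
        simp
      linear_combination h2 - l * hpq'
    rw [e1, e2] at h1
    have h3 : t ^ n * exp a * (p + q * exp (b - a)) = 0 := by
      rw [Complex.exp_sub]
      have h4 : exp a ≠ 0 := Complex.exp_ne_zero a
      field_simp
      linear_combination h1
    have h5 : (p : ℂ) + q * exp (b - a) = 0 :=
      (mul_eq_zero.1 h3).resolve_left (mul_ne_zero (zpow_ne_zero n ht0) (Complex.exp_ne_zero a))
    obtain ⟨d, hd⟩ : ∃ d : ℂ, d = b - a := ⟨_, rfl⟩
    rw [← hd] at h5 hab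
    have him : q * (Real.exp d.re * Real.sin d.im) = 0 := by
      have h6 := congrArg Complex.im h5
      simpa [Complex.exp_im] using h6
    have hre : p + q * (Real.exp d.re * Real.cos d.im) = 0 := by
      have h6 := congrArg Complex.re h5
      simpa [Complex.exp_re] using h6
    have hq0 : q ≠ 0 := by
      intro h7
      rw [h7, zero_mul, add_zero] at hre
      rw [hre, h7, add_zero] at hpq
      exact zero_ne_one hpq
    have hqp : 0 < q := lt_of_le_of_ne hq (Ne.symm hq0)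
    have hexp := Real.exp_pos d.re
    have hsin : Real.sin d.im = 0 := by
      rcases mul_eq_zero.1 him with h7 | h7
      · exact absurd h7 hq0
      · rcases mul_eq_zero.1 h7 with h8 | h8
        · exact absurd h8 hexp.ne'
        · exact h8
    rw [abs_lt] at hab
    have h9 : d.im = 0 := by
      rw [Real.sin_eq_zero_iff_of_lt_of_lt hab.1 hab.2] at hsin
      exact hsin
    rw [h9, Real.cos_zero, mul_one] at hre
    have := mul_pos hqp hexp
    linarith

theorem rg_ix (h : Cv phi F u v) (hl : l ∉ Gam phi F u v) : Ix phi l n ↔ Wj phi F l n := by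
  refine ⟨fun hn => ?_, fun hn => wj_ix h hn⟩
  obtain ⟨n', hn'⟩ := exists_wj h hl
  rw [hn.unique (wj_ix h hn')]
  exact hn'

private theorem rr_ix (h : Cv phi F u v) (hw : ∀ l n, Wj phi F l n → 0 ≤ n) :
    ∀ l n, Ix phi l n → 0 ≤ n := by
  intro l n hl
  have h1 := Ix.nhds (memLp_cv h) hl
  obtain ⟨l', h2, h3⟩ := (gam_dense h).inter_nhds_nonempty h1
  obtain ⟨n', h4⟩ := exists_wj h h2
  have h3' : Ix phi l' n := h3
  rw [h3'.unique (wj_ix h h4)]
  exact hw l' n' h4

private theorem rr_closed (a b : ℂ) : IsClosed (segment ℝ a b) := by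
  have h1 : IsCompact (segment ℝ a b) := by
    rw [segment_eq_image']
    exact isCompact_Icc.image (by fun_prop)
  exact h1.isClosed

private theorem rr_seg {q : ℂ} (hq : ∀ t ∈ F, q ∉ segment ℝ (u t) (v t)) :
    ∀ᶠ q' in 𝓝 q, ∀ t ∈ F, q' ∉ segment ℝ (u t) (v t) := by
  rw [Filter.eventually_all_finset]
  intro t ht
  exact (rr_closed _ _).isOpen_compl.eventually_mem (hq t ht)

theorem rg_dk (h : RegC phi F u v) (hw : ∀ l n, Wj phi F l n → 0 ≤ n) : Dk phi (Gam phi F u v) := by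
  have hc := h.toPwC.cv
  have hb := memLp_cv hc
  have hnn := rr_ix hc hw
  have hoff : ∀ l ∉ Gam phi F u v, ∃ n : ℤ, Ix phi l n := by
    intro l hl
    obtain ⟨n, hn⟩ := exists_wj hc hl
    exact ⟨n, wj_ix hc hn⟩
  have hcl : IsClosed (Gam phi F u v) := (gam_compact hc).isClosed
  refine
    { hb := hb
      closed := hcl
      ne := gam_ne hc
      dense := gam_dense hc
      vol := gam_vol hc
      null := cv_null hc
      off := hoff
      nn := hnn
      grow := ?_
      rem := ?_ }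
  · obtain ⟨C, N, hC, hg⟩ := growK hc
    refine ⟨C, N, hC, fun l hl hl1 w => ?_⟩
    obtain ⟨n, hn⟩ := exists_wj hc hl
    exact hg l hl hl1 n (hw l n hn) hn w
  · have hcr : (⋃ t ∈ F, {q : ℂ | q ∈ segment ℝ (u t) (v t) ∧
        ((∃ z ∈ sphere (0 : ℂ) 1, z ∉ F ∧ phi z = q) ∨
          ∃ t' ∈ F, t' ≠ t ∧ q ∈ segment ℝ (u t') (v t'))}).Finite :=
      F.finite_toSet.biUnion fun t ht => h.cross t ht
    refine ((((F.finite_toSet.image u).union (F.finite_toSet.image v)).union
      ((rg_nn h).image phi)).union hcr).subset ?_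
    intro q hq
    by_contra hcon
    rw [mem_union, mem_union, mem_union, not_or, not_or, not_or] at hcon
    obtain ⟨⟨⟨hqu, hqv⟩, hqP⟩, hqC⟩ := hcon
    apply hq
    by_cases hs : ∃ t ∈ F, q ∈ segment ℝ (u t) (v t)
    · obtain ⟨t, ht, hqs⟩ := hs
      refine rem_seg hc ht hqs (fun h1 => hqu ⟨t, ht, h1.symm⟩)
        (fun h1 => hqv ⟨t, ht, h1.symm⟩) ?_ ?_ hnn _
      · intro z hz hzF he
        exact hqC (mem_iUnion₂.2 ⟨t, ht, hqs, Or.inl ⟨z, hz, hzF, he⟩⟩)
      · intro t' ht' hne hq'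
        exact hqC (mem_iUnion₂.2 ⟨t, ht, hqs, Or.inr ⟨t', ht', hne, hq'⟩⟩)
    · push Not at hs
      refine rem_sc hb hcl (gam_dense hc) (gam_vol hc) hoff hnn ?_
      have h2 := ((rg_nn h).image phi).isClosed.isOpen_compl.eventually_mem
        (show q ∈ (phi '' {z : ℂ | z ∈ sphere (0 : ℂ) 1 ∧ z ∉ F ∧
          ∃ z' ∈ sphere (0 : ℂ) 1, z' ∉ F ∧ phi z' = phi z ∧ z' ≠ z})ᶜ from hqP)
      filter_upwards [rr_seg hs, h2] with q' g1 g2 g3
      rcases g3 with ⟨z, ⟨hz, hzF⟩, rfl⟩ | g3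
      · have hzn : ‖z‖ = 1 := mem_sphere_zero_iff_norm.1 hz
        have hzF' : z ∉ F := hzF
        obtain ⟨x, hx⟩ := exists_sc h.toPwC hzn hzF' g1 (fun z' hz' hz'F he => by
          by_contra hne
          exact g2 ⟨z, ⟨hz, hzF', z', mem_sphere_zero_iff_norm.2 hz', hz'F, he, hne⟩, rfl⟩)
        exact ⟨z, x, rfl, hx⟩
      · exfalso
        obtain ⟨t, ht, g4⟩ := mem_iUnion₂.1 g3
        exact g1 t ht g4

end Pool.Agent.TBirK
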