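import Pool.Agent.TBirK.Smk

/-!
# The sides of a corner

Port of `sides_corner` in TBirJ/Sdc.lean with `arcK` and `sides_two`; `hkey`: simple points near `t` (`simple`, `sep`) and `sides_reg` (both numbers occur off `K` near them), or `exists_sc`, `sc_in`, `sc_out`.
-/

set_option autoImplicit false

open MeasureTheory Complex Set Filter Topology Metric AddCircle
open scoped ComplexConjugate InnerProductSpace ENNReal

namespace Pool.Agent.TBirK

open Pool.Agent.TBir Pool.Agent.TBirG Pool.Agent.TBirC Pool.Agent.TBirJ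
open Pool.Agent.TBirP (E qT)

open Pool.Agent.TBirP (nb_E_mem nb_E_zero nb_E_cont nb_ne nb_arg nb_arg_eq)
open Pool.Agent.TBirJ.SdcAux (tE_ne E_inj far)

/-- near a point of `F` the values are near the one-sided limits -/
private theorem sec_nearF {phi : ℂ → ℂ} {F : Finset ℂ} {u v : ℂ → ℂ} {q : ℂ} (h : Cv phi F u v)
    {t' : ℂ} (ht' : t' ∈ F) (hu : q ≠ u t') (hv : q ≠ v t') :
    ∃ ρ : ℝ, 0 < ρ ∧ ∀ᶠ z in 𝓝 t', ‖z‖ = 1 → z ∉ F → ρ ≤ ‖phi z - q‖ := by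
  have hn : ‖t'‖ = 1 := h.circ t' ht'
  have h1 : 0 < ‖u t' - q‖ := norm_pos_iff.2 (sub_ne_zero.2 hu.symm)
  have h2 : 0 < ‖v t' - q‖ := norm_pos_iff.2 (sub_ne_zero.2 hv.symm)
  have e1 := ((h.lim_left t' ht').sub_const q).norm.eventually_const_lt (half_lt_self h1)
  have e2 := ((h.lim_right t' ht').sub_const q).norm.eventually_const_lt (half_lt_self h2)
  rw [eventually_nhdsWithin_iff] at e1 e2
  have e3 : Tendsto (fun z : ℂ => -arg (z / t')) (𝓝 t') (𝓝 0) := by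
    have := (nb_arg hn).neg
    rwa [neg_zero] at this
  refine ⟨min (‖u t' - q‖ / 2) (‖v t' - q‖ / 2), by positivity, ?_⟩
  filter_upwards [e3.eventually e1, (nb_arg hn).eventually e2] with z g1 g2 hz hzF
  have hz' := nb_arg_eq hn (mem_sphere_zero_iff_norm.2 hz)
  have h3 : arg (z / t') ≠ 0 := by
    intro h0
    rw [h0, nb_E_zero, mul_one] at hz'
    rw [← hz'] at hzF
    exact hzF ht'
  rcases lt_or_gt_of_ne h3 with h4 | h4
  · have h5 := g1 (mem_Ioi.2 (by linarith))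
    rw [neg_neg, hz'] at h5
    exact (min_le_left _ _).trans h5.le
  · have h5 := g2 (mem_Ioi.2 h4)
    rw [hz'] at h5
    exact (min_le_right _ _).trans h5.le

/-- near a point which is not in `F` -/
private theorem sec_near {phi : ℂ → ℂ} {F : Finset ℂ} {u v : ℂ → ℂ} {q : ℂ} (h : Cv phi F u v)
    {z0 : ℂ} (hz0 : ‖z0‖ = 1) (hF : z0 ∉ F) (hq : phi z0 ≠ q) :
    ∃ ρ : ℝ, 0 < ρ ∧ ∀ᶠ z in 𝓝 z0, ‖z‖ = 1 → z ∉ F → ρ ≤ ‖phi z - q‖ := by
  have h1 : 0 < ‖phi z0 - q‖ := norm_pos_iff.2 (sub_ne_zero.2 hq)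
  have h2 : Tendsto phi (𝓝[sphere 0 1 \ F] z0) (𝓝 (phi z0)) :=
    h.cont z0 ⟨mem_sphere_zero_iff_norm.2 hz0, fun h0 => hF (Finset.mem_coe.1 h0)⟩
  have h3 := (h2.sub_const q).norm.eventually_const_lt (half_lt_self h1)
  rw [eventually_nhdsWithin_iff] at h3
  refine ⟨_, half_pos h1, ?_⟩
  filter_upwards [h3] with z hz h4 h5
  exact (hz ⟨mem_sphere_zero_iff_norm.2 h4, fun h0 => h5 (Finset.mem_coe.1 h0)⟩).le

/-- points with an index are not values -/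
private theorem sec_ne {phi : ℂ → ℂ} {F : Finset ℂ} {u v : ℂ → ℂ} (h : Cv phi F u v) {l : ℂ} {n : ℤ}
    (hl : Ix phi l n) {z : ℂ} (hz : ‖z‖ = 1) (hzF : z ∉ F) : phi z ≠ l := by
  rintro rfl
  obtain ⟨x0, hx0⟩ := Pool.Agent.TBirC.PsiAux.exists_e (mem_sphere_zero_iff_norm.2 hz)
  refine IxAux.not_small hl x0 ?_
  have h2 : Tendsto e (𝓝 x0) (𝓝 z) := by
    rw [← hx0]
    exact Pool.Agent.TBirC.PsiAux.cont_e.tendsto x0
  have h3 : ∀ᶠ w in 𝓝 z, w ∉ (F : Set ℂ) :=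
    F.finite_toSet.isClosed.isOpen_compl.mem_nhds fun h0 => hzF (Finset.mem_coe.1 h0)
  have h4 : Tendsto e (𝓝 x0) (𝓝[sphere 0 1 \ F] z) := by
    rw [tendsto_nhdsWithin_iff]
    refine ⟨h2, ?_⟩
    filter_upwards [h2.eventually h3] with x hx
    exact ⟨mem_sphere_zero_iff_norm.2 (Pool.Agent.TBirC.PsiAux.norm_e' x), hx⟩
  have h5 : Tendsto phi (𝓝[sphere 0 1 \ F] z) (𝓝 (phi z)) :=
    h.cont z ⟨mem_sphere_zero_iff_norm.2 hz, fun h0 => hzF (Finset.mem_coe.1 h0)⟩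
  have h6 := (h5.comp h4).sub_const (phi z)
  rw [sub_self] at h6
  have h7 := (IxAux.tend_pow (-n) x0).mul h6
  rwa [mul_zero] at h7

theorem sides_corner {phi : ℂ → ℂ} {F : Finset ℂ} {u v : ℂ → ℂ} {t : ℂ} (h : CCross phi F u v)
    (ht : t ∈ F) (he : u t = v t) : ∃ m : ℤ, Sides phi (Gam phi F u v) (u t) m := by
  classical
  have hpi := Real.pi_gt_three
  have hP : Cv phi F u v := h.toPwC.cv
  have hn : ‖t‖ = 1 := hP.circ t ht
  have ht0 : t ≠ 0 := nb_ne hn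
  have hqseg : u t ∈ segment ℝ (u t) (v t) := left_mem_segment ℝ _ _
  obtain ⟨k1, d1, hd1, c1, z1, m1, a1⟩ := arcK hP hn (Or.inr rfl) (h.left t ht).1
  obtain ⟨k2, d2, hd2, c2, z2, m2, a2⟩ := arcK hP hn (Or.inl rfl) (h.right t ht).1
  rw [← he] at z2 m2
  have htend : Tendsto (fun x : ℝ => t * E x) (𝓝 0) (𝓝 t) := by
    have h1 : Continuous fun x : ℝ => t * E x := continuous_const.mul nb_E_cont
    have := h1.tendsto 0
    rwa [nb_E_zero, mul_one] at this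
  -- small arguments
  obtain ⟨r, hr, hr1, hrF'⟩ : ∃ r : ℝ, 0 < r ∧ r ≤ 1 ∧ ∀ x : ℝ, |x| ≤ r → x ≠ 0 →
      (t * E x ∉ F ∧ ∀ z' : ℂ, ‖z'‖ = 1 → z' ∉ F → phi z' = phi (t * E x) → z' = t * E x) ∧
      ∀ᶠ z in 𝓝 (t * E x), ‖z‖ = 1 → z ∉ F →
        ∀ z' : ℂ, ‖z'‖ = 1 → z' ∉ F → phi z' = phi z → z' = z := by
    have g1 : ∀ᶠ z in 𝓝 t, z ∉ (F : Set ℂ) \ {t} := by
      have : ((F : Set ℂ) \ {t})ᶜ ∈ 𝓝 t :=
        (F.finite_toSet.subset sdiff_subset).isClosed.isOpen_compl.mem_nhds fun h3 => h3.2 rfl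
      exact this
    have g2 := htend.eventually (g1.and (h.simple t ht).eventually_nhds)
    rw [Metric.eventually_nhds_iff] at g2
    obtain ⟨ε, hε, g3⟩ := g2
    refine ⟨min (ε / 2) 1, by positivity, min_le_right _ _, fun x hx hx0 => ?_⟩
    have hx1 : |x| ≤ ε / 2 := hx.trans (min_le_left _ _)
    have hx2 : |x| ≤ 1 := hx.trans (min_le_right _ _)
    obtain ⟨g4, g5⟩ := g3 (y := x) (by rw [Real.dist_eq, sub_zero]; linarith)
    have g6 : t * E x ≠ t := tE_ne hn hx0 (by linarith)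
    have g7 : t * E x ∉ F := fun h0 => g4 ⟨Finset.mem_coe.2 h0, g6⟩
    exact ⟨⟨g7, g5.self_of_nhds (mem_sphere_zero_iff_norm.1 (nb_E_mem hn x)) g7⟩, g5⟩
  have hrF : ∀ x : ℝ, |x| ≤ r → x ≠ 0 → t * E x ∉ F ∧
      ∀ z' : ℂ, ‖z'‖ = 1 → z' ∉ F → phi z' = phi (t * E x) → z' = t * E x :=
    fun x hx hx0 => (hrF' x hx hx0).1
  obtain ⟨d, hd, hdd1, hdd2, hdr⟩ : ∃ d : ℝ, 0 < d ∧ d ≤ d1 ∧ d ≤ d2 ∧ d ≤ r := by
    refine ⟨min d1 (min d2 r), by positivity, min_le_left _ _, ?_, ?_⟩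
    · exact (min_le_right _ _).trans (min_le_left _ _)
    · exact (min_le_right _ _).trans (min_le_right _ _)
  have i1 : Icc 0 d ⊆ Icc 0 d1 := Icc_subset_Icc_right hdd1
  have i2 : Icc 0 d ⊆ Icc 0 d2 := Icc_subset_Icc_right hdd2
  have a1' : ∀ x ∈ Ioc 0 d, k1 x = phi (t * E (-x)) := by
    intro x hx
    rw [a1 x ⟨hx.1, hx.2.trans hdd1⟩, neg_one_mul]
  have a2' : ∀ x ∈ Ioc 0 d, k2 x = phi (t * E x) := by
    intro x hx
    rw [a2 x ⟨hx.1, hx.2.trans hdd2⟩, one_mul]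
  have hmem : ∀ x : ℝ, |x| ≤ r → x ≠ 0 → phi (t * E x) ∈ Gam phi F u v := fun x hx hx0 =>
    Or.inl ⟨_, ⟨nb_E_mem hn x, (hrF x hx hx0).1⟩, rfl⟩
  have hqK : u t ∈ Gam phi F u v := Or.inr (mem_biUnion (Finset.mem_coe.2 ht) hqseg)
  have hdis : ∀ x ∈ Icc 0 d, ∀ y ∈ Icc 0 d, k1 x = k2 y → x = 0 ∧ y = 0 := by
    intro x hx y hy hxy
    have h01 : (0 : ℝ) ∈ Icc 0 d1 := ⟨le_rfl, hd1.le⟩
    have h02 : (0 : ℝ) ∈ Icc 0 d2 := ⟨le_rfl, hd2.le⟩
    rcases hx.1.eq_or_lt with hx0 | hx0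
    · refine ⟨hx0.symm, ?_⟩
      apply m2.injOn (i2 hy) h02
      simp only
      rw [← hxy, ← hx0, z1, z2]
    · rcases hy.1.eq_or_lt with hy0 | hy0
      · exfalso
        have h1 : x = 0 := by
          apply m1.injOn (i1 hx) h01
          simp only
          rw [hxy, ← hy0, z1, z2]
        exact hx0.ne' h1
      · exfalso
        rw [a1' x ⟨hx0, hx.2⟩, a2' y ⟨hy0, hy.2⟩] at hxy
        have h1 := hrF (-x) (by rw [abs_neg, abs_of_pos hx0]; exact hx.2.trans hdr) (by linarith)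
        have h2 := hrF y (by rw [abs_of_pos hy0]; exact hy.2.trans hdr) hy0.ne'
        have h3 := h1.2 _ (mem_sphere_zero_iff_norm.1 (nb_E_mem hn y)) h2.1 hxy.symm
        exact E_inj hn (by linarith) (by linarith [hx.2, hy.2]) h3
  -- the curve near `q`
  have hK : ∀ᶠ l in 𝓝 (u t), l ∈ Gam phi F u v ↔ l ∈ k1 '' Icc 0 d ∪ k2 '' Icc 0 d := by
    have g1 : ∀ᶠ l in 𝓝 (u t), ∀ z ∈ sphere (0 : ℂ) 1, ‖z‖ = 1 → z ∉ F → phi z = l →
        l ∈ k1 '' Icc 0 d ∪ k2 '' Icc 0 d := by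
      refine (isCompact_sphere (0 : ℂ) 1).eventually_forall_of_forall_eventually
        (P := fun l z => ‖z‖ = 1 → z ∉ F → phi z = l → l ∈ k1 '' Icc 0 d ∪ k2 '' Icc 0 d)
        fun z0 hz0 => ?_
      have hz0' : ‖z0‖ = 1 := mem_sphere_zero_iff_norm.1 hz0
      by_cases hF : z0 ∈ F
      · by_cases htz : z0 = t
        · subst htz
          have g2 : ∀ᶠ z in 𝓝 z0, |arg (z / z0)| < d := by
            have := (nb_arg hn).abs
            rw [abs_zero] at this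
            exact this.eventually_lt_const hd
          rw [nhds_prod_eq]
          filter_upwards [g2.prod_inr (𝓝 (u z0))] with p hp h1 h2 h3
          have h4 := nb_arg_eq hn (mem_sphere_zero_iff_norm.2 h1)
          have h5 : arg (p.2 / z0) ≠ 0 := by
            intro h0
            rw [h0, nb_E_zero, mul_one] at h4
            rw [← h4] at h2
            exact h2 hF
          rcases lt_or_gt_of_ne h5 with h6 | h6
          · rw [abs_of_neg h6] at hp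
            refine Or.inl ⟨-arg (p.2 / z0), ⟨by linarith, hp.le⟩, ?_⟩
            rw [a1' _ ⟨by linarith, hp.le⟩, neg_neg, h4, h3]
          · rw [abs_of_pos h6] at hp
            refine Or.inr ⟨arg (p.2 / z0), ⟨h6.le, hp.le⟩, ?_⟩
            rw [a2' _ ⟨h6, hp.le⟩, h4, h3]
        · have h1 := h.seg t ht z0 hF (Ne.symm htz)
          have h2 : u t ≠ u z0 := fun h0 =>
            Set.disjoint_left.1 h1 hqseg (by rw [h0]; exact left_mem_segment ℝ _ _)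
          have h3 : u t ≠ v z0 := fun h0 =>
            Set.disjoint_left.1 h1 hqseg (by rw [h0]; exact right_mem_segment ℝ _ _)
          obtain ⟨ρ, hρ, h4⟩ := sec_nearF hP hF h2 h3
          exact far hρ h4
      · have h1 : phi z0 ≠ u t := fun h0 => h.sep t ht z0 hz0 hF (by rw [h0]; exact hqseg)
        obtain ⟨ρ, hρ, h4⟩ := sec_near hP hz0' hF h1
        exact far hρ h4
    have g2 : ∀ᶠ l in 𝓝 (u t), ∀ t' ∈ F, t' ≠ t → l ∉ segment ℝ (u t') (v t') := by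
      rw [Finset.eventually_all]
      intro t' ht'
      by_cases hne : t' = t
      · exact Filter.Eventually.of_forall fun _ h0 => absurd hne h0
      · have h1 := h.seg t ht t' ht' (Ne.symm hne)
        have h2 : IsClosed (segment ℝ (u t') (v t')) := by
          rw [← convexHull_pair]
          exact ((Set.toFinite {u t', v t'}).isCompact_convexHull ℝ).isClosed
        filter_upwards [h2.isOpen_compl.mem_nhds (Set.disjoint_left.1 h1 hqseg)] with l hl _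
        exact hl
    filter_upwards [g1, g2] with l hl1 hl2
    constructor
    · rintro (⟨z, ⟨hz, hzF⟩, hzl⟩ | hl)
      · exact hl1 z hz (mem_sphere_zero_iff_norm.1 hz) (fun h0 => hzF (Finset.mem_coe.2 h0)) hzl
      · obtain ⟨t', ht', hl'⟩ := mem_iUnion₂.1 hl
        by_cases hne : t' = t
        · subst hne
          rw [← he, segment_same, mem_singleton_iff] at hl'
          rw [hl']
          exact Or.inl ⟨0, ⟨le_rfl, hd.le⟩, z1⟩
        · exact absurd hl' (hl2 t' ht' hne)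
    · rintro (⟨x, hx, rfl⟩ | ⟨x, hx, rfl⟩)
      · rcases hx.1.eq_or_lt with hx0 | hx0
        · rw [← hx0, z1]
          exact hqK
        · rw [a1' x ⟨hx0, hx.2⟩]
          exact hmem _ (by rw [abs_neg, abs_of_pos hx0]; exact hx.2.trans hdr) (by linarith)
      · rcases hx.1.eq_or_lt with hx0 | hx0
        · rw [← hx0, z2]
          exact hqK
        · rw [a2' x ⟨hx0, hx.2⟩]
          exact hmem _ (by rw [abs_of_pos hx0]; exact hx.2.trans hdr) hx0.ne'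
  -- the indices
  have hb := memLp_cv hP
  have hix : ∀ l ∉ Gam phi F u v, ∃ n : ℤ, Ix phi l n := fun l hl => by
    obtain ⟨n, hn'⟩ := exists_wj hP hl
    exact ⟨n, wj_ix hP hn'⟩
  have hkey : ∀ N ∈ 𝓝 (u t), ∃ (m : ℤ) (l1 l2 : ℂ), l1 ∈ N ∧ l2 ∈ N ∧ l1 ∉ Gam phi F u v ∧
      l2 ∉ Gam phi F u v ∧ Ix phi l1 (m + 1) ∧ Ix phi l2 m := by
    intro N hN
    have h1 : Tendsto k2 (𝓝[>] 0) (𝓝 (u t)) := by
      have h2 := (c2.mono i2) 0 ⟨le_rfl, hd.le⟩
      have h3 : Tendsto k2 (𝓝[Icc 0 d] 0) (𝓝 (k2 0)) := h2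
      rw [z2] at h3
      refine h3.mono_left ?_
      rw [← nhdsWithin_Ioc_eq_nhdsGT hd]
      exact nhdsWithin_mono _ Ioc_subset_Icc_self
    obtain ⟨N', hN', hN'o, hqN'⟩ := _root_.mem_nhds_iff.1 hN
    have h4 : ∀ᶠ x : ℝ in 𝓝[>] 0, k2 x ∈ N' := h1.eventually (hN'o.mem_nhds hqN')
    have h5 : ∀ᶠ x : ℝ in 𝓝[>] 0, x ∈ Ioc 0 d := by
      exact Ioc_mem_nhdsGT hd
    obtain ⟨x, hx1, hx2⟩ := (h4.and h5).exists
    have hxr : |x| ≤ r := by rw [abs_of_pos hx2.1]; exact hx2.2.trans hdr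
    obtain ⟨w, hw⟩ : ∃ w, w = t * E x := ⟨_, rfl⟩
    have hwm : w ∈ sphere (0 : ℂ) 1 := by rw [hw]; exact nb_E_mem hn x
    obtain ⟨hwF, hwu⟩ := hrF x hxr hx2.1.ne'
    rw [← hw] at hwF hwu
    rw [a2' x hx2, ← hw] at hx1
    have hws : ∀ t' ∈ F, phi w ∉ segment ℝ (u t') (v t') := fun t' ht' => h.sep t' ht' w hwm hwF
    have hwn := (hrF' x hxr hx2.1.ne').2
    rw [← hw] at hwn
    obtain ⟨m, A', B', -, -, hA', hB', hcA, hcB, -⟩ :=
      sides_reg h.toPwC (mem_sphere_zero_iff_norm.1 hwm) hwF hws hwu hwn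
    have h6 : ∀ᶠ l in 𝓝 (phi w), ∀ t' ∈ F, l ∉ segment ℝ (u t') (v t') := by
      rw [Finset.eventually_all]
      intro t' ht'
      have h2 : IsClosed (segment ℝ (u t') (v t')) := by
        rw [← convexHull_pair]
        exact ((Set.toFinite {u t', v t'}).isCompact_convexHull ℝ).isClosed
      exact h2.isOpen_compl.mem_nhds (hws t' ht')
    have h7 : N' ∩ {l | ∀ t' ∈ F, l ∉ segment ℝ (u t') (v t')} ∈ 𝓝 (phi w) :=
      inter_mem (hN'o.mem_nhds hx1) h6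
    have h8 : ∀ l n, Ix phi l n → (∀ t' ∈ F, l ∉ segment ℝ (u t') (v t')) →
        l ∉ Gam phi F u v := by
      rintro l n hl1 hl2 (⟨z, ⟨hz, hzF⟩, hzl⟩ | hl)
      · exact sec_ne hP hl1 (mem_sphere_zero_iff_norm.1 hz)
          (fun h0 => hzF (Finset.mem_coe.2 h0)) hzl
      · obtain ⟨t', ht', hl'⟩ := mem_iUnion₂.1 hl
        exact hl2 t' ht' hl'
    obtain ⟨l1, ⟨hl1, hl1s⟩, hl1'⟩ := mem_closure_iff_nhds.1 hcA _ h7
    obtain ⟨l2, ⟨hl2, hl2s⟩, hl2'⟩ := mem_closure_iff_nhds.1 hcB _ h7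
    exact ⟨m, l1, l2, hN' hl1, hN' hl2, h8 l1 _ (hA' l1 hl1') hl1s, h8 l2 _ (hB' l2 hl2') hl2s,
      hA' l1 hl1', hB' l2 hl2'⟩
  exact sides_two hb hix hd (c1.mono i1) (c2.mono i2) z1 z2 (m1.mono i1) (m2.mono i2) hdis hK hkey

end Pool.Agent.TBirK
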