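import Pool.Agent.TBirK.Sdl
import Pool.Agent.TBirK.Sec

/-!
# The sides of the points of the segments
-/

set_option autoImplicit false

open MeasureTheory Complex Set Filter Topology Metric AddCircle
open scoped ComplexConjugate InnerProductSpace ENNReal

namespace Pool.Agent.TBirK

open Pool.Agent.TBir Pool.Agent.TBirG Pool.Agent.TBirC Pool.Agent.TBirJ
open Pool.Agent.TBirP (E qT)

variable {phi : ℂ → ℂ} {F : Finset ℂ} {u v : ℂ → ℂ} {q t : ℂ}

theorem cc_sides (h : CCross phi F u v) (ht : t ∈ F) (hq : q ∈ segment ℝ (u t) (v t)) :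
    ∃ m : ℤ, Sides phi (Gam phi F u v) q m := by
  by_cases he : u t = v t
  · rw [he, segment_same] at hq
    rw [mem_singleton_iff.1 hq, ← he]
    exact sides_corner h ht he
  · by_cases h1 : q = u t
    · rw [h1]
      exact sides_left h ht he
    · by_cases h2 : q = v t
      · rw [h2]
        exact sides_right h ht he
      · exact sides_open h ht hq h1 h2

end Pool.Agent.TBirK
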