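import Pool.Agent.TBirK.Smk
import Pool.Agent.TBirK.Sgl
import Pool.Agent.TBirJ.Sda

/-!
# The sides of the points of the segments

Port of TBirJ/Sda.lean with `arcK`, `seg_local`.
-/

set_option autoImplicit false

open MeasureTheory Complex Set Filter Topology Metric AddCircle
open scoped ComplexConjugate InnerProductSpace ENNReal

namespace Pool.Agent.TBirK

open Pool.Agent.TBir Pool.Agent.TBirG Pool.Agent.TBirC Pool.Agent.TBirJ
open Pool.Agent.TBirP (E qT)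

variable {phi : ℂ → ℂ} {F : Finset ℂ} {u v : ℂ → ℂ} {q t : ℂ}

namespace SdlAux

open SdcAux SdaAux
open Pool.Agent.TBirP (nb_E_mem nb_E_zero nb_E_cont nb_ne nb_arg nb_arg_eq)

/-- near a point of `F` the values are near the one-sided limits -/
theorem near_FK (h : Cv phi F u v) {t' : ℂ} (ht' : t' ∈ F) (hu : q ≠ u t') (hv : q ≠ v t') :
    ∃ ρ : ℝ, 0 < ρ ∧ ∀ᶠ z in 𝓝 t', ‖z‖ = 1 → z ∉ F → ρ ≤ ‖phi z - q‖ := by
  have hn : ‖t'‖ = 1 := h.circ t' ht'
  have h1 : 0 < ‖u t' - q‖ := norm_pos_iff.2 (sub_ne_zero.2 hu.symm)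
  have h2 : 0 < ‖v t' - q‖ := norm_pos_iff.2 (sub_ne_zero.2 hv.symm)
  have e1 := ((h.lim_left t' ht').sub_const q).norm.eventually_const_lt (half_lt_self h1)
  have e2 := ((h.lim_right t' ht').sub_const q).norm.eventually_const_lt (half_lt_self h2)
  rw [eventually_nhdsWithin_iff] at e1 e2
  have e3 : Tendsto (fun z : ℂ => -arg (z / t')) (𝓝 t') (𝓝 0) := by
    have := (nb_arg hn).neg
    rwa [neg_zero] at this
  refine ⟨min (‖u t' - q‖ / 2) (‖v t' - q‖ / 2), by positivity, ?_⟩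
  filter_upwards [e3.eventually e1, (nb_arg hn).eventually e2] with z g1 g2 hz hzF
  have hz' := nb_arg_eq hn (mem_sphere_zero_iff_norm.2 hz)
  have h3 : arg (z / t') ≠ 0 := by
    intro h0
    rw [h0, nb_E_zero, mul_one] at hz'
    rw [← hz'] at hzF
    exact hzF ht'
  rcases lt_or_gt_of_ne h3 with h4 | h4
  · have h5 := g1 (mem_Ioi.2 (by linarith))
    rw [neg_neg, hz'] at h5
    exact (min_le_left _ _).trans h5.le
  · have h5 := g2 (mem_Ioi.2 h4)
    rw [hz'] at h5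
    exact (min_le_right _ _).trans h5.le

theorem tend_K (h : Cv phi F u v) {z0 : ℂ} (hz0 : ‖z0‖ = 1) (hF : z0 ∉ F) :
    Tendsto phi (𝓝[sphere 0 1] z0) (𝓝 (phi z0)) := by
  have h1 : Tendsto phi (𝓝[sphere 0 1 \ (F : Set ℂ)] z0) (𝓝 (phi z0)) :=
    h.cont z0 ⟨mem_sphere_zero_iff_norm.2 hz0, fun h0 => hF (Finset.mem_coe.1 h0)⟩
  have h2 : (F : Set ℂ)ᶜ ∈ 𝓝 z0 :=
    F.finite_toSet.isClosed.isOpen_compl.mem_nhds fun h0 => hF (Finset.mem_coe.1 h0)
  have h3 : 𝓝[sphere 0 1 \ (F : Set ℂ)] z0 = 𝓝[sphere 0 1] z0 := by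
    rw [Set.sdiff_eq]
    exact nhdsWithin_inter_of_mem' (nhdsWithin_le_nhds h2)
  rwa [h3] at h1

/-- near a point which is not in `F` -/
theorem near_regK (h : Cv phi F u v) {z0 : ℂ} (hz0 : ‖z0‖ = 1) (hF : z0 ∉ F) (hq : phi z0 ≠ q) :
    ∃ ρ : ℝ, 0 < ρ ∧ ∀ᶠ z in 𝓝 z0, ‖z‖ = 1 → z ∉ F → ρ ≤ ‖phi z - q‖ := by
  have h1 : 0 < ‖phi z0 - q‖ := norm_pos_iff.2 (sub_ne_zero.2 hq)
  have h3 := ((tend_K h hz0 hF).sub_const q).norm.eventually_const_lt (half_lt_self h1)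
  rw [eventually_nhdsWithin_iff] at h3
  refine ⟨_, half_pos h1, ?_⟩
  filter_upwards [h3] with z hz hz1 _
  exact (hz (mem_sphere_zero_iff_norm.2 hz1)).le

/-- a point with an index is not a value -/
theorem ne_valK (h : Cv phi F u v) {l z : ℂ} {n : ℤ} (hl : Ix phi l n) (hz : ‖z‖ = 1)
    (hzF : z ∉ F) : phi z ≠ l := by
  rintro rfl
  obtain ⟨x0, hx0⟩ := TBirC.PsiAux.exists_e (mem_sphere_zero_iff_norm.2 hz)
  refine IxAux.not_small hl x0 ?_
  have h1 : Tendsto e (𝓝 x0) (𝓝[sphere 0 1] z) := by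
    rw [tendsto_nhdsWithin_iff, ← hx0]
    exact ⟨TBirC.PsiAux.cont_e.tendsto x0,
      Filter.Eventually.of_forall fun y => mem_sphere_zero_iff_norm.2 (norm_e y)⟩
  have h2 := ((tend_K h hz hzF).comp h1).sub_const (phi z)
  rw [sub_self] at h2
  have h3 := (IxAux.tend_pow (-n) x0).mul h2
  rw [mul_zero] at h3
  exact h3

theorem seg_locK (h : CCross phi F u v) (ht : t ∈ F) (hq : q ∈ segment ℝ (u t) (v t))
    (h1 : q ≠ u t) (h2 : q ≠ v t) : ∃ (m : ℤ) (s : ℝ), 0 < s ∧ ∀ l ∈ ball q s,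
      (0 < ((l - u t) * conj (v t - u t)).im → Ix phi l (m + 1)) ∧
      (((l - u t) * conj (v t - u t)).im < 0 → Ix phi l m) := by
  refine seg_local h.toPwC.cv ht hq h1 h2 ?_ ?_
  · rintro z hz hzF rfl
    exact h.sep t ht z hz hzF hq
  · intro t' ht' hne h0
    exact Set.disjoint_left.1 (h.seg t ht t' ht' hne.symm) hq h0

/-- points off the curve on both sides of a point of the open segment -/
theorem seg_keyK (h : CCross phi F u v) (ht : t ∈ F) (hne : u t ≠ v t) {τ : ℝ} (h0 : 0 < τ)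
    (h1 : τ < 1) {N : Set ℂ} (hN : N ∈ 𝓝 (u t + τ * (v t - u t))) :
    ∃ (m : ℤ) (l1 l2 : ℂ), l1 ∈ N ∧ l2 ∈ N ∧ l1 ∉ Gam phi F u v ∧
      l2 ∉ Gam phi F u v ∧ Ix phi l1 (m + 1) ∧ Ix phi l2 m := by
  have hP := h.toPwC.cv
  have hseg : u t + τ * (v t - u t) ∈ segment ℝ (u t) (v t) := mem_seg.2 ⟨τ, h0.le, h1.le, rfl⟩
  obtain ⟨e1, e2⟩ := ne_seg hne h0 h1
  obtain ⟨m, s, hs, hl⟩ := seg_locK h ht hseg e1 e2
  have g2 : ∀ᶠ l in 𝓝 (u t + τ * (v t - u t)), ∀ t' ∈ F, t' ≠ t →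
      l ∉ segment ℝ (u t') (v t') := by
    rw [Finset.eventually_all]
    intro t' ht'
    by_cases hne' : t' = t
    · exact Filter.Eventually.of_forall fun _ h0 => absurd hne' h0
    · have h3 := h.seg t ht t' ht' (Ne.symm hne')
      filter_upwards [(closed_seg (u t') (v t')).isOpen_compl.mem_nhds
        (Set.disjoint_left.1 h3 hseg)] with l hl _
      exact hl
  obtain ⟨l1, hl1, l2, hl2, f1, f2⟩ := near_line (u t) (v t - u t) (sub_ne_zero.2 hne.symm) τ
    (inter_mem hN (inter_mem (Metric.ball_mem_nhds _ hs) g2))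
  have i1 := (hl l1 hl1.2.1).1 f1
  have i2 := (hl l2 hl2.2.1).2 f2
  have hK : ∀ l n, Ix phi l n → ((l - u t) * conj (v t - u t)).im ≠ 0 →
      (∀ t' ∈ F, t' ≠ t → l ∉ segment ℝ (u t') (v t')) → l ∉ Gam phi F u v := by
    rintro l n hl1 hl0 hl2 (⟨z, ⟨hz, hzF⟩, hzl⟩ | hl)
    · exact ne_valK hP hl1 (mem_sphere_zero_iff_norm.1 hz)
        (fun h0 => hzF (Finset.mem_coe.2 h0)) hzl
    · obtain ⟨t', ht', hl'⟩ := mem_iUnion₂.1 hl
      by_cases hne' : t' = t
      · subst hne'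
        obtain ⟨σ, -, -, rfl⟩ := mem_seg.1 hl'
        rw [lf_eq, Complex.ofReal_im, zero_mul] at hl0
        exact hl0 rfl
      · exact hl2 t' ht' hne' hl'
  exact ⟨m, l1, l2, hl1.1, hl2.1, hK l1 _ i1 f1.ne' hl1.2.2, hK l2 _ i2 f2.ne hl2.2.2, i1, i2⟩

end SdlAux

open SdcAux SdaAux SdlAux
open Pool.Agent.TBirP (nb_E_mem nb_E_zero nb_E_cont nb_ne nb_arg nb_arg_eq)

theorem sides_open (h : CCross phi F u v) (ht : t ∈ F) (hq : q ∈ segment ℝ (u t) (v t))
    (h1 : q ≠ u t) (h2 : q ≠ v t) : ∃ m : ℤ, Sides phi (Gam phi F u v) q m := by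
  obtain ⟨m, s, hs, hl⟩ := seg_locK h ht hq h1 h2
  obtain ⟨τ, h3, h4, rfl⟩ := mem_seg.1 hq
  have hne : u t ≠ v t := by
    intro h0
    apply h1
    rw [h0, sub_self, mul_zero, add_zero]
  have hD : v t - u t ≠ 0 := sub_ne_zero.2 hne.symm
  have hns : 0 < normSq (v t - u t) := Complex.normSq_pos.2 hD
  have h3' : 0 < τ := by
    rcases h3.eq_or_lt with h0 | h0
    · exfalso
      apply h1
      rw [← h0, ofReal_zero, zero_mul, add_zero]
    · exact h0
  have h4' : τ < 1 := by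
    rcases h4.eq_or_lt with h0 | h0
    · exfalso
      apply h2
      rw [h0, ofReal_one, one_mul]
      ring
    · exact h0
  refine ⟨m, ball (u t + τ * (v t - u t)) s ∩ {l | 0 < ((l - u t) * conj (v t - u t)).im},
    ball (u t + τ * (v t - u t)) s ∩ {l | ((l - u t) * conj (v t - u t)).im < 0},
    ((convex_ball _ _).inter (conv_pos _ _)).isPreconnected,
    ((convex_ball _ _).inter (conv_neg _ _)).isPreconnected,
    fun l hl' => (hl l hl'.1).1 hl'.2, fun l hl' => (hl l hl'.1).2 hl'.2, ?_, ?_, ?_⟩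
  · rw [mem_closure_iff_nhds]
    intro N hN
    obtain ⟨l1, hl1, l2, hl2, f1, f2⟩ := near_line (u t) (v t - u t) hD τ
      (inter_mem hN (Metric.ball_mem_nhds _ hs))
    exact ⟨l1, hl1.1, hl1.2, f1⟩
  · rw [mem_closure_iff_nhds]
    intro N hN
    obtain ⟨l1, hl1, l2, hl2, f1, f2⟩ := near_line (u t) (v t - u t) hD τ
      (inter_mem hN (Metric.ball_mem_nhds _ hs))
    exact ⟨l2, hl2.1, hl2.2, f2⟩
  · have g1 : Tendsto (fun l : ℂ => ((l - u t) / (v t - u t)).re)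
        (𝓝 (u t + τ * (v t - u t))) (𝓝 τ) := by
      have g2 : Continuous fun l : ℂ => ((l - u t) / (v t - u t)).re := by fun_prop
      have g3 := g2.tendsto (u t + τ * (v t - u t))
      rwa [add_sub_cancel_left, mul_div_cancel_right₀ _ hD, ofReal_re] at g3
    filter_upwards [g1.eventually_const_lt h3', g1.eventually_lt_const h4',
      Metric.ball_mem_nhds _ hs] with l a1 a2 a3 hlK
    rcases lt_trichotomy ((l - u t) * conj (v t - u t)).im 0 with a4 | a4 | a4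
    · exact Or.inr ⟨a3, a4⟩
    · exfalso
      apply hlK
      refine Or.inr (mem_biUnion (Finset.mem_coe.2 ht) ?_)
      have a5 : l = u t + ((l - u t) / (v t - u t)) * (v t - u t) := by
        rw [div_mul_cancel₀ _ hD]
        ring
      have a6 := a4
      rw [a5, lf_eq] at a6
      have a7 : ((l - u t) / (v t - u t)).im = 0 := by
        rcases mul_eq_zero.1 a6 with a8 | a8
        · exact a8
        · exact absurd a8 hns.ne'
      have a8 : ((((l - u t) / (v t - u t)).re : ℝ) : ℂ) = (l - u t) / (v t - u t) := by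
        apply Complex.ext
        · rw [ofReal_re]
        · rw [ofReal_im, a7]
      refine mem_seg.2 ⟨_, a1.le, a2.le, ?_⟩
      rw [a8]
      exact a5
    · exact Or.inl ⟨a3, a4⟩

/-- one end of a segment; `s = 1` or `s = -1` is the side -/
theorem SdlAux.side_endK (h : CCross phi F u v) (ht : t ∈ F) {q w : ℂ} {s : ℝ}
    (hs' : s = 1 ∨ s = -1)
    (hq : Tendsto (fun x : ℝ => phi (t * E (s * x))) (𝓝[>] 0) (𝓝 q)) (hqw : q ≠ w)
    (hcase : (q = u t ∧ w = v t) ∨ (q = v t ∧ w = u t))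
    (hoth : Tendsto (fun x : ℝ => phi (t * E (-s * x))) (𝓝[>] 0) (𝓝 w)) :
    ∃ m : ℤ, Sides phi (Gam phi F u v) q m := by
  classical
  have hpi := Real.pi_gt_three
  have hP : Cv phi F u v := h.toPwC.cv
  have hs : s * s = 1 := by
    rcases hs' with rfl | rfl
    · norm_num
    · norm_num
  have hn : ‖t‖ = 1 := hP.circ t ht
  have ht0 : t ≠ 0 := nb_ne hn
  have hs0 : s ≠ 0 := by
    rintro rfl
    rw [mul_zero] at hs
    exact zero_ne_one hs
  have hsabs : |s| = 1 := by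
    have h1 : |s| * |s| = 1 := by rw [← abs_mul, hs, abs_one]
    nlinarith [abs_nonneg s]
  have hsegeq : segment ℝ (u t) (v t) = segment ℝ q w := by
    rcases hcase with ⟨rfl, rfl⟩ | ⟨rfl, rfl⟩
    · rfl
    · exact segment_symm ℝ _ _
  have huv : u t ≠ v t := by
    rcases hcase with ⟨rfl, rfl⟩ | ⟨rfl, rfl⟩
    · exact hqw
    · exact hqw.symm
  have hqseg : q ∈ segment ℝ (u t) (v t) := by rw [hsegeq]; exact left_mem_segment ℝ _ _
  have hD : w - q ≠ 0 := sub_ne_zero.2 hqw.symm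
  have hDn : 0 < ‖w - q‖ := norm_pos_iff.2 hD
  obtain ⟨k1, d1, hd1, c1, z1, m1, a1⟩ := arcK hP hn hs' hq
  obtain ⟨k2, hk2⟩ : ∃ k2 : ℝ → ℂ, ∀ y, k2 y = q + y * (w - q) := ⟨_, fun _ => rfl⟩
  have c2 : Continuous k2 := by
    have h1 : Continuous fun y : ℝ => q + (y : ℂ) * (w - q) := by fun_prop
    exact h1.congr fun y => (hk2 y).symm
  have z2 : k2 0 = q := by rw [hk2, ofReal_zero, zero_mul, add_zero]
  have n2 : ∀ y : ℝ, 0 ≤ y → ‖k2 y - q‖ = y * ‖w - q‖ := by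
    intro y hy
    rw [hk2, add_sub_cancel_left, norm_mul, Complex.norm_real, Real.norm_of_nonneg hy]
  have m2 : StrictMonoOn (fun x => ‖k2 x - q‖) (Icc 0 1) := by
    intro x hx y hy hxy
    simp only
    rw [n2 x hx.1, n2 y hy.1]
    exact mul_lt_mul_of_pos_right hxy hDn
  have htend : Tendsto (fun x : ℝ => t * E x) (𝓝 0) (𝓝 t) := by
    have h1 : Continuous fun x : ℝ => t * E x := continuous_const.mul nb_E_cont
    have := h1.tendsto 0
    rwa [nb_E_zero, mul_one] at this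
  obtain ⟨r, hr, hr1, hrF⟩ : ∃ r : ℝ, 0 < r ∧ r ≤ 1 ∧ ∀ x : ℝ, |x| ≤ r → x ≠ 0 →
      t * E x ∉ F := by
    have g1 : ∀ᶠ z in 𝓝 t, z ∉ (F : Set ℂ) \ {t} := by
      have : ((F : Set ℂ) \ {t})ᶜ ∈ 𝓝 t :=
        (F.finite_toSet.subset sdiff_subset).isClosed.isOpen_compl.mem_nhds fun h3 => h3.2 rfl
      exact this
    have g2 := htend.eventually g1
    rw [Metric.eventually_nhds_iff] at g2
    obtain ⟨ε, hε, g3⟩ := g2
    refine ⟨min (ε / 2) 1, by positivity, min_le_right _ _, fun x hx hx0 h0 => ?_⟩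
    have hx1 : |x| ≤ ε / 2 := hx.trans (min_le_left _ _)
    have hx2 : |x| ≤ 1 := hx.trans (min_le_right _ _)
    exact g3 (y := x) (by rw [Real.dist_eq, sub_zero]; linarith)
      ⟨Finset.mem_coe.2 h0, tE_ne hn hx0 (by linarith)⟩
  obtain ⟨d, hd, hdd1, hdr⟩ : ∃ d : ℝ, 0 < d ∧ d ≤ d1 ∧ d ≤ r :=
    ⟨min d1 r, by positivity, min_le_left _ _, min_le_right _ _⟩
  have hdone : d ≤ 1 := hdr.trans hr1
  have i1 : Icc 0 d ⊆ Icc 0 d1 := Icc_subset_Icc_right hdd1
  have i2 : Icc 0 d ⊆ Icc 0 1 := Icc_subset_Icc_right hdone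
  have habs : ∀ x : ℝ, 0 < x → |s * x| = x := by
    intro x hx
    rw [abs_mul, hsabs, one_mul, abs_of_pos hx]
  have hsx : ∀ x : ℝ, 0 < x → s * x ≠ 0 := fun x hx => mul_ne_zero hs0 hx.ne'
  have a1' : ∀ x ∈ Ioc 0 d, k1 x = phi (t * E (s * x)) := fun x hx =>
    a1 x ⟨hx.1, hx.2.trans hdd1⟩
  have hF1 : ∀ x ∈ Ioc 0 d, t * E (s * x) ∉ F := fun x hx =>
    hrF _ (by rw [habs x hx.1]; exact hx.2.trans hdr) (hsx x hx.1)
  have hk2seg : ∀ y ∈ Icc 0 d, k2 y ∈ segment ℝ (u t) (v t) := by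
    intro y hy
    rw [hsegeq, hk2]
    exact mem_seg.2 ⟨y, hy.1, hy.2.trans hdone, rfl⟩
  have hsegK : segment ℝ (u t) (v t) ⊆ Gam phi F u v := fun l hl =>
    Or.inr (mem_biUnion (Finset.mem_coe.2 ht) hl)
  have hdis : ∀ x ∈ Icc 0 d, ∀ y ∈ Icc 0 d, k1 x = k2 y → x = 0 ∧ y = 0 := by
    intro x hx y hy hxy
    rcases hx.1.eq_or_lt with hx0 | hx0
    · refine ⟨hx0.symm, ?_⟩
      apply m2.injOn (i2 hy) ⟨le_rfl, zero_le_one⟩
      simp only
      rw [← hxy, ← hx0, z1, z2]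
    · exfalso
      have h1 := h.sep t ht _ (nb_E_mem hn (s * x)) (hF1 x ⟨hx0, hx.2⟩)
      rw [← a1' x ⟨hx0, hx.2⟩, hxy] at h1
      exact h1 (hk2seg y hy)
  -- the curve near `q`
  have hK : ∀ᶠ l in 𝓝 q, l ∈ Gam phi F u v ↔ l ∈ k1 '' Icc 0 d ∪ k2 '' Icc 0 d := by
    have g1 : ∀ᶠ l in 𝓝 q, ∀ z ∈ sphere (0 : ℂ) 1, ‖z‖ = 1 → z ∉ F → phi z = l →
        l ∈ k1 '' Icc 0 d ∪ k2 '' Icc 0 d := by
      refine (isCompact_sphere (0 : ℂ) 1).eventually_forall_of_forall_eventually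
        (P := fun l z => ‖z‖ = 1 → z ∉ F → phi z = l → l ∈ k1 '' Icc 0 d ∪ k2 '' Icc 0 d)
        fun z0 hz0 => ?_
      have hz0' : ‖z0‖ = 1 := mem_sphere_zero_iff_norm.1 hz0
      by_cases hF : z0 ∈ F
      · by_cases htz : z0 = t
        · rw [htz]
          have g2 : ∀ᶠ z in 𝓝 t, |arg (z / t)| < d := by
            have := (nb_arg hn).abs
            rw [abs_zero] at this
            exact this.eventually_lt_const hd
          have hwq : 0 < ‖w - q‖ / 2 := half_pos hDn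
          have g3 := (hoth.sub_const q).norm.eventually_const_lt (half_lt_self hDn)
          rw [eventually_nhdsWithin_iff] at g3
          have g4 : Tendsto (fun z : ℂ => -s * arg (z / t)) (𝓝 t) (𝓝 0) := by
            have := (nb_arg hn).const_mul (-s)
            rwa [mul_zero] at this
          have g5 : ∀ᶠ l in 𝓝 q, l ∈ ball q (‖w - q‖ / 2) := Metric.ball_mem_nhds q hwq
          rw [nhds_prod_eq]
          filter_upwards [g2.prod_inr (𝓝 q), (g4.eventually g3).prod_inr (𝓝 q),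
            g5.prod_inl (𝓝 t)] with p hp hp' hpb h1 h2 h3
          have h4 := nb_arg_eq hn (mem_sphere_zero_iff_norm.2 h1)
          have h5 : arg (p.2 / t) ≠ 0 := by
            intro h0
            rw [h0, nb_E_zero, mul_one] at h4
            rw [← h4] at h2
            exact h2 ht
          have h6 : s * arg (p.2 / t) ≠ 0 := mul_ne_zero hs0 h5
          rcases lt_or_gt_of_ne h6 with h7 | h7
          · exfalso
            have h8 := hp' (mem_Ioi.2 (by linarith))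
            have h9 : -s * (-s * arg (p.2 / t)) = arg (p.2 / t) := by
              linear_combination (arg (p.2 / t)) * hs
            rw [h9, h4, h3] at h8
            have h10 : ‖p.1 - q‖ < ‖w - q‖ / 2 := by
              rw [← dist_eq_norm]
              exact hpb
            linarith
          · have h8 : s * arg (p.2 / t) ≤ d := by
              have h9 : |s * arg (p.2 / t)| = |arg (p.2 / t)| := by rw [abs_mul, hsabs, one_mul]
              rw [abs_of_pos h7] at h9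
              rw [h9]
              exact hp.le
            refine Or.inl ⟨s * arg (p.2 / t), ⟨h7.le, h8⟩, ?_⟩
            have h9 : s * (s * arg (p.2 / t)) = arg (p.2 / t) := by
              linear_combination (arg (p.2 / t)) * hs
            rw [a1' _ ⟨h7, h8⟩, h9, h4, h3]
        · have h1 := h.seg t ht z0 hF (Ne.symm htz)
          have h2 : q ≠ u z0 := fun h0 =>
            Set.disjoint_left.1 h1 hqseg (by rw [h0]; exact left_mem_segment ℝ _ _)
          have h3 : q ≠ v z0 := fun h0 =>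
            Set.disjoint_left.1 h1 hqseg (by rw [h0]; exact right_mem_segment ℝ _ _)
          obtain ⟨ρ, hρ, h4⟩ := near_FK hP hF h2 h3
          exact far hρ h4
      · have h1 : phi z0 ≠ q := fun h0 => h.sep t ht z0 hz0 hF (by rw [h0]; exact hqseg)
        obtain ⟨ρ, hρ, h4⟩ := near_regK hP hz0' hF h1
        exact far hρ h4
    have g2 : ∀ᶠ l in 𝓝 q, ∀ t' ∈ F, t' ≠ t → l ∉ segment ℝ (u t') (v t') := by
      rw [Finset.eventually_all]
      intro t' ht'
      by_cases hne : t' = t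
      · exact Filter.Eventually.of_forall fun _ h0 => absurd hne h0
      · have h1 := h.seg t ht t' ht' (Ne.symm hne)
        filter_upwards [(closed_seg (u t') (v t')).isOpen_compl.mem_nhds
          (Set.disjoint_left.1 h1 hqseg)] with l hl _
        exact hl
    have g3 : ∀ᶠ l in 𝓝 q, l ∈ ball q (d * ‖w - q‖) :=
      Metric.ball_mem_nhds q (mul_pos hd hDn)
    filter_upwards [g1, g2, g3] with l hl1 hl2 hl3
    constructor
    · rintro (⟨z, ⟨hz, hzF⟩, hzl⟩ | hl)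
      · exact hl1 z hz (mem_sphere_zero_iff_norm.1 hz) (fun h0 => hzF (Finset.mem_coe.2 h0)) hzl
      · obtain ⟨t', ht', hl'⟩ := mem_iUnion₂.1 hl
        by_cases hne : t' = t
        · rw [hne, hsegeq] at hl'
          obtain ⟨y, hy0, hy1, hy⟩ := mem_seg.1 hl'
          have h1 : l = k2 y := by rw [hy, hk2]
          have h2 : y * ‖w - q‖ < d * ‖w - q‖ := by
            rw [← n2 y hy0, ← h1, ← dist_eq_norm]
            exact hl3
          have h3 : y < d := lt_of_mul_lt_mul_right h2 hDn.le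
          exact Or.inr ⟨y, ⟨hy0, h3.le⟩, h1.symm⟩
        · exact absurd hl' (hl2 t' ht' hne)
    · rintro (⟨x, hx, rfl⟩ | ⟨x, hx, rfl⟩)
      · rcases hx.1.eq_or_lt with hx0 | hx0
        · rw [← hx0, z1]
          exact hsegK hqseg
        · rw [a1' x ⟨hx0, hx.2⟩]
          exact Or.inl ⟨_, ⟨nb_E_mem hn _, fun h0 => hF1 x ⟨hx0, hx.2⟩ (Finset.mem_coe.1 h0)⟩, rfl⟩
      · exact hsegK (hk2seg x hx)
  obtain ⟨A, B, hA, hB, hAK, hBK, hcov⟩ := two_radial hd (c1.mono i1) c2.continuousOn z1 z2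
    (m1.mono i1) (m2.mono i2) hdis hK
  have hb := memLp_cv hP
  have hix : ∀ l ∉ Gam phi F u v, ∃ n : ℤ, Ix phi l n := fun l hl => by
    obtain ⟨n, hn'⟩ := exists_wj hP hl
    exact ⟨n, wj_ix hP hn'⟩
  refine sides_of_key hb hix hA hB hAK hBK hcov fun N hN => ?_
  obtain ⟨N', hN', hN'o, hqN'⟩ := _root_.mem_nhds_iff.1 hN
  have h1 : Tendsto k2 (𝓝[>] 0) (𝓝 q) := by
    have h2 := c2.tendsto 0
    rw [z2] at h2
    exact h2.mono_left nhdsWithin_le_nhds
  have h4 : ∀ᶠ x : ℝ in 𝓝[>] 0, k2 x ∈ N' := h1.eventually (hN'o.mem_nhds hqN')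
  have h5 : ∀ᶠ x : ℝ in 𝓝[>] 0, x ∈ Ioo 0 1 := Ioo_mem_nhdsGT one_pos
  obtain ⟨y, hy1, hy2⟩ := (h4.and h5).exists
  obtain ⟨τ, hτ0, hτ1, hτ⟩ : ∃ τ : ℝ, 0 < τ ∧ τ < 1 ∧ k2 y = u t + τ * (v t - u t) := by
    rcases hcase with ⟨rfl, rfl⟩ | ⟨rfl, rfl⟩
    · exact ⟨y, hy2.1, hy2.2, hk2 y⟩
    · refine ⟨1 - y, by linarith [hy2.2], by linarith [hy2.1], ?_⟩
      rw [hk2]
      push_cast
      ring
  have h6 : N ∈ 𝓝 (u t + τ * (v t - u t)) := by
    rw [← hτ]
    exact Filter.mem_of_superset (hN'o.mem_nhds hy1) hN'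
  exact seg_keyK h ht huv hτ0 hτ1 h6

theorem sides_left (h : CCross phi F u v) (ht : t ∈ F) (hne : u t ≠ v t) :
    ∃ m : ℤ, Sides phi (Gam phi F u v) (u t) m := by
  refine side_endK h ht (s := -1) (Or.inr rfl) ?_ hne (Or.inl ⟨rfl, rfl⟩) ?_
  · simpa only [neg_one_mul] using h.toPwC.cv.lim_left t ht
  · simpa only [neg_neg, one_mul] using h.toPwC.cv.lim_right t ht

theorem sides_right (h : CCross phi F u v) (ht : t ∈ F) (hne : u t ≠ v t) :
    ∃ m : ℤ, Sides phi (Gam phi F u v) (v t) m := by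
  refine side_endK h ht (s := 1) (Or.inl rfl) ?_ hne.symm (Or.inr ⟨rfl, rfl⟩) ?_
  · simpa only [one_mul] using h.toPwC.cv.lim_right t ht
  · simpa only [neg_one_mul] using h.toPwC.cv.lim_left t ht

end Pool.Agent.TBirK
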