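import Pool.Agent.TBirK.Def
import Pool.Agent.TBirJ.Rdj
import Pool.Agent.TBirJ.Sdc

/-!
# Two radial arcs and the numbers

`sides_two`: the last part of the proof of `sides_corner` in TBirJ/Sdc.lean (from `two_radial` on), with `hkey` as a hypothesis. `arcK`: on the side `s` of the point `t = E x0` let `k x = phi (t * E (s * x))` for `x > 0`, `k 0 = a` (the one-sided limit). By `h.cone` (`‖w‖ ≤ 6 / 5`, so two vectors of the cone have positive inner product: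
each makes with `w` an angle `≤ arccos (5/6) < pi / 4`) the distance `‖k x - a‖` is strictly increasing (`k x - a` is in the closed cone and not zero for `x > 0`).
-/

set_option autoImplicit false

open MeasureTheory Complex Set Filter Topology Metric AddCircle
open scoped ComplexConjugate InnerProductSpace ENNReal

namespace Pool.Agent.TBirK

open Pool.Agent.TBir Pool.Agent.TBirG Pool.Agent.TBirC Pool.Agent.TBirJ
open Pool.Agent.TBirP (E qT)

theorem sides_two {phi : ℂ → ℂ} {K : Set ℂ} (hb : MemLp (fun x : UnitAddCircle => phi (e x)) ∞ mu0)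
    (hix : ∀ l ∉ K, ∃ n : ℤ, Ix phi l n) {q : ℂ} {k1 k2 : ℝ → ℂ} {d : ℝ} (hd : 0 < d)
    (c1 : ContinuousOn k1 (Icc 0 d)) (c2 : ContinuousOn k2 (Icc 0 d)) (z1 : k1 0 = q) (z2 : k2 0 = q)
    (m1 : StrictMonoOn (fun x => ‖k1 x - q‖) (Icc 0 d))
    (m2 : StrictMonoOn (fun x => ‖k2 x - q‖) (Icc 0 d))
    (hdis : ∀ x ∈ Icc 0 d, ∀ y ∈ Icc 0 d, k1 x = k2 y → x = 0 ∧ y = 0)
    (hK : ∀ᶠ l in 𝓝 q, l ∈ K ↔ l ∈ k1 '' Icc 0 d ∪ k2 '' Icc 0 d)
    (hkey : ∀ N ∈ 𝓝 q, ∃ (m : ℤ) (l1 l2 : ℂ), l1 ∈ N ∧ l2 ∈ N ∧ l1 ∉ K ∧ l2 ∉ K ∧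
      Ix phi l1 (m + 1) ∧ Ix phi l2 m) : ∃ m : ℤ, Sides phi K q m := by
  obtain ⟨A, B, hA, hB, hAK, hBK, hcov⟩ := two_radial hd c1 c2 z1 z2 m1 m2 hdis hK
  have hAc : ∀ l ∈ A, ∀ l' ∈ A, ∀ n, Ix phi l n → Ix phi l' n := fun l hl l' hl' n hln =>
    Ix.of_preconnected hb hA (fun w hw => hix w (hAK w hw)) hl hl' hln
  have hBc : ∀ l ∈ B, ∀ l' ∈ B, ∀ n, Ix phi l n → Ix phi l' n := fun l hl l' hl' n hln =>
    Ix.of_preconnected hb hB (fun w hw => hix w (hBK w hw)) hl hl' hln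
  have hsplit : ∀ N ∈ 𝓝 q, ∃ (m : ℤ) (l1 l2 : ℂ), l1 ∈ N ∧ l2 ∈ N ∧ Ix phi l1 (m + 1) ∧
      Ix phi l2 m ∧ ((l1 ∈ A ∧ l2 ∈ B) ∨ (l1 ∈ B ∧ l2 ∈ A)) := by
    intro N hN
    obtain ⟨m, l1, l2, hl1, hl2, hk1, hk2, hi1, hi2⟩ := hkey _ (inter_mem hN hcov)
    refine ⟨m, l1, l2, hl1.1, hl2.1, hi1, hi2, ?_⟩
    have f1 := hl1.2 hk1
    have f2 := hl2.2 hk2
    rcases f1 with f1 | f1 <;> rcases f2 with f2 | f2
    · exfalso
      have := Ix.unique (hAc l1 f1 l2 f2 _ hi1) hi2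
      omega
    · exact Or.inl ⟨f1, f2⟩
    · exact Or.inr ⟨f1, f2⟩
    · exfalso
      have := Ix.unique (hBc l1 f1 l2 f2 _ hi1) hi2
      omega
  have hcA : q ∈ closure A := by
    rw [mem_closure_iff_nhds]
    intro N hN
    obtain ⟨m, l1, l2, hl1, hl2, -, -, hc⟩ := hsplit N hN
    rcases hc with ⟨g1, g2⟩ | ⟨g1, g2⟩
    · exact ⟨l1, hl1, g1⟩
    · exact ⟨l2, hl2, g2⟩
  have hcB : q ∈ closure B := by
    rw [mem_closure_iff_nhds]
    intro N hN
    obtain ⟨m, l1, l2, hl1, hl2, -, -, hc⟩ := hsplit N hN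
    rcases hc with ⟨g1, g2⟩ | ⟨g1, g2⟩
    · exact ⟨l2, hl2, g2⟩
    · exact ⟨l1, hl1, g1⟩
  obtain ⟨m, l1, l2, -, -, hi1, hi2, hc⟩ := hsplit univ univ_mem
  rcases hc with ⟨g1, g2⟩ | ⟨g1, g2⟩
  · exact ⟨m, A, B, hA, hB, fun l hl => hAc l1 g1 l hl _ hi1, fun l hl => hBc l2 g2 l hl _ hi2,
      hcA, hcB, hcov⟩
  · exact ⟨m, B, A, hB, hA, fun l hl => hBc l1 g1 l hl _ hi1, fun l hl => hAc l2 g2 l hl _ hi2,
      hcB, hcA, hcov.mono fun l hl hlK => (hl hlK).symm⟩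

namespace Stk

/-- Two vectors of a narrow cone have a nonnegative inner product. -/
theorem cone_inner {w A V : ℂ} (hw : ‖w‖ ≤ 6 / 5) (hA : ‖A‖ ≤ (A * conj w).re)
    (hV : ‖V‖ ≤ (V * conj w).re) : 0 ≤ (A * conj V).re := by
  by_cases h0 : w = 0
  · rw [h0, map_zero, mul_zero, zero_re] at hA
    have h1 : A = 0 := norm_le_zero_iff.1 hA
    rw [h1, zero_mul, zero_re]
  have key : ∀ A : ℂ, ‖A‖ ≤ (A * conj w).re → |(A * conj w).im| ≤ (A * conj w).re := by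
    intro A hA
    have hp : 0 ≤ (A * conj w).re := (norm_nonneg A).trans hA
    refine abs_le_of_sq_le_sq ?_ hp
    have h1 : (A * conj w).re ^ 2 + (A * conj w).im ^ 2 = ‖A‖ ^ 2 * ‖w‖ ^ 2 := by
      have h2 := Complex.sq_norm (A * conj w)
      rw [norm_mul, Complex.norm_conj, mul_pow, Complex.normSq_apply] at h2
      rw [h2]
      ring
    have h2 : ‖A‖ ^ 2 ≤ (A * conj w).re ^ 2 := pow_le_pow_left₀ (norm_nonneg _) hA 2
    have h3 : ‖w‖ ^ 2 ≤ 36 / 25 := by nlinarith [norm_nonneg w]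
    have h4 : ‖A‖ ^ 2 * ‖w‖ ^ 2 ≤ (A * conj w).re ^ 2 * (36 / 25) :=
      mul_le_mul h2 h3 (sq_nonneg _) (sq_nonneg _)
    nlinarith [sq_nonneg (A * conj w).re]
  have hA' := key A hA
  have hV' := key V hV
  have e1 : (A * conj V).re * ‖w‖ ^ 2 =
      (A * conj w).re * (V * conj w).re + (A * conj w).im * (V * conj w).im := by
    rw [Complex.sq_norm, Complex.normSq_apply]
    simp only [Complex.mul_re, Complex.mul_im, Complex.conj_re, Complex.conj_im]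
    ring
  have hp : 0 ≤ (A * conj w).re := (norm_nonneg A).trans hA
  have h5 : |(A * conj w).im * (V * conj w).im| ≤ (A * conj w).re * (V * conj w).re := by
    rw [abs_mul]
    exact mul_le_mul hA' hV' (abs_nonneg _) hp
  have h6 : 0 ≤ (A * conj V).re * ‖w‖ ^ 2 := by
    rw [e1]
    linarith [(abs_le.1 h5).1]
  have h7 : 0 < ‖w‖ ^ 2 := by
    have := norm_pos_iff.2 h0
    positivity
  exact nonneg_of_mul_nonneg_left h6 h7

theorem norm_lt {w A V : ℂ} (hw : ‖w‖ ≤ 6 / 5) (hA : ‖A‖ ≤ (A * conj w).re)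
    (hV : ‖V‖ ≤ (V * conj w).re) (hV0 : V ≠ 0) : ‖A‖ < ‖A + V‖ := by
  have h1 := cone_inner hw hA hV
  have h2 : 0 < ‖V‖ := norm_pos_iff.2 hV0
  have h3 : ‖A + V‖ ^ 2 = ‖A‖ ^ 2 + ‖V‖ ^ 2 + 2 * (A * conj V).re := by
    rw [Complex.sq_norm, Complex.sq_norm, Complex.sq_norm, Complex.normSq_add]
  refine lt_of_pow_lt_pow_left₀ 2 (norm_nonneg _) ?_
  rw [h3]
  nlinarith

end Stk

theorem arcK {phi : ℂ → ℂ} {F : Finset ℂ} {u v : ℂ → ℂ} (h : Cv phi F u v) {t a : ℂ} (ht : ‖t‖ = 1)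
    {s : ℝ} (hs : s = 1 ∨ s = -1)
    (hl : Tendsto (fun x : ℝ => phi (t * E (s * x))) (𝓝[>] 0) (𝓝 a)) :
    ∃ (k : ℝ → ℂ) (d : ℝ), 0 < d ∧ ContinuousOn k (Icc 0 d) ∧ k 0 = a ∧
      StrictMonoOn (fun x => ‖k x - a‖) (Icc 0 d) ∧ ∀ x ∈ Ioc 0 d, k x = phi (t * E (s * x)) := by
  classical
  have hpi := Real.pi_gt_three
  have hE : Continuous E := by
    unfold E
    fun_prop
  have hE0 : E 0 = 1 := by
    unfold E
    simp
  have hnE : ∀ x : ℝ, ‖E x‖ = 1 := fun x => Complex.norm_exp_ofReal_mul_I x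
  have hsph : ∀ x : ℝ, t * E x ∈ sphere (0 : ℂ) 1 := by
    intro x
    rw [mem_sphere_zero_iff_norm, norm_mul, ht, hnE, one_mul]
  have hs1 : |s| = 1 := by rcases hs with rfl | rfl <;> simp
  have hs0 : s ≠ 0 := by
    rintro rfl
    rw [abs_zero] at hs1
    exact zero_ne_one hs1
  obtain ⟨x0, hx0⟩ : ∃ x0 : ℝ, E x0 = t := by
    refine ⟨arg t, ?_⟩
    have h1 := Complex.norm_mul_exp_arg_mul_I t
    rw [ht, ofReal_one, one_mul] at h1
    exact h1
  obtain ⟨p, hp⟩ : ∃ p : ℝ → ℂ, ∀ x, p x = phi (t * E (s * x)) := ⟨_, fun _ => rfl⟩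
  have hp' : ∀ x, p x = phi (E (x0 + s * x)) := by
    intro x
    rw [hp, TBirP.GrC.E_add, hx0]
  have hlp : Tendsto p (𝓝[>] 0) (𝓝 a) := hl.congr fun x => (hp x).symm
  obtain ⟨δ, hδ, w, hw, hcone⟩ := h.cone x0 s hs
  have hc : ∀ y z : ℝ, 0 < y → y < z → z ≤ δ →
      p z - p y ≠ 0 ∧ ‖p z - p y‖ ≤ ((p z - p y) * conj w).re := by
    intro y z hy hyz hz
    obtain ⟨h1, h2⟩ := hcone y z hy hyz hz
    rw [hp', hp']
    exact ⟨sub_ne_zero.2 (Ne.symm h1), h2⟩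
  -- the values at zero
  have hc0 : ∀ z : ℝ, 0 < z → z ≤ δ → ‖p z - a‖ ≤ ((p z - a) * conj w).re := by
    intro z hz hzd
    have h1 : Tendsto (fun y => ‖p z - p y‖) (𝓝[>] 0) (𝓝 ‖p z - a‖) :=
      (tendsto_const_nhds.sub hlp).norm
    have h2 : Tendsto (fun y => ((p z - p y) * conj w).re) (𝓝[>] 0)
        (𝓝 ((p z - a) * conj w).re) :=
      (Complex.continuous_re.tendsto _).comp ((tendsto_const_nhds.sub hlp).mul_const _)
    refine le_of_tendsto_of_tendsto h1 h2 ?_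
    filter_upwards [Ioo_mem_nhdsGT hz] with y hy
    exact (hc y z hy.1 hy.2 hzd).2
  have hn0 : ∀ z : ℝ, 0 < z → z ≤ δ → p z - a ≠ 0 := by
    intro z hz hzd h0
    have h1 := hc (z / 2) z (by positivity) (by linarith) hzd
    have h2 := hc0 (z / 2) (by positivity) (by linarith)
    have h3 : ((p z - a) * conj w).re =
        ((p z - p (z / 2)) * conj w).re + ((p (z / 2) - a) * conj w).re := by
      rw [← Complex.add_re, ← add_mul, sub_add_sub_cancel]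
    rw [h0, zero_mul, zero_re] at h3
    have h4 : 0 < ‖p z - p (z / 2)‖ := norm_pos_iff.2 h1.1
    linarith [h1.2, norm_nonneg (p (z / 2) - a)]
  -- no points of `F` on the arc
  obtain ⟨d2, hd2, hF⟩ : ∃ d2 : ℝ, 0 < d2 ∧ ∀ x ∈ Ioo 0 d2, t * E (s * x) ∉ F := by
    have g1 : ∀ᶠ z in 𝓝 t, z ∉ (F : Set ℂ) \ {t} := by
      have : ((F : Set ℂ) \ {t})ᶜ ∈ 𝓝 t :=
        (F.finite_toSet.subset sdiff_subset).isClosed.isOpen_compl.mem_nhds fun h3 => h3.2 rfl
      exact this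
    have g2 : Tendsto (fun x : ℝ => t * E (s * x)) (𝓝 0) (𝓝 t) := by
      have h1 : Continuous fun x : ℝ => t * E (s * x) :=
        continuous_const.mul (hE.comp (continuous_const.mul continuous_id))
      have := h1.tendsto 0
      rwa [mul_zero, hE0, mul_one] at this
    have g3 := g2.eventually g1
    rw [Metric.eventually_nhds_iff] at g3
    obtain ⟨ε, hε, g4⟩ := g3
    refine ⟨min ε 1, by positivity, fun x hx h0 => ?_⟩
    have hx1 : x < ε := hx.2.trans_le (min_le_left _ _)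
    have hx2 : x < 1 := hx.2.trans_le (min_le_right _ _)
    have g5 := g4 (y := x) (by rw [Real.dist_eq, sub_zero, abs_of_pos hx.1]; exact hx1)
    refine g5 ⟨Finset.mem_coe.2 h0, SdcAux.tE_ne ht (mul_ne_zero hs0 hx.1.ne') ?_⟩
    rw [abs_mul, hs1, one_mul, abs_of_pos hx.1]
    linarith
  have hpc : ∀ x ∈ Ioo 0 d2, ContinuousAt p x := by
    intro x hx
    have h1 : ContinuousOn (fun x : ℝ => phi (t * E (s * x))) (Ioo 0 d2) := by
      refine h.cont.comp (t := sphere 0 1 \ F) (f := fun x : ℝ => t * E (s * x)) ?_ ?_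
      · exact (continuous_const.mul (hE.comp (continuous_const.mul continuous_id))).continuousOn
      · intro y hy
        exact ⟨hsph _, fun h0 => hF y hy (Finset.mem_coe.1 h0)⟩
    have h2 : ContinuousOn p (Ioo 0 d2) := h1.congr fun y _ => hp y
    exact h2.continuousAt (Ioo_mem_nhds hx.1 hx.2)
  obtain ⟨d, hd, hdδ, hdd⟩ : ∃ d : ℝ, 0 < d ∧ d ≤ δ ∧ d < d2 := by
    refine ⟨min δ (d2 / 2), by positivity, min_le_left _ _, ?_⟩
    linarith [min_le_right δ (d2 / 2)]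
  have hkx : ∀ x : ℝ, 0 < x → Function.update p 0 a x = p x := fun x hx =>
    Function.update_of_ne hx.ne' _ _
  have hk0 : Function.update p 0 a 0 = a := Function.update_self _ _ _
  -- the cone condition for the closed arc
  have hcc : ∀ y z : ℝ, 0 ≤ y → y < z → z ≤ d →
      Function.update p 0 a z - Function.update p 0 a y ≠ 0 ∧
      ‖Function.update p 0 a z - Function.update p 0 a y‖ ≤
        ((Function.update p 0 a z - Function.update p 0 a y) * conj w).re := by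
    intro y z hy hyz hz
    have hz0 : 0 < z := hy.trans_lt hyz
    rcases hy.eq_or_lt with h1 | h1
    · rw [← h1, hk0, hkx z hz0]
      exact ⟨hn0 z hz0 (hz.trans hdδ), hc0 z hz0 (hz.trans hdδ)⟩
    · rw [hkx z hz0, hkx y h1]
      exact hc y z h1 hyz (hz.trans hdδ)
  refine ⟨Function.update p 0 a, d, hd, ?_, hk0, ?_, ?_⟩
  · intro x hx
    rcases hx.1.eq_or_lt with h1 | h1
    · rw [← h1]
      refine continuousWithinAt_update_same.2 (hlp.mono_left (nhdsWithin_mono _ ?_))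
      rintro y ⟨hy1, hy2⟩
      exact lt_of_le_of_ne hy1.1 (Ne.symm hy2)
    · have h2 := hpc x ⟨h1, hx.2.trans_lt hdd⟩
      exact ((continuousAt_update_of_ne h1.ne').2 h2).continuousWithinAt
  · intro x hx y hy hxy
    obtain ⟨h1, h2⟩ := hcc x y hx.1 hxy hy.2
    have h3 : ‖Function.update p 0 a x - a‖ ≤
        ((Function.update p 0 a x - a) * conj w).re := by
      rcases hx.1.eq_or_lt with h4 | h4
      · rw [← h4, hk0, sub_self, norm_zero, zero_mul, zero_re]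
      · have h5 := (hcc 0 x le_rfl h4 hx.2).2
        rwa [hk0] at h5
    have h6 := Stk.norm_lt hw h3 h2 h1
    have h7 : Function.update p 0 a x - a +
        (Function.update p 0 a y - Function.update p 0 a x) = Function.update p 0 a y - a := by
      ring
    rw [h7] at h6
    exact h6
  · intro x hx
    rw [hkx x hx.1, hp]

end Pool.Agent.TBirK
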